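import Mathlib

/-!
Polyominoes: basic library (fixed polyominoes, translation classes, normal forms).
-/

namespace Pool.Agent.Helper71.Polyomino

/-- The cells of the square lattice, a cell being given by its lower left corner. -/
abbrev Cell : Type := ℤ × ℤ

/-- Two cells are adjacent when they share an edge. -/
def cellGraph : SimpleGraph Cell where
  Adj p q := |p.1 - q.1| + |p.2 - q.2| = 1
  symm := ⟨by
    intro p q h
    rw [abs_sub_comm q.1 p.1, abs_sub_comm q.2 p.2]
    exact h⟩
  loopless := ⟨by intro p h; simp at h⟩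

/-- A finite set of cells is a polyomino if it is connected under edge-adjacency. -/
def IsPolyomino (S : Finset Cell) : Prop := (cellGraph.induce (S : Set Cell)).Connected

/-- The translate of a finite set of cells by the vector `v`. -/
def trans (v : Cell) (S : Finset Cell) : Finset Cell := S.map (addRightEmbedding v)

lemma mem_trans {v p : Cell} {S : Finset Cell} : p ∈ trans v S ↔ p - v ∈ S := by
  unfold trans
  simp only [Finset.mem_map, addRightEmbedding_apply]
  constructor
  · rintro ⟨a, ha, rfl⟩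
    simpa using ha
  · intro h
    exact ⟨p - v, h, by simp⟩

lemma card_trans (v : Cell) (S : Finset Cell) : (trans v S).card = S.card := by
  unfold trans; simp

lemma trans_zero (S : Finset Cell) : trans 0 S = S := by
  ext p; rw [mem_trans]; simp

lemma trans_trans (v w : Cell) (S : Finset Cell) : trans v (trans w S) = trans (v + w) S := by
  ext p; rw [mem_trans, mem_trans, mem_trans, sub_sub]

lemma trans_inj {v : Cell} {S S' : Finset Cell} (h : trans v S = trans v S') : S = S' := by
  have := congrArg (trans (-v)) h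
  rwa [trans_trans, trans_trans, neg_add_cancel, trans_zero, trans_zero] at this

lemma adj_iff {p q : Cell} : cellGraph.Adj p q ↔ |p.1 - q.1| + |p.2 - q.2| = 1 := Iff.rfl

lemma adj_iff_cases {p q : Cell} : cellGraph.Adj p q ↔
    (q.1 = p.1 + 1 ∧ q.2 = p.2) ∨ (q.1 = p.1 - 1 ∧ q.2 = p.2) ∨
    (q.1 = p.1 ∧ q.2 = p.2 + 1) ∨ (q.1 = p.1 ∧ q.2 = p.2 - 1) := by
  rw [adj_iff]
  constructor
  · intro h
    rcases abs_cases (p.1 - q.1) with ⟨h1, h2⟩ | ⟨h1, h2⟩ <;>
    rcases abs_cases (p.2 - q.2) with ⟨h3, h4⟩ | ⟨h3, h4⟩ <;> omega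
  · intro h
    rcases abs_cases (p.1 - q.1) with ⟨h1, h2⟩ | ⟨h1, h2⟩ <;>
    rcases abs_cases (p.2 - q.2) with ⟨h3, h4⟩ | ⟨h3, h4⟩ <;> omega

lemma adj_trans {p q v : Cell} : cellGraph.Adj (p - v) (q - v) ↔ cellGraph.Adj p q := by
  rw [adj_iff, adj_iff]; simp

/-- The cut criterion for connectedness. -/
def Conn (S : Finset Cell) : Prop :=
  S.Nonempty ∧ ∀ X ⊆ S, X.Nonempty → X ≠ S → ∃ a ∈ X, ∃ b ∈ S, b ∉ X ∧ cellGraph.Adj a b

lemma isPolyomino_iff (S : Finset Cell) : IsPolyomino S ↔ Conn S := by
  constructor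
  · intro h
    refine ⟨?_, ?_⟩
    · obtain ⟨⟨x, hx⟩⟩ := h.nonempty
      exact ⟨x, by simpa using hx⟩
    · intro X hX hne hneq
      obtain ⟨a, ha⟩ := hne
      obtain ⟨b, hbS, hbX⟩ : ∃ b ∈ S, b ∉ X := by
        by_contra hcon
        push Not at hcon
        exact hneq (Finset.Subset.antisymm hX hcon)
      obtain ⟨w⟩ := h.preconnected ⟨a, by simpa using hX ha⟩ ⟨b, by simpa using hbS⟩
      obtain ⟨d, -, hd1, hd2⟩ := w.exists_boundary_dart {x | (x : Cell) ∈ X} ha hbX
      refine ⟨d.fst, hd1, d.snd, by simpa using d.snd.2, hd2, ?_⟩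
      exact d.adj
  · rintro ⟨hne, hcut⟩
    obtain ⟨x, hx⟩ := hne
    classical
    have hx' : x ∈ (S : Set Cell) := by simpa using hx
    have key : ∀ y (hy : y ∈ (S : Set Cell)),
        (cellGraph.induce (S : Set Cell)).Reachable ⟨x, hx'⟩ ⟨y, hy⟩ := by
      by_contra hcon
      push Not at hcon
      obtain ⟨y, hy, hny⟩ := hcon
      let X : Finset Cell := S.filter (fun z => ∃ hz : z ∈ (S : Set Cell),
        (cellGraph.induce (S : Set Cell)).Reachable ⟨x, hx'⟩ ⟨z, hz⟩)
      have hXS : X ⊆ S := Finset.filter_subset _ _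
      have hxX : x ∈ X := by
        simp only [X, Finset.mem_filter]
        exact ⟨hx, hx', SimpleGraph.Reachable.refl _⟩
      have hyX : y ∉ X := by
        simp only [X, Finset.mem_filter, not_and, not_exists]
        intro _ _
        exact hny
      have hXne : X ≠ S := by
        intro h
        exact hyX (h ▸ (by simpa using hy))
      obtain ⟨a, haX, b, hbS, hbX, hadj⟩ := hcut X hXS ⟨x, hxX⟩ hXne
      simp only [X, Finset.mem_filter] at haX
      obtain ⟨haS, haS', hra⟩ := haX
      apply hbX
      simp only [X, Finset.mem_filter]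
      refine ⟨hbS, by simpa using hbS, hra.trans ?_⟩
      apply SimpleGraph.Adj.reachable
      exact hadj
    have : Nonempty ((S : Set Cell) : Type) := ⟨⟨x, hx'⟩⟩
    refine ⟨?_⟩
    rintro ⟨y, hy⟩ ⟨z, hz⟩
    exact (key y hy).symm.trans (key z hz)

lemma Conn.nonempty {S : Finset Cell} (h : Conn S) : S.Nonempty := h.1

/-- A connected set does not meet both sides of a separated pair. -/
lemma Conn.subset_or {S X Y : Finset Cell} (h : Conn S) (hS : ∀ p ∈ S, p ∈ X ∨ p ∈ Y)
    (hadj : ∀ a ∈ X, ∀ b ∈ Y, ¬ cellGraph.Adj a b) :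
    (S ⊆ X) ∨ (S ⊆ Y) := by
  classical
  by_cases h1 : (S ∩ X).Nonempty
  · left
    by_contra hcon
    have hne : S ∩ X ≠ S := by
      intro h2
      exact hcon (Finset.inter_eq_left.mp h2)
    obtain ⟨a, ha, b, hb, hbX, hab⟩ := h.2 (S ∩ X) Finset.inter_subset_left h1 hne
    rw [Finset.mem_inter] at ha hbX
    have hbX' : b ∉ X := fun h3 => hbX ⟨hb, h3⟩
    exact hadj a ha.2 b ((hS b hb).resolve_left hbX') hab
  · right
    intro p hp
    refine (hS p hp).resolve_left ?_
    intro h3
    exact h1 ⟨p, Finset.mem_inter.mpr ⟨hp, h3⟩⟩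

lemma conn_singleton (p : Cell) : Conn {p} := by
  refine ⟨⟨p, by simp⟩, ?_⟩
  intro X hX hne hneq
  exfalso
  apply hneq
  obtain ⟨x, hx⟩ := hne
  have := hX hx
  rw [Finset.mem_singleton] at this
  subst this
  exact Finset.Subset.antisymm hX (by simpa using hx)

/-- Union of two connected sets which are linked by an adjacency. -/
lemma Conn.union {A B : Finset Cell} (hA : Conn A) (hB : Conn B)
    (h : ∃ a ∈ A, ∃ b ∈ B, a = b ∨ cellGraph.Adj a b) : Conn (A ∪ B) := by
  classical
  refine ⟨hA.1.mono Finset.subset_union_left, ?_⟩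
  intro X hX hne hneq
  by_contra hcon
  push Not at hcon
  -- `X ∩ A` is empty or `A`
  have hsideA : A ⊆ X ∨ Disjoint A X := by
    by_cases h1 : (A ∩ X).Nonempty
    · left
      by_contra h2
      have h3 : A ∩ X ≠ A := fun h4 => h2 (Finset.inter_eq_left.mp h4)
      obtain ⟨a, ha, b, hb, hbX, hab⟩ := hA.2 (A ∩ X) Finset.inter_subset_left h1 h3
      rw [Finset.mem_inter] at ha hbX
      exact hcon a ha.2 b (Finset.mem_union_left _ hb) (fun h4 => hbX ⟨hb, h4⟩) hab
    · right
      rw [Finset.disjoint_iff_inter_eq_empty]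
      exact Finset.not_nonempty_iff_eq_empty.mp h1
  have hsideB : B ⊆ X ∨ Disjoint B X := by
    by_cases h1 : (B ∩ X).Nonempty
    · left
      by_contra h2
      have h3 : B ∩ X ≠ B := fun h4 => h2 (Finset.inter_eq_left.mp h4)
      obtain ⟨a, ha, b, hb, hbX, hab⟩ := hB.2 (B ∩ X) Finset.inter_subset_left h1 h3
      rw [Finset.mem_inter] at ha hbX
      exact hcon a ha.2 b (Finset.mem_union_right _ hb) (fun h4 => hbX ⟨hb, h4⟩) hab
    · right
      rw [Finset.disjoint_iff_inter_eq_empty]
      exact Finset.not_nonempty_iff_eq_empty.mp h1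
  obtain ⟨a, ha, b, hb, hab⟩ := h
  rcases hsideA with hA1 | hA1 <;> rcases hsideB with hB1 | hB1
  · exact hneq (Finset.Subset.antisymm hX (Finset.union_subset hA1 hB1))
  · have hbX : b ∉ X := Finset.disjoint_left.mp hB1 hb
    rcases hab with rfl | hab
    · exact hbX (hA1 ha)
    · exact hcon a (hA1 ha) b (Finset.mem_union_right _ hb) hbX hab
  · have haX : a ∉ X := Finset.disjoint_left.mp hA1 ha
    rcases hab with rfl | hab
    · exact haX (hB1 hb)
    · exact hcon b (hB1 hb) a (Finset.mem_union_left _ ha) haX hab.symm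
  · obtain ⟨x, hx⟩ := hne
    rcases Finset.mem_union.mp (hX hx) with h1 | h1
    · exact Finset.disjoint_left.mp hA1 h1 hx
    · exact Finset.disjoint_left.mp hB1 h1 hx

lemma Conn.trans {S : Finset Cell} (h : Conn S) (v : Cell) : Conn (trans v S) := by
  refine ⟨?_, ?_⟩
  · obtain ⟨x, hx⟩ := h.1
    exact ⟨x + v, by rw [mem_trans]; simpa using hx⟩
  · intro X hX hne hneq
    obtain ⟨a, ha, b, hb, hbX, hab⟩ := h.2 (Polyomino.trans (-v) X) (by
        intro p hp
        rw [mem_trans] at hp
        have := hX hp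
        rw [mem_trans] at this
        simpa using this) (by
        obtain ⟨x, hx⟩ := hne
        exact ⟨x - v, by rw [mem_trans]; simpa using hx⟩) (by
        intro h1
        apply hneq
        rw [← h1, trans_trans, add_neg_cancel, trans_zero])
    rw [mem_trans] at ha hbX
    refine ⟨a - -v, ha, b - -v, by rw [mem_trans]; simpa using hb, hbX, ?_⟩
    rwa [adj_trans]

/-- `p` is the base point of `S`: its lowest row, leftmost in that row. -/
def IsBase (S : Finset Cell) (p : Cell) : Prop :=
  p ∈ S ∧ ∀ q ∈ S, p.2 < q.2 ∨ (p.2 = q.2 ∧ p.1 ≤ q.1)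

lemma exists_isBase {S : Finset Cell} (h : S.Nonempty) : ∃ p, IsBase S p := by
  classical
  obtain ⟨q, hq, hqmin⟩ := S.exists_min_image (fun p => p.2) h
  obtain ⟨p, hp, hpmin⟩ := (S.filter (fun p => p.2 = q.2)).exists_min_image (fun p => p.1)
    ⟨q, by simp [hq]⟩
  rw [Finset.mem_filter] at hp
  refine ⟨p, hp.1, ?_⟩
  intro r hr
  have h1 := hqmin r hr
  rcases lt_or_eq_of_le h1 with h2 | h2
  · left; rw [hp.2]; exact h2
  · right
    exact ⟨by rw [hp.2]; exact h2, hpmin r (by rw [Finset.mem_filter]; exact ⟨hr, h2.symm⟩)⟩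

lemma IsBase.unique {S : Finset Cell} {p q : Cell} (hp : IsBase S p) (hq : IsBase S q) :
    p = q := by
  have h1 := hp.2 q hq.1
  have h2 := hq.2 p hp.1
  exact Prod.ext (by omega) (by omega)

lemma IsBase.trans {S : Finset Cell} {p : Cell} (hp : IsBase S p) (v : Cell) :
    IsBase (Polyomino.trans v S) (p + v) := by
  refine ⟨by rw [mem_trans]; simpa using hp.1, ?_⟩
  intro q hq
  rw [mem_trans] at hq
  have := hp.2 _ hq
  simp only [Prod.fst_sub, Prod.snd_sub, Prod.fst_add, Prod.snd_add] at this ⊢
  omega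

/-- The normalised polyominoes with `n` cells. -/
def NSet (n : ℕ) : Set (Finset Cell) := {S | S.card = n ∧ Conn S ∧ IsBase S 0}

lemma dist_lt {S : Finset Cell} (h : Conn S) (h0 : (0 : Cell) ∈ S) :
    ∀ p ∈ S, |p.1| + |p.2| < (S.card : ℤ) := by
  classical
  intro p hp
  by_contra hcon
  push Not at hcon
  -- every distance from 0 to `card S` is attained
  have key : ∀ k ∈ Finset.range (S.card + 1), ∃ q ∈ S, |q.1| + |q.2| = (k : ℤ) := by
    intro k hk
    rw [Finset.mem_range] at hk
    by_contra hno
    push Not at hno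
    have hk0 : k ≠ 0 := by
      rintro rfl
      exact hno 0 h0 (by simp)
    obtain ⟨a, ha, b, hb, hbX, hab⟩ := h.2 (S.filter (fun q => |q.1| + |q.2| < (k : ℤ)))
      (Finset.filter_subset _ _) ⟨0, by
        rw [Finset.mem_filter]
        refine ⟨h0, ?_⟩
        simp only [Prod.fst_zero, Prod.snd_zero, abs_zero, add_zero]
        omega⟩ (by
        intro h1
        have h2 : p ∈ S.filter (fun q => |q.1| + |q.2| < (k : ℤ)) := by rw [h1]; exact hp
        rw [Finset.mem_filter] at h2
        omega)
    rw [Finset.mem_filter] at ha hbX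
    have hbk := hno b hb
    have hbX' : ¬ (|b.1| + |b.2| < (k : ℤ)) := fun h3 => hbX ⟨hb, h3⟩
    have ha2 := ha.2
    rw [adj_iff] at hab
    have t1 : |b.1| ≤ |a.1| + |a.1 - b.1| := by
      rcases abs_cases b.1 with h1 | h1 <;> rcases abs_cases a.1 with h2 | h2 <;>
      rcases abs_cases (a.1 - b.1) with h3 | h3 <;> omega
    have t2 : |b.2| ≤ |a.2| + |a.2 - b.2| := by
      rcases abs_cases b.2 with h1 | h1 <;> rcases abs_cases a.2 with h2 | h2 <;>
      rcases abs_cases (a.2 - b.2) with h3 | h3 <;> omega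
    omega
  choose! f hf1 hf2 using key
  have hcard : (Finset.range (S.card + 1)).card ≤ S.card := by
    apply Finset.card_le_card_of_injOn f
    · intro k hk; exact hf1 k hk
    · intro k hk l hl hkl
      have h1 := hf2 k hk
      have h2 := hf2 l hl
      have hkl' : f k = f l := hkl
      rw [hkl'] at h1
      have : (k : ℤ) = l := by rw [← h1, ← h2]
      exact_mod_cast this
  rw [Finset.card_range] at hcard
  omega

lemma nset_finite (n : ℕ) : (NSet n).Finite := by
  classical
  apply Set.Finite.subset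
    (Finset.finite_toSet ((Finset.Icc (-(n : ℤ)) n ×ˢ Finset.Icc (-(n : ℤ)) n).powerset))
  intro S hS
  obtain ⟨hc, hconn, hb⟩ := hS
  simp only [Finset.coe_powerset, Set.mem_preimage, Set.mem_powerset_iff, Finset.coe_subset]
  intro p hp
  have := dist_lt hconn hb.1 p hp
  rw [hc] at this
  rw [Finset.mem_product, Finset.mem_Icc, Finset.mem_Icc]
  rcases abs_cases p.1 with h1 | h1 <;> rcases abs_cases p.2 with h2 | h2 <;> omega

/-- The polyominoes with `n` cells. -/
abbrev Omino (n : ℕ) : Type := {S : Finset Cell // S.card = n ∧ IsPolyomino S}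

/-- Two polyominoes with `n` cells are identified when one is a translate of the other. -/
def translationSetoid (n : ℕ) : Setoid (Omino n) where
  r S S' := ∃ v : Cell, S'.1 = trans v S.1
  iseqv :=
    { refl := fun S => ⟨0, (trans_zero S.1).symm⟩
      symm := by
        rintro S S' ⟨v, hv⟩
        exact ⟨-v, by rw [hv, trans_trans, neg_add_cancel, trans_zero]⟩
      trans := by
        rintro S S' S'' ⟨v, hv⟩ ⟨w, hw⟩
        exact ⟨w + v, by rw [hw, hv, trans_trans]⟩ }

/-- The number `t(n)` of fixed polyominoes with `n` cells, that is, the number of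
translation classes of polyominoes with `n` cells. -/
noncomputable def t (n : ℕ) : ℕ := Nat.card (Quotient (translationSetoid n))

/-- The finite set of normalised polyominoes with `n` cells. -/
noncomputable def Nf (n : ℕ) : Finset (Finset Cell) := (nset_finite n).toFinset

lemma mem_Nf {n : ℕ} {S : Finset Cell} : S ∈ Nf n ↔ S.card = n ∧ Conn S ∧ IsBase S 0 := by
  unfold Nf
  rw [Set.Finite.mem_toFinset]
  rfl

/-- The base point of a nonempty set. -/
noncomputable def base (S : Finset Cell) : Cell := by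
  classical
  exact if h : ∃ p, IsBase S p then h.choose else 0

lemma base_spec {S : Finset Cell} (h : S.Nonempty) : IsBase S (base S) := by
  unfold base
  have h' := exists_isBase h
  rw [dif_pos h']
  exact h'.choose_spec

/-- The normal form of a set. -/
noncomputable def nrm (S : Finset Cell) : Finset Cell := trans (-(base S)) S

lemma nrm_mem {n : ℕ} {S : Finset Cell} (hc : S.card = n) (h : Conn S) : nrm S ∈ Nf n := by
  rw [mem_Nf]
  refine ⟨by unfold nrm; rw [card_trans, hc], h.trans _, ?_⟩
  have := (base_spec h.1).trans (-(base S))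
  rw [add_neg_cancel] at this
  exact this

lemma t_eq (n : ℕ) : t n = (Nf n).card := by
  have e : Quotient (translationSetoid n) ≃ {S // S ∈ Nf n} := by
    symm
    apply Equiv.ofBijective (fun S : {S // S ∈ Nf n} =>
      (Quotient.mk (translationSetoid n) ⟨S.1, (mem_Nf.mp S.2).1,
        (isPolyomino_iff _).mpr (mem_Nf.mp S.2).2.1⟩))
    constructor
    · intro S S' h
      obtain ⟨v, hv⟩ := Quotient.exact h
      have h1 := (mem_Nf.mp S.2).2.2
      have h2 := (mem_Nf.mp S'.2).2.2
      simp only at hv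
      have h3 := h1.trans v
      rw [← hv] at h3
      have h4 := h2.unique h3
      rw [zero_add] at h4
      subst h4
      rw [trans_zero] at hv
      exact Subtype.ext hv.symm
    · intro q
      induction q using Quotient.inductionOn with
      | h S =>
        refine ⟨⟨nrm S.1, nrm_mem S.2.1 ((isPolyomino_iff _).mp S.2.2)⟩, ?_⟩
        apply Quotient.sound
        refine ⟨base S.1, ?_⟩
        simp only [nrm]
        rw [trans_trans, add_neg_cancel, trans_zero]
  unfold t
  rw [Nat.card_congr e]
  simp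

end Pool.Agent.Helper71.Polyomino
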