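import Mathlib
import Pool.Agent.Helper71.Polyomino

/-!
The number of fixed polyominoes is a primitive recursive function.
-/

namespace Pool.Agent.Helper71.Polyomino

open Primrec

/-! ### Closure lemmas -/

section closure

variable {α : Type} [Primcodable α]

lemma prim_pow : Primrec₂ (fun a b : ℕ => a ^ b) := Primrec₂.unpaired'.1 Nat.Primrec.pow

lemma pp_forall {f : α → ℕ} {p : α → ℕ → Prop} (hf : Primrec f)
    (hp : PrimrecPred (fun z : α × ℕ => p z.1 z.2)) : PrimrecPred fun a => ∀ x < f a, p a x := by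
  have h1 : PrimrecRel (fun (x : ℕ) (a : α) => p a x) := hp.comp (Primrec.pair snd fst)
  exact (h1.forall_mem_list.comp (list_range.comp hf) Primrec.id).of_eq (by simp)

lemma pp_exists {f : α → ℕ} {p : α → ℕ → Prop} (hf : Primrec f)
    (hp : PrimrecPred (fun z : α × ℕ => p z.1 z.2)) : PrimrecPred fun a => ∃ x < f a, p a x := by
  have h1 : PrimrecRel (fun (x : ℕ) (a : α) => p a x) := hp.comp (Primrec.pair snd fst)
  exact (h1.exists_mem_list.comp (list_range.comp hf) Primrec.id).of_eq (by simp)

lemma pp_imp {p q : α → Prop} (hp : PrimrecPred p) (hq : PrimrecPred q) :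
    PrimrecPred fun a => (p a → q a) :=
  (hp.not.or hq).of_eq (fun a => by tauto)

/-- The number of `x < b` with `p x`. -/
noncomputable def cnt (b : ℕ) (p : ℕ → Prop) : ℕ := by
  classical
  exact ((List.range b).filter (fun x => p x)).length

lemma prim_cnt {f : α → ℕ} {p : α → ℕ → Prop} (hf : Primrec f)
    (hp : PrimrecPred (fun z : α × ℕ => p z.1 z.2)) : Primrec fun a => cnt (f a) (p a) := by
  classical
  have h1 : PrimrecRel (fun (x : ℕ) (a : α) => p a x) := hp.comp (Primrec.pair snd fst)
  have h2 := list_length.comp (h1.listFilter.comp (list_range.comp hf) Primrec.id)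
  exact h2

lemma cnt_eq (b : ℕ) (p : ℕ → Prop) [DecidablePred p] :
    cnt b p = ((Finset.range b).filter p).card := by
  classical
  unfold cnt
  rw [Finset.card_def, Finset.filter_val, Finset.range_val]
  simp only [Multiset.range, Multiset.filter_coe, Multiset.coe_card]
  congr 1
  apply List.filter_congr
  intro x _
  simp

end closure

/-! ### Masks -/

/-- The `i`-th binary digit of `m` is one. -/
def Bit (i m : ℕ) : Prop := m / 2 ^ i % 2 = 1

/-- Adjacency of cell indices, rows having width `w`. -/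
def AdjIdx (w i j : ℕ) : Prop :=
  (i / w = j / w ∧ (i % w + 1 = j % w ∨ j % w + 1 = i % w)) ∨
  (i % w = j % w ∧ (i / w + 1 = j / w ∨ j / w + 1 = i / w))

/-- The cut criterion for the set of cells coded by `m`. -/
def ConnMask (w b m : ℕ) : Prop :=
  m ≠ 0 ∧ ∀ x < m, (x ≠ 0 ∧ ∀ i < b, (Bit i x → Bit i m)) →
    ∃ i < b, ∃ j < b, Bit i x ∧ Bit j m ∧ ¬ Bit j x ∧ AdjIdx w i j

/-- The set of cells coded by `m` is a normalised polyomino with `n` cells. -/
def Good (n m : ℕ) : Prop :=
  cnt ((2 * n + 1) * (n + 1)) (fun i => Bit i m) = n ∧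
  ConnMask (2 * n + 1) ((2 * n + 1) * (n + 1)) m ∧ Bit n m ∧
  ∀ i < (2 * n + 1) * (n + 1), (Bit i m → (0 < i / (2 * n + 1) ∨ n ≤ i % (2 * n + 1)))

section prim

variable {α : Type} [Primcodable α]

lemma pp_bit {f g : α → ℕ} (hf : Primrec f) (hg : Primrec g) :
    PrimrecPred fun a => Bit (f a) (g a) :=
  Primrec.eq.comp (nat_mod.comp (nat_div.comp hg (prim_pow.comp (Primrec.const 2) hf))
    (Primrec.const 2)) (Primrec.const 1)

lemma pp_adj {w f g : α → ℕ} (hw : Primrec w) (hf : Primrec f) (hg : Primrec g) :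
    PrimrecPred fun a => AdjIdx (w a) (f a) (g a) := by
  have d1 := nat_div.comp hf hw
  have d2 := nat_div.comp hg hw
  have m1 := nat_mod.comp hf hw
  have m2 := nat_mod.comp hg hw
  have s1 := succ.comp m1
  have s2 := succ.comp m2
  have s3 := succ.comp d1
  have s4 := succ.comp d2
  exact ((Primrec.eq.comp d1 d2).and ((Primrec.eq.comp s1 m2).or (Primrec.eq.comp s2 m1))).or
    ((Primrec.eq.comp m1 m2).and ((Primrec.eq.comp s3 d2).or (Primrec.eq.comp s4 d1)))

lemma pp_conn {w b m : α → ℕ} (hw : Primrec w) (hb : Primrec b) (hm : Primrec m) :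
    PrimrecPred fun a => ConnMask (w a) (b a) (m a) := by
  unfold ConnMask
  refine (Primrec.eq.comp hm (Primrec.const 0)).not.and ?_
  refine pp_forall hm ?_
  -- context `α × ℕ`, `x = snd`
  refine pp_imp ?_ ?_
  · refine (Primrec.eq.comp snd (Primrec.const 0)).not.and ?_
    refine pp_forall (hb.comp fst) ?_
    exact pp_imp (pp_bit snd (snd.comp fst)) (pp_bit snd (hm.comp (fst.comp fst)))
  · refine pp_exists (hb.comp fst) ?_
    refine pp_exists (hb.comp (fst.comp fst)) ?_
    -- context `((α × ℕ) × ℕ) × ℕ`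
    refine (pp_bit (snd.comp fst) (snd.comp (fst.comp fst))).and ?_
    refine (pp_bit snd (hm.comp (fst.comp (fst.comp fst)))).and ?_
    refine (pp_bit snd (snd.comp (fst.comp fst))).not.and ?_
    exact pp_adj (hw.comp (fst.comp (fst.comp fst))) (snd.comp fst) snd

lemma prim_w : Primrec fun n : ℕ => 2 * n + 1 := nat_double_succ

lemma prim_b : Primrec fun n : ℕ => (2 * n + 1) * (n + 1) := nat_mul.comp prim_w succ

lemma pp_good : PrimrecPred fun z : ℕ × ℕ => Good z.1 z.2 := by
  unfold Good
  have hb : Primrec fun z : ℕ × ℕ => (2 * z.1 + 1) * (z.1 + 1) := prim_b.comp fst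
  have hw : Primrec fun z : ℕ × ℕ => 2 * z.1 + 1 := prim_w.comp fst
  refine (Primrec.eq.comp (prim_cnt hb (pp_bit snd (snd.comp fst))) fst).and ?_
  refine (pp_conn hw hb snd).and ?_
  refine (pp_bit fst snd).and ?_
  refine pp_forall hb ?_
  refine pp_imp (pp_bit snd (snd.comp fst)) ?_
  refine (nat_lt.comp (Primrec.const 0) (nat_div.comp snd (hw.comp fst))).or ?_
  exact nat_le.comp (fst.comp fst) (nat_mod.comp snd (hw.comp fst))

/-- The algorithm: count the good masks. -/
noncomputable def tc (n : ℕ) : ℕ := cnt (2 ^ ((2 * n + 1) * (n + 1))) (Good n)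

lemma prim_tc : Primrec tc :=
  prim_cnt (prim_pow.comp (Primrec.const 2) prim_b) pp_good

end prim

/-! ### Correctness -/

lemma bit_iff (i m : ℕ) : Bit i m ↔ m.testBit i = true := by
  unfold Bit
  rw [Nat.testBit_eq_decide_div_mod_eq]
  simp

/-- The set of binary digits. -/
def bs (m : ℕ) : Finset ℕ := Finset.equivBitIndices m

lemma mem_bs {i m : ℕ} : i ∈ bs m ↔ Bit i m := by
  unfold bs
  rw [Finset.equivBitIndices_apply, List.mem_toFinset, Nat.mem_bitIndices, bit_iff]

lemma bs_inj {m m' : ℕ} (h : bs m = bs m') : m = m' := Finset.equivBitIndices.injective h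

/-- The number with given set of binary digits. -/
def mk (I : Finset ℕ) : ℕ := Finset.equivBitIndices.symm I

lemma bs_mk (I : Finset ℕ) : bs (mk I) = I := Finset.equivBitIndices.apply_symm_apply I

lemma mk_bs (m : ℕ) : mk (bs m) = m := Finset.equivBitIndices.symm_apply_apply m

lemma mk_eq (I : Finset ℕ) : mk I = ∑ i ∈ I, 2 ^ i := rfl

lemma mk_lt {I J : Finset ℕ} (h : J ⊆ I) (hne : J ≠ I) : mk J < mk I := by
  rw [mk_eq, mk_eq]
  obtain ⟨i, hi, hiJ⟩ : ∃ i ∈ I, i ∉ J := by
    by_contra hcon
    push Not at hcon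
    exact hne (Finset.Subset.antisymm h hcon)
  exact Finset.sum_lt_sum_of_subset h hi hiJ (by positivity) (fun _ _ _ => by positivity)

lemma bs_subset_iff {b m : ℕ} : bs m ⊆ Finset.range b ↔ m < 2 ^ b := by
  constructor
  · intro h
    rw [← mk_bs m, mk_eq]
    calc ∑ i ∈ bs m, 2 ^ i ≤ ∑ i ∈ Finset.range b, 2 ^ i :=
          Finset.sum_le_sum_of_subset h
      _ < 2 ^ b := by
          have := Nat.geomSum_lt (m := 2) (n := b) (s := Finset.range b) (le_refl _)
            (fun k hk => Finset.mem_range.mp hk)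
          exact this
  · intro h i hi
    rw [Finset.mem_range]
    unfold bs at hi
    rw [Finset.equivBitIndices_apply, List.mem_toFinset] at hi
    have h1 := Nat.two_pow_le_of_mem_bitIndices hi
    exact (Nat.pow_lt_pow_iff_right (by norm_num)).mp (lt_of_le_of_lt h1 h)

/-- The cell with index `i`. -/
def cellOf (n i : ℕ) : Cell := (((i % (2 * n + 1) : ℕ) : ℤ) - n, ((i / (2 * n + 1) : ℕ) : ℤ))

lemma cellOf_inj (n : ℕ) : Function.Injective (cellOf n) := by
  intro i j h
  unfold cellOf at h
  rw [Prod.ext_iff] at h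
  simp only at h
  have h1 : i % (2 * n + 1) = j % (2 * n + 1) := by omega
  have h2 : i / (2 * n + 1) = j / (2 * n + 1) := by omega
  rw [← Nat.mod_add_div i (2 * n + 1), ← Nat.mod_add_div j (2 * n + 1), h1, h2]

lemma adjIdx_iff (n i j : ℕ) :
    AdjIdx (2 * n + 1) i j ↔ cellGraph.Adj (cellOf n i) (cellOf n j) := by
  rw [adj_iff_cases]
  unfold AdjIdx cellOf
  generalize i % (2 * n + 1) = a
  generalize i / (2 * n + 1) = b
  generalize j % (2 * n + 1) = c
  generalize j / (2 * n + 1) = d
  simp only
  omega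

lemma exists_idx {n : ℕ} {p : Cell} (h1 : |p.1| ≤ n) (h2 : 0 ≤ p.2) (h3 : p.2 ≤ n) :
    ∃ i < (2 * n + 1) * (n + 1), cellOf n i = p := by
  refine ⟨(p.1 + n).toNat + (2 * n + 1) * p.2.toNat, ?_, ?_⟩
  · have a1 : (p.1 + n).toNat < 2 * n + 1 := by
      rcases abs_cases p.1 with h | h <;> omega
    have a2 : p.2.toNat ≤ n := by omega
    have a3 : (2 * n + 1) * p.2.toNat ≤ (2 * n + 1) * n := Nat.mul_le_mul_left _ a2
    have a4 : (2 * n + 1) * (n + 1) = (2 * n + 1) * n + (2 * n + 1) := by ring
    omega
  · have a1 : (p.1 + n).toNat < 2 * n + 1 := by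
      rcases abs_cases p.1 with h | h <;> omega
    have a5 : 0 ≤ p.1 + n := by
      rcases abs_cases p.1 with h | h <;> omega
    unfold cellOf
    rw [Nat.add_mul_mod_self_left, Nat.mod_eq_of_lt a1, Nat.add_mul_div_left _ _ (by omega),
      Nat.div_eq_of_lt a1]
    ext
    · simp only; omega
    · simp only; omega

lemma origin_idx (n : ℕ) : cellOf n n = 0 := by
  unfold cellOf
  rw [Nat.mod_eq_of_lt (by omega), Nat.div_eq_of_lt (by omega)]
  simp

/-- The set of cells coded by `m`. -/
def cells (n m : ℕ) : Finset Cell := (bs m).image (cellOf n)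

lemma mem_cells {n m i : ℕ} : cellOf n i ∈ cells n m ↔ Bit i m := by
  unfold cells
  rw [Finset.mem_image]
  constructor
  · rintro ⟨j, hj, hji⟩
    rw [← cellOf_inj n hji]
    exact mem_bs.mp hj
  · intro h
    exact ⟨i, mem_bs.mpr h, rfl⟩

lemma mem_cells_exists {n m : ℕ} {p : Cell} (h : p ∈ cells n m) :
    ∃ i, Bit i m ∧ cellOf n i = p := by
  unfold cells at h
  rw [Finset.mem_image] at h
  obtain ⟨i, hi, hip⟩ := h
  exact ⟨i, mem_bs.mp hi, hip⟩

lemma card_cells (n m : ℕ) : (cells n m).card = (bs m).card :=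
  Finset.card_image_of_injective _ (cellOf_inj n)

lemma cells_inj {n m m' : ℕ} (h : cells n m = cells n m') : m = m' := by
  apply bs_inj
  ext i
  rw [mem_bs, mem_bs, ← mem_cells (n := n), ← mem_cells (n := n), h]

lemma connMask_iff {n b m : ℕ} (hm : m < 2 ^ b) :
    ConnMask (2 * n + 1) b m ↔ Conn (cells n m) := by
  classical
  have hlt : ∀ x ≤ m, ∀ i, Bit i x → i < b := by
    intro x hx i hi
    have h1 : bs x ⊆ Finset.range b := bs_subset_iff.mpr (lt_of_le_of_lt hx hm)
    exact Finset.mem_range.mp (h1 (mem_bs.mpr hi))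
  constructor
  · rintro ⟨hm0, hcut⟩
    constructor
    · by_contra hcon
      rw [Finset.not_nonempty_iff_eq_empty] at hcon
      unfold cells at hcon
      rw [Finset.image_eq_empty] at hcon
      apply hm0
      rw [← mk_bs m, hcon]
      rfl
    · intro X hX hXne hXneq
      let J : Finset ℕ := (bs m).filter (fun i => cellOf n i ∈ X)
      have hJ : J ⊆ bs m := Finset.filter_subset _ _
      have hJX : ∀ i, Bit i (mk J) ↔ (Bit i m ∧ cellOf n i ∈ X) := by
        intro i
        rw [← mem_bs, bs_mk, Finset.mem_filter, mem_bs]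
      have hJne : J ≠ bs m := by
        intro h1
        apply hXneq
        apply Finset.Subset.antisymm hX
        intro p hp
        obtain ⟨i, hi, rfl⟩ := mem_cells_exists hp
        have h2 : i ∈ J := by rw [h1]; exact mem_bs.mpr hi
        exact (Finset.mem_filter.mp h2).2
      have h1 : mk J < m := by
        have := mk_lt hJ hJne
        rwa [mk_bs] at this
      have h2 : mk J ≠ 0 := by
        intro h3
        obtain ⟨p, hp⟩ := hXne
        obtain ⟨i, hi, rfl⟩ := mem_cells_exists (hX hp)
        have h4 := (hJX i).mpr ⟨hi, hp⟩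
        rw [h3] at h4
        unfold Bit at h4
        simp at h4
      obtain ⟨i, -, j, -, hix, hjm, hjx, hadj⟩ := hcut (mk J) h1
        ⟨h2, fun i _ hi => ((hJX i).mp hi).1⟩
      refine ⟨cellOf n i, ((hJX i).mp hix).2, cellOf n j, mem_cells.mpr hjm, ?_,
        (adjIdx_iff n i j).mp hadj⟩
      intro h3
      exact hjx ((hJX j).mpr ⟨hjm, h3⟩)
  · rintro ⟨hne, hcut⟩
    constructor
    · rintro rfl
      obtain ⟨p, hp⟩ := hne
      obtain ⟨i, hi, -⟩ := mem_cells_exists hp
      unfold Bit at hi
      simp at hi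
    · intro x hx ⟨hx0, hsub⟩
      have hsub' : cells n x ⊆ cells n m := by
        intro p hp
        obtain ⟨i, hi, rfl⟩ := mem_cells_exists hp
        exact mem_cells.mpr (hsub i (hlt x hx.le i hi) hi)
      have hxne : (cells n x).Nonempty := by
        by_contra hcon
        rw [Finset.not_nonempty_iff_eq_empty] at hcon
        unfold cells at hcon
        rw [Finset.image_eq_empty] at hcon
        apply hx0
        rw [← mk_bs x, hcon]
        rfl
      obtain ⟨a, ha, c, hc, hca, hadj⟩ := hcut (cells n x) hsub' hxne (by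
        intro h1
        have := cells_inj h1
        omega)
      obtain ⟨i, hi, rfl⟩ := mem_cells_exists ha
      obtain ⟨j, hj, rfl⟩ := mem_cells_exists hc
      refine ⟨i, hlt x hx.le i hi, j, hlt m (le_refl _) j hj, hi, hj, ?_,
        (adjIdx_iff n i j).mpr hadj⟩
      intro h1
      exact hca (mem_cells.mpr h1)

lemma good_iff {n m : ℕ} (hm : m < 2 ^ ((2 * n + 1) * (n + 1))) :
    Good n m ↔ cells n m ∈ Nf n := by
  classical
  set b := (2 * n + 1) * (n + 1) with hb
  have hsubset : bs m ⊆ Finset.range b := bs_subset_iff.mpr hm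
  have hcnt : cnt b (fun i => Bit i m) = (cells n m).card := by
    rw [card_cells, cnt_eq]
    congr 1
    ext i
    rw [Finset.mem_filter, mem_bs]
    constructor
    · exact fun h => h.2
    · intro h
      exact ⟨hsubset (mem_bs.mpr h), h⟩
  unfold Good
  rw [← hb, hcnt, connMask_iff hm, mem_Nf]
  have hbase : (Bit n m ∧ ∀ i < b, (Bit i m → (0 < i / (2 * n + 1) ∨ n ≤ i % (2 * n + 1)))) ↔
      IsBase (cells n m) 0 := by
    unfold IsBase
    rw [← origin_idx n, mem_cells]
    apply and_congr_right
    intro _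
    constructor
    · intro h q hq
      obtain ⟨i, hi, rfl⟩ := mem_cells_exists hq
      have h1 := h i (Finset.mem_range.mp (hsubset (mem_bs.mpr hi))) hi
      rw [origin_idx]
      unfold cellOf
      simp only [Prod.fst_zero, Prod.snd_zero]
      generalize i / (2 * n + 1) = d at h1 ⊢
      generalize i % (2 * n + 1) = e at h1 ⊢
      omega
    · intro h i _ hi
      have h1 := h _ (mem_cells.mpr hi)
      rw [origin_idx] at h1
      unfold cellOf at h1
      simp only [Prod.fst_zero, Prod.snd_zero] at h1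
      omega
  rw [hbase]

lemma tc_eq (n : ℕ) : tc n = t n := by
  classical
  unfold tc
  rw [cnt_eq, t_eq]
  apply Finset.card_bij (fun m _ => cells n m)
  · intro m hm
    rw [Finset.mem_filter, Finset.mem_range] at hm
    exact (good_iff hm.1).mp hm.2
  · intro m _ m' _ h
    exact cells_inj h
  · intro S hS
    obtain ⟨hcard, hconn, hbase⟩ := mem_Nf.mp hS
    let I : Finset ℕ := (Finset.range ((2 * n + 1) * (n + 1))).filter (fun i => cellOf n i ∈ S)
    have hcells : cells n (mk I) = S := by
      ext p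
      constructor
      · intro hp
        obtain ⟨i, hi, rfl⟩ := mem_cells_exists hp
        rw [← mem_bs, bs_mk, Finset.mem_filter] at hi
        exact hi.2
      · intro hp
        have h1 := dist_lt hconn hbase.1 p hp
        rw [hcard] at h1
        have h2 := hbase.2 p hp
        simp only [Prod.fst_zero, Prod.snd_zero] at h2
        have h3 : |p.1| ≤ n := by
          have := abs_nonneg p.2
          omega
        have h4 : 0 ≤ p.2 := by omega
        have h5 : p.2 ≤ n := by
          have := abs_nonneg p.1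
          have := le_abs_self p.2
          omega
        obtain ⟨i, hi, rfl⟩ := exists_idx h3 h4 h5
        apply mem_cells.mpr
        rw [← mem_bs, bs_mk, Finset.mem_filter, Finset.mem_range]
        exact ⟨hi, hp⟩
    have hlt : mk I < 2 ^ ((2 * n + 1) * (n + 1)) := by
      rw [← bs_subset_iff, bs_mk]
      exact Finset.filter_subset _ _
    refine ⟨mk I, ?_, hcells⟩
    rw [Finset.mem_filter, Finset.mem_range]
    refine ⟨hlt, ?_⟩
    rw [good_iff hlt, hcells]
    exact hS

/-- The number of fixed polyominoes is a primitive recursive function. -/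
theorem prim_t : Primrec t := prim_tc.of_eq tc_eq

end Pool.Agent.Helper71.Polyomino
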