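import Mathlib
import Pool.Agent.Helper71.DKData

/-!
Boolean checking functions for the data in `DKData` and their specifications.
-/

namespace Pool.Agent.Helper71.DKFun

open Pool.Agent.Helper71.DKData

/-- `p i` holds for all `i < n`. -/
def allb (n : ℕ) (p : ℕ → Bool) : Bool :=
  Nat.rec (motive := fun _ => Bool) true
    (fun i ih => match p i with | true => ih | false => false) n

/-- Evaluate `v` first, then apply `F`. -/
def frc (v : ℕ) (F : ℕ → Bool) : Bool :=
  Nat.rec (motive := fun _ => Bool) (F 0) (fun n _ => F (Nat.succ n)) v

/-- All elements of the list satisfy `p`. -/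
def alll (p : ℕ → Bool) (l : List ℕ) : Bool :=
  List.rec (motive := fun _ => Bool) true
    (fun a _ ih => match p a with | true => ih | false => false) l

/-- Some element of the list satisfies `p`. -/
def anyl (p : ℕ → Bool) (l : List ℕ) : Bool :=
  List.rec (motive := fun _ => Bool) false
    (fun a _ ih => match p a with | true => true | false => ih) l

/-- Decode a set of numbers below 2047: the digits minus 1 in base 2048. -/
def dec (fuel : ℕ) : ℕ → List ℕ :=
  Nat.rec (motive := fun _ => ℕ → List ℕ) (fun _ => [])
    (fun _ ih N => Nat.rec (motive := fun _ => List ℕ) []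
      (fun p _ => Nat.sub (Nat.mod (Nat.succ p) 2048) 1 :: ih (Nat.div (Nat.succ p) 2048)) N) fuel

lemma allb_spec {p : ℕ → Bool} : ∀ {n : ℕ}, allb n p = true → ∀ i < n, p i = true := by
  intro n
  induction n with
  | zero => intro _ i hi; omega
  | succ n ih =>
    intro h i hi
    have h' : (match p n with | true => allb n p | false => false) = true := h
    cases hp : p n with
    | false => rw [hp] at h'; simp at h'
    | true =>
      rw [hp] at h'
      simp only at h'
      rcases Nat.lt_succ_iff_lt_or_eq.mp hi with h1 | h1
      · exact ih h' i h1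
      · rw [h1]; exact hp

lemma frc_eq (v : ℕ) (F : ℕ → Bool) : frc v F = F v := by
  cases v <;> rfl

lemma alll_spec {p : ℕ → Bool} : ∀ {l : List ℕ}, alll p l = true → ∀ a ∈ l, p a = true := by
  intro l
  induction l with
  | nil => intro _ a ha; simp at ha
  | cons b l ih =>
    intro h a ha
    have h' : (match p b with | true => alll p l | false => false) = true := h
    cases hp : p b with
    | false => rw [hp] at h'; simp at h'
    | true =>
      rw [hp] at h'
      simp only at h'
      rw [List.mem_cons] at ha
      rcases ha with h1 | h1
      · rw [h1]; exact hp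
      · exact ih h' a h1

lemma anyl_spec {p : ℕ → Bool} : ∀ {l : List ℕ}, anyl p l = true → ∃ a ∈ l, p a = true := by
  intro l
  induction l with
  | nil => intro h; exact absurd h (by simp [anyl])
  | cons b l ih =>
    intro h
    have h' : (match p b with | true => true | false => anyl p l) = true := h
    cases hp : p b with
    | true => exact ⟨b, List.mem_cons_self, hp⟩
    | false =>
      rw [hp] at h'
      simp only at h'
      obtain ⟨a, h1, h2⟩ := ih h'
      exact ⟨a, List.mem_cons_of_mem _ h1, h2⟩

/-! ### The monoid -/

/-- The heap sizes with different nontrivial actions. -/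
def DL : List ℕ := [2, 4, 6, 10, 12, 14, 16, 17, 19, 21, 22, 23, 24, 25, 27, 28, 29, 31, 32]

/-- The actions `a` and `b` commute. -/
def comm2 (a b : ℕ) : Bool :=
  allb 664 (fun m => Nat.beq (look a (look b m)) (look b (look a m)))

/-- Pairwise commutation in a list of heap sizes. -/
def commAll (l : List ℕ) : Bool :=
  List.rec (motive := fun _ => Bool) true
    (fun a t ih => match alll (fun b => comm2 (tbl a) (tbl b)) t with
      | true => ih | false => false) l

/-- All values of the action of `h` are below 664. -/
def closed1 (h : ℕ) : Bool := allb 664 (fun m => Nat.blt (look (tbl h) m) 664)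

/-- The action of heap `h` is trivial or equal to one in the list. -/
def canon1 (h : ℕ) : Bool := anyl (fun a => Nat.beq (tbl h) (tbl a)) (0 :: DL)

/-! ### Outcome masks -/

/-- Mask of the outcomes after `30` was (or was not) added. -/
def As (y t : ℕ) : ℕ := match Nat.beq y 30 with | true => fld A1 t | false => fld A0 t

/-- Mask of the outcomes with one heap 34 less, after `30` was (or was not) added. -/
def Bs (y t : ℕ) : ℕ := match Nat.beq y 30 with | true => fld B1 t | false => fld B0 t

/-- The class after adding the heaps `x` and `y`. -/
def two (x y m : ℕ) : ℕ := look (tbl x) (look (tbl y) m)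

/-- No option of the heap `h` leads from a claimed P-position to a claimed P-position. -/
def chkP (h : ℕ) : Bool :=
  allb 664 (fun m => frc (fld A0 (ty (look (tbl h) m))) (fun a =>
    match Nat.beq a 0 with
    | true => true
    | false => allb (Nat.div h 2) (fun x =>
        Nat.beq (Nat.land a (As (Nat.sub (Nat.sub h 2) x)
          (ty (two x (Nat.sub (Nat.sub h 2) x) m)))) 0)))

/-- `chkP` except for the heap 30. -/
def okP (h : ℕ) : Bool := match Nat.beq h 30 with | true => true | false => chkP h

/-- The same for the heap 30. -/
def chkP30 : Bool :=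
  allb 664 (fun m => frc (fld A0 (ty m)) (fun a =>
    match Nat.beq a 0 with
    | true => true
    | false => allb 15 (fun x =>
        Nat.beq (Nat.land a (fld C0 (ty (two x (Nat.sub 28 x) m)))) 0)))

/-- The same for the heap 34. -/
def chkP34 : Bool :=
  allb 664 (fun m => frc (fld A0 (ty m)) (fun a =>
    match Nat.beq a 0 with
    | true => true
    | false => allb 17 (fun x =>
        Nat.beq (Nat.land a (Bs (Nat.sub 32 x) (ty (two x (Nat.sub 32 x) m)))) 0)))

/-- Bitwise or of `g i` for `i < n`. -/
def orb (n : ℕ) (g : ℕ → ℕ) : ℕ :=
  Nat.rec (motive := fun _ => ℕ) 0 (fun i ih => Nat.lor (g i) ih) n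

/-- Bitwise or of `g a` for `a` in the list, starting from `o`. -/
def orl (l : List ℕ) (o : ℕ) (g : ℕ → ℕ) : ℕ :=
  List.rec (motive := fun _ => ℕ) o (fun a _ ih => Nat.lor (g a) ih) l

/-- The mask of the pairs `(k, j)` for which a position of class `m` is claimed to be P, or has
an option in a heap 30 or 34 claimed to be P. -/
def XY (m : ℕ) : ℕ :=
  Nat.lor (fld A0 (ty m)) (Nat.lor
    (orb 15 (fun x => fld C0 (ty (two x (Nat.sub 28 x) m))))
    (orb 17 (fun x => Bs (Nat.sub 32 x) (ty (two x (Nat.sub 32 x) m)))))

/-- The mask of the option with code `e`. -/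
def emask (e : ℕ) : ℕ :=
  match Nat.beq (Nat.div e 664) 1 with
  | true => fld A1 (ty (Nat.mod e 664))
  | false => fld A0 (ty (Nat.mod e 664))

/-- Every claimed N-position has an option claimed to be P. -/
def chkN (m : ℕ) : Bool :=
  frc (XY m) (fun xy => alll (fun c => Nat.beq (orl (dec 40 c) xy emask) FULL) (fam m))

/-- The option codes are below `2 * 664`. -/
def chkE (m : ℕ) : Bool :=
  alll (fun c => alll (fun e => Nat.blt e 1328) (dec 40 c)) (fam m)

/-- The set of the options of the heap `h` in the context of class `m`. -/
def om (h m : ℕ) : ℕ :=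
  orb (Nat.div h 2) (fun x => Nat.shiftLeft 1
    (Nat.add (two x (Nat.sub (Nat.sub h 2) x) m)
      (match Nat.beq (Nat.sub (Nat.sub h 2) x) 30 with | true => 664 | false => 0)))

/-- The image of the option code `e` after adding the heap with action `t`. -/
def shf (t e : ℕ) : ℕ :=
  Nat.shiftLeft 1 (Nat.add (look t (Nat.mod e 664)) (Nat.mul 664 (Nat.div e 664)))

/-- All elements of the list are bits of `I`. -/
def sub (l : List ℕ) (I : ℕ) : Bool :=
  alll (fun e => Nat.beq (Nat.mod (Nat.shiftRight I e) 2) 1) l

/-- Some option set in the family of `m` is contained in `I`. -/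
def covered (m I : ℕ) : Bool := anyl (fun c => Nat.beq (Nat.land c I) c) (famm m)

/-- The masks describe the option sets. -/
def zipc (l : List ℕ) : List ℕ → Bool :=
  List.rec (motive := fun _ => List ℕ → Bool)
    (fun l' => List.rec (motive := fun _ => Bool) true (fun _ _ _ => false) l')
    (fun c _ ih l' => List.rec (motive := fun _ => Bool) false
      (fun c' t' _ => match sub (dec 40 c) c' with | true => ih t' | false => false) l') l

/-- The masks of the class `m` are correct. -/
def chkM (m : ℕ) : Bool := zipc (fam m) (famm m)

/-- The families are closed under adding the heap `h`. -/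
def chkT (h : ℕ) : Bool :=
  allb 664 (fun m => frc (om h m) (fun o => frc (look (tbl h) m) (fun m' =>
    alll (fun c => frc (orl (dec 40 c) o (shf (tbl h))) (fun I => covered m' I)) (fam m))))

/-- The heap `h` acts as the heap `h'` and has at least its option classes. -/
def chkO (h h' : ℕ) : Bool :=
  match Nat.beq (tbl h) (tbl h') with
  | true => allb 664 (fun m => Nat.beq (Nat.land (om h' m) (om h m)) (om h' m))
  | false => false

/-- Start of the families: adding the heap `h` to an empty position. -/
def chkS (h : ℕ) : Bool := covered (look (tbl h) e0) (om h e0)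

/-- `chkS` except for the heap 30. -/
def okS (h : ℕ) : Bool := match Nat.beq h 30 with | true => true | false => chkS h

end Pool.Agent.Helper71.DKFun
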