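import Mathlib
import Pool.Agent.Helper71.DKFun

/-!
Kernel checks: the actions commute, and no option of a claimed P-position is claimed to be P.
-/

namespace Pool.Agent.Helper71.DKCheckA

open Pool.Agent.Helper71.DKData Pool.Agent.Helper71.DKFun

theorem comm_all : commAll DL = true := by decide +kernel

theorem closed_all : allb 33 closed1 = true := by decide +kernel

theorem canon_all : allb 33 canon1 = true := by decide +kernel

theorem id_zero : allb 664 (fun m => Nat.beq (look (tbl 0) m) m) = true := by decide +kernel

theorem P_all : allb 31 (fun i => okP (Nat.add i 2)) = true := by decide +kernel

theorem P_30 : chkP30 = true := by decide +kernel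

theorem P_34 : chkP34 = true := by decide +kernel

end Pool.Agent.Helper71.DKCheckA
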