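import Mathlib
import Pool.Agent.Helper71.DKFun

/-!
Kernel checks: every claimed N-position has an option claimed to be P.
-/

namespace Pool.Agent.Helper71.DKCheckB

open Pool.Agent.Helper71.DKData Pool.Agent.Helper71.DKFun

theorem N_all : allb 664 chkN = true := by decide +kernel

theorem N_start : Nat.beq (Nat.lor (XY e0) 1) FULL = true := by decide +kernel

theorem M_all : allb 664 chkM = true := by decide +kernel

theorem E_all : allb 664 chkE = true := by decide +kernel

theorem S_all : allb 31 (fun i => okS (Nat.add i 2)) = true := by decide +kernel

theorem O_3 : chkO 3 2 = true := by decide +kernel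
theorem O_7 : chkO 7 2 = true := by decide +kernel
theorem O_8 : chkO 8 2 = true := by decide +kernel
theorem O_11 : chkO 11 6 = true := by decide +kernel
theorem O_20 : chkO 20 6 = true := by decide +kernel
theorem O_13 : chkO 13 4 = true := by decide +kernel
theorem O_18 : chkO 18 4 = true := by decide +kernel
theorem O_26 : chkO 26 12 = true := by decide +kernel

theorem I_5 : Nat.beq (tbl 5) (tbl 0) = true := by decide +kernel
theorem I_9 : Nat.beq (tbl 9) (tbl 0) = true := by decide +kernel
theorem I_15 : Nat.beq (tbl 15) (tbl 0) = true := by decide +kernel
theorem I_1 : Nat.beq (tbl 1) (tbl 0) = true := by decide +kernel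
theorem I_30 : Nat.beq (tbl 30) (tbl 0) = true := by decide +kernel

end Pool.Agent.Helper71.DKCheckB
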