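import Mathlib
import Pool.Agent.Helper71.DKFun

/-!
Kernel checks: the families of option sets are closed under adding a heap (part 1).
-/

namespace Pool.Agent.Helper71.DKCheckT1

open Pool.Agent.Helper71.DKData Pool.Agent.Helper71.DKFun

theorem T_2 : chkT 2 = true := by decide +kernel

theorem T_4 : chkT 4 = true := by decide +kernel

theorem T_6 : chkT 6 = true := by decide +kernel

theorem T_10 : chkT 10 = true := by decide +kernel

theorem T_12 : chkT 12 = true := by decide +kernel

end Pool.Agent.Helper71.DKCheckT1
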