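import Mathlib
import Pool.Agent.Helper71.DKFun

/-!
Kernel checks: the families of option sets are closed under adding a heap (part 2).
-/

namespace Pool.Agent.Helper71.DKCheckT2

open Pool.Agent.Helper71.DKData Pool.Agent.Helper71.DKFun

theorem T_14 : chkT 14 = true := by decide +kernel

theorem T_16 : chkT 16 = true := by decide +kernel

theorem T_17 : chkT 17 = true := by decide +kernel

theorem T_19 : chkT 19 = true := by decide +kernel

theorem T_21 : chkT 21 = true := by decide +kernel

end Pool.Agent.Helper71.DKCheckT2
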