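import Mathlib
import Pool.Agent.Helper71.DKFun

/-!
Kernel checks: the families of option sets are closed under adding a heap (part 3).
-/

namespace Pool.Agent.Helper71.DKCheckT3

open Pool.Agent.Helper71.DKData Pool.Agent.Helper71.DKFun

theorem T_22 : chkT 22 = true := by decide +kernel

theorem T_23 : chkT 23 = true := by decide +kernel

theorem T_24 : chkT 24 = true := by decide +kernel

theorem T_25 : chkT 25 = true := by decide +kernel

theorem T_27 : chkT 27 = true := by decide +kernel

end Pool.Agent.Helper71.DKCheckT3
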