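import Mathlib
import Pool.Agent.Helper71.DKFun

/-!
Kernel checks: the families of option sets are closed under adding a heap (part 4).
-/

namespace Pool.Agent.Helper71.DKCheckT4

open Pool.Agent.Helper71.DKData Pool.Agent.Helper71.DKFun

theorem T_28 : chkT 28 = true := by decide +kernel

theorem T_29 : chkT 29 = true := by decide +kernel

theorem T_31 : chkT 31 = true := by decide +kernel

theorem T_32 : chkT 32 = true := by decide +kernel

end Pool.Agent.Helper71.DKCheckT4
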