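import Mathlib

/-!
Dawson's Kayles under misere play and its misere quotients.
-/

namespace Pool.Agent.Helper71.DKDefs

/-- The moves of Dawson's Kayles. A position is a finite multiset of heap sizes. A move replaces
one heap, of size `m = R.sum + 2`, by a multiset `R` of at most two nonempty heaps: two tokens
are removed and the remaining `m - 2` tokens are left as zero, one or two nonempty heaps. -/
def Move (G G' : Multiset ℕ) : Prop :=
  ∃ R : Multiset ℕ, R.sum + 2 ∈ G ∧ (∀ x ∈ R, 0 < x) ∧ Multiset.card R ≤ 2 ∧
    G' = G.erase (R.sum + 2) + R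

theorem Move.sum_lt {G G' : Multiset ℕ} (h : Move G G') : G'.sum < G.sum := by
  obtain ⟨R, h1, -, -, rfl⟩ := h
  have h2 : (R.sum + 2) + (G.erase (R.sum + 2)).sum = G.sum := by
    rw [← Multiset.sum_cons, Multiset.cons_erase h1]
  rw [Multiset.sum_add]
  omega

/-- Misere play P-positions (the previous player wins): there is a move, and every move leads
to a position which is not a P-position. A position without moves is a win for the player to
move. -/
def MisereP (G : Multiset ℕ) : Prop :=
  (∃ G', Move G G') ∧ ∀ G', Move G G' → ¬ MisereP G'
termination_by G.sum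
decreasing_by
  rename_i h
  exact h.sum_lt

/-- The positions of Dawson's Kayles all of whose heaps have size at most `n`. -/
def Pos (n : ℕ) : AddSubmonoid (Multiset ℕ) where
  carrier := {G | ∀ m ∈ G, 1 ≤ m ∧ m ≤ n}
  zero_mem' := by intro m hm; simp at hm
  add_mem' := by
    intro G H hG hH m hm
    rw [Multiset.mem_add] at hm
    rcases hm with hm | hm
    · exact hG m hm
    · exact hH m hm

/-- Indistinguishability: `H` and `K` are related if `H + X` and `K + X` have the same misere
outcome for every position `X` with heaps of size at most `n`. It is a congruence, and its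
quotient is the misere quotient at heap size `n`. -/
def misereCon (n : ℕ) : AddCon (Pos n) where
  r H K := ∀ X : Pos n, MisereP ((H : Multiset ℕ) + X) ↔ MisereP ((K : Multiset ℕ) + X)
  iseqv := ⟨fun _ _ => Iff.rfl, fun h X => (h X).symm, fun h h' X => (h X).trans (h' X)⟩
  add' := by
    intro H K H' K' h h' X
    have e1 := h (H' + X)
    have e2 := h' (K + X)
    rw [AddSubmonoid.coe_add] at e1 e2
    rw [AddSubmonoid.coe_add, AddSubmonoid.coe_add]
    have a1 : (H : Multiset ℕ) + H' + X = (H : Multiset ℕ) + (H' + X) := add_assoc _ _ _
    have a2 : (K : Multiset ℕ) + (H' + X) = (H' : Multiset ℕ) + (K + X) := by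
      rw [← add_assoc, ← add_assoc, add_comm (K : Multiset ℕ) H']
    have a3 : (K' : Multiset ℕ) + (K + X) = (K : Multiset ℕ) + K' + X := by
      rw [← add_assoc, add_comm (K' : Multiset ℕ) K]
    rw [a1, e1, a2, e2, a3]

/-- The misere quotient of Dawson's Kayles at heap size `n`, a commutative monoid. -/
abbrev MisereQuotient (n : ℕ) : Type := (misereCon n).Quotient

end Pool.Agent.Helper71.DKDefs
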