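import Mathlib
import Pool.Agent.Helper71.DKData

/-!
The claimed outcomes as functions of the numbers `k` of heaps 34 and `j` of heaps 30, and the
reduction of local patterns to the box `k, j < 10`.
-/

namespace Pool.Agent.Helper71.DKPat

/-- The outcome patterns for `k ≥ 3`. -/
def tail (t k j : ℕ) : Bool :=
  match t with
  | 1 => decide ((k + j) % 2 = 0)
  | 2 => decide ((k + j) % 2 = 1)
  | 3 => decide (k ≤ j ∧ (k + j) % 2 = 0)
  | 4 => decide (j + 2 ≤ k)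
  | 5 => decide (k ≤ j + 1 ∧ (k + j) % 2 = 1)
  | 6 => decide (j = 0 ∧ k % 2 = 1)
  | _ => false

/-- The claimed outcome for the code `c` with `k` heaps 34 and `j` heaps 30. -/
def f (c k j : ℕ) : Bool :=
  if k < 3 then Nat.testBit c (4 * k + (if j < 4 then j else 2 + j % 2))
  else tail (c / 4096) k j

/-- A sufficient condition for equal outcomes at `(k, j)` and `(k', j')`. -/
def Sim (k j k' j' : ℕ) : Prop :=
  (k < 3 ∧ k' = k ∧ (j = j' ∨ (2 ≤ j ∧ 2 ≤ j' ∧ j % 2 = j' % 2))) ∨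
  (3 ≤ k ∧ 3 ≤ k' ∧ (k + j) % 2 = (k' + j') % 2 ∧ (k ≤ j ↔ k' ≤ j') ∧
    (j + 2 ≤ k ↔ j' + 2 ≤ k') ∧ (k ≤ j + 1 ↔ k' ≤ j' + 1) ∧
    ((j = 0 ∧ k % 2 = 1) ↔ (j' = 0 ∧ k' % 2 = 1)))

lemma tail_congr {k j k' j' : ℕ} (h1 : (k + j) % 2 = (k' + j') % 2) (h2 : k ≤ j ↔ k' ≤ j')
    (h3 : j + 2 ≤ k ↔ j' + 2 ≤ k') (h4 : k ≤ j + 1 ↔ k' ≤ j' + 1)
    (h5 : (j = 0 ∧ k % 2 = 1) ↔ (j' = 0 ∧ k' % 2 = 1)) (t : ℕ) : tail t k j = tail t k' j' := by
  unfold tail
  split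
  · exact decide_eq_decide.mpr (by rw [h1])
  · exact decide_eq_decide.mpr (by rw [h1])
  · exact decide_eq_decide.mpr (by rw [h1, h2])
  · exact decide_eq_decide.mpr h3
  · exact decide_eq_decide.mpr (by rw [h1, h4])
  · exact decide_eq_decide.mpr h5
  · rfl

lemma f_congr {k j k' j' : ℕ} (h : Sim k j k' j') (c : ℕ) : f c k j = f c k' j' := by
  unfold f
  rcases h with ⟨h1, h2, h3⟩ | ⟨h1, h2, h3, h4, h5, h6, h7⟩
  · subst h2
    rw [if_pos h1, if_pos h1]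
    rcases h3 with h3 | ⟨h3, h4, h5⟩
    · rw [h3]
    · have e : (if j < 4 then j else 2 + j % 2) = (if j' < 4 then j' else 2 + j' % 2) := by
        split_ifs <;> omega
      rw [e]
  · rw [if_neg (by omega), if_neg (by omega)]
    exact tail_congr h3 h4 h5 h6 h7 _

/-- Equal local patterns at `(k, j)` and `(k', j')`. -/
def Loc (k j k' j' : ℕ) : Prop :=
  Sim k j k' j' ∧ Sim k (j + 1) k' (j' + 1) ∧ (1 ≤ k ↔ 1 ≤ k') ∧ (1 ≤ j ↔ 1 ≤ j') ∧
  (1 ≤ k → Sim (k - 1) j (k' - 1) j' ∧ Sim (k - 1) (j + 1) (k' - 1) (j' + 1)) ∧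
  (1 ≤ j → Sim k (j - 1) k' (j' - 1))

lemma exists_loc (k j : ℕ) : ∃ k' < 10, ∃ j' < 10, Loc k j k' j' := by
  by_cases hk2 : k ≤ 2
  · by_cases hj : j ≤ 5
    · refine ⟨k, by omega, j, by omega, ?_⟩
      unfold Loc Sim
      omega
    · refine ⟨k, by omega, 4 + j % 2, by omega, ?_⟩
      unfold Loc Sim
      omega
  by_cases hk3 : k = 3
  · by_cases hj : j ≤ 7
    · refine ⟨k, by omega, j, by omega, ?_⟩
      unfold Loc Sim
      omega
    · refine ⟨k, by omega, 6 + j % 2, by omega, ?_⟩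
      unfold Loc Sim
      omega
  have hk4 : 4 ≤ k := by omega
  by_cases hj0 : j = 0
  · by_cases hk : k ≤ 7
    · refine ⟨k, by omega, j, by omega, ?_⟩
      unfold Loc Sim
      omega
    · refine ⟨6 + k % 2, by omega, 0, by omega, ?_⟩
      unfold Loc Sim
      omega
  by_cases hj1 : j = 1
  · by_cases hk : k ≤ 8
    · refine ⟨k, by omega, j, by omega, ?_⟩
      unfold Loc Sim
      omega
    · refine ⟨7 + (k + 1) % 2, by omega, 1, by omega, ?_⟩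
      unfold Loc Sim
      omega
  by_cases hD : j + 5 ≤ k
  · refine ⟨7 + (k + j + 1) % 2, by omega, 2, by omega, ?_⟩
    unfold Loc Sim
    omega
  by_cases hD' : k + 4 ≤ j
  · refine ⟨4, by omega, 8 + (k + j) % 2, by omega, ?_⟩
    unfold Loc Sim
    omega
  by_cases hD2 : j + 2 ≤ k
  · refine ⟨k - j + 2, by omega, 2, by omega, ?_⟩
    unfold Loc Sim
    omega
  · refine ⟨4, by omega, j + 4 - k, by omega, ?_⟩
    unfold Loc Sim
    omega

end Pool.Agent.Helper71.DKPat
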