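import Mathlib
import Pool.Agent.Helper71.DKFun
import Pool.Agent.Helper71.DKPat

/-!
Kernel checks: the masks agree with the outcome patterns.
-/

namespace Pool.Agent.Helper71.DKMask

open Pool.Agent.Helper71.DKData Pool.Agent.Helper71.DKFun Pool.Agent.Helper71.DKPat

theorem A0_spec : ∀ t < 53, ∀ k < 10, ∀ j < 10,
    Nat.testBit (fld A0 t) (10 * k + j) = f (code t) k j := by decide +kernel

theorem A1_spec : ∀ t < 53, ∀ k < 10, ∀ j < 10,
    Nat.testBit (fld A1 t) (10 * k + j) = f (code t) k (j + 1) := by decide +kernel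

theorem B0_spec : ∀ t < 53, ∀ k < 10, ∀ j < 10,
    Nat.testBit (fld B0 t) (10 * k + j) = (decide (1 ≤ k) && f (code t) (k - 1) j) := by
  decide +kernel

theorem B1_spec : ∀ t < 53, ∀ k < 10, ∀ j < 10,
    Nat.testBit (fld B1 t) (10 * k + j) = (decide (1 ≤ k) && f (code t) (k - 1) (j + 1)) := by
  decide +kernel

theorem C0_spec : ∀ t < 53, ∀ k < 10, ∀ j < 10,
    Nat.testBit (fld C0 t) (10 * k + j) = (decide (1 ≤ j) && f (code t) k (j - 1)) := by
  decide +kernel

theorem ty_lt : allb 664 (fun m => Nat.blt (ty m) 53) = true := by decide +kernel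

theorem full_spec : ∀ i < 100, Nat.testBit FULL i = true := by decide +kernel

end Pool.Agent.Helper71.DKMask
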