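import Mathlib
import Pool.Agent.Helper71.DKDefs
import Pool.Agent.Helper71.DKFun
import Pool.Agent.Helper71.DKPat
import Pool.Agent.Helper71.DKMask
import Pool.Agent.Helper71.DKCheckA
import Pool.Agent.Helper71.DKCheckB
import Pool.Agent.Helper71.DKCheckT1
import Pool.Agent.Helper71.DKCheckT2
import Pool.Agent.Helper71.DKCheckT3
import Pool.Agent.Helper71.DKCheckT4

/-!
The misere outcomes of all positions of Dawson's Kayles with heaps of sizes `1, ..., 32, 34`.
-/

namespace Pool.Agent.Helper71.DKMain

open Pool.Agent.Helper71.DKDefs Pool.Agent.Helper71.DKData Pool.Agent.Helper71.DKFun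
  Pool.Agent.Helper71.DKPat

/-! ### The action of the heaps -/

/-- The class after adding a heap of size `h` to a position of class `m`. -/
def act (h m : ℕ) : ℕ := if h < 33 ∧ m < 664 then look (tbl h) m else m

lemma look_id {m : ℕ} (hm : m < 664) : look (tbl 0) m = m :=
  Nat.eq_of_beq_eq_true (allb_spec DKCheckA.id_zero m hm)

lemma look_lt {h m : ℕ} (hh : h < 33) (hm : m < 664) : look (tbl h) m < 664 := by
  have h1 := allb_spec (allb_spec DKCheckA.closed_all h hh) m hm
  have h2 : Nat.blt (look (tbl h) m) 664 = true := h1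
  rwa [Nat.blt_eq] at h2

lemma commAll_spec : ∀ {l : List ℕ}, commAll l = true →
    l.Pairwise (fun a b => comm2 (tbl a) (tbl b) = true) := by
  intro l
  induction l with
  | nil => intro _; exact List.Pairwise.nil
  | cons a t ih =>
    intro h
    have h' : (match alll (fun b => comm2 (tbl a) (tbl b)) t with
      | true => commAll t | false => false) = true := h
    cases hp : alll (fun b => comm2 (tbl a) (tbl b)) t with
    | false => rw [hp] at h'; simp at h'
    | true =>
      rw [hp] at h'
      simp only at h'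
      exact List.Pairwise.cons (alll_spec hp) (ih h')

lemma comm_DL : ∀ a ∈ DL, ∀ b ∈ DL, ∀ m < 664,
    look (tbl a) (look (tbl b) m) = look (tbl b) (look (tbl a) m) := by
  have h := commAll_spec DKCheckA.comm_all
  have h2 : DL.Pairwise (fun a b => ∀ m < 664,
      look (tbl a) (look (tbl b) m) = look (tbl b) (look (tbl a) m)) :=
    h.imp (fun hab m hm => Nat.eq_of_beq_eq_true (allb_spec hab m hm))
  have : Std.Symm (fun a b => ∀ m < 664,
      look (tbl a) (look (tbl b) m) = look (tbl b) (look (tbl a) m)) :=
    ⟨fun _ _ hxy m hm => (hxy m hm).symm⟩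
  intro a ha b hb
  exact h2.forall_of_forall (fun _ _ _ _ => rfl) ha hb

lemma canon {h : ℕ} (hh : h < 33) : tbl h = tbl 0 ∨ ∃ a ∈ DL, tbl h = tbl a := by
  obtain ⟨a, h1, h2⟩ := anyl_spec (allb_spec DKCheckA.canon_all h hh)
  have h3 := Nat.eq_of_beq_eq_true h2
  rw [List.mem_cons] at h1
  rcases h1 with rfl | h1
  · exact Or.inl h3
  · exact Or.inr ⟨a, h1, h3⟩

lemma comm_look {a b m : ℕ} (ha : a < 33) (hb : b < 33) (hm : m < 664) :
    look (tbl a) (look (tbl b) m) = look (tbl b) (look (tbl a) m) := by
  rcases canon ha with h1 | ⟨a', ha', h1⟩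
  · rw [h1, look_id (look_lt hb hm), look_id hm]
  rcases canon hb with h2 | ⟨b', hb', h2⟩
  · rw [h2, look_id hm, look_id (look_lt ha hm)]
  rw [h1, h2]
  exact comm_DL a' ha' b' hb' m hm

lemma act_lt {h m : ℕ} (hm : m < 664) : act h m < 664 := by
  unfold act
  split_ifs with h1
  · exact look_lt h1.1 h1.2
  · exact hm

lemma act_eq {h m : ℕ} (hh : h < 33) (hm : m < 664) : act h m = look (tbl h) m := by
  unfold act
  rw [if_pos ⟨hh, hm⟩]

lemma act_big {h m : ℕ} (hh : ¬ h < 33) : act h m = m := by
  unfold act
  rw [if_neg (fun hc => hh hc.1)]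

lemma act_zero (m : ℕ) : act 0 m = m := by
  by_cases hm : m < 664
  · rw [act_eq (by norm_num) hm, look_id hm]
  · unfold act
    rw [if_neg (fun hc => hm hc.2)]

instance : LeftCommutative act := ⟨by
  intro a b m
  by_cases hm : m < 664
  · by_cases ha : a < 33
    · by_cases hb : b < 33
      · rw [act_eq hb hm, act_eq ha hm, act_eq ha (look_lt hb hm), act_eq hb (look_lt ha hm)]
        exact comm_look ha hb hm
      · rw [act_big hb, act_big hb]
    · rw [act_big ha, act_big ha]
  · unfold act
    simp [hm]⟩

/-- The class of a position (the heaps 30 and 34 do not count). -/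
def cls (G : Multiset ℕ) : ℕ := G.foldr act e0

lemma cls_zero : cls 0 = e0 := Multiset.foldr_zero _ _

lemma cls_cons (h : ℕ) (G : Multiset ℕ) : cls (h ::ₘ G) = act h (cls G) :=
  Multiset.foldr_cons _ _ _ _

lemma e0_lt : e0 < 664 := by unfold e0; norm_num

lemma cls_lt (G : Multiset ℕ) : cls G < 664 := by
  induction G using Multiset.induction_on with
  | empty => rw [cls_zero]; exact e0_lt
  | cons h G ih => rw [cls_cons]; exact act_lt ih

lemma tbl_30 : tbl 30 = tbl 0 := Nat.eq_of_beq_eq_true DKCheckB.I_30
lemma tbl_1 : tbl 1 = tbl 0 := Nat.eq_of_beq_eq_true DKCheckB.I_1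

lemma act_30 (m : ℕ) (hm : m < 664) : act 30 m = m := by
  rw [act_eq (by norm_num) hm, tbl_30, look_id hm]

lemma act_1 (m : ℕ) (hm : m < 664) : act 1 m = m := by
  rw [act_eq (by norm_num) hm, tbl_1, look_id hm]

lemma act_34 (m : ℕ) : act 34 m = m := act_big (by norm_num)

/-! ### Moves -/

/-- The heaps `x` and `y`, without zeros. -/
def rest (x y : ℕ) : Multiset ℕ := (x ::ₘ {y}).filter (0 < ·)

lemma rest_sum (x y : ℕ) : (rest x y).sum = x + y := by
  unfold rest
  by_cases hx : 0 < x <;> by_cases hy : 0 < y <;>
    simp [Multiset.filter_singleton, hx, hy] <;> omega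

lemma rest_pos {x y z : ℕ} (h : z ∈ rest x y) : 0 < z := by
  unfold rest at h
  exact (Multiset.mem_filter.mp h).2

lemma rest_le {x y z : ℕ} (h : z ∈ rest x y) : z ≤ x + y := by
  unfold rest at h
  have h1 := (Multiset.mem_filter.mp h).1
  rw [Multiset.mem_cons, Multiset.mem_singleton] at h1
  omega

lemma rest_card (x y : ℕ) : Multiset.card (rest x y) ≤ 2 := by
  unfold rest
  refine le_trans (Multiset.card_le_card (Multiset.filter_le _ _)) ?_
  simp

lemma move_rest {G : Multiset ℕ} {x y : ℕ} (h : x + y + 2 ∈ G) :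
    Move G (G.erase (x + y + 2) + rest x y) :=
  ⟨rest x y, by rw [rest_sum]; exact h, fun z hz => rest_pos hz, rest_card x y,
    by rw [rest_sum]⟩

lemma move_inv {G G' : Multiset ℕ} (h : Move G G') :
    ∃ x y, x ≤ y ∧ x + y + 2 ∈ G ∧ G' = G.erase (x + y + 2) + rest x y := by
  obtain ⟨R, h1, h2, h3, h4⟩ := h
  have key : ∃ x y, x ≤ y ∧ R = rest x y := by
    rcases Nat.lt_or_ge 1 (Multiset.card R) with hc | hc
    · have hc2 : Multiset.card R = 2 := by omega
      obtain ⟨a, b, rfl⟩ := Multiset.card_eq_two.mp hc2
      have ha : 0 < a := h2 a (by simp)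
      have hb : 0 < b := h2 b (by simp)
      rcases Nat.le_total a b with hab | hab
      · exact ⟨a, b, hab, by
          unfold rest
          rw [Multiset.filter_eq_self.mpr]
          · rfl
          · intro z hz
            rw [Multiset.mem_cons, Multiset.mem_singleton] at hz
            rcases hz with rfl | rfl <;> assumption⟩
      · exact ⟨b, a, hab, by
          unfold rest
          rw [Multiset.filter_eq_self.mpr]
          · exact Multiset.pair_comm a b
          · intro z hz
            rw [Multiset.mem_cons, Multiset.mem_singleton] at hz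
            rcases hz with rfl | rfl <;> assumption⟩
    · rcases Nat.lt_or_ge 0 (Multiset.card R) with hc' | hc'
      · have hc2 : Multiset.card R = 1 := by omega
        obtain ⟨a, rfl⟩ := Multiset.card_eq_one.mp hc2
        have ha : 0 < a := h2 a (by simp)
        refine ⟨0, a, by omega, ?_⟩
        unfold rest
        simp [Multiset.filter_singleton, ha]
      · have hc2 : Multiset.card R = 0 := by omega
        rw [Multiset.card_eq_zero] at hc2
        refine ⟨0, 0, le_refl _, ?_⟩
        rw [hc2]
        unfold rest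
        simp [Multiset.filter_singleton]
  obtain ⟨x, y, hxy, rfl⟩ := key
  rw [rest_sum] at h1 h4
  exact ⟨x, y, hxy, h1, h4⟩

lemma move_cons {G G' : Multiset ℕ} (h : Move G G') (a : ℕ) : Move (a ::ₘ G) (a ::ₘ G') := by
  obtain ⟨R, h1, h2, h3, rfl⟩ := h
  refine ⟨R, Multiset.mem_cons_of_mem h1, h2, h3, ?_⟩
  by_cases ha : a = R.sum + 2
  · subst ha
    rw [Multiset.erase_cons_head]
    conv_lhs => rw [← Multiset.cons_add, Multiset.cons_erase h1]
  · rw [Multiset.erase_cons_tail _ ha, Multiset.cons_add]

lemma cls_add_rest {G : Multiset ℕ} {x y : ℕ} : cls (G + rest x y) = act x (act y (cls G)) := by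
  unfold rest
  by_cases hx : 0 < x <;> by_cases hy : 0 < y
  · rw [Multiset.filter_eq_self.mpr (by
      intro z hz
      rw [Multiset.mem_cons, Multiset.mem_singleton] at hz
      rcases hz with rfl | rfl <;> assumption)]
    rw [add_comm, Multiset.cons_add, Multiset.singleton_add, cls_cons, cls_cons]
  · have hy0 : y = 0 := by omega
    subst hy0
    rw [Multiset.filter_cons_of_pos _ hx]
    simp only [Multiset.filter_singleton, lt_self_iff_false, if_false]
    rw [add_comm, Multiset.cons_add, cls_cons, act_zero, Multiset.empty_eq_zero, zero_add]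
  · have hx0 : x = 0 := by omega
    subst hx0
    rw [Multiset.filter_cons_of_neg _ hx]
    simp only [Multiset.filter_singleton, hy, if_true]
    rw [add_comm, Multiset.singleton_add, cls_cons, act_zero]
  · have hx0 : x = 0 := by omega
    have hy0 : y = 0 := by omega
    subst hx0 hy0
    rw [Multiset.filter_cons_of_neg _ hx]
    simp only [Multiset.filter_singleton, lt_self_iff_false, if_false, act_zero]
    rw [Multiset.empty_eq_zero, add_zero]

lemma count_rest {x y z : ℕ} (hz : 0 < z) : (rest x y).count z =
    (if z = x then 1 else 0) + (if z = y then 1 else 0) := by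
  unfold rest
  rw [Multiset.count_filter_of_pos hz, Multiset.count_cons, Multiset.count_singleton, add_comm]

end Pool.Agent.Helper71.DKMain
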