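import Mathlib
import Pool.Agent.Helper71.DKMain

/-!
The misere outcomes of all positions of Dawson's Kayles with heaps of sizes `1, ..., 32, 34`.
-/

namespace Pool.Agent.Helper71.DKOut

open Pool.Agent.Helper71.DKDefs Pool.Agent.Helper71.DKData Pool.Agent.Helper71.DKFun
  Pool.Agent.Helper71.DKPat Pool.Agent.Helper71.DKMain

/-! ### Bits -/

lemma land_zero_bit {a b i : ℕ} (h : Nat.beq (Nat.land a b) 0 = true)
    (ha : Nat.testBit a i = true) : Nat.testBit b i = false := by
  have h1 : a &&& b = 0 := Nat.eq_of_beq_eq_true h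
  have h2 : Nat.testBit (a &&& b) i = false := by rw [h1]; exact Nat.zero_testBit i
  rw [Nat.testBit_land, ha, Bool.true_and] at h2
  exact h2

lemma land_sub_bit {a b i : ℕ} (h : Nat.beq (Nat.land a b) a = true)
    (ha : Nat.testBit a i = true) : Nat.testBit b i = true := by
  have h1 : a &&& b = a := Nat.eq_of_beq_eq_true h
  have h2 : Nat.testBit (a &&& b) i = true := by rw [h1]; exact ha
  rw [Nat.testBit_land, ha, Bool.true_and] at h2
  exact h2

lemma lor_bit {a b i : ℕ} (h : Nat.testBit (Nat.lor a b) i = true) :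
    Nat.testBit a i = true ∨ Nat.testBit b i = true := by
  have h1 : Nat.testBit (a ||| b) i = true := h
  rw [Nat.testBit_lor, Bool.or_eq_true] at h1
  exact h1

lemma lor_bit_left {a b i : ℕ} (h : Nat.testBit a i = true) :
    Nat.testBit (Nat.lor a b) i = true := by
  change Nat.testBit (a ||| b) i = true
  rw [Nat.testBit_lor, h, Bool.true_or]

lemma lor_bit_right {a b i : ℕ} (h : Nat.testBit b i = true) :
    Nat.testBit (Nat.lor a b) i = true := by
  change Nat.testBit (a ||| b) i = true
  rw [Nat.testBit_lor, h, Bool.or_true]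

lemma shift_bit {a i : ℕ} : Nat.testBit (Nat.shiftLeft 1 a) i = true ↔ a = i := by
  change Nat.testBit (1 <<< a) i = true ↔ a = i
  rw [Nat.one_shiftLeft, Nat.testBit_two_pow, decide_eq_true_iff]

lemma orb_succ (n : ℕ) (g : ℕ → ℕ) : orb (n + 1) g = Nat.lor (g n) (orb n g) := rfl

lemma orb_bit {g : ℕ → ℕ} {i : ℕ} : ∀ {n : ℕ}, Nat.testBit (orb n g) i = true →
    ∃ x < n, Nat.testBit (g x) i = true := by
  intro n
  induction n with
  | zero =>
    intro h
    have h1 : Nat.testBit 0 i = true := h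
    rw [Nat.zero_testBit] at h1
    exact absurd h1 (by simp)
  | succ n ih =>
    intro h
    rw [orb_succ] at h
    rcases lor_bit h with h1 | h1
    · exact ⟨n, Nat.lt_succ_self n, h1⟩
    · obtain ⟨x, hx, hx'⟩ := ih h1
      exact ⟨x, Nat.lt_succ_of_lt hx, hx'⟩

lemma bit_orb {g : ℕ → ℕ} {i : ℕ} : ∀ {n x : ℕ}, x < n → Nat.testBit (g x) i = true →
    Nat.testBit (orb n g) i = true := by
  intro n
  induction n with
  | zero => intro x hx; omega
  | succ n ih =>
    intro x hx h
    rw [orb_succ]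
    rcases Nat.lt_succ_iff_lt_or_eq.mp hx with h1 | h1
    · exact lor_bit_right (ih h1 h)
    · rw [← h1]; exact lor_bit_left h

lemma orl_cons (a : ℕ) (l : List ℕ) (o : ℕ) (g : ℕ → ℕ) :
    orl (a :: l) o g = Nat.lor (g a) (orl l o g) := rfl

lemma orl_bit {g : ℕ → ℕ} {i o : ℕ} : ∀ {l : List ℕ}, Nat.testBit (orl l o g) i = true →
    Nat.testBit o i = true ∨ ∃ e ∈ l, Nat.testBit (g e) i = true := by
  intro l
  induction l with
  | nil => intro h; exact Or.inl h
  | cons a l ih =>
    intro h
    rw [orl_cons] at h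
    rcases lor_bit h with h1 | h1
    · exact Or.inr ⟨a, List.mem_cons_self, h1⟩
    · rcases ih h1 with h2 | ⟨e, he, h2⟩
      · exact Or.inl h2
      · exact Or.inr ⟨e, List.mem_cons_of_mem _ he, h2⟩

lemma sub_bit {l : List ℕ} {I : ℕ} (h : sub l I = true) :
    ∀ e ∈ l, Nat.testBit I e = true := by
  intro e he
  have h1 := Nat.eq_of_beq_eq_true (alll_spec h e he)
  have h2 : (I >>> e) % 2 = 1 := h1
  rw [Nat.testBit_eq_decide_div_mod_eq, decide_eq_true_iff, ← Nat.shiftRight_eq_div_pow]
  exact h2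

/-! ### Values of the masks -/

lemma ty_lt {m : ℕ} (hm : m < 664) : ty m < 53 := by
  have h1 : Nat.blt (ty m) 53 = true := allb_spec DKMask.ty_lt m hm
  rwa [Nat.blt_eq] at h1

lemma beq_false {a b : ℕ} (h : a ≠ b) : Nat.beq a b = false := by
  cases h1 : Nat.beq a b with
  | false => rfl
  | true => exact absurd (Nat.eq_of_beq_eq_true h1) h

lemma As_bit {t : ℕ} (ht : t < 53) {y k j : ℕ} (hk : k < 10) (hj : j < 10) :
    Nat.testBit (As y t) (10 * k + j) = f (code t) k (j + if y = 30 then 1 else 0) := by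
  unfold As
  by_cases hy : y = 30
  · rw [if_pos hy, hy]
    exact DKMask.A1_spec t ht k hk j hj
  · rw [if_neg hy, beq_false hy]
    exact DKMask.A0_spec t ht k hk j hj

lemma Bs_bit {t : ℕ} (ht : t < 53) {y k j : ℕ} (hk : k < 10) (hj : j < 10) :
    Nat.testBit (Bs y t) (10 * k + j) =
      (decide (1 ≤ k) && f (code t) (k - 1) (j + if y = 30 then 1 else 0)) := by
  unfold Bs
  by_cases hy : y = 30
  · rw [if_pos hy, hy]
    exact DKMask.B1_spec t ht k hk j hj
  · rw [if_neg hy, beq_false hy]
    exact DKMask.B0_spec t ht k hk j hj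

lemma emask_bit {e : ℕ} (he : e < 1328) {k j : ℕ} (hk : k < 10) (hj : j < 10) :
    Nat.testBit (emask e) (10 * k + j) = f (code (ty (e % 664))) k (j + e / 664) := by
  have ht : ty (e % 664) < 53 := ty_lt (Nat.mod_lt _ (by norm_num))
  unfold emask
  by_cases hy : e / 664 = 1
  · have h1 : Nat.beq (Nat.div e 664) 1 = true := by
      change Nat.beq (e / 664) 1 = true
      rw [hy]
      rfl
    rw [h1, hy]
    exact DKMask.A1_spec _ ht k hk j hj
  · have h0 : e / 664 = 0 := by omega
    have h1 : Nat.beq (Nat.div e 664) 1 = false := by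
      change Nat.beq (e / 664) 1 = false
      rw [h0]
      rfl
    rw [h1, h0]
    exact DKMask.A0_spec _ ht k hk j hj

lemma loc_f {k j k' j' : ℕ} (h : Loc k j k' j') (c : ℕ) : f c k' j' = f c k j :=
  (f_congr h.1 c).symm

lemma loc_f1 {k j k' j' : ℕ} (h : Loc k j k' j') (c s : ℕ) (hs : s ≤ 1) :
    f c k' (j' + s) = f c k (j + s) := by
  have h0 : s = 0 ∨ s = 1 := by omega
  rcases h0 with rfl | rfl
  · exact (f_congr h.1 c).symm
  · exact (f_congr h.2.1 c).symm

lemma loc_k {k j k' j' : ℕ} (h : Loc k j k' j') (hk : 1 ≤ k) (c s : ℕ) (hs : s ≤ 1) :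
    f c (k' - 1) (j' + s) = f c (k - 1) (j + s) := by
  have h0 : s = 0 ∨ s = 1 := by omega
  rcases h0 with rfl | rfl
  · exact (f_congr (h.2.2.2.2.1 hk).1 c).symm
  · exact (f_congr (h.2.2.2.2.1 hk).2 c).symm

lemma loc_j {k j k' j' : ℕ} (h : Loc k j k' j') (hj : 1 ≤ j) (c : ℕ) :
    f c k' (j' - 1) = f c k (j - 1) :=
  (f_congr (h.2.2.2.2.2 hj) c).symm

lemma ite_le_one (p : Prop) [Decidable p] : (if p then 1 else 0) ≤ 1 := by
  split_ifs <;> omega

/-! ### Checks in logical form -/

lemma skip_spec {a : ℕ} {b : Bool}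
    (h : (match Nat.beq a 0 with | true => true | false => b) = true) {i : ℕ}
    (ha : Nat.testBit a i = true) : b = true := by
  have hb : Nat.beq a 0 = false := by
    apply beq_false
    rintro rfl
    rw [Nat.zero_testBit] at ha
    exact absurd ha (by simp)
  rw [hb] at h
  exact h

lemma chkP_spec {h m x i : ℕ} (h2 : 2 ≤ h) (h32 : h ≤ 32) (h30 : h ≠ 30) (hm : m < 664)
    (hx : x < h / 2) (hi : Nat.testBit (fld A0 (ty (look (tbl h) m))) i = true) :
    Nat.testBit (As (h - 2 - x) (ty (two x (h - 2 - x) m))) i = false := by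
  have h1 := allb_spec DKCheckA.P_all (h - 2) (by omega)
  have e1 : Nat.add (h - 2) 2 = h := by
    change h - 2 + 2 = h
    omega
  rw [e1] at h1
  unfold okP at h1
  rw [beq_false h30] at h1
  have h3 := allb_spec h1 m hm
  rw [frc_eq] at h3
  have h4 := skip_spec h3 hi
  exact land_zero_bit (allb_spec h4 x hx) hi

lemma chkP30_spec {m x i : ℕ} (hm : m < 664) (hx : x < 15)
    (hi : Nat.testBit (fld A0 (ty m)) i = true) :
    Nat.testBit (fld C0 (ty (two x (28 - x) m))) i = false := by
  have h3 := allb_spec DKCheckA.P_30 m hm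
  rw [frc_eq] at h3
  have h4 := skip_spec h3 hi
  exact land_zero_bit (allb_spec h4 x hx) hi

lemma chkP34_spec {m x i : ℕ} (hm : m < 664) (hx : x < 17)
    (hi : Nat.testBit (fld A0 (ty m)) i = true) :
    Nat.testBit (Bs (32 - x) (ty (two x (32 - x) m))) i = false := by
  have h3 := allb_spec DKCheckA.P_34 m hm
  rw [frc_eq] at h3
  have h4 := skip_spec h3 hi
  exact land_zero_bit (allb_spec h4 x hx) hi

/-! ### The claimed outcome of a position -/

/-- The claimed outcome: true for P-positions. -/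
def out (G : Multiset ℕ) : Bool := f (code (ty (cls G))) (G.count 34) (G.count 30)

/-- All heaps have sizes in `1, ..., 32, 34`. -/
def Ok (G : Multiset ℕ) : Prop := ∀ h ∈ G, 1 ≤ h ∧ (h ≤ 32 ∨ h = 34)

lemma two_lt {x y m : ℕ} (hx : x < 33) (hy : y < 33) (hm : m < 664) : two x y m < 664 :=
  look_lt hx (look_lt hy hm)

lemma cls_rest {R : Multiset ℕ} {x y : ℕ} (hx : x < 33) (hy : y < 33) :
    cls (R + rest x y) = two x y (cls R) := by
  rw [cls_add_rest, act_eq hy (cls_lt R), act_eq hx (look_lt hy (cls_lt R))]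
  rfl

lemma P_dir {G G' : Multiset ℕ} (hG : Ok G) (hF : out G = true) (hm : Move G G') :
    out G' = false := by
  obtain ⟨x, y, hxy, hmem, rfl⟩ := move_inv hm
  obtain ⟨R, rfl⟩ := Multiset.exists_cons_of_mem hmem
  rw [Multiset.erase_cons_head]
  have hh := hG _ hmem
  have hml : cls R < 664 := cls_lt R
  unfold out at hF ⊢
  rw [cls_cons] at hF
  have hx : x < 33 := by omega
  have hy : y < 33 := by omega
  rw [cls_rest hx hy, Multiset.count_add, Multiset.count_add, count_rest (by norm_num),
    count_rest (by norm_num)]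
  have hx34 : ¬ 34 = x := by omega
  have hy34 : ¬ 34 = y := by omega
  have hx30 : ¬ 30 = x := by omega
  rw [if_neg hx34, if_neg hy34, if_neg hx30]
  have ecomm : (if 30 = y then 1 else 0) = (if y = 30 then 1 else 0) := by
    by_cases h : y = 30
    · rw [if_pos h, if_pos h.symm]
    · rw [if_neg h, if_neg (fun h' => h h'.symm)]
  rw [ecomm]
  simp only [add_zero, zero_add]
  by_cases h34 : x + y + 2 = 34
  · have ey : y = 32 - x := by omega
    rw [h34, Multiset.count_cons_self, Multiset.count_cons_of_ne (by norm_num), act_34] at hF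
    obtain ⟨k', hk', j', hj', hloc⟩ := exists_loc (R.count 34 + 1) (R.count 30)
    have b1 : Nat.testBit (fld A0 (ty (cls R))) (10 * k' + j') = true := by
      rw [DKMask.A0_spec _ (ty_lt hml) k' hk' j' hj', loc_f hloc]
      exact hF
    have b2 := chkP34_spec (x := x) hml (by omega) b1
    rw [← ey, Bs_bit (ty_lt (two_lt hx hy hml)) hk' hj'] at b2
    have hk1 : 1 ≤ k' := (hloc.2.2.1).mp (by omega)
    rw [decide_eq_true hk1, Bool.true_and,
      loc_k hloc (by omega) _ _ (ite_le_one _)] at b2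
    exact b2
  by_cases h30 : x + y + 2 = 30
  · have ey : y = 28 - x := by omega
    rw [h30, Multiset.count_cons_self, Multiset.count_cons_of_ne (by norm_num),
      act_30 _ hml] at hF
    obtain ⟨k', hk', j', hj', hloc⟩ := exists_loc (R.count 34) (R.count 30 + 1)
    have b1 : Nat.testBit (fld A0 (ty (cls R))) (10 * k' + j') = true := by
      rw [DKMask.A0_spec _ (ty_lt hml) k' hk' j' hj', loc_f hloc]
      exact hF
    have b2 := chkP30_spec (x := x) hml (by omega) b1
    rw [← ey, DKMask.C0_spec _ (ty_lt (two_lt hx hy hml)) k' hk' j' hj'] at b2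
    have hj1 : 1 ≤ j' := (hloc.2.2.2.1).mp (by omega)
    rw [decide_eq_true hj1, Bool.true_and, loc_j hloc (by omega)] at b2
    have hy30 : ¬ y = 30 := by omega
    rw [if_neg hy30, add_zero]
    exact b2
  · have hle : x + y + 2 ≤ 32 := by omega
    rw [Multiset.count_cons_of_ne (by omega), Multiset.count_cons_of_ne (by omega),
      act_eq (by omega) hml] at hF
    obtain ⟨k', hk', j', hj', hloc⟩ := exists_loc (R.count 34) (R.count 30)
    have b1 : Nat.testBit (fld A0 (ty (look (tbl (x + y + 2)) (cls R)))) (10 * k' + j')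
        = true := by
      rw [DKMask.A0_spec _ (ty_lt (look_lt (by omega) hml)) k' hk' j' hj', loc_f hloc]
      exact hF
    have b2 := chkP_spec (x := x) (by omega) hle h30 hml (by omega) b1
    have ey : x + y + 2 - 2 - x = y := by omega
    rw [ey, As_bit (ty_lt (two_lt hx hy hml)) hk' hj', loc_f1 hloc _ _ (ite_le_one _)] at b2
    exact b2

end Pool.Agent.Helper71.DKOut
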