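import Mathlib
import Pool.Agent.Helper71.DKOut

/-!
Every claimed N-position has an option claimed to be P; the outcome theorem.
-/

namespace Pool.Agent.Helper71.DKWin

open Pool.Agent.Helper71.DKDefs Pool.Agent.Helper71.DKData Pool.Agent.Helper71.DKFun
  Pool.Agent.Helper71.DKPat Pool.Agent.Helper71.DKMain Pool.Agent.Helper71.DKOut

/-! ### Closure of the families of option sets -/

/-- The value added to the code of an option when it contains a heap 30. -/
def s30 (y : ℕ) : ℕ := if y = 30 then 664 else 0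

lemma om_bit {h m i : ℕ} (hi : Nat.testBit (om h m) i = true) :
    ∃ x < h / 2, two x (h - 2 - x) m + s30 (h - 2 - x) = i := by
  obtain ⟨x, hx, h1⟩ := orb_bit hi
  refine ⟨x, hx, ?_⟩
  rw [shift_bit] at h1
  rw [← h1]
  unfold s30
  by_cases hy : h - 2 - x = 30
  · rw [if_pos hy]
    change two x (h - 2 - x) m + 664 = two x (h - 2 - x) m +
      (match Nat.beq (h - 2 - x) 30 with | true => 664 | false => 0)
    rw [hy]
  · rw [if_neg hy]
    change two x (h - 2 - x) m + 0 = two x (h - 2 - x) m +
      (match Nat.beq (h - 2 - x) 30 with | true => 664 | false => 0)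
    rw [beq_false hy]

lemma zipc_spec : ∀ {l l' : List ℕ}, zipc l l' = true → ∀ c' ∈ l', ∃ c ∈ l,
    sub (dec 40 c) c' = true := by
  intro l
  induction l with
  | nil =>
    intro l' h c' hc'
    cases l' with
    | nil => simp at hc'
    | cons a t => exact absurd h (by simp [zipc])
  | cons a t ih =>
    intro l' h c' hc'
    cases l' with
    | nil => simp at hc'
    | cons a' t' =>
      have h' : (match sub (dec 40 a) a' with | true => zipc t t' | false => false) = true := h
      cases hp : sub (dec 40 a) a' with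
      | false => rw [hp] at h'; simp at h'
      | true =>
        rw [hp] at h'
        simp only at h'
        rw [List.mem_cons] at hc'
        rcases hc' with rfl | hc'
        · exact ⟨a, List.mem_cons_self, hp⟩
        · obtain ⟨c, h1, h2⟩ := ih h' c' hc'
          exact ⟨c, List.mem_cons_of_mem _ h1, h2⟩

lemma covered_spec {m I : ℕ} (hm : m < 664) (h : covered m I = true) :
    ∃ c ∈ fam m, ∀ e ∈ dec 40 c, Nat.testBit I e = true := by
  obtain ⟨μ, h1, h2⟩ := anyl_spec h
  obtain ⟨c, h3, h4⟩ := zipc_spec (allb_spec DKCheckB.M_all m hm) μ h1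
  exact ⟨c, h3, fun e he => land_sub_bit h2 (sub_bit h4 e he)⟩

/-- The families are closed under adding the heap `h`. -/
def Cl (h : ℕ) : Prop := ∀ m < 664, ∀ c ∈ fam m, ∀ Q : ℕ → Prop,
  (∀ e ∈ dec 40 c, Q (look (tbl h) (e % 664) + 664 * (e / 664))) →
  (∀ x < h / 2, Q (two x (h - 2 - x) m + s30 (h - 2 - x))) →
  ∃ c' ∈ fam (look (tbl h) m), ∀ e ∈ dec 40 c', Q e

lemma cl_of_T {h : ℕ} (hh : h < 33) (hT : chkT h = true) : Cl h := by
  intro m hm c hc Q hQ1 hQ2
  have h1 := allb_spec hT m hm
  rw [frc_eq, frc_eq] at h1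
  have h2 := alll_spec h1 c hc
  rw [frc_eq] at h2
  obtain ⟨c', h3, h4⟩ := covered_spec (look_lt hh hm) h2
  refine ⟨c', h3, ?_⟩
  intro e he
  rcases orl_bit (h4 e he) with h5 | ⟨e', he', h5⟩
  · obtain ⟨x, hx, h6⟩ := om_bit h5
    rw [← h6]
    exact hQ2 x hx
  · unfold shf at h5
    rw [shift_bit] at h5
    rw [← h5]
    exact hQ1 e' he'

lemma cl_of_O {h h' : ℕ} (hO : chkO h h' = true) (hC : Cl h') : Cl h := by
  unfold chkO at hO
  cases hp : Nat.beq (tbl h) (tbl h') with
  | false => rw [hp] at hO; simp at hO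
  | true =>
    rw [hp] at hO
    simp only at hO
    have ht := Nat.eq_of_beq_eq_true hp
    intro m hm c hc Q hQ1 hQ2
    rw [ht] at hQ1 ⊢
    refine hC m hm c hc Q hQ1 ?_
    intro x hx
    have hb : Nat.testBit (om h' m) (two x (h' - 2 - x) m + s30 (h' - 2 - x)) = true := by
      refine bit_orb hx ?_
      rw [shift_bit]
      unfold s30
      by_cases hy : h' - 2 - x = 30
      · rw [if_pos hy]
        change two x (h' - 2 - x) m +
          (match Nat.beq (h' - 2 - x) 30 with | true => 664 | false => 0) =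
            two x (h' - 2 - x) m + 664
        rw [hy]
      · rw [if_neg hy]
        change two x (h' - 2 - x) m +
          (match Nat.beq (h' - 2 - x) 30 with | true => 664 | false => 0) =
            two x (h' - 2 - x) m + 0
        rw [beq_false hy]
    obtain ⟨x', hx', h6⟩ := om_bit (land_sub_bit (allb_spec hO m hm) hb)
    rw [← h6]
    exact hQ2 x' hx'

lemma cl_of_I {h : ℕ} (hI : Nat.beq (tbl h) (tbl 0) = true) : Cl h := by
  have ht := Nat.eq_of_beq_eq_true hI
  intro m hm c hc Q hQ1 _
  rw [ht, look_id hm]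
  refine ⟨c, hc, ?_⟩
  intro e he
  have h1 := hQ1 e he
  rw [ht, look_id (Nat.mod_lt _ (by norm_num)), Nat.mod_add_div] at h1
  exact h1

lemma cl_all {h : ℕ} (h2 : 2 ≤ h) (h32 : h ≤ 32) (h30 : h ≠ 30) : Cl h := by
  interval_cases h
  · exact cl_of_T (by norm_num) DKCheckT1.T_2
  · exact cl_of_O DKCheckB.O_3 (cl_of_T (by norm_num) DKCheckT1.T_2)
  · exact cl_of_T (by norm_num) DKCheckT1.T_4
  · exact cl_of_I DKCheckB.I_5
  · exact cl_of_T (by norm_num) DKCheckT1.T_6
  · exact cl_of_O DKCheckB.O_7 (cl_of_T (by norm_num) DKCheckT1.T_2)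
  · exact cl_of_O DKCheckB.O_8 (cl_of_T (by norm_num) DKCheckT1.T_2)
  · exact cl_of_I DKCheckB.I_9
  · exact cl_of_T (by norm_num) DKCheckT1.T_10
  · exact cl_of_O DKCheckB.O_11 (cl_of_T (by norm_num) DKCheckT1.T_6)
  · exact cl_of_T (by norm_num) DKCheckT1.T_12
  · exact cl_of_O DKCheckB.O_13 (cl_of_T (by norm_num) DKCheckT1.T_4)
  · exact cl_of_T (by norm_num) DKCheckT2.T_14
  · exact cl_of_I DKCheckB.I_15
  · exact cl_of_T (by norm_num) DKCheckT2.T_16
  · exact cl_of_T (by norm_num) DKCheckT2.T_17
  · exact cl_of_O DKCheckB.O_18 (cl_of_T (by norm_num) DKCheckT1.T_4)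
  · exact cl_of_T (by norm_num) DKCheckT2.T_19
  · exact cl_of_O DKCheckB.O_20 (cl_of_T (by norm_num) DKCheckT1.T_6)
  · exact cl_of_T (by norm_num) DKCheckT2.T_21
  · exact cl_of_T (by norm_num) DKCheckT3.T_22
  · exact cl_of_T (by norm_num) DKCheckT3.T_23
  · exact cl_of_T (by norm_num) DKCheckT3.T_24
  · exact cl_of_T (by norm_num) DKCheckT3.T_25
  · exact cl_of_O DKCheckB.O_26 (cl_of_T (by norm_num) DKCheckT1.T_12)
  · exact cl_of_T (by norm_num) DKCheckT3.T_27
  · exact cl_of_T (by norm_num) DKCheckT4.T_28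
  · exact cl_of_T (by norm_num) DKCheckT4.T_29
  · exact absurd rfl h30
  · exact cl_of_T (by norm_num) DKCheckT4.T_31
  · exact cl_of_T (by norm_num) DKCheckT4.T_32

lemma start_spec {h : ℕ} (h2 : 2 ≤ h) (h32 : h ≤ 32) (h30 : h ≠ 30) (Q : ℕ → Prop)
    (hQ : ∀ x < h / 2, Q (two x (h - 2 - x) e0 + s30 (h - 2 - x))) :
    ∃ c' ∈ fam (look (tbl h) e0), ∀ e ∈ dec 40 c', Q e := by
  have h1 := allb_spec DKCheckB.S_all (h - 2) (by omega)
  have e1 : Nat.add (h - 2) 2 = h := by
    change h - 2 + 2 = h
    omega
  rw [e1] at h1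
  unfold okS at h1
  rw [beq_false h30] at h1
  obtain ⟨c', h3, h4⟩ := covered_spec (look_lt (by omega) e0_lt) h1
  refine ⟨c', h3, ?_⟩
  intro e he
  obtain ⟨x, hx, h6⟩ := om_bit (h4 e he)
  rw [← h6]
  exact hQ x hx

/-! ### The options of a position -/

/-- `e` is the code of an option of `G`. -/
def Opt (G : Multiset ℕ) (e : ℕ) : Prop :=
  ∃ G', Move G G' ∧ cls G' = e % 664 ∧ G'.count 30 = G.count 30 + e / 664 ∧
    G'.count 34 = G.count 34

/-- `G` has no heaps other than `1, 30, 34`, or some option set in the family of its class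
consists of options of `G`. -/
def Inv (G : Multiset ℕ) : Prop :=
  (∀ h ∈ G, h = 1 ∨ h = 30 ∨ h = 34) ∨ ∃ c ∈ fam (cls G), ∀ e ∈ dec 40 c, Opt G e

lemma opt_cons_triv {G : Multiset ℕ} {a e : ℕ} (ha : ∀ m < 664, act a m = m) (h : Opt G e) :
    Opt (a ::ₘ G) e := by
  obtain ⟨G', h1, h2, h3, h4⟩ := h
  refine ⟨a ::ₘ G', move_cons h1 a, ?_, ?_, ?_⟩
  · rw [cls_cons, ha _ (cls_lt G'), h2]
  · rw [Multiset.count_cons, Multiset.count_cons, h3]
    omega
  · rw [Multiset.count_cons, Multiset.count_cons, h4]

lemma opt_cons {G : Multiset ℕ} {a e : ℕ} (ha : a ≤ 32) (ha30 : a ≠ 30) (h : Opt G e) :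
    Opt (a ::ₘ G) (look (tbl a) (e % 664) + 664 * (e / 664)) := by
  obtain ⟨G', h1, h2, h3, h4⟩ := h
  have hlt : look (tbl a) (e % 664) < 664 := look_lt (by omega) (Nat.mod_lt _ (by norm_num))
  refine ⟨a ::ₘ G', move_cons h1 a, ?_, ?_, ?_⟩
  · rw [cls_cons, act_eq (by omega) (cls_lt G'), h2]
    omega
  · rw [Multiset.count_cons_of_ne (Ne.symm ha30), Multiset.count_cons_of_ne (Ne.symm ha30), h3]
    omega
  · rw [Multiset.count_cons_of_ne (by omega), Multiset.count_cons_of_ne (by omega), h4]

lemma opt_new {G : Multiset ℕ} {a x : ℕ} (ha2 : 2 ≤ a) (ha : a ≤ 32) (ha30 : a ≠ 30)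
    (hx : x < a / 2) : Opt (a ::ₘ G) (two x (a - 2 - x) (cls G) + s30 (a - 2 - x)) := by
  have hsum : x + (a - 2 - x) + 2 = a := by omega
  have hmem : x + (a - 2 - x) + 2 ∈ a ::ₘ G := by rw [hsum]; exact Multiset.mem_cons_self _ _
  have hmv := move_rest hmem
  rw [hsum, Multiset.erase_cons_head] at hmv
  have hlt : two x (a - 2 - x) (cls G) < 664 := two_lt (by omega) (by omega) (cls_lt G)
  refine ⟨G + rest x (a - 2 - x), hmv, ?_, ?_, ?_⟩
  · rw [cls_rest (by omega) (by omega)]
    unfold s30
    split_ifs <;> omega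
  · rw [Multiset.count_add, count_rest (by norm_num),
      Multiset.count_cons_of_ne (Ne.symm ha30), if_neg (by omega)]
    unfold s30
    by_cases hy : a - 2 - x = 30
    · rw [if_pos hy, if_pos hy.symm]
      omega
    · rw [if_neg hy, if_neg (Ne.symm hy)]
      omega
  · rw [Multiset.count_add, count_rest (by norm_num), Multiset.count_cons_of_ne (by omega),
      if_neg (by omega), if_neg (by omega)]
    rfl

lemma cls_triv {G : Multiset ℕ} (h : ∀ a ∈ G, a = 1 ∨ a = 30 ∨ a = 34) : cls G = e0 := by
  induction G using Multiset.induction_on with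
  | empty => exact cls_zero
  | cons a G ih =>
    rw [cls_cons, ih (fun b hb => h b (Multiset.mem_cons_of_mem hb))]
    rcases h a (Multiset.mem_cons_self a G) with rfl | rfl | rfl
    · exact act_1 _ e0_lt
    · exact act_30 _ e0_lt
    · exact act_34 _

lemma inv_all {G : Multiset ℕ} (hG : Ok G) : Inv G := by
  induction G using Multiset.induction_on with
  | empty => exact Or.inl (fun h hh => absurd hh (Multiset.notMem_zero h))
  | cons a G ih =>
    have hG' : Ok G := fun b hb => hG b (Multiset.mem_cons_of_mem hb)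
    have ha := hG a (Multiset.mem_cons_self a G)
    by_cases htriv : a = 1 ∨ a = 30 ∨ a = 34
    · have hact : ∀ m < 664, act a m = m := by
        intro m hm
        rcases htriv with rfl | rfl | rfl
        · exact act_1 m hm
        · exact act_30 m hm
        · exact act_34 m
      rcases ih hG' with h | ⟨c, h1, h2⟩
      · left
        intro b hb
        rw [Multiset.mem_cons] at hb
        rcases hb with rfl | hb
        · exact htriv
        · exact h b hb
      · right
        refine ⟨c, ?_, fun e he => opt_cons_triv hact (h2 e he)⟩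
        rw [cls_cons, hact _ (cls_lt G)]
        exact h1
    · right
      have ha2 : 2 ≤ a := by omega
      have ha32 : a ≤ 32 := by omega
      have ha30 : a ≠ 30 := by omega
      rw [cls_cons, act_eq (by omega) (cls_lt G)]
      rcases ih hG' with h | ⟨c, h1, h2⟩
      · have hc := cls_triv h
        rw [hc]
        refine start_spec ha2 ha32 ha30 (Opt (a ::ₘ G)) ?_
        intro x hx
        have := opt_new (G := G) ha2 ha32 ha30 hx
        rw [hc] at this
        exact this
      · exact cl_all ha2 ha32 ha30 (cls G) (cls_lt G) c h1 (Opt (a ::ₘ G))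
          (fun e he => opt_cons ha32 ha30 (h2 e he))
          (fun x hx => opt_new ha2 ha32 ha30 hx)

/-! ### Every claimed N-position with a move has an option claimed to be P -/

lemma move_of_mem {G : Multiset ℕ} {a : ℕ} (ha : a ∈ G) (h2 : 2 ≤ a) : ∃ G', Move G G' := by
  have hsum : 0 + (a - 2) + 2 = a := by omega
  exact ⟨_, move_rest (x := 0) (y := a - 2) (by rw [hsum]; exact ha)⟩

lemma no_move {G : Multiset ℕ} (h : ∀ a ∈ G, a ≤ 1) : ¬ ∃ G', Move G G' := by
  rintro ⟨G', hm⟩
  obtain ⟨x, y, -, hmem, -⟩ := move_inv hm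
  have := h _ hmem
  omega

/-- The case where the bit of an option in a heap 30 or 34 is set. -/
lemma XY_win {G : Multiset ℕ} (hF : out G = false) {k' j' : ℕ} (hk' : k' < 10)
    (hj' : j' < 10) (hloc : Loc (G.count 34) (G.count 30) k' j')
    (hb : Nat.testBit (XY (cls G)) (10 * k' + j') = true) :
    ∃ G', Move G G' ∧ out G' = true := by
  have hml : cls G < 664 := cls_lt G
  unfold XY at hb
  rcases lor_bit hb with h | h
  · rw [DKMask.A0_spec _ (ty_lt hml) k' hk' j' hj', loc_f hloc] at h
    unfold out at hF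
    rw [h] at hF
    exact absurd hF (by simp)
  rcases lor_bit h with h | h
  · obtain ⟨x, hx, h1⟩ := orb_bit h
    change Nat.testBit (fld C0 (ty (two x (28 - x) (cls G)))) (10 * k' + j') = true at h1
    rw [DKMask.C0_spec _ (ty_lt (two_lt (by omega) (by omega) hml)) k' hk' j' hj',
      Bool.and_eq_true, decide_eq_true_iff] at h1
    obtain ⟨h2, h3⟩ := h1
    have hj1 : 1 ≤ G.count 30 := (hloc.2.2.2.1).mpr h2
    rw [loc_j hloc hj1] at h3
    have hmem30 : 30 ∈ G := Multiset.one_le_count_iff_mem.mp hj1
    obtain ⟨R, rfl⟩ := Multiset.exists_cons_of_mem hmem30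
    have hsum : x + (28 - x) + 2 = 30 := by omega
    have hmv := move_rest (G := 30 ::ₘ R) (x := x) (y := 28 - x) (by rw [hsum]; exact hmem30)
    rw [hsum, Multiset.erase_cons_head] at hmv
    refine ⟨_, hmv, ?_⟩
    unfold out
    rw [cls_rest (by omega) (by omega), Multiset.count_add, Multiset.count_add,
      count_rest (by norm_num), count_rest (by norm_num), if_neg (by omega), if_neg (by omega),
      if_neg (by omega), if_neg (by omega)]
    rw [cls_cons, act_30 _ (cls_lt R), Multiset.count_cons_self,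
      Multiset.count_cons_of_ne (by norm_num)] at h3
    exact h3
  · obtain ⟨x, hx, h1⟩ := orb_bit h
    change Nat.testBit (Bs (32 - x) (ty (two x (32 - x) (cls G)))) (10 * k' + j') = true at h1
    rw [Bs_bit (ty_lt (two_lt (by omega) (by omega) hml)) hk' hj',
      Bool.and_eq_true, decide_eq_true_iff] at h1
    obtain ⟨h2, h3⟩ := h1
    have hk1 : 1 ≤ G.count 34 := (hloc.2.2.1).mpr h2
    rw [loc_k hloc hk1 _ _ (ite_le_one _)] at h3
    have hmem34 : 34 ∈ G := Multiset.one_le_count_iff_mem.mp hk1
    obtain ⟨R, rfl⟩ := Multiset.exists_cons_of_mem hmem34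
    have hsum : x + (32 - x) + 2 = 34 := by omega
    have hmv := move_rest (G := 34 ::ₘ R) (x := x) (y := 32 - x) (by rw [hsum]; exact hmem34)
    rw [hsum, Multiset.erase_cons_head] at hmv
    refine ⟨_, hmv, ?_⟩
    unfold out
    rw [cls_rest (by omega) (by omega), Multiset.count_add, Multiset.count_add,
      count_rest (by norm_num), count_rest (by norm_num), if_neg (by omega), if_neg (by omega),
      if_neg (by omega)]
    rw [cls_cons, act_34, Multiset.count_cons_self,
      Multiset.count_cons_of_ne (by norm_num)] at h3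
    by_cases hy : 32 - x = 30
    · rw [if_pos hy.symm]
      rw [if_pos hy] at h3
      exact h3
    · rw [if_neg (Ne.symm hy)]
      rw [if_neg hy] at h3
      exact h3

lemma N_dir {G : Multiset ℕ} (hG : Ok G) (hF : out G = false) (hmove : ∃ G', Move G G') :
    ∃ G', Move G G' ∧ out G' = true := by
  obtain ⟨k', hk', j', hj', hloc⟩ := exists_loc (G.count 34) (G.count 30)
  have hml : cls G < 664 := cls_lt G
  have hfull : Nat.testBit FULL (10 * k' + j') = true :=
    DKMask.full_spec _ (by omega)
  rcases inv_all hG with h | ⟨c, h1, h2⟩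
  · have hc := cls_triv h
    have h3 := Nat.eq_of_beq_eq_true DKCheckB.N_start
    rw [← h3] at hfull
    rcases lor_bit hfull with h4 | h4
    · rw [← hc] at h4
      exact XY_win hF hk' hj' hloc h4
    · exfalso
      have h5 : 10 * k' + j' = 0 := by
        have : Nat.testBit (2 ^ 0) (10 * k' + j') = true := h4
        rw [Nat.testBit_two_pow, decide_eq_true_iff] at this
        exact this.symm
      have hk0 : ¬ 1 ≤ G.count 34 := fun h => by
        have := (hloc.2.2.1).mp h
        omega
      have hj0 : ¬ 1 ≤ G.count 30 := fun h => by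
        have := (hloc.2.2.2.1).mp h
        omega
      refine no_move ?_ hmove
      intro a ha
      rcases h a ha with rfl | rfl | rfl
      · exact le_refl _
      · exact absurd (Multiset.one_le_count_iff_mem.mpr ha) hj0
      · exact absurd (Multiset.one_le_count_iff_mem.mpr ha) hk0
  · have h3 := allb_spec DKCheckB.N_all (cls G) hml
    unfold chkN at h3
    rw [frc_eq] at h3
    have h4 := Nat.eq_of_beq_eq_true (alll_spec h3 c h1)
    rw [← h4] at hfull
    rcases orl_bit hfull with h5 | ⟨e, he, h5⟩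
    · exact XY_win hF hk' hj' hloc h5
    · have hlt : e < 1328 := by
        have h6 := alll_spec (alll_spec (allb_spec DKCheckB.E_all (cls G) hml) c h1) e he
        have h7 : Nat.blt e 1328 = true := h6
        rwa [Nat.blt_eq] at h7
      rw [emask_bit hlt hk' hj', loc_f1 hloc _ _ (by omega)] at h5
      obtain ⟨G', g1, g2, g3, g4⟩ := h2 e he
      refine ⟨G', g1, ?_⟩
      unfold out
      rw [g2, g3, g4]
      exact h5

/-! ### The outcome theorem -/

lemma ok_move {G G' : Multiset ℕ} (hG : Ok G) (hm : Move G G') : Ok G' := by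
  obtain ⟨x, y, hxy, hmem, rfl⟩ := move_inv hm
  intro z hz
  rw [Multiset.mem_add] at hz
  rcases hz with hz | hz
  · exact hG z (Multiset.mem_of_mem_erase hz)
  · have h1 := rest_pos hz
    have h2 := rest_le hz
    have h3 := hG _ hmem
    omega

lemma out_terminal {G : Multiset ℕ} (hG : Ok G) (h : ¬ ∃ G', Move G G') : out G = false := by
  have h1 : ∀ a ∈ G, a = 1 := by
    intro a ha
    by_contra hne
    have := hG a ha
    exact h (move_of_mem ha (by omega))
  have hc : cls G = e0 := cls_triv (fun a ha => Or.inl (h1 a ha))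
  have c34 : G.count 34 = 0 := by
    rw [Multiset.count_eq_zero]
    intro hm
    have := h1 34 hm
    omega
  have c30 : G.count 30 = 0 := by
    rw [Multiset.count_eq_zero]
    intro hm
    have := h1 30 hm
    omega
  unfold out
  rw [hc, c34, c30]
  decide +kernel

/-- The misere outcome of every position with heaps of sizes `1, ..., 32, 34`. -/
theorem outcome : ∀ (n : ℕ) (G : Multiset ℕ), G.sum = n → Ok G →
    (MisereP G ↔ out G = true) := by
  intro n
  induction n using Nat.strong_induction_on with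
  | _ n ih =>
    intro G hn hG
    rw [MisereP]
    constructor
    · rintro ⟨hmove, hall⟩
      by_contra hF
      rw [Bool.not_eq_true] at hF
      obtain ⟨G', h1, h2⟩ := N_dir hG hF hmove
      exact hall G' h1 ((ih G'.sum (by rw [← hn]; exact h1.sum_lt) G' rfl
        (ok_move hG h1)).mpr h2)
    · intro hF
      constructor
      · by_contra h
        rw [out_terminal hG h] at hF
        exact absurd hF (by simp)
      · intro G' h1 h2
        have h3 := (ih G'.sum (by rw [← hn]; exact h1.sum_lt) G' rfl (ok_move hG h1)).mp h2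
        rw [P_dir hG hF h1] at h3
        exact absurd h3 (by simp)

/-! ### The powers of the heap 34 -/

/-- The position with `k` heaps 34, `j` heaps 30 and one heap of each of the sizes 2, 4, 25. -/
def test (k j : ℕ) : Multiset ℕ :=
  Multiset.replicate k 34 + (Multiset.replicate j 30 + (2 ::ₘ 4 ::ₘ {25}))

lemma cls_rep_add (a k : ℕ) (G : Multiset ℕ) (ha : ∀ m < 664, act a m = m) :
    cls (Multiset.replicate k a + G) = cls G := by
  induction k with
  | zero => rw [Multiset.replicate_zero, zero_add]
  | succ k ih =>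
    rw [Multiset.replicate_succ, Multiset.cons_add, cls_cons, ha _ (cls_lt _), ih]

lemma test_out {k : ℕ} (hk : 3 ≤ k) (j : ℕ) : out (test k j) = decide (j + 2 ≤ k) := by
  unfold out test
  rw [cls_rep_add 34 k _ (fun m _ => act_34 m), cls_rep_add 30 j _ act_30]
  have c34 : (Multiset.replicate k 34 + (Multiset.replicate j 30 + (2 ::ₘ 4 ::ₘ {25}))).count 34
      = k := by
    rw [Multiset.count_add, Multiset.count_add, Multiset.count_replicate_self,
      Multiset.count_replicate]
    simp
  have c30 : (Multiset.replicate k 34 + (Multiset.replicate j 30 + (2 ::ₘ 4 ::ₘ {25}))).count 30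
      = j := by
    rw [Multiset.count_add, Multiset.count_add, Multiset.count_replicate_self,
      Multiset.count_replicate]
    simp
  rw [c34, c30]
  have hc : code (ty (cls (2 ::ₘ 4 ::ₘ {25}))) / 4096 = 4 := by decide +kernel
  unfold f
  rw [if_neg (by omega), hc]
  rfl

lemma test_ok (k j : ℕ) : Ok (test k j) := by
  intro h hh
  unfold test at hh
  rw [Multiset.mem_add, Multiset.mem_add, Multiset.mem_replicate, Multiset.mem_replicate,
    Multiset.mem_cons, Multiset.mem_cons, Multiset.mem_singleton] at hh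
  omega

/-- The position `k` heaps 34, `j` heaps 30 and heaps 2, 4, 25 is a P-position if and only if
`j + 2 ≤ k`, for all `k ≥ 3`. -/
theorem test_P {k : ℕ} (hk : 3 ≤ k) (j : ℕ) : MisereP (test k j) ↔ j + 2 ≤ k := by
  rw [outcome _ _ rfl (test_ok k j), test_out hk, decide_eq_true_iff]

end Pool.Agent.Helper71.DKWin
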