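import Mathlib
import Pool.Agent.Helper71.Polyomino

/-!
Concatenation (supermultiplicativity of `t`) and balanced splitting of polyominoes
(an almost-submultiplicativity of `t`).
-/

namespace Pool.Agent.Helper71.Polyomino

/-! ### Concatenation -/

/-- `p` is the top point of `S`: its highest row, rightmost in that row. -/
def IsTop (S : Finset Cell) (p : Cell) : Prop :=
  p ∈ S ∧ ∀ q ∈ S, q.2 < p.2 ∨ (q.2 = p.2 ∧ q.1 ≤ p.1)

lemma exists_isTop {S : Finset Cell} (h : S.Nonempty) : ∃ p, IsTop S p := by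
  classical
  obtain ⟨q, hq, hqmax⟩ := S.exists_max_image (fun p => p.2) h
  obtain ⟨p, hp, hpmax⟩ := (S.filter (fun p => p.2 = q.2)).exists_max_image (fun p => p.1)
    ⟨q, by simp [hq]⟩
  rw [Finset.mem_filter] at hp
  refine ⟨p, hp.1, ?_⟩
  intro r hr
  have h1 := hqmax r hr
  rcases lt_or_eq_of_le h1 with h2 | h2
  · left; rw [hp.2]; exact h2
  · right
    exact ⟨by rw [hp.2]; exact h2, hpmax r (by rw [Finset.mem_filter]; exact ⟨hr, h2⟩)⟩

/-- The order on cells used for concatenation. -/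
def LexLt (p q : Cell) : Prop := p.2 < q.2 ∨ (p.2 = q.2 ∧ p.1 < q.1)

lemma initial_unique {A B A' B' : Finset Cell} (hc : A.card = A'.card)
    (h : ∀ a ∈ A, ∀ b ∈ B, LexLt a b) (h' : ∀ a ∈ A', ∀ b ∈ B', LexLt a b)
    (hU : ∀ p, (p ∈ A ∨ p ∈ B) ↔ (p ∈ A' ∨ p ∈ B')) : A = A' := by
  classical
  by_contra hne
  have h1 : ∃ a ∈ A, a ∉ A' := by
    by_contra hcon
    push Not at hcon
    exact hne (Finset.eq_of_subset_of_card_le hcon hc.ge)
  have h2 : ∃ a ∈ A', a ∉ A := by
    by_contra hcon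
    push Not at hcon
    exact hne (Finset.eq_of_subset_of_card_le hcon hc.le).symm
  obtain ⟨a, ha, ha'⟩ := h1
  obtain ⟨b, hb, hb'⟩ := h2
  have h3 : a ∈ B' := ((hU a).mp (Or.inl ha)).resolve_left ha'
  have h4 : b ∈ B := ((hU b).mpr (Or.inl hb)).resolve_left hb'
  have h5 := h a ha b h4
  have h6 := h' b hb a h3
  unfold LexLt at h5 h6
  omega

/-- Supermultiplicativity. -/
theorem t_mul_le (m n : ℕ) : t m * t n ≤ t (m + n) := by
  classical
  rw [t_eq, t_eq, t_eq, ← Finset.card_product]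
  have hex : ∀ A : Finset Cell, A ∈ Nf m → ∃ p, IsTop A p := by
    intro A hA
    exact exists_isTop (mem_Nf.mp hA).2.1.1
  choose! top htop using hex
  have hlt : ∀ A ∈ Nf m, ∀ B ∈ Nf n, ∀ a ∈ A, ∀ b ∈ trans (top A + (1, 0)) B,
      LexLt a b := by
    intro A hA B hB a ha b hb
    rw [mem_trans] at hb
    have h1 := (htop A hA).2 a ha
    have h2 := (mem_Nf.mp hB).2.2.2 _ hb
    unfold LexLt
    simp only [Prod.fst_sub, Prod.snd_sub, Prod.fst_add, Prod.snd_add, Prod.fst_zero,
      Prod.snd_zero] at h2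
    omega
  apply Finset.card_le_card_of_injOn (fun x => x.1 ∪ trans (top x.1 + (1, 0)) x.2)
  · intro x hx
    rw [Finset.mem_coe, Finset.mem_product] at hx
    obtain ⟨hA, hB⟩ := hx
    rw [Finset.mem_coe, mem_Nf]
    refine ⟨?_, ?_, ?_⟩
    · rw [Finset.card_union_of_disjoint, card_trans, (mem_Nf.mp hA).1, (mem_Nf.mp hB).1]
      rw [Finset.disjoint_left]
      intro a ha hb
      have := hlt _ hA _ hB a ha a hb
      unfold LexLt at this
      omega
    · apply (mem_Nf.mp hA).2.1.union ((mem_Nf.mp hB).2.1.trans _)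
      refine ⟨top x.1, (htop _ hA).1, top x.1 + (1, 0), ?_, Or.inr ?_⟩
      · rw [mem_trans, sub_self]
        exact (mem_Nf.mp hB).2.2.1
      · rw [adj_iff_cases]; simp
    · refine ⟨Finset.mem_union_left _ (mem_Nf.mp hA).2.2.1, ?_⟩
      intro q hq
      rw [Finset.mem_union] at hq
      rcases hq with hq | hq
      · exact (mem_Nf.mp hA).2.2.2 q hq
      · have := hlt _ hA _ hB 0 (mem_Nf.mp hA).2.2.1 q hq
        unfold LexLt at this
        omega
  · intro x hx y hy hxy
    rw [Finset.mem_coe, Finset.mem_product] at hx hy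
    have hU : ∀ p, (p ∈ x.1 ∨ p ∈ trans (top x.1 + (1, 0)) x.2) ↔
        (p ∈ y.1 ∨ p ∈ trans (top y.1 + (1, 0)) y.2) := by
      intro p
      rw [← Finset.mem_union, ← Finset.mem_union]
      have h0 : x.1 ∪ trans (top x.1 + (1, 0)) x.2 = y.1 ∪ trans (top y.1 + (1, 0)) y.2 := hxy
      rw [h0]
    have h1 : x.1 = y.1 := initial_unique
      (by rw [(mem_Nf.mp hx.1).1, (mem_Nf.mp hy.1).1]) (hlt _ hx.1 _ hx.2)
      (hlt _ hy.1 _ hy.2) hU
    refine Prod.ext h1 ?_
    apply trans_inj (v := top x.1 + (1, 0))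
    ext p
    have h2 := hU p
    rw [← h1] at h2
    constructor
    · intro h3
      refine (h2.mp (Or.inr h3)).resolve_left ?_
      intro h4
      have := hlt _ hx.1 _ hx.2 p h4 p h3
      unfold LexLt at this
      omega
    · intro h3
      refine (h2.mpr (Or.inr h3)).resolve_left ?_
      intro h4
      have := hlt _ hx.1 _ hy.2 p h4 p h3
      unfold LexLt at this
      omega

/-! ### Splitting -/

/-- The four neighbours of a cell. -/
def nb (v : Cell) : Finset Cell :=
  {(v.1 + 1, v.2), (v.1 - 1, v.2), (v.1, v.2 + 1), (v.1, v.2 - 1)}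

lemma mem_nb {v u : Cell} : u ∈ nb v ↔ cellGraph.Adj v u := by
  rw [adj_iff_cases]
  unfold nb
  simp only [Finset.mem_insert, Finset.mem_singleton, Prod.ext_iff]

lemma card_nb (v : Cell) : (nb v).card ≤ 4 := by
  unfold nb
  refine (Finset.card_insert_le _ _).trans ?_
  refine Nat.succ_le_succ ((Finset.card_insert_le _ _).trans ?_)
  refine Nat.succ_le_succ ((Finset.card_insert_le _ _).trans ?_)
  simp

/-- A maximal connected subset of `R` containing `u`. -/
lemma exists_component (R : Finset Cell) {u : Cell} (hu : u ∈ R) :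
    ∃ K ⊆ R, u ∈ K ∧ Conn K ∧ ∀ a ∈ K, ∀ b ∈ R, b ∉ K → ¬ cellGraph.Adj a b := by
  classical
  let F : Finset (Finset Cell) := R.powerset.filter (fun K => u ∈ K ∧ Conn K)
  have hne : F.Nonempty := ⟨{u}, by
    rw [Finset.mem_filter, Finset.mem_powerset, Finset.singleton_subset_iff]
    exact ⟨hu, by simp, conn_singleton u⟩⟩
  obtain ⟨K, hK, hmax⟩ := F.exists_max_image Finset.card hne
  rw [Finset.mem_filter, Finset.mem_powerset] at hK
  refine ⟨K, hK.1, hK.2.1, hK.2.2, ?_⟩
  intro a ha b hb hbK hab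
  have h1 : insert b K ∈ F := by
    rw [Finset.mem_filter, Finset.mem_powerset]
    refine ⟨?_, Finset.mem_insert_of_mem hK.2.1, ?_⟩
    · rw [Finset.insert_subset_iff]; exact ⟨hb, hK.1⟩
    · rw [Finset.insert_eq]
      exact (conn_singleton b).union hK.2.2 ⟨b, by simp, a, ha, Or.inr hab.symm⟩
  have h2 := hmax _ h1
  rw [Finset.card_insert_of_notMem hbK] at h2
  omega

/-- Removal of some cell keeps a polyomino connected. -/
lemma exists_removable {S : Finset Cell} (h : Conn S) (h2 : 2 ≤ S.card) :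
    ∃ b ∈ S, Conn (S \ {b}) := by
  classical
  obtain ⟨p, hp⟩ := h.1
  let F : Finset (Finset Cell) := S.powerset.filter (fun K => p ∈ K ∧ Conn K ∧ K ≠ S)
  have hne : F.Nonempty := ⟨{p}, by
    rw [Finset.mem_filter, Finset.mem_powerset, Finset.singleton_subset_iff]
    refine ⟨hp, by simp, conn_singleton p, ?_⟩
    rintro rfl
    simp at h2⟩
  obtain ⟨K, hK, hmax⟩ := F.exists_max_image Finset.card hne
  rw [Finset.mem_filter, Finset.mem_powerset] at hK
  obtain ⟨hKS, hpK, hKc, hKne⟩ := hK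
  obtain ⟨a, ha, b, hb, hbK, hab⟩ := h.2 K hKS ⟨p, hpK⟩ hKne
  have h1 : insert b K = S := by
    by_contra hcon
    have h1 : insert b K ∈ F := by
      rw [Finset.mem_filter, Finset.mem_powerset]
      refine ⟨?_, Finset.mem_insert_of_mem hpK, ?_, hcon⟩
      · rw [Finset.insert_subset_iff]; exact ⟨hb, hKS⟩
      · rw [Finset.insert_eq]
        exact (conn_singleton b).union hKc ⟨b, by simp, a, ha, Or.inr hab.symm⟩
    have h2 := hmax _ h1
    rw [Finset.card_insert_of_notMem hbK] at h2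
    omega
  refine ⟨b, hb, ?_⟩
  rw [← h1, Finset.sdiff_singleton_eq_erase, Finset.erase_insert hbK]
  exact hKc

/-- Balanced splitting. -/
theorem split {S : Finset Cell} (h : Conn S) (h2 : 2 ≤ S.card) :
    ∃ A ⊆ S, Conn A ∧ Conn (S \ A) ∧ S.card ≤ 5 * A.card + 1 ∧ 2 * A.card ≤ S.card := by
  classical
  let F : Finset (Finset Cell) := S.powerset.filter
    (fun K => Conn K ∧ Conn (S \ K) ∧ 2 * K.card ≤ S.card)
  have hne : F.Nonempty := by
    obtain ⟨b, hb, hc⟩ := exists_removable h h2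
    refine ⟨{b}, ?_⟩
    rw [Finset.mem_filter, Finset.mem_powerset, Finset.singleton_subset_iff]
    exact ⟨hb, conn_singleton b, hc, by simpa using h2⟩
  obtain ⟨A, hA, hmax⟩ := F.exists_max_image Finset.card hne
  rw [Finset.mem_filter, Finset.mem_powerset] at hA
  obtain ⟨hAS, hAc, hRc, hA2⟩ := hA
  refine ⟨A, hAS, hAc, hRc, ?_, hA2⟩
  have hAne : A ≠ S := by
    rintro rfl
    obtain ⟨x, hx⟩ := hRc.1
    simp at hx
  obtain ⟨a0, ha0, v, hv, hvA, hav⟩ := h.2 A hAS hAc.1 hAne
  set R := S \ A with hR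
  have hvR : v ∈ R := by rw [hR, Finset.mem_sdiff]; exact ⟨hv, hvA⟩
  have hcardR : R.card + A.card = S.card := Finset.card_sdiff_add_card_eq_card hAS
  set R' := R \ {v} with hR'
  have hcardR' : R'.card + 1 = R.card := by
    rw [hR', Finset.sdiff_singleton_eq_erase]
    exact Finset.card_erase_add_one hvR
  by_cases hempty : R' = ∅
  · have : R'.card = 0 := by rw [hempty]; simp
    have hApos : 0 < A.card := Finset.card_pos.mpr hAc.1
    omega
  -- components of `R'` at the neighbours of `v`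
  have hcomp : ∀ u ∈ R', ∃ K ⊆ R', u ∈ K ∧ Conn K ∧
      ∀ a ∈ K, ∀ b ∈ R', b ∉ K → ¬ cellGraph.Adj a b := fun u hu => exists_component R' hu
  choose! K hKR huK hKc hKcl using hcomp
  have hsub : ∀ q ∈ R', ∃ u ∈ nb v ∩ R', q ∈ K u := by
    intro q hq
    have hne' : K q ≠ R := by
      intro h3
      have h4 : v ∈ K q := by rw [h3]; exact hvR
      have h5 := hKR q hq h4
      rw [hR', Finset.mem_sdiff] at h5
      simp at h5
    have hsubR : K q ⊆ R := (hKR q hq).trans Finset.sdiff_subset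
    obtain ⟨a, ha, b, hb, hbK, hab⟩ := hRc.2 (K q) hsubR ⟨q, huK q hq⟩ hne'
    have hbv : b = v := by
      by_contra h3
      have hbR' : b ∈ R' := by
        rw [hR', Finset.mem_sdiff, Finset.mem_singleton]; exact ⟨hb, h3⟩
      exact hKcl q hq a ha b hbR' hbK hab
    subst hbv
    have haR' : a ∈ R' := hKR q hq ha
    refine ⟨a, ?_, ?_⟩
    · rw [Finset.mem_inter, mem_nb]
      exact ⟨hab.symm, haR'⟩
    · -- `K q ⊆ K a`
      by_contra h3
      obtain ⟨x, hx, y, hy, hyX, hxy⟩ := (hKc q hq).2 (K q ∩ K a) Finset.inter_subset_left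
        ⟨a, by rw [Finset.mem_inter]; exact ⟨ha, huK a haR'⟩⟩ (by
          intro h4
          have h5 : q ∈ K q ∩ K a := by rw [h4]; exact huK q hq
          rw [Finset.mem_inter] at h5
          exact h3 h5.2)
      rw [Finset.mem_inter] at hx hyX
      exact hKcl a haR' x hx.2 y (hKR q hq hy) (fun h6 => hyX ⟨hy, h6⟩) hxy
  have hNne : (nb v ∩ R').Nonempty := by
    obtain ⟨q, hq⟩ := Finset.nonempty_iff_ne_empty.mpr hempty
    obtain ⟨u, hu, -⟩ := hsub q hq
    exact ⟨u, hu⟩
  obtain ⟨u, hu, humax⟩ := (nb v ∩ R').exists_max_image (fun u => (K u).card) hNne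
  have huR' : u ∈ R' := (Finset.mem_inter.mp hu).2
  have hcardle : R'.card ≤ 4 * (K u).card := by
    calc R'.card ≤ ((nb v ∩ R').biUnion K).card := by
          apply Finset.card_le_card
          intro q hq
          rw [Finset.mem_biUnion]
          exact hsub q hq
      _ ≤ ∑ x ∈ nb v ∩ R', (K x).card := Finset.card_biUnion_le
      _ ≤ ∑ _x ∈ nb v ∩ R', (K u).card := Finset.sum_le_sum humax
      _ = (nb v ∩ R').card * (K u).card := by rw [Finset.sum_const, smul_eq_mul]
      _ ≤ 4 * (K u).card := by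
          apply Nat.mul_le_mul_right
          exact (Finset.card_le_card Finset.inter_subset_left).trans (card_nb v)
  have hKuR : K u ⊆ R := (hKR u huR').trans Finset.sdiff_subset
  have hKuS : K u ⊆ S := hKuR.trans Finset.sdiff_subset
  have hvK : v ∉ K u := by
    intro h3
    have h4 := hKR u huR' h3
    rw [hR', Finset.mem_sdiff] at h4
    simp at h4
  have hAK : ∀ x ∈ A, x ∉ K u := by
    intro x hx hxK
    have h3 := hKuR hxK
    rw [hR, Finset.mem_sdiff] at h3
    exact h3.2 hx
  -- the complement of `K u` is connected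
  have hZ : Conn (S \ K u) := by
    -- a subset containing `v` and closed in `S \ K u` is everything
    have key : ∀ Y ⊆ S \ K u, v ∈ Y →
        (∀ a ∈ Y, ∀ b ∈ S \ K u, b ∉ Y → ¬ cellGraph.Adj a b) → Y = S \ K u := by
      intro Y hY hvY hcl
      have hAY : A ⊆ Y := by
        by_contra h3
        by_cases h4 : (A ∩ Y).Nonempty
        · obtain ⟨x, hx, y, hy, hyX, hxy⟩ := hAc.2 (A ∩ Y) Finset.inter_subset_left h4
            (fun h5 => h3 (Finset.inter_eq_left.mp h5))
          rw [Finset.mem_inter] at hx hyX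
          exact hcl x hx.2 y (by rw [Finset.mem_sdiff]; exact ⟨hAS hy, hAK y hy⟩)
            (fun h6 => hyX ⟨hy, h6⟩) hxy
        · have ha0Y : a0 ∉ Y := fun h5 => h4 ⟨a0, Finset.mem_inter.mpr ⟨ha0, h5⟩⟩
          exact hcl v hvY a0 (by rw [Finset.mem_sdiff]; exact ⟨hAS ha0, hAK a0 ha0⟩) ha0Y
            hav.symm
      by_contra hYne
      -- the rest `W`
      set W := (S \ K u) \ Y with hW
      have hWne : W.Nonempty := by
        rw [Finset.sdiff_nonempty]
        intro h3
        exact hYne (Finset.Subset.antisymm hY h3)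
      have hWR : W ⊆ R := by
        intro x hx
        rw [hW, Finset.mem_sdiff, Finset.mem_sdiff] at hx
        rw [hR, Finset.mem_sdiff]
        exact ⟨hx.1.1, fun h3 => hx.2 (hAY h3)⟩
      have hvW : v ∉ W := by
        intro h3
        rw [hW, Finset.mem_sdiff] at h3
        exact h3.2 hvY
      obtain ⟨x, hx, y, hy, hyW, hxy⟩ := hRc.2 W hWR hWne (by
        intro h3; rw [h3] at hvW; exact hvW hvR)
      have hxR' : x ∈ R' := by
        rw [hR', Finset.mem_sdiff, Finset.mem_singleton]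
        exact ⟨hWR hx, fun h3 => hvW (h3 ▸ hx)⟩
      rw [hW, Finset.mem_sdiff, Finset.mem_sdiff] at hx
      have hyS : y ∈ S := (Finset.mem_sdiff.mp hy).1
      by_cases hyK : y ∈ K u
      · exact hKcl u huR' y hyK x hxR' hx.1.2 hxy.symm
      · have hyY : y ∈ Y := by
          by_contra h3
          apply hyW
          rw [hW, Finset.mem_sdiff, Finset.mem_sdiff]
          exact ⟨⟨hyS, hyK⟩, h3⟩
        exact hcl y hyY x (by rw [Finset.mem_sdiff]; exact hx.1) hx.2 hxy.symm
    refine ⟨⟨v, by rw [Finset.mem_sdiff]; exact ⟨hv, hvK⟩⟩, ?_⟩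
    intro X hX hXne hXneq
    by_contra hcon
    push Not at hcon
    by_cases hvX : v ∈ X
    · exact hXneq (key X hX hvX hcon)
    · have h3 := key ((S \ K u) \ X) Finset.sdiff_subset
        (by rw [Finset.mem_sdiff, Finset.mem_sdiff]; exact ⟨⟨hv, hvK⟩, hvX⟩) (by
          intro a ha b hb hbX hab
          rw [Finset.mem_sdiff] at ha
          have hbX' : b ∈ X := by
            by_contra h4
            exact hbX (by rw [Finset.mem_sdiff]; exact ⟨hb, h4⟩)
          exact hcon b hbX' a ha.1 ha.2 hab.symm)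
      obtain ⟨x, hx⟩ := hXne
      have h4 := hX hx
      rw [← h3, Finset.mem_sdiff] at h4
      exact h4.2 hx
  by_cases hbig : 2 * (K u).card ≤ S.card
  · have h3 : K u ∈ F := by
      rw [Finset.mem_filter, Finset.mem_powerset]
      exact ⟨hKuS, hKc u huR', hZ, hbig⟩
    have h4 := hmax _ h3
    omega
  · exfalso
    have hcardZ : (S \ K u).card + (K u).card = S.card :=
      Finset.card_sdiff_add_card_eq_card hKuS
    have h3 : S \ K u ∈ F := by
      rw [Finset.mem_filter, Finset.mem_powerset]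
      refine ⟨Finset.sdiff_subset, hZ, ?_, by omega⟩
      rw [Finset.sdiff_sdiff_eq_self hKuS]
      exact hKc u huR'
    have h4 := hmax _ h3
    have h5 : insert v A ⊆ S \ K u := by
      intro x hx
      rw [Finset.mem_insert] at hx
      rw [Finset.mem_sdiff]
      rcases hx with rfl | hx
      · exact ⟨hv, hvK⟩
      · exact ⟨hAS hx, hAK x hx⟩
    have h6 := Finset.card_le_card h5
    rw [Finset.card_insert_of_notMem hvA] at h6
    omega

/-- The sizes of the smaller part of a balanced splitting. -/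
def Ks (n : ℕ) : Finset ℕ := (Finset.range (n + 1)).filter (fun k => n ≤ 5 * k + 1 ∧ 2 * k ≤ n)

/-- Almost-submultiplicativity of `t`. -/
theorem t_le_sum {n : ℕ} (hn : 2 ≤ n) :
    t n ≤ ∑ k ∈ Ks n, (2 * n + 1) ^ 4 * (t k * t (n - k)) := by
  classical
  have hex : ∀ C : Finset Cell, C ∈ Nf n → ∃ A ⊆ C, Conn A ∧ Conn (C \ A) ∧
      C.card ≤ 5 * A.card + 1 ∧ 2 * A.card ≤ C.card := by
    intro C hC
    exact split (mem_Nf.mp hC).2.1 (by rw [(mem_Nf.mp hC).1]; exact hn)
  choose! A hAC hAc hBc hA5 hA2 using hex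
  let box : Finset Cell := Finset.Icc (-(n : ℤ)) n ×ˢ Finset.Icc (-(n : ℤ)) n
  have hbox : box.card = (2 * n + 1) ^ 2 := by
    simp only [box]
    rw [Finset.card_product, Int.card_Icc]
    have : ((n : ℤ) + 1 - -(n : ℤ)).toNat = 2 * n + 1 := by omega
    rw [this]; ring
  have hmembox : ∀ C ∈ Nf n, ∀ p ∈ C, p ∈ box := by
    intro C hC p hp
    have := dist_lt (mem_Nf.mp hC).2.1 (mem_Nf.mp hC).2.2.1 p hp
    rw [(mem_Nf.mp hC).1] at this
    simp only [box]
    rw [Finset.mem_product, Finset.mem_Icc, Finset.mem_Icc]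
    rcases abs_cases p.1 with h1 | h1 <;> rcases abs_cases p.2 with h2 | h2 <;> omega
  let T : Finset (Σ _ : ℕ, (Finset Cell × Finset Cell) × (Cell × Cell)) :=
    (Ks n).sigma (fun k => (Nf k ×ˢ Nf (n - k)) ×ˢ (box ×ˢ box))
  have hT : T.card = ∑ k ∈ Ks n, (2 * n + 1) ^ 4 * (t k * t (n - k)) := by
    simp only [T]
    rw [Finset.card_sigma]
    apply Finset.sum_congr rfl
    intro k _
    rw [Finset.card_product, Finset.card_product, Finset.card_product, hbox, t_eq, t_eq]
    ring
  rw [← hT, t_eq]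
  apply Finset.card_le_card_of_injOn (fun C => (⟨(A C).card,
    ((nrm (A C), nrm (C \ A C)), (base (A C), base (C \ A C)))⟩ :
      Σ _ : ℕ, (Finset Cell × Finset Cell) × (Cell × Cell)))
  · intro C hC
    rw [Finset.mem_coe] at hC
    have hcard := (mem_Nf.mp hC).1
    have h1 := hA5 C hC
    have h2 := hA2 C hC
    rw [hcard] at h1 h2
    have hcd : (C \ A C).card = n - (A C).card := by
      rw [Finset.card_sdiff_of_subset (hAC C hC), hcard]
    simp only [Finset.mem_coe, T]
    rw [Finset.mem_sigma, Finset.mem_product, Finset.mem_product, Finset.mem_product]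
    refine ⟨?_, ⟨nrm_mem rfl (hAc C hC), nrm_mem hcd (hBc C hC)⟩, ?_, ?_⟩
    · rw [Ks, Finset.mem_filter, Finset.mem_range]
      refine ⟨?_, h1, h2⟩
      change (A C).card < n + 1
      omega
    · exact hmembox C hC _ (hAC C hC (base_spec (hAc C hC).1).1)
    · exact hmembox C hC _ (Finset.sdiff_subset (base_spec (hBc C hC).1).1)
  · intro C hC D hD hCD
    rw [Finset.mem_coe] at hC hD
    have h1 := congrArg (fun z => z.2.1.1) hCD
    have h2 := congrArg (fun z => z.2.1.2) hCD
    have h3 := congrArg (fun z => z.2.2.1) hCD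
    have h4 := congrArg (fun z => z.2.2.2) hCD
    simp only [nrm] at h1 h2 h3 h4
    rw [h3] at h1
    rw [h4] at h2
    have h5 := trans_inj h1
    have h6 := trans_inj h2
    rw [← Finset.union_sdiff_of_subset (hAC C hC), h6, h5,
      Finset.union_sdiff_of_subset (hAC D hD)]

end Pool.Agent.Helper71.Polyomino
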