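import Mathlib
import Pool.Agent.Helper71.Polyomino
import Pool.Agent.Helper71.Split

/-!
The growth constant of polyominoes, and upper bounds for it from finitely many values of `t`.
-/

namespace Pool.Agent.Helper71.Polyomino

open Filter

/-- The constant in the window lemma. -/
def D : ℕ := 81 * 20 ^ 5

lemma term_bound {N k : ℕ} (hN : 2 ≤ N) (h1 : N ≤ 5 * k + 1) (h2 : 2 * k ≤ N) :
    N ^ 6 * (2 * N + 1) ^ 4 ≤ D * (k ^ 5 * (N - k) ^ 5) := by
  have a1 : N ≤ 10 * k := by omega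
  have a2 : N ≤ 2 * (N - k) := by omega
  have a3 : 2 * N + 1 ≤ 3 * N := by omega
  calc N ^ 6 * (2 * N + 1) ^ 4 ≤ N ^ 6 * (3 * N) ^ 4 :=
        Nat.mul_le_mul_left _ (Nat.pow_le_pow_left a3 4)
    _ = 81 * (N ^ 5 * N ^ 5) := by ring
    _ ≤ 81 * ((10 * k) ^ 5 * (2 * (N - k)) ^ 5) := by
        apply Nat.mul_le_mul_left
        exact Nat.mul_le_mul (Nat.pow_le_pow_left a1 5) (Nat.pow_le_pow_left a2 5)
    _ = D * (k ^ 5 * (N - k) ^ 5) := by unfold D; ring

/-- The window lemma. -/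
theorem window {m : ℕ} (hm : 1 ≤ m) {μ : ℝ} (hμ : 0 < μ)
    (h : ∀ s, m ≤ s → s ≤ 5 * m → (D : ℝ) * (s : ℝ) ^ 5 * t s ≤ μ ^ s) :
    ∀ N, m ≤ N → (D : ℝ) * (N : ℝ) ^ 5 * t N ≤ μ ^ N := by
  intro N
  induction N using Nat.strong_induction_on with
  | _ N ih =>
    intro hmN
    by_cases hN : N ≤ 5 * m
    · exact h N hmN hN
    push Not at hN
    have hN2 : 2 ≤ N := by omega
    have hNpos : (0 : ℝ) < N := by exact_mod_cast (by omega : 0 < N)
    have hsum : (t N : ℝ) ≤ ∑ k ∈ Ks N, ((2 * (N : ℝ) + 1) ^ 4 * (t k * t (N - k))) := by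
      have := t_le_sum hN2
      have h2 : (t N : ℝ) ≤ ((∑ k ∈ Ks N, (2 * N + 1) ^ 4 * (t k * t (N - k)) : ℕ) : ℝ) := by
        exact_mod_cast this
      push_cast at h2
      exact h2
    have hterm : ∀ k ∈ Ks N, (D : ℝ) * (N : ℝ) ^ 5 *
        ((2 * (N : ℝ) + 1) ^ 4 * (t k * t (N - k))) ≤ μ ^ N / N := by
      intro k hk
      rw [Ks, Finset.mem_filter, Finset.mem_range] at hk
      obtain ⟨-, hk1, hk2⟩ := hk
      have hmk : m ≤ k := by omega
      have i1 := ih k (by omega) hmk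
      have i2 := ih (N - k) (by omega) (by omega)
      have hb : ((N : ℝ) ^ 6 * (2 * N + 1) ^ 4) ≤ D * ((k : ℝ) ^ 5 * ((N - k : ℕ) : ℝ) ^ 5) := by
        exact_mod_cast term_bound hN2 hk1 hk2
      rw [le_div_iff₀ hNpos]
      have hpow : μ ^ N = μ ^ k * μ ^ (N - k) := by
        rw [← pow_add]; congr 1; omega
      have hD : (0 : ℝ) ≤ D := by positivity
      calc (D : ℝ) * (N : ℝ) ^ 5 * ((2 * (N : ℝ) + 1) ^ 4 * (t k * t (N - k))) * N
          = (D * (t k * t (N - k))) * ((N : ℝ) ^ 6 * (2 * N + 1) ^ 4) := by ring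
        _ ≤ (D * (t k * t (N - k))) * (D * ((k : ℝ) ^ 5 * ((N - k : ℕ) : ℝ) ^ 5)) :=
            mul_le_mul_of_nonneg_left hb (by positivity)
        _ = (D * (k : ℝ) ^ 5 * t k) * (D * ((N - k : ℕ) : ℝ) ^ 5 * t (N - k)) := by ring
        _ ≤ μ ^ k * μ ^ (N - k) := mul_le_mul i1 i2 (by positivity) (by positivity)
        _ = μ ^ N := hpow.symm
    have hcard : (Ks N).card ≤ N := by
      have h1 : Ks N ⊆ (Finset.range (N + 1)).erase 0 := by
        intro k hk
        rw [Ks, Finset.mem_filter] at hk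
        rw [Finset.mem_erase]
        exact ⟨by omega, hk.1⟩
      have h2 := Finset.card_le_card h1
      rw [Finset.card_erase_of_mem (by simp), Finset.card_range] at h2
      exact h2
    calc (D : ℝ) * (N : ℝ) ^ 5 * t N
        ≤ (D : ℝ) * (N : ℝ) ^ 5 * ∑ k ∈ Ks N, ((2 * (N : ℝ) + 1) ^ 4 * (t k * t (N - k))) :=
          mul_le_mul_of_nonneg_left hsum (by positivity)
      _ = ∑ k ∈ Ks N, (D : ℝ) * (N : ℝ) ^ 5 *
            ((2 * (N : ℝ) + 1) ^ 4 * (t k * t (N - k))) := by rw [Finset.mul_sum]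
      _ ≤ ∑ _k ∈ Ks N, μ ^ N / N := Finset.sum_le_sum hterm
      _ = (Ks N).card * (μ ^ N / N) := by rw [Finset.sum_const, nsmul_eq_mul]
      _ ≤ N * (μ ^ N / N) := by
          apply mul_le_mul_of_nonneg_right _ (by positivity)
          exact_mod_cast hcard
      _ = μ ^ N := by field_simp

lemma one_le_D : (1 : ℝ) ≤ D := by unfold D; norm_num

lemma t_le_of_window {m : ℕ} (hm : 1 ≤ m) {μ : ℝ} (hμ : 0 < μ)
    (h : ∀ s, m ≤ s → s ≤ 5 * m → (D : ℝ) * (s : ℝ) ^ 5 * t s ≤ μ ^ s) :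
    ∀ N, m ≤ N → (t N : ℝ) ≤ μ ^ N := by
  intro N hN
  refine le_trans ?_ (window hm hμ h N hN)
  have h1 : (1 : ℝ) ≤ (N : ℝ) ^ 5 := one_le_pow₀ (by exact_mod_cast (by omega : 1 ≤ N))
  have h2 : (1 : ℝ) ≤ D * (N : ℝ) ^ 5 := by
    have := one_le_D
    nlinarith
  have h3 : (0 : ℝ) ≤ t N := by positivity
  nlinarith

lemma t_zero : t 0 = 0 := by
  rw [t_eq, Finset.card_eq_zero]
  ext S
  rw [mem_Nf]
  simp only [Finset.notMem_empty, iff_false, not_and]
  intro hS hc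
  rw [Finset.card_eq_zero] at hS
  subst hS
  exact absurd hc.1 (by simp)

lemma t_one_pos : 1 ≤ t 1 := by
  classical
  rw [t_eq]
  apply Finset.card_pos.mpr
  refine ⟨{0}, ?_⟩
  rw [mem_Nf]
  refine ⟨by simp, conn_singleton 0, by simp, ?_⟩
  intro q hq
  rw [Finset.mem_singleton] at hq
  subst hq
  right; simp

lemma t_pos {n : ℕ} (hn : 1 ≤ n) : 1 ≤ t n := by
  induction n, hn using Nat.le_induction with
  | base => exact t_one_pos
  | succ n _ ih =>
    have h1 := t_mul_le n 1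
    have h2 := t_one_pos
    nlinarith

lemma subadd : Subadditive (fun n => - Real.log (t n)) := by
  intro m n
  rcases Nat.eq_zero_or_pos m with rfl | hm
  · simp [t_zero]
  rcases Nat.eq_zero_or_pos n with rfl | hn
  · simp [t_zero]
  have h1 : (1 : ℝ) ≤ t m := by exact_mod_cast t_pos hm
  have h2 : (1 : ℝ) ≤ t n := by exact_mod_cast t_pos hn
  have h3 : (t m : ℝ) * t n ≤ t (m + n) := by exact_mod_cast t_mul_le m n
  have h4 := Real.log_le_log (by positivity) h3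
  rw [Real.log_mul (by positivity) (by positivity)] at h4
  linarith

lemma exp_bound : ∃ μ : ℝ, 1 ≤ μ ∧ ∀ N, 1 ≤ N → (t N : ℝ) ≤ μ ^ N := by
  refine ⟨1 + D * 5 ^ 5 * (t 1 + t 2 + t 3 + t 4 + t 5), ?_, ?_⟩
  · have : (0 : ℝ) ≤ D * 5 ^ 5 * (t 1 + t 2 + t 3 + t 4 + t 5) := by positivity
    linarith
  · set μ : ℝ := 1 + D * 5 ^ 5 * (t 1 + t 2 + t 3 + t 4 + t 5) with hμ
    have h1 : 1 ≤ μ := by
      have : (0 : ℝ) ≤ D * 5 ^ 5 * (t 1 + t 2 + t 3 + t 4 + t 5) := by positivity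
      linarith
    apply t_le_of_window (le_refl 1) (by linarith)
    intro s hs1 hs2
    have h2 : μ ≤ μ ^ s := le_self_pow₀ h1 (by omega)
    refine le_trans ?_ h2
    have h3 : (t s : ℝ) ≤ t 1 + t 2 + t 3 + t 4 + t 5 := by
      have : t s ≤ t 1 + t 2 + t 3 + t 4 + t 5 := by
        interval_cases s <;> omega
      exact_mod_cast this
    have h4 : (s : ℝ) ^ 5 ≤ 5 ^ 5 := by
      apply pow_le_pow_left₀ (by positivity)
      exact_mod_cast (by omega : s ≤ 5)
    have hD : (0 : ℝ) ≤ D := by positivity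
    calc (D : ℝ) * (s : ℝ) ^ 5 * t s ≤ D * 5 ^ 5 * (t 1 + t 2 + t 3 + t 4 + t 5) := by
          apply mul_le_mul _ h3 (by positivity) (by positivity)
          exact mul_le_mul_of_nonneg_left h4 hD
      _ ≤ μ := by rw [hμ]; linarith

/-- The growth constant exists and is positive. -/
theorem exists_limit : ∃ lam : ℝ, 0 < lam ∧
    Tendsto (fun n : ℕ => (t n : ℝ) ^ (1 / (n : ℝ))) atTop (nhds lam) := by
  obtain ⟨μ, hμ1, hμ⟩ := exp_bound
  have hbdd : BddBelow (Set.range fun n : ℕ => (fun n => - Real.log (t n)) n / (n : ℝ)) := by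
    refine ⟨- Real.log μ, ?_⟩
    rintro x ⟨n, rfl⟩
    simp only
    rcases Nat.eq_zero_or_pos n with rfl | hn
    · have := Real.log_nonneg hμ1
      simp [this]
    have hn' : (0 : ℝ) < n := by exact_mod_cast hn
    rw [le_div_iff₀ hn']
    have h1 : (1 : ℝ) ≤ t n := by exact_mod_cast t_pos hn
    have h2 := Real.log_le_log (by positivity) (hμ n hn)
    rw [Real.log_pow] at h2
    linarith
  have hlim := subadd.tendsto_lim hbdd
  refine ⟨Real.exp (- subadd.lim), Real.exp_pos _, ?_⟩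
  have h2 := (Real.continuous_exp.tendsto _).comp hlim.neg
  refine h2.congr' ?_
  filter_upwards [eventually_ge_atTop 1] with n hn
  have h1 : (0 : ℝ) < t n := by exact_mod_cast t_pos hn
  simp only [Function.comp]
  rw [Real.rpow_def_of_pos h1]
  congr 1
  ring

end Pool.Agent.Helper71.Polyomino
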