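import Mathlib

open Complex ComplexConjugate Filter Topology Set

namespace Pool.Agent.Helper71.Heesch

noncomputable section

/-- vertices -/
def vtx : Fin 5 → ℂ := ![0, ⟨5 * √3, 0⟩, ⟨5 * √3, 9⟩, ⟨-√3, 15⟩, ⟨-4 * √3, 12⟩]
/-- unit side directions, side k goes from vtx k to vtx (k+1) -/
def dir : Fin 5 → ℂ := ![1, I, ⟨-√3 / 2, 1 / 2⟩, ⟨-√3 / 2, -1 / 2⟩, ⟨1 / 2, -√3 / 2⟩]
/-- side lengths -/
def len : Fin 5 → ℝ := ![5 * √3, 9, 12, 6, 8 * √3]
/-- the pentagon -/
def Pent : Set ℂ := {z | ∀ k, 0 ≤ ((z - vtx k) * conj (dir k)).im}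
/-- moving frame along side k; `false` reverses orientation -/
def fr (k : Fin 5) (σ : Bool) (z : ℂ) : ℂ :=
  if σ then vtx k + dir k * z else vtx k + dir k * (len k - conj z)
/-- placement of the pentagon with side k on the real axis from -t to len k - t, above the axis -/
def Til (k : Fin 5) (σ : Bool) (t : ℝ) : Set ℂ := {z | fr k σ (z + t) ∈ Pent}
/-- vertex k is a 120 degree corner -/
def wide : Fin 5 → Bool := ![true, false, true, true, false]
/-- left end of the base is a 120 degree corner -/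
def lw (k : Fin 5) (σ : Bool) : Bool := wide (if σ then k else k + 1)
/-- right end of the base is a 120 degree corner -/
def rwd (k : Fin 5) (σ : Bool) : Bool := wide (if σ then k + 1 else k)

/-- finite nonoverlapping family of copies -/
structure Good (F : Set (Set ℂ)) : Prop where
  fin : F.Finite
  copy : ∀ T ∈ F, ∃ g : ℂ ≃ᵢ ℂ, T = g '' Pent
  no : ∀ T ∈ F, ∀ T' ∈ F, T ≠ T' → Disjoint (interior T) (interior T')

lemma sq3 : √3 * √3 = 3 := Real.mul_self_sqrt (by norm_num)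
lemma sq3' : √3 ^ 2 = 3 := Real.sq_sqrt (by norm_num)
lemma cu3 : √3 ^ 3 = 3 * √3 := by
  have := sq3'
  calc √3 ^ 3 = √3 ^ 2 * √3 := by ring
    _ = 3 * √3 := by rw [this]
lemma s3pos : 0 < √3 := Real.sqrt_pos.mpr (by norm_num)
lemma s3lt : √3 < 1.7321 := by
  rw [Real.sqrt_lt' (by norm_num)]; norm_num
lemma lts3 : 1.732 < √3 := by
  rw [Real.lt_sqrt (by norm_num)]; norm_num

def tC (k : Fin 5) (σ : Bool) (j : Fin 5) : ℝ :=
  match σ with
  | true => (![![0, 5*√3, 7*√3, 8*√3, 0],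
      ![0, 0, 9 / 2 * √3, 21 / 2 * √3, 15/2],
      ![9, 0, 0, 6*√3, 12],
      ![15, 6*√3, 0, 0, 6],
      ![12, 9*√3, 3*√3, 0, 0]] : Fin 5 → Fin 5 → ℝ) k j
  | false => (![![0, 0, 9 / 2 * √3, 21 / 2 * √3, 15/2],
      ![9, 0, 0, 6*√3, 12],
      ![15, 6*√3, 0, 0, 6],
      ![12, 9*√3, 3*√3, 0, 0],
      ![0, 5*√3, 7*√3, 8*√3, 0]] : Fin 5 → Fin 5 → ℝ) k j

def tA (k : Fin 5) (σ : Bool) (j : Fin 5) : ℝ :=
  match σ with
  | true => (![![0, -1, -1/2, 1/2, √3 / 2],
      ![1, 0, -(√3 / 2), -(√3 / 2), 1/2],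
      ![1/2, √3 / 2, 0, -(√3 / 2), -1/2],
      ![-1/2, √3 / 2, √3 / 2, 0, -1],
      ![-(√3 / 2), -1/2, 1/2, 1, 0]] : Fin 5 → Fin 5 → ℝ) k j
  | false => (![![0, 1, 1/2, -1/2, -(√3 / 2)],
      ![-1, 0, √3 / 2, √3 / 2, -1/2],
      ![-1/2, -(√3 / 2), 0, √3 / 2, 1/2],
      ![1/2, -(√3 / 2), -(√3 / 2), 0, 1],
      ![√3 / 2, 1/2, -1/2, -1, 0]] : Fin 5 → Fin 5 → ℝ) k j

def tB (k : Fin 5) (σ : Bool) (j : Fin 5) : ℝ :=
  match σ with
  | true => (![![1, 0, -(√3 / 2), -(√3 / 2), 1/2],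
      ![0, 1, 1/2, -1/2, -(√3 / 2)],
      ![-(√3 / 2), 1/2, 1, 1/2, -(√3 / 2)],
      ![-(√3 / 2), -1/2, 1/2, 1, 0],
      ![1/2, -(√3 / 2), -(√3 / 2), 0, 1]] : Fin 5 → Fin 5 → ℝ) k j
  | false => (![![1, 0, -(√3 / 2), -(√3 / 2), 1/2],
      ![0, 1, 1/2, -1/2, -(√3 / 2)],
      ![-(√3 / 2), 1/2, 1, 1/2, -(√3 / 2)],
      ![-(√3 / 2), -1/2, 1/2, 1, 0],
      ![1/2, -(√3 / 2), -(√3 / 2), 0, 1]] : Fin 5 → Fin 5 → ℝ) k j


/-- index of the constraint through the left end of the base (other than the base) -/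
def lj (k : Fin 5) (σ : Bool) : Fin 5 := if σ then k - 1 else k + 1
/-- index of the constraint through the right end of the base (other than the base) -/
def rj (k : Fin 5) (σ : Bool) : Fin 5 := if σ then k + 1 else k - 1

lemma F_eq (k : Fin 5) (σ : Bool) (j : Fin 5) (w : ℂ) :
    ((fr k σ w - vtx j) * conj (dir j)).im = tC k σ j + tA k σ j * w.re + tB k σ j * w.im := by
  cases σ <;> fin_cases k <;> fin_cases j <;>
    simp [fr, vtx, dir, len, tC, tA, tB] <;> (try ring_nf) <;> (try simp [sq3', cu3]) <;> (try ring_nf)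

lemma mem_Til {k : Fin 5} {σ : Bool} {t : ℝ} {z : ℂ} :
    z ∈ Til k σ t ↔ ∀ j, 0 ≤ tC k σ j + tA k σ j * (z.re + t) + tB k σ j * z.im := by
  unfold Til Pent
  simp only [Set.mem_ofPred_eq, F_eq]
  simp

lemma len_pos (k : Fin 5) : 0 < len k := by
  have := s3pos
  fin_cases k <;> simp [len] 

lemma tab_base (k : Fin 5) (σ : Bool) : tC k σ k = 0 ∧ tA k σ k = 0 ∧ tB k σ k = 1 := by
  cases σ <;> fin_cases k <;> simp [tC, tA, tB]

lemma tab_left (k : Fin 5) (σ : Bool) : tC k σ (lj k σ) = 0 ∧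
    tA k σ (lj k σ) = (if lw k σ then √3 / 2 else 1) ∧ tB k σ (lj k σ) = (if lw k σ then 1 / 2 else 0) := by
  cases σ <;> fin_cases k <;> simp [tC, tA, tB, lj, lw, wide]

lemma tab_right (k : Fin 5) (σ : Bool) :
    tC k σ (rj k σ) = len k * (if rwd k σ then √3 / 2 else 1) ∧
    tA k σ (rj k σ) = -(if rwd k σ then √3 / 2 else 1) ∧
    tB k σ (rj k σ) = (if rwd k σ then 1 / 2 else 0) := by
  have h := sq3
  cases σ <;> fin_cases k <;> simp [tC, tA, tB, rj, rwd, wide, len] <;> (try nlinarith)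

lemma tab_other (k : Fin 5) (σ : Bool) (j : Fin 5) (h1 : j ≠ k) (h2 : j ≠ lj k σ) (h3 : j ≠ rj k σ) :
    0 < tC k σ j ∧ 0 < tC k σ j + tA k σ j * len k := by
  have h := sq3
  have h' := s3pos
  have h'' := lts3
  cases σ <;> fin_cases k <;> fin_cases j <;> simp [lj, rj] at h1 h2 h3 <;>
    (first
      | exact absurd (by decide) h2
      | exact absurd (by decide) h3
      | (simp [tC, tA, len] <;> (try constructor) <;> (try nlinarith)))

lemma Til_im {k : Fin 5} {σ : Bool} {t : ℝ} {z : ℂ} (h : z ∈ Til k σ t) : 0 ≤ z.im := by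
  have := (mem_Til.1 h) k
  obtain ⟨h1, h2, h3⟩ := tab_base k σ
  rw [h1, h2, h3] at this
  linarith

lemma Til_real {k : Fin 5} {σ : Bool} {t x : ℝ} (h : (x : ℂ) ∈ Til k σ t) :
    0 ≤ x + t ∧ x + t ≤ len k := by
  have hl := (mem_Til.1 h) (lj k σ)
  have hr := (mem_Til.1 h) (rj k σ)
  obtain ⟨h1, h2, h3⟩ := tab_left k σ
  obtain ⟨g1, g2, g3⟩ := tab_right k σ
  rw [h1, h2, h3] at hl
  rw [g1, g2, g3] at hr
  simp only [ofReal_re, ofReal_im, mul_zero, add_zero, zero_add] at hl hr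
  have hs := s3pos
  constructor
  · by_contra hc
    push_neg at hc
    split_ifs at hl <;> nlinarith
  · by_contra hc
    push_neg at hc
    split_ifs at hr <;> nlinarith

/-- values of the non-base constraints along the base -/
lemma tab_val {k : Fin 5} {σ : Bool} {t : ℝ} (h0 : 0 ≤ t) (h1 : t ≤ len k) (j : Fin 5) (hj : j ≠ k) :
    0 < tC k σ j + tA k σ j * t ∨ (t = 0 ∧ j = lj k σ) ∨ (t = len k ∧ j = rj k σ) := by
  have hs := s3pos
  have hl := len_pos k
  by_cases h2 : j = lj k σ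
  · rcases h0.eq_or_lt with h | h
    · exact Or.inr (Or.inl ⟨h.symm, h2⟩)
    · left
      obtain ⟨e1, e2, e3⟩ := tab_left k σ
      rw [h2, e1, e2]
      split_ifs <;> nlinarith
  · by_cases h3 : j = rj k σ
    · rcases h1.eq_or_lt with h | h
      · exact Or.inr (Or.inr ⟨h, h3⟩)
      · left
        obtain ⟨e1, e2, e3⟩ := tab_right k σ
        rw [h3, e1, e2]
        split_ifs <;> nlinarith
    · left
      obtain ⟨e1, e2⟩ := tab_other k σ j hj h2 h3
      by_cases hA : 0 ≤ tA k σ j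
      · nlinarith
      · push_neg at hA
        nlinarith

lemma ev_pos {C d : ℝ} (h : 0 < C ∨ (C = 0 ∧ 0 < d)) : ∀ᶠ s in 𝓝[>] (0 : ℝ), 0 < C + s * d := by
  rcases h with h | ⟨h, hd⟩
  · have : Tendsto (fun s : ℝ => C + s * d) (𝓝[>] 0) (𝓝 (C + 0 * d)) := by
      apply tendsto_nhdsWithin_of_tendsto_nhds
      exact (continuous_const.add (continuous_id.mul continuous_const)).tendsto 0
    rw [zero_mul, add_zero] at this
    exact this.eventually (lt_mem_nhds h)
  · filter_upwards [self_mem_nhdsWithin] with s hs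
    rw [h, zero_add]
    exact mul_pos hs hd

lemma int_of_pos {k : Fin 5} {σ : Bool} {t : ℝ} {z : ℂ}
    (h : ∀ j, 0 < tC k σ j + tA k σ j * (z.re + t) + tB k σ j * z.im) : z ∈ interior (Til k σ t) := by
  rw [mem_interior]
  refine ⟨{w : ℂ | ∀ j, 0 < tC k σ j + tA k σ j * (w.re + t) + tB k σ j * w.im}, ?_, ?_, h⟩
  · intro w hw
    exact mem_Til.2 fun j => (hw j).le
  · simp only [Set.setOf_forall]
    refine isOpen_iInter_of_finite fun j => isOpen_lt continuous_const ?_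
    fun_prop

/-- direction (a,b), b > 0, points into the interior of the placed tile at the origin -/
lemma intdir {k : Fin 5} {σ : Bool} {t a b : ℝ} (h0 : 0 ≤ t) (h1 : t ≤ len k) (hb : 0 < b)
    (hl : 0 < t ∨ (if lw k σ then 0 < √3 * a + b else 0 < a))
    (hr : t < len k ∨ (if rwd k σ then 0 < b - √3 * a else 0 < -a)) :
    ∀ᶠ s in 𝓝[>] (0 : ℝ), (⟨s * a, s * b⟩ : ℂ) ∈ interior (Til k σ t) := by
  have key : ∀ j, ∀ᶠ s in 𝓝[>] (0 : ℝ), 0 < (tC k σ j + tA k σ j * t) + s * (tA k σ j * a + tB k σ j * b) := by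
    intro j
    apply ev_pos
    by_cases hj : j = k
    · right
      obtain ⟨e1, e2, e3⟩ := tab_base k σ
      rw [hj, e1, e2, e3]
      constructor
      · ring
      · linarith
    · rcases tab_val (σ := σ) h0 h1 j hj with h | ⟨h, hj'⟩ | ⟨h, hj'⟩
      · exact Or.inl h
      · right
        obtain ⟨e1, e2, e3⟩ := tab_left k σ
        rw [hj', e1, e2, e3, h]
        rcases hl with hl | hl
        · exact absurd h hl.ne'
        · split_ifs at hl ⊢ with hw
          · constructor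
            · ring
            · linarith
          · constructor
            · ring
            · linarith
      · right
        obtain ⟨e1, e2, e3⟩ := tab_right k σ
        rw [hj', e1, e2, e3, h]
        rcases hr with hr | hr
        · exact absurd h hr.ne
        · split_ifs at hr ⊢ with hw
          · constructor
            · ring
            · linarith
          · constructor
            · ring
            · linarith
  have key2 := (eventually_all (ι := Fin 5)).2 key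
  filter_upwards [key2] with s hs
  apply int_of_pos
  intro j
  have := hs j
  simp only
  linarith

end
end Pool.Agent.Helper71.Heesch
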