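import Pool.Agent.Helper71.HeeschUpper

open Complex ComplexConjugate Filter Topology Set

namespace Pool.Agent.Helper71.Heesch

/-- integer data of an affine function -/
abbrev C3 := ℤ × ℤ × ℤ

def rotC (c : C3) : C3 := (c.1 - c.2.1, 3 * c.1 + c.2.1, 2 * c.2.2)
def refC (c : C3) : C3 := (c.1, -c.2.1, c.2.2)
def traC (p q : ℤ) (c : C3) : C3 := (c.1, c.2.1, c.2.2 - c.1 * p - c.2.1 * q)
def negC (c : C3) : C3 := (-c.1, -c.2.1, -c.2.2)
def relC (c : C3) : C3 := (c.1, c.2.1, c.2.2 + 1)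
def evi (c : C3) (a b : ℤ) : ℤ := c.1 * a + c.2.1 * b + c.2.2

def hP : List C3 := [(0, 1, 0), (-1, 0, 10), (-1, -3, 28), (1, -3, 32), (1, 1, 0)]

def rotL : ℕ → List C3 → List C3
  | 0, l => l
  | n + 1, l => (rotL n l).map rotC

def tileL (r : ℕ) (m : Bool) (p q : ℤ) : List C3 :=
  (rotL r (if m then hP.map refC else hP)).map (traC p q)

/-- nonnegative combination of constraints -/
def comb (l : List C3) : List (ℕ × ℕ) → C3
  | [] => (0, 0, 0)
  | (i, m) :: r =>
    ((m : ℤ) * (l.getD i (0, 0, 0)).1 + (comb l r).1,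
     (m : ℤ) * (l.getD i (0, 0, 0)).2.1 + (comb l r).2.1,
     (m : ℤ) * (l.getD i (0, 0, 0)).2.2 + (comb l r).2.2)

abbrev Cert := ℕ × List (ℕ × ℕ)

def chk (l : List C3) (c : C3) (e : Cert) : Bool :=
  decide (0 < e.1) && decide ((comb l e.2).1 = e.1 * c.1) && decide ((comb l e.2).2.1 = e.1 * c.2.1) &&
    decide ((comb l e.2).2.2 ≤ e.1 * c.2.2)

def chkAll (l : List C3) : List C3 → List Cert → Bool
  | [], _ => true
  | _ :: _, [] => false
  | c :: cs, e :: es => chk l c e && chkAll l cs es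

inductive Bsp
  | leaf : ℕ → List Cert → Bsp
  | node : C3 → Bsp → Bsp → Bsp

def Bsp.ok (tiles : List (List C3)) (n : ℕ) : List C3 → Bsp → Bool
  | l, .leaf i es => decide (i < n) && chkAll l (tiles.getD i []) es
  | l, .node c t1 t2 => Bsp.ok tiles n (l ++ [c]) t1 && Bsp.ok tiles n (l ++ [negC c]) t2

noncomputable section

def ca (z : ℂ) : ℝ := 2 * z.re / √3
def cb (z : ℂ) : ℝ := 2 * z.im / 3
def evc (c : C3) (z : ℂ) : ℝ := c.1 * ca z + c.2.1 * cb z + c.2.2
def Hs (l : List C3) : Set ℂ := {z | ∀ c ∈ l, 0 ≤ evc c z}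
def Lp (p q : ℤ) : ℂ := ⟨√3 * p / 2, 3 * q / 2⟩

lemma Hs_mono {l l' : List C3} (h : l' ⊆ l) : Hs l ⊆ Hs l' := fun _ hz c hc => hz c (h hc)

lemma evc_neg (c : C3) (z : ℂ) : evc (negC c) z = -evc c z := by
  simp [evc, negC]; ring

lemma evc_Lp (c : C3) (p q : ℤ) : evc c (Lp p q) = evi c p q := by
  have h : √3 ≠ 0 := s3pos.ne'
  simp only [evc, ca, cb, Lp, evi]
  push_cast
  field_simp

lemma evc_cont (c : C3) : Continuous (evc c) := by
  unfold evc ca cb
  fun_prop

lemma evc_aff (c : C3) {x y : ℂ} {a b : ℝ} (h : a + b = 1) :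
    evc c (a • x + b • y) = a * evc c x + b * evc c y := by
  simp only [evc, ca, cb, real_smul, add_re, mul_re, ofReal_re, ofReal_im, zero_mul, sub_zero, add_im, mul_im,
    add_zero]
  have : b = 1 - a := by linarith
  subst this
  ring

lemma Hs_convex (l : List C3) : Convex ℝ (Hs l) := by
  intro x hx y hy a b ha hb hab c hc
  rw [evc_aff c hab]
  have := hx c hc
  have := hy c hc
  positivity

lemma Hs_closed (l : List C3) : IsClosed (Hs l) := by
  have : Hs l = ⋂ c ∈ l, {z | 0 ≤ evc c z} := by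
    ext z; simp [Hs]
  rw [this]
  exact isClosed_biInter fun c _ => isClosed_le continuous_const (evc_cont c)

lemma Hs_open (l : List C3) : IsOpen {z : ℂ | ∀ c ∈ l, 0 < evc c z} := by
  have : {z : ℂ | ∀ c ∈ l, 0 < evc c z} = ⋂ c ∈ {c | c ∈ l}, {z | 0 < evc c z} := by
    ext z; simp
  rw [this]
  exact (List.finite_toSet l).isOpen_biInter fun c _ => isOpen_lt continuous_const (evc_cont c)

lemma Hs_int {l : List C3} {z : ℂ} (h : ∀ c ∈ l, 0 < evc c z) : z ∈ interior (Hs l) := by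
  rw [mem_interior]
  exact ⟨_, fun w hw c hc => (hw c hc).le, Hs_open l, h⟩

lemma Hs_relax (l : List C3) : Hs l ⊆ interior (Hs (l.map relC)) := by
  intro z hz
  apply Hs_int
  intro c hc
  rw [List.mem_map] at hc
  obtain ⟨d, hd, rfl⟩ := hc
  have := hz d hd
  have e : evc (relC d) z = evc d z + 1 := by simp [evc, relC]; ring
  rw [e]; linarith

lemma Pent_eq_Hs : Pent = Hs hP := by
  have h3 := sq3
  have hs := s3pos
  ext z
  obtain ⟨a, ha⟩ : ∃ a, ca z = a := ⟨_, rfl⟩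
  obtain ⟨b, hb⟩ : ∃ b, cb z = b := ⟨_, rfl⟩
  have hx : z.re = √3 * a / 2 := by rw [← ha, ca]; field_simp
  have hy : z.im = 3 * b / 2 := by rw [← hb, cb]; field_simp
  simp only [Pent, Hs, Set.mem_ofPred_eq, Fin.forall_fin_succ, vtx, dir, hP]
  simp [evc, ha, hb, hx, hy]
  constructor
  · rintro ⟨e1, e2, e3, e4, e5⟩
    refine ⟨by nlinarith, by nlinarith, by nlinarith, by nlinarith, by nlinarith⟩
  · rintro ⟨e1, e2, e3, e4, e5⟩
    refine ⟨by nlinarith, by nlinarith, by nlinarith, by nlinarith, by nlinarith⟩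

lemma comb_nonneg {l : List C3} {z : ℂ} (hz : z ∈ Hs l) (e : List (ℕ × ℕ)) : 0 ≤ evc (comb l e) z := by
  induction e with
  | nil => simp [comb, evc]
  | cons a r ih =>
    obtain ⟨i, m⟩ := a
    have h1 : 0 ≤ evc (l.getD i (0, 0, 0)) z := by
      rw [List.getD_eq_getElem?_getD]
      rcases lt_or_ge i l.length with h | h
      · rw [List.getElem?_eq_getElem h]
        exact hz _ (List.getElem_mem h)
      · rw [List.getElem?_eq_none h]
        simp [evc]
    have h2 : evc (comb l ((i, m) :: r)) z = m * evc (l.getD i (0, 0, 0)) z + evc (comb l r) z := by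
      simp only [comb, evc]
      push_cast
      ring
    rw [h2]
    positivity

lemma chk_sound {l : List C3} {c : C3} {e : Cert} (h : chk l c e = true) {z : ℂ} (hz : z ∈ Hs l) :
    0 ≤ evc c z := by
  simp only [chk, Bool.and_eq_true, decide_eq_true_eq] at h
  obtain ⟨⟨⟨h0, h1⟩, h2⟩, h3⟩ := h
  have hc := comb_nonneg hz e.2
  have h4 : evc (comb l e.2) z ≤ e.1 * evc c z := by
    simp only [evc, h1, h2]
    have h3' : (((comb l e.2).2.2 : ℤ) : ℝ) ≤ ((e.1 * c.2.2 : ℤ) : ℝ) := by exact_mod_cast h3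
    push_cast at h3' ⊢
    nlinarith
  have h5 : (0 : ℝ) < e.1 := by exact_mod_cast h0
  by_contra hneg
  push Not at hneg
  nlinarith

lemma chkAll_sound {l : List C3} : ∀ {cs : List C3} {es : List Cert}, chkAll l cs es = true → Hs l ⊆ Hs cs
  | [], _, _ => by intro z _ c hc; simp at hc
  | _ :: _, [], h => by simp [chkAll] at h
  | c :: cs, e :: es, h => by
    simp only [chkAll, Bool.and_eq_true] at h
    intro z hz d hd
    rcases List.mem_cons.1 hd with rfl | hd
    · exact chk_sound h.1 hz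
    · exact chkAll_sound h.2 hz d hd

lemma Bsp.sound {tiles : List (List C3)} {n : ℕ} (t : Bsp) : ∀ {l : List C3}, Bsp.ok tiles n l t = true →
    Hs l ⊆ {z | ∃ i < n, z ∈ Hs (tiles.getD i [])} := by
  induction t with
  | leaf i es =>
    intro l h z hz
    simp only [Bsp.ok, Bool.and_eq_true, decide_eq_true_eq] at h
    exact ⟨i, h.1, chkAll_sound h.2 hz⟩
  | node c t1 t2 ih1 ih2 =>
    intro l h z hz
    simp only [Bsp.ok, Bool.and_eq_true] at h
    rcases le_total 0 (evc c z) with hc | hc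
    · apply ih1 h.1
      intro d hd
      rcases List.mem_append.1 hd with hd | hd
      · exact hz d hd
      · rw [List.mem_singleton.1 hd]; exact hc
    · apply ih2 h.2
      intro d hd
      rcases List.mem_append.1 hd with hd | hd
      · exact hz d hd
      · rw [List.mem_singleton.1 hd, evc_neg]; linarith

/-- separation -/
lemma sep_sound {l l' : List C3} {c : C3} {e : Cert} (hc : c ∈ l) (hc0 : c.1 ≠ 0 ∨ c.2.1 ≠ 0)
    (h : chk l' (negC c) e = true) : Disjoint (interior (Hs l)) (interior (Hs l')) := by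
  rw [Set.disjoint_left]
  intro z hz hz'
  have h1 := chk_sound h (interior_subset hz')
  rw [evc_neg] at h1
  -- move against the gradient
  obtain ⟨v, hv⟩ : ∃ v : ℂ, ∀ s : ℝ, evc c (z + s * v) = evc c z - s := by
    have hs := s3pos.ne'
    rcases hc0 with h0 | h0
    · have h0' : (c.1 : ℝ) ≠ 0 := by exact_mod_cast h0
      refine ⟨⟨-√3 / (2 * c.1), 0⟩, fun s => ?_⟩
      simp [evc, ca, cb]
      field_simp
      ring
    · have h0' : (c.2.1 : ℝ) ≠ 0 := by exact_mod_cast h0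
      refine ⟨⟨0, -3 / (2 * c.2.1)⟩, fun s => ?_⟩
      simp [evc, ca, cb]
      field_simp
      ring
  have h2 : ∀ᶠ s : ℝ in 𝓝[>] (0 : ℝ), z + (s : ℂ) * v ∈ Hs l := by
    have hcont : Tendsto (fun s : ℝ => z + (s : ℂ) * v) (𝓝[>] 0) (𝓝 z) := by
      apply tendsto_nhdsWithin_of_tendsto_nhds
      have : Continuous (fun s : ℝ => z + (s : ℂ) * v) := by fun_prop
      simpa using this.tendsto 0
    exact hcont.eventually (mem_interior_iff_mem_nhds.1 hz)
  obtain ⟨s, hs1, hs2⟩ := (h2.and self_mem_nhdsWithin).exists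
  have h3 := hs1 c hc
  rw [hv] at h3
  have : (0 : ℝ) < s := hs2
  linarith

/-! ### copies -/

lemma nZ : (⟨1 / 2, √3 / 2⟩ : ℂ) ∈ Submonoid.unitSphere ℂ := by
  have h : ‖(⟨1 / 2, √3 / 2⟩ : ℂ)‖ = 1 := by
    rw [Complex.norm_def, Complex.normSq_apply]
    have : (1 / 2 : ℝ) * (1 / 2) + √3 / 2 * (√3 / 2) = 1 := by nlinarith [sq3]
    simp only [this, Real.sqrt_one]
  simpa [Submonoid.unitSphere] using h
/-- rotation by 60 degrees -/
def rZ : ℂ ≃ᵢ ℂ := (rotation ⟨⟨1 / 2, √3 / 2⟩, nZ⟩).toIsometryEquiv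
lemma rZ_apply (z : ℂ) : rZ z = (⟨1 / 2, √3 / 2⟩ : ℂ) * z := rfl

lemma evc_rot (c : C3) (z : ℂ) : evc (rotC c) (rZ z) = 2 * evc c z := by
  have hs := s3pos.ne'
  have h3 := sq3'
  rw [rZ_apply]
  simp only [evc, ca, cb, rotC, mul_re, mul_im]
  push_cast
  field_simp
  ring_nf
  simp only [h3]
  ring

lemma evc_ref (c : C3) (z : ℂ) : evc (refC c) (conj z) = evc c z := by
  simp only [evc, ca, cb, refC, conj_re, conj_im]
  push_cast
  ring

lemma evc_tra (p q : ℤ) (c : C3) (z : ℂ) : evc (traC p q c) (z + Lp p q) = evc c z := by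
  have hs := s3pos.ne'
  simp only [evc, ca, cb, traC, Lp, add_re, add_im]
  push_cast
  field_simp
  ring

lemma copy_map {l : List C3} (f : C3 → C3) (φ : ℂ ≃ᵢ ℂ) (h : ∀ c z, 0 ≤ evc (f c) (φ z) ↔ 0 ≤ evc c z)
    (hl : ∃ g : ℂ ≃ᵢ ℂ, Hs l = g '' Pent) : ∃ g : ℂ ≃ᵢ ℂ, Hs (l.map f) = g '' Pent := by
  obtain ⟨g, hg⟩ := hl
  refine ⟨g.trans φ, ?_⟩
  rw [img_trans, ← hg]
  ext z
  constructor
  · intro hz
    refine ⟨φ.symm z, ?_, by simp⟩
    intro c hc
    rw [← h]
    have := hz (f c) (List.mem_map_of_mem hc)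
    simpa using this
  · rintro ⟨w, hw, rfl⟩ d hd
    obtain ⟨c, hc, rfl⟩ := List.mem_map.1 hd
    exact (h c w).2 (hw c hc)

lemma tile_copy (r : ℕ) (m : Bool) (p q : ℤ) : ∃ g : ℂ ≃ᵢ ℂ, Hs (tileL r m p q) = g '' Pent := by
  unfold tileL
  apply copy_map (traC p q) (IsometryEquiv.addRight (Lp p q))
  · intro c z
    change 0 ≤ evc (traC p q c) (z + Lp p q) ↔ _
    rw [evc_tra]
  · have h0 : ∃ g : ℂ ≃ᵢ ℂ, Hs (if m then hP.map refC else hP) = g '' Pent := by
      cases m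
      · exact ⟨IsometryEquiv.refl ℂ, by rw [refl_img]; simpa using Pent_eq_Hs.symm⟩
      · exact copy_map refC cJ (fun c z => by rw [cJ_apply, evc_ref])
          ⟨IsometryEquiv.refl ℂ, by rw [refl_img]; exact Pent_eq_Hs.symm⟩
    induction r with
    | zero => exact h0
    | succ n ih =>
      exact copy_map rotC rZ (fun c z => by rw [evc_rot]; constructor <;> intro h <;> linarith) ih

end
end Pool.Agent.Helper71.Heesch
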