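import Pool.Agent.Helper71.HeeschCheck

namespace Pool.Agent.Helper71.Heesch

/-- the 21 tiles: rotation by r * 60 degrees, optional reflection, translation -/
def tdat : List (ℕ × Bool × ℤ × ℤ) :=
  [(0, false, 0, 0), (4, true, 0, 0), (0, true, 0, 0), (3, false, 20, 0), (3, true, 20, 0), (0, true, 12, 16), (2, false, 12, 16), (4, false, -18, 14), (1, false, -10, -10), (5, false, -16, -16), (2, true, -18, 14), (1, true, -28, 4), (4, true, 12, -16), (0, false, 12, -16), (1, false, 38, -14), (1, true, 20, 0), (4, false, 30, 10), (2, false, 36, 16), (0, false, 12, 16), (5, true, 2, 26), (2, false, -18, 14)]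

def tiles : List (List C3) := tdat.map fun d => tileL d.1 d.2.1 d.2.2.1 d.2.2.2

def cl : List (List C3) :=
  [[(1, 1, 0), (1, 8, 0), (-1, 2, 10), (-1, 0, 10), (-1, -3, 28), (1, -3, 32)],
   [(1, 3, 20), (-4, 13, 45), (-1, 1, 9), (-1, -1, 9), (-7, -16, 72), (1, -3, 32), (1, 0, 14)],
   [(1, 3, 32), (-1, 3, 28), (-1, 0, 10), (-1, -2, 10), (1, -8, 0), (1, -1, 0)],
   [(2, 1, -14), (1, 3, 8), (-1, 3, 52), (-1, -1, 20), (-1, -12, 20), (1, -1, -7)],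
   [(1, 1, -7), (-1, 12, 20), (-1, 1, 20), (-1, -3, 52), (1, -3, 8), (2, -1, -14)],
   [(8, 3, -56), (1, 1, -7), (-11, 14, 102), (-1, 0, 22), (0, -1, 16), (1, -1, 4)],
   [(10, 9, -70), (1, 1, -7), (-1, 1, 9), (-16, 3, 144), (-1, -1, 28), (1, -3, 56), (1, 0, 2)],
   [(1, 3, -4), (7, 22, -34), (-1, 1, 9), (-14, -11, 126), (0, -1, 14), (1, -1, 32)],
   [(0, 1, 10), (-1, 2, 10), (-1, 1, 9), (-1, -1, 9), (3, -22, -2), (1, -3, 8), (1, 0, 26)],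
   [(1, 1, 32), (-1, 3, 52), (-18, 11, 162), (-1, -1, 9), (9, -16, -56), (1, -1, 0)],
   [(1, 1, 4), (15, 26, -94), (-1, 1, 9), (-18, -11, 162), (-1, -3, 52), (1, -3, 80)],
   [(1, 1, 24), (-3, 28, 52), (-1, 1, 9), (-1, -1, 9), (-8, -31, 95), (1, -1, 32)],
   [(1, 3, 56), (-1, 1, 28), (-16, -3, 144), (-1, -1, 9), (1, -1, -7), (10, -9, -70), (1, 0, 2)],
   [(1, 1, 4), (0, 1, 16), (-1, 0, 22), (-11, -14, 102), (1, -1, -7), (8, -3, -56)],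
   [(1, 1, -7), (13, 14, -90), (0, 1, 14), (-1, 1, 52), (-1, -3, 16), (-7, -26, 82), (1, -1, -7)],
   [(1, 1, -7), (7, 20, -36), (-1, 3, 52), (-1, 0, 34), (-1, -3, 40), (4, -17, -15), (1, -1, -7)],
   [(1, 1, -7), (-3, 26, 50), (-1, 3, 28), (-1, 0, 46), (0, -1, 10), (9, -22, -50), (1, -1, -7)],
   [(1, 1, -7), (-9, 20, 92), (-1, 1, 20), (-1, -1, 52), (1, -3, 32), (6, -5, -42)],
   [(8, 1, -56), (1, 1, -7), (-1, 1, 9), (-16, 13, 144), (-1, 0, 22), (-1, -3, 88), (1, -3, 68)],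
   [(22, 21, -154), (1, 1, -7), (-1, 1, 9), (-21, -2, 189), (-1, -1, 28), (0, -1, 26), (1, 0, 14)],
   [(1, 3, 8), (7, 34, -22), (-1, 1, 9), (-1, -1, 9), (-18, -31, 175), (1, -3, 80), (1, 0, 32)]]

def incC : List (List Cert) :=
  [[(1, [(4, 1)]), (1, [(0, 7), (4, 1)]), (1, [(0, 2), (1, 1)]), (1, [(1, 1)]), (1, [(2, 1)]), (1, [(3, 1)])],
   [(8, [(1, 1)]), (32, [(0, 25), (1, 9)]), (8, [(0, 1)]), (16, [(4, 1)]), (64, [(3, 9), (4, 37)]), (16, [(3, 1)]), (32, [(2, 1)])],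
   [(1, [(3, 1)]), (1, [(2, 1)]), (1, [(1, 1)]), (1, [(0, 2), (1, 1)]), (1, [(0, 7), (4, 1)]), (1, [(4, 1)])],
   [(24, [(1, 5), (2, 1)]), (8, [(2, 1)]), (8, [(3, 1)]), (8, [(4, 1)]), (8, [(0, 11), (4, 1)]), (8, [(0, 1), (1, 1)])],
   [(8, [(0, 1), (1, 1)]), (8, [(0, 11), (4, 1)]), (8, [(4, 1)]), (8, [(3, 1)]), (8, [(2, 1)]), (24, [(1, 5), (2, 1)])],
   [(4, [(3, 11), (4, 21)]), (2, [(3, 1), (4, 1)]), (3, [(1, 19), (2, 14)]), (1, [(1, 1)]), (1, [(0, 1)]), (1, [(4, 1)])],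
   [(8, [(2, 7), (3, 6)]), (12, [(2, 1), (3, 1)]), (4, [(4, 1)]), (8, [(0, 26), (4, 19)]), (2, [(0, 1)]), (2, [(1, 1)]), (8, [(2, 1)])],
   [(8, [(1, 1)]), (96, [(1, 86), (2, 1)]), (16, [(2, 1), (4, 1)]), (32, [(3, 14), (4, 11)]), (32, [(4, 1)]), (8, [(0, 1)])],
   [(4, [(4, 1)]), (4, [(0, 4), (4, 1)]), (1, [(0, 1)]), (2, [(0, 1), (1, 1)]), (12, [(1, 26), (2, 31)]), (2, [(2, 1)]), (4, [(3, 1)])],
   [(16, [(0, 1)]), (16, [(1, 1)]), (192, [(1, 44), (2, 43)]), (32, [(2, 1), (4, 1)]), (128, [(3, 7), (4, 43)]), (32, [(4, 1)])],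
   [(2, [(0, 1)]), (8, [(0, 60), (4, 11)]), (4, [(0, 2), (3, 1)]), (24, [(2, 22), (3, 43)]), (4, [(2, 1)]), (2, [(1, 1)])],
   [(2, [(4, 1)]), (8, [(3, 31), (4, 19)]), (2, [(2, 1), (4, 1)]), (2, [(0, 2), (2, 1)]), (4, [(0, 7), (1, 39)]), (1, [(0, 1)])],
   [(8, [(1, 1)]), (8, [(0, 1)]), (32, [(0, 26), (4, 19)]), (16, [(4, 1)]), (48, [(2, 1), (3, 1)]), (32, [(2, 7), (3, 6)]), (32, [(2, 1)])],
   [(1, [(4, 1)]), (1, [(0, 1)]), (1, [(1, 1)]), (3, [(1, 19), (2, 14)]), (2, [(3, 1), (4, 1)]), (4, [(3, 11), (4, 21)])],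
   [(4, [(3, 1), (4, 1)]), (4, [(3, 13), (4, 14)]), (4, [(4, 1)]), (1, [(0, 1)]), (1, [(1, 1)]), (12, [(1, 94), (2, 5)]), (2, [(2, 1), (4, 1)])],
   [(2, [(4, 1)]), (8, [(3, 13), (4, 41)]), (2, [(3, 1)]), (4, [(2, 1)]), (1, [(1, 1)]), (4, [(0, 29), (1, 13)]), (1, [(0, 1)])],
   [(16, [(0, 1), (1, 1)]), (96, [(1, 34), (2, 35)]), (16, [(2, 1)]), (32, [(3, 1)]), (32, [(4, 1)]), (32, [(0, 36), (4, 13)]), (8, [(0, 1)])],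
   [(4, [(2, 1), (4, 1)]), (16, [(3, 11), (4, 47)]), (4, [(4, 1)]), (2, [(0, 1)]), (2, [(1, 1)]), (24, [(1, 20), (2, 13)])],
   [(4, [(3, 7), (4, 25)]), (1, [(4, 1)]), (1, [(0, 1), (1, 1)]), (1, [(0, 13), (1, 16)]), (1, [(1, 1)]), (1, [(2, 1)]), (1, [(3, 1)])],
   [(64, [(2, 14), (3, 15)]), (96, [(2, 1), (3, 1)]), (32, [(0, 1), (1, 1)]), (64, [(0, 65), (1, 19)]), (16, [(0, 1)]), (64, [(4, 1)]), (64, [(3, 1)])],
   [(4, [(3, 1)]), (16, [(3, 41), (4, 13)]), (4, [(4, 1)]), (2, [(0, 1)]), (8, [(0, 85), (1, 13)]), (2, [(1, 1)]), (8, [(2, 1)])]]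

def bA1 : List Bsp :=
  [(.node (0, 1, 0)
    (.leaf 0 [(1, [(6, 1)]), (1, [(3, 1)]), (1, [(4, 1)]), (1, [(5, 1)]), (1, [(0, 1)])])
    (.leaf 2 [(1, [(6, 1)]), (1, [(3, 1)]), (3, [(0, 1), (2, 4)]), (1, [(0, 3), (3, 2)]), (1, [(0, 1), (6, 2)])])),
   (.node (0, 1, 0)
    (.node (1, 1, 0)
     (.leaf 0 [(1, [(7, 1)]), (1, [(3, 1), (7, 1)]), (9, [(4, 2), (8, 5)]), (1, [(5, 1)]), (1, [(8, 1)])])
     (.leaf 1 [(1, [(7, 16), (8, 8)]), (1, [(0, 8)]), (1, [(6, 32)]), (1, [(5, 16)]), (1, [(8, 16)])]))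
    (.node (-1, 1, 0)
     (.leaf 1 [(1, [(8, 8)]), (1, [(0, 8)]), (1, [(6, 32)]), (1, [(5, 16)]), (1, [(7, 32), (8, 16)])])
     (.leaf 2 [(1, [(7, 1)]), (1, [(2, 1), (7, 1)]), (2, [(0, 1), (2, 3)]), (1, [(0, 1)]), (1, [(8, 1)])]))),
   (.node (0, 1, 0)
    (.leaf 0 [(1, [(6, 1)]), (1, [(2, 1)]), (3, [(3, 4), (5, 1)]), (1, [(2, 2), (5, 3)]), (1, [(5, 1), (6, 2)])])
    (.leaf 2 [(1, [(6, 1)]), (1, [(2, 1)]), (1, [(1, 1)]), (1, [(0, 1)]), (1, [(5, 1)])])),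
   (.node (0, 1, 0)
    (.node (-1, 0, 10)
     (.leaf 0 [(1, [(6, 1)]), (1, [(7, 1)]), (4, [(4, 1), (7, 3)]), (1, [(3, 1), (5, 2)]), (1, [(0, 1), (7, 1)])])
     (.leaf 4 [(1, [(6, 8)]), (1, [(7, 8)]), (1, [(4, 2), (7, 10)]), (1, [(3, 16), (5, 8)]), (1, [(3, 8), (6, 16)])]))
    (.node (-1, 0, 10)
     (.leaf 2 [(1, [(6, 1)]), (1, [(7, 1)]), (1, [(1, 1), (7, 2)]), (1, [(1, 1)]), (1, [(5, 1)])])
     (.leaf 3 [(1, [(6, 8)]), (1, [(7, 8)]), (1, [(1, 8)]), (1, [(2, 8)]), (1, [(3, 8)])]))),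
   (.node (0, 1, 0)
    (.node (-1, 0, 10)
     (.leaf 0 [(1, [(6, 1)]), (1, [(7, 1)]), (1, [(4, 1), (7, 2)]), (1, [(4, 1)]), (1, [(0, 1)])])
     (.leaf 4 [(1, [(6, 8)]), (1, [(7, 8)]), (1, [(4, 8)]), (1, [(3, 8)]), (1, [(2, 8)])]))
    (.node (-1, 0, 10)
     (.leaf 2 [(1, [(6, 1)]), (1, [(7, 1)]), (1, [(0, 3), (7, 4)]), (1, [(0, 2), (2, 1)]), (1, [(5, 1), (7, 1)])])
     (.leaf 3 [(1, [(6, 8)]), (1, [(7, 8)]), (1, [(1, 2), (7, 10)]), (1, [(0, 8), (2, 16)]), (1, [(2, 8), (6, 16)])]))),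
   (.node (0, 1, 0)
    (.node (-1, 0, 10)
     (.node (-1, -3, 28)
      (.leaf 0 [(1, [(6, 1)]), (1, [(7, 1)]), (1, [(8, 1)]), (1, [(5, 3), (7, 2)]), (1, [(1, 1)])])
      (.leaf 5 [(1, [(4, 1)]), (1, [(3, 1)]), (1, [(7, 2), (8, 1)]), (1, [(8, 1)]), (1, [(5, 1)])]))
     (.node (1, -3, 8)
      (.leaf 4 [(1, [(6, 8)]), (1, [(7, 8)]), (1, [(8, 8)]), (1, [(3, 16), (8, 8)]), (7, [(2, 4), (3, 12)])])
      (.leaf 5 [(1, [(4, 1)]), (1, [(3, 1)]), (1, [(8, 1)]), (1, [(7, 2), (8, 1)]), (1, [(5, 1)])])))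
    (.leaf 2 [(1, [(6, 1)]), (11, [(2, 1), (6, 14)]), (25, [(1, 19), (2, 4)]), (1, [(1, 3), (3, 2)]), (1, [(1, 1), (6, 2)])])),
   (.node (0, 1, 0)
    (.node (-1, -3, 28)
     (.node (-1, 0, 10)
      (.leaf 0 [(1, [(7, 1)]), (1, [(9, 1)]), (1, [(8, 1)]), (1, [(6, 2), (8, 1)]), (1, [(1, 1)])])
      (.leaf 4 [(1, [(7, 8)]), (1, [(9, 8)]), (1, [(8, 8), (9, 16)]), (1, [(8, 8)]), (1, [(2, 8)])]))
     (.node (1, -3, 8)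
      (.leaf 4 [(1, [(7, 8)]), (1, [(8, 4), (9, 4)]), (1, [(9, 8)]), (1, [(4, 12), (9, 4)]), (1, [(2, 8)])])
      (.node (1, -1, 4)
       (.leaf 5 [(2, [(4, 1), (10, 1)]), (2, [(2, 1), (4, 1)]), (1, [(9, 1)]), (1, [(8, 1)]), (1, [(10, 1)])])
       (.leaf 6 [(1, [(4, 2)]), (1, [(5, 2)]), (1, [(6, 8)]), (1, [(8, 4)]), (1, [(10, 4)])]))))
    (.leaf 2 [(1, [(7, 1)]), (1, [(2, 1), (7, 1)]), (1, [(1, 1), (2, 2)]), (1, [(1, 2), (2, 1)]), (1, [(1, 1), (7, 2)])])),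
   (.node (0, 1, 0)
    (.node (-1, -3, 28)
     (.node (1, -3, 32)
      (.node (1, 1, 0)
       (.leaf 0 [(1, [(6, 1)]), (14, [(3, 1), (6, 11)]), (1, [(7, 1)]), (1, [(8, 1)]), (1, [(9, 1)])])
       (.leaf 1 [(1, [(0, 8), (9, 16)]), (1, [(0, 8)]), (1, [(0, 16), (8, 16)]), (1, [(8, 16)]), (1, [(9, 16)])]))
      (.leaf 7 [(1, [(5, 8)]), (1, [(0, 8)]), (1, [(8, 16)]), (1, [(7, 16), (8, 16)]), (1, [(4, 32)])]))
     (.node (1, 0, 2)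
      (.leaf 6 [(7, [(3, 1), (4, 3)]), (1, [(4, 6), (8, 2)]), (1, [(8, 8)]), (1, [(7, 4)]), (31, [(3, 16), (7, 100)])])
      (.leaf 7 [(1, [(5, 8)]), (1, [(0, 8)]), (1, [(7, 16), (8, 32)]), (1, [(8, 32)]), (1, [(4, 32)])])))
    (.leaf 2 [(1, [(6, 1)]), (1, [(2, 1), (6, 1)]), (2, [(0, 1), (2, 3)]), (1, [(0, 1)]), (1, [(0, 1), (6, 4)])]))]

def bA2 : List Bsp :=
  [(.node (0, 1, 0)
    (.leaf 0 [(1, [(6, 1)]), (1, [(3, 1)]), (1, [(4, 1)]), (1, [(5, 1)]), (1, [(0, 1)])])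
    (.leaf 2 [(1, [(6, 1)]), (1, [(3, 1)]), (3, [(0, 1), (2, 4)]), (1, [(0, 3), (3, 2)]), (1, [(0, 1), (6, 2)])])),
   (.node (0, 1, 0)
    (.node (1, 1, 0)
     (.leaf 0 [(1, [(7, 1)]), (1, [(3, 1), (7, 1)]), (9, [(4, 2), (8, 5)]), (1, [(5, 1)]), (1, [(8, 1)])])
     (.leaf 1 [(1, [(7, 16), (8, 8)]), (1, [(0, 8)]), (1, [(6, 32)]), (1, [(5, 16)]), (1, [(8, 16)])]))
    (.node (-1, 1, 0)
     (.leaf 1 [(1, [(8, 8)]), (1, [(0, 8)]), (1, [(6, 32)]), (1, [(5, 16)]), (1, [(7, 32), (8, 16)])])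
     (.leaf 2 [(1, [(7, 1)]), (1, [(2, 1), (7, 1)]), (2, [(0, 1), (2, 3)]), (1, [(0, 1)]), (1, [(8, 1)])]))),
   (.node (0, 1, 0)
    (.leaf 0 [(1, [(6, 1)]), (1, [(2, 1)]), (3, [(3, 4), (5, 1)]), (1, [(2, 2), (5, 3)]), (1, [(5, 1), (6, 2)])])
    (.leaf 2 [(1, [(6, 1)]), (1, [(2, 1)]), (1, [(1, 1)]), (1, [(0, 1)]), (1, [(5, 1)])])),
   (.node (0, 1, 0)
    (.node (-1, 0, 10)
     (.leaf 0 [(1, [(6, 1)]), (1, [(7, 1)]), (4, [(4, 1), (7, 3)]), (1, [(3, 1), (5, 2)]), (1, [(0, 1), (7, 1)])])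
     (.leaf 4 [(1, [(6, 8)]), (1, [(7, 8)]), (1, [(4, 2), (7, 10)]), (1, [(3, 16), (5, 8)]), (1, [(3, 8), (6, 16)])]))
    (.node (-1, 0, 10)
     (.leaf 2 [(1, [(6, 1)]), (1, [(7, 1)]), (1, [(1, 1), (7, 2)]), (1, [(1, 1)]), (1, [(5, 1)])])
     (.leaf 3 [(1, [(6, 8)]), (1, [(7, 8)]), (1, [(1, 8)]), (1, [(2, 8)]), (1, [(3, 8)])]))),
   (.node (0, 1, 0)
    (.node (-1, 0, 10)
     (.leaf 0 [(1, [(6, 1)]), (1, [(7, 1)]), (1, [(4, 1), (7, 2)]), (1, [(4, 1)]), (1, [(0, 1)])])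
     (.leaf 4 [(1, [(6, 8)]), (1, [(7, 8)]), (1, [(4, 8)]), (1, [(3, 8)]), (1, [(2, 8)])]))
    (.node (-1, 0, 10)
     (.leaf 2 [(1, [(6, 1)]), (1, [(7, 1)]), (1, [(0, 3), (7, 4)]), (1, [(0, 2), (2, 1)]), (1, [(5, 1), (7, 1)])])
     (.leaf 3 [(1, [(6, 8)]), (1, [(7, 8)]), (1, [(1, 2), (7, 10)]), (1, [(0, 8), (2, 16)]), (1, [(2, 8), (6, 16)])]))),
   (.node (0, 1, 0)
    (.node (-1, 0, 10)
     (.node (-1, -3, 28)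
      (.leaf 0 [(1, [(6, 1)]), (1, [(7, 1)]), (1, [(8, 1)]), (1, [(5, 3), (7, 2)]), (1, [(1, 1)])])
      (.leaf 5 [(1, [(4, 1)]), (1, [(3, 1)]), (1, [(7, 2), (8, 1)]), (1, [(8, 1)]), (1, [(5, 1)])]))
     (.node (1, -3, 8)
      (.leaf 4 [(1, [(6, 8)]), (1, [(7, 8)]), (1, [(8, 8)]), (1, [(3, 16), (8, 8)]), (7, [(2, 4), (3, 12)])])
      (.leaf 5 [(1, [(4, 1)]), (1, [(3, 1)]), (1, [(8, 1)]), (1, [(7, 2), (8, 1)]), (1, [(5, 1)])])))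
    (.leaf 2 [(1, [(6, 1)]), (11, [(2, 1), (6, 14)]), (25, [(1, 19), (2, 4)]), (1, [(1, 3), (3, 2)]), (1, [(1, 1), (6, 2)])])),
   (.node (0, 1, 0)
    (.node (-1, -3, 28)
     (.node (-1, 0, 10)
      (.leaf 0 [(1, [(7, 1)]), (1, [(9, 1)]), (1, [(8, 1)]), (1, [(6, 2), (8, 1)]), (1, [(1, 1)])])
      (.leaf 4 [(1, [(7, 8)]), (1, [(9, 8)]), (1, [(8, 8), (9, 16)]), (1, [(8, 8)]), (1, [(2, 8)])]))
     (.node (1, -3, 8)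
      (.leaf 4 [(1, [(7, 8)]), (1, [(8, 4), (9, 4)]), (1, [(9, 8)]), (1, [(4, 12), (9, 4)]), (1, [(2, 8)])])
      (.node (1, -1, 4)
       (.leaf 5 [(2, [(4, 1), (10, 1)]), (2, [(2, 1), (4, 1)]), (1, [(9, 1)]), (1, [(8, 1)]), (1, [(10, 1)])])
       (.leaf 6 [(1, [(4, 2)]), (1, [(5, 2)]), (1, [(6, 8)]), (1, [(8, 4)]), (1, [(10, 4)])]))))
    (.leaf 2 [(1, [(7, 1)]), (1, [(2, 1), (7, 1)]), (1, [(1, 1), (2, 2)]), (1, [(1, 2), (2, 1)]), (1, [(1, 1), (7, 2)])])),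
   (.node (0, 1, 0)
    (.node (-1, -3, 28)
     (.node (1, -3, 32)
      (.node (1, 1, 0)
       (.leaf 0 [(1, [(6, 1)]), (14, [(3, 1), (6, 11)]), (1, [(7, 1)]), (1, [(8, 1)]), (1, [(9, 1)])])
       (.leaf 1 [(1, [(0, 8), (9, 16)]), (1, [(0, 8)]), (1, [(0, 16), (8, 16)]), (1, [(8, 16)]), (1, [(9, 16)])]))
      (.leaf 7 [(1, [(5, 8)]), (1, [(0, 8)]), (1, [(8, 16)]), (1, [(7, 16), (8, 16)]), (1, [(4, 32)])]))
     (.node (1, 0, 2)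
      (.leaf 6 [(7, [(3, 1), (4, 3)]), (1, [(4, 6), (8, 2)]), (1, [(8, 8)]), (1, [(7, 4)]), (31, [(3, 16), (7, 100)])])
      (.leaf 7 [(1, [(5, 8)]), (1, [(0, 8)]), (1, [(7, 16), (8, 32)]), (1, [(8, 32)]), (1, [(4, 32)])])))
    (.leaf 2 [(1, [(6, 1)]), (1, [(2, 1), (6, 1)]), (2, [(0, 1), (2, 3)]), (1, [(0, 1)]), (1, [(0, 1), (6, 4)])])),
   (.node (-1, 1, 0)
    (.node (1, 3, 20)
     (.leaf 1 [(1, [(7, 8)]), (1, [(8, 8)]), (1, [(5, 16), (8, 16)]), (1, [(5, 16)]), (19, [(4, 32), (7, 400)])])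
     (.leaf 8 [(1, [(7, 1)]), (1, [(8, 1)]), (1, [(5, 2)]), (1, [(6, 4)]), (1, [(0, 4)])]))
    (.node (0, 1, 0)
     (.leaf 0 [(1, [(8, 1)]), (1, [(3, 1), (8, 1)]), (1, [(3, 2), (7, 1)]), (1, [(5, 1)]), (1, [(7, 1), (8, 2)])])
     (.node (1, 3, 32)
      (.leaf 2 [(1, [(8, 1)]), (1, [(2, 1), (8, 1)]), (1, [(0, 1), (1, 1)]), (1, [(9, 1)]), (1, [(7, 1)])])
      (.leaf 9 [(1, [(0, 32), (7, 16)]), (1, [(0, 16), (1, 16)]), (1, [(0, 192), (9, 64)]), (1, [(9, 32)]), (1, [(7, 32)])])))),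
   (.node (0, 1, 0)
    (.leaf 0 [(1, [(6, 1)]), (1, [(3, 1), (6, 1)]), (1, [(3, 2), (5, 1)]), (1, [(3, 1), (5, 2)]), (1, [(5, 1), (6, 2)])])
    (.node (-1, 3, 28)
     (.node (1, 3, 32)
      (.leaf 2 [(1, [(6, 1)]), (18, [(2, 1), (6, 11)]), (1, [(7, 1)]), (1, [(8, 1)]), (1, [(5, 1)])])
      (.leaf 9 [(1, [(0, 16)]), (1, [(1, 16)]), (1, [(7, 32), (8, 32)]), (1, [(8, 32)]), (1, [(5, 32)])]))
     (.node (-1, 0, -2)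
      (.leaf 9 [(1, [(0, 16)]), (1, [(1, 16)]), (1, [(8, 64)]), (1, [(7, 32), (8, 64)]), (1, [(5, 32)])])
      (.node (-1, -1, -4)
       (.leaf 12 [(1, [(1, 4), (9, 4)]), (1, [(1, 8), (8, 16)]), (1, [(8, 32)]), (1, [(7, 16)]), (1, [(9, 16)])])
       (.leaf 13 [(4, [(1, 1), (9, 1)]), (4, [(1, 1), (3, 3)]), (43, [(2, 6), (7, 65)]), (1, [(7, 1)]), (1, [(9, 1)])]))))),
   (.node (0, 1, 0)
    (.node (1, -3, 32)
     (.node (-1, -3, 28)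
      (.leaf 0 [(1, [(6, 1)]), (18, [(3, 1), (6, 11)]), (1, [(8, 1)]), (1, [(7, 1)]), (71, [(1, 4), (7, 11)])])
      (.node (1, -1, 4)
       (.leaf 5 [(4, [(4, 1), (9, 1)]), (4, [(2, 3), (4, 1)]), (43, [(3, 6), (8, 65)]), (1, [(8, 1)]), (1, [(9, 1)])])
       (.leaf 6 [(1, [(4, 1), (9, 1)]), (1, [(7, 2)]), (1, [(7, 4), (8, 4)]), (1, [(8, 4)]), (1, [(9, 4)])])))
     (.node (1, 0, 2)
      (.leaf 6 [(3, [(4, 4), (7, 2)]), (1, [(4, 2), (8, 4)]), (1, [(8, 8)]), (1, [(7, 4), (8, 8)]), (3, [(4, 4), (7, 8)])])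
      (.node (0, -1, 14)
       (.leaf 7 [(1, [(0, 8), (9, 16)]), (1, [(0, 12), (7, 4)]), (1, [(7, 16)]), (1, [(8, 32)]), (1, [(9, 32)])])
       (.leaf 10 [(1, [(0, 2)]), (1, [(5, 2)]), (1, [(4, 4)]), (1, [(8, 8)]), (1, [(9, 8)])]))))
    (.leaf 2 [(1, [(6, 1)]), (1, [(2, 1), (6, 1)]), (1, [(0, 1), (2, 2)]), (1, [(0, 2), (2, 1)]), (15, [(1, 1), (6, 41)])])),
   (.node (1, -3, 32)
    (.node (1, 1, 0)
     (.node (0, 1, 0)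
      (.leaf 0 [(1, [(8, 1)]), (1, [(3, 1), (8, 1)]), (8, [(4, 1), (8, 7)]), (1, [(6, 1)]), (1, [(7, 1)])])
      (.leaf 2 [(1, [(8, 1)]), (1, [(2, 1), (8, 1)]), (1, [(2, 2), (7, 1)]), (1, [(2, 1), (7, 2)]), (1, [(7, 1), (8, 2)])]))
     (.node (-1, 1, 0)
      (.node (1, 3, 20)
       (.node (1, 0, 14)
        (.leaf 1 [(1, [(8, 8)]), (1, [(9, 8)]), (1, [(10, 32)]), (1, [(6, 16)]), (1, [(7, 16)])])
        (.leaf 11 [(1, [(5, 1)]), (1, [(6, 1), (10, 2)]), (1, [(10, 4)]), (1, [(9, 2), (10, 4)]), (1, [(0, 2)])]))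
       (.node (1, -3, 8)
        (.leaf 8 [(1, [(8, 1)]), (1, [(9, 1)]), (1, [(10, 2)]), (1, [(0, 3), (6, 1)]), (19, [(1, 4), (6, 12)])])
        (.leaf 11 [(1, [(5, 1)]), (1, [(9, 1)]), (1, [(9, 2), (10, 2)]), (1, [(10, 2)]), (1, [(0, 2)])])))
      (.leaf 2 [(2, [(7, 1), (8, 1)]), (2, [(2, 1), (3, 1)]), (25, [(1, 2), (2, 19)]), (31, [(0, 37), (1, 2)]), (1, [(8, 1)])])))
    (.node (1, 3, -4)
     (.leaf 7 [(1, [(5, 8)]), (1, [(7, 8)]), (1, [(6, 16)]), (55, [(4, 96), (6, 992)]), (23, [(0, 256), (4, 32)])])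
     (.leaf 11 [(1, [(5, 1)]), (1, [(7, 1)]), (1, [(6, 2), (7, 2)]), (1, [(6, 2)]), (1, [(0, 2)])]))),
   (.node (0, 1, 0)
    (.leaf 0 [(1, [(7, 1)]), (1, [(3, 1), (7, 1)]), (1, [(3, 2), (4, 1)]), (1, [(3, 1), (4, 2)]), (1, [(4, 1), (7, 2)])])
    (.node (-1, 3, 28)
     (.node (-1, 0, 10)
      (.leaf 2 [(1, [(7, 1)]), (1, [(9, 1)]), (1, [(8, 1)]), (1, [(6, 2), (8, 1)]), (1, [(4, 1)])])
      (.leaf 3 [(1, [(7, 8)]), (1, [(9, 8)]), (1, [(8, 8), (9, 16)]), (1, [(8, 8)]), (1, [(3, 8)])]))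
     (.node (1, 3, 8)
      (.leaf 3 [(1, [(7, 8)]), (1, [(8, 4), (9, 4)]), (1, [(9, 8)]), (1, [(1, 12), (9, 4)]), (1, [(3, 8)])])
      (.node (-1, -1, -4)
       (.leaf 12 [(1, [(1, 8)]), (1, [(0, 8)]), (1, [(6, 32)]), (1, [(8, 16)]), (1, [(10, 16)])])
       (.leaf 13 [(2, [(1, 1), (10, 1)]), (2, [(1, 1), (3, 1)]), (1, [(9, 1)]), (1, [(8, 1)]), (1, [(10, 1)])]))))),
   (.node (0, 1, 0)
    (.leaf 0 [(1, [(6, 1)]), (11, [(3, 1), (6, 14)]), (25, [(3, 4), (4, 19)]), (1, [(2, 2), (4, 3)]), (1, [(4, 1), (6, 2)])])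
    (.node (-1, 0, 10)
     (.node (-1, 3, 28)
      (.leaf 2 [(1, [(6, 1)]), (1, [(7, 1)]), (1, [(8, 1)]), (1, [(0, 3), (7, 2)]), (1, [(4, 1)])])
      (.leaf 13 [(1, [(1, 1)]), (1, [(2, 1)]), (1, [(7, 2), (8, 1)]), (1, [(8, 1)]), (1, [(0, 1)])]))
     (.node (1, 3, 8)
      (.leaf 3 [(1, [(6, 8)]), (1, [(7, 8)]), (1, [(8, 8)]), (1, [(2, 16), (8, 8)]), (7, [(2, 12), (3, 4)])])
      (.leaf 13 [(1, [(1, 1)]), (1, [(2, 1)]), (1, [(8, 1)]), (1, [(7, 2), (8, 1)]), (1, [(0, 1)])])))),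
   (.node (0, 1, 0)
    (.node (-1, 0, 10)
     (.leaf 0 [(1, [(7, 1)]), (1, [(8, 1)]), (1, [(4, 1)]), (1, [(0, 3), (4, 2)]), (1, [(0, 1)])])
     (.leaf 4 [(1, [(7, 8)]), (1, [(8, 8)]), (1, [(4, 4), (6, 12)]), (1, [(4, 8)]), (1, [(4, 8), (7, 32)])]))
    (.node (-1, 0, 10)
     (.leaf 2 [(1, [(7, 1)]), (1, [(8, 1)]), (1, [(0, 3), (8, 4)]), (1, [(0, 1), (2, 2)]), (1, [(6, 1)])])
     (.node (1, 3, 8)
      (.node (-1, 3, 52)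
       (.node (-1, -1, 20)
        (.leaf 3 [(1, [(7, 8)]), (1, [(8, 8)]), (1, [(9, 8)]), (1, [(10, 8)]), (1, [(11, 8)])])
        (.leaf 15 [(1, [(4, 1), (11, 2)]), (1, [(4, 1)]), (1, [(4, 2), (10, 2)]), (1, [(10, 2)]), (1, [(11, 2)])]))
       (.leaf 14 [(1, [(3, 1)]), (1, [(4, 1)]), (1, [(10, 2)]), (1, [(9, 2), (10, 2)]), (1, [(2, 4)])]))
      (.node (-1, 0, 22)
       (.leaf 13 [(1, [(2, 1)]), (1, [(10, 1)]), (1, [(9, 1)]), (1, [(8, 2), (9, 1)]), (1, [(0, 1)])])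
       (.leaf 14 [(1, [(3, 1)]), (1, [(4, 1)]), (1, [(9, 2), (10, 4)]), (1, [(10, 4)]), (1, [(2, 4)])]))))),
   (.node (-1, 0, 10)
    (.node (0, 1, 0)
     (.leaf 0 [(1, [(8, 1)]), (1, [(7, 1)]), (1, [(6, 3), (7, 4)]), (2, [(4, 1), (6, 3)]), (1, [(0, 1)])])
     (.leaf 2 [(1, [(8, 1)]), (1, [(7, 1)]), (1, [(0, 3), (7, 4)]), (2, [(0, 3), (2, 1)]), (1, [(6, 1)])]))
    (.node (0, -1, 0)
     (.node (-1, -1, 20)
      (.leaf 3 [(1, [(8, 8)]), (1, [(7, 8)]), (5, [(1, 6), (3, 2)]), (1, [(2, 8)]), (1, [(9, 8)])])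
      (.leaf 15 [(1, [(8, 2), (9, 1)]), (1, [(4, 1)]), (1, [(3, 4)]), (1, [(2, 2)]), (1, [(9, 2)])]))
     (.node (-1, 1, 20)
      (.leaf 4 [(1, [(8, 8)]), (1, [(7, 8)]), (1, [(5, 2), (8, 10)]), (1, [(4, 8)]), (1, [(9, 8)])])
      (.leaf 15 [(1, [(9, 1)]), (1, [(4, 1)]), (1, [(3, 4)]), (1, [(2, 2)]), (1, [(8, 4), (9, 2)])])))),
   (.node (0, 1, 0)
    (.node (-1, 1, 20)
     (.node (-1, 0, 10)
      (.leaf 0 [(1, [(7, 1)]), (1, [(9, 1)]), (1, [(6, 3), (9, 4)]), (1, [(4, 2), (6, 1)]), (1, [(0, 1)])])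
      (.node (-1, -3, 52)
       (.leaf 4 [(1, [(7, 8)]), (1, [(9, 8)]), (11, [(3, 20), (5, 12)]), (1, [(10, 8)]), (1, [(8, 8)])])
       (.leaf 17 [(1, [(4, 4), (8, 2)]), (1, [(4, 4), (6, 2)]), (1, [(4, 24), (10, 8)]), (1, [(10, 4)]), (1, [(8, 4)])])))
     (.node (-1, -3, 40)
      (.leaf 15 [(1, [(8, 1)]), (1, [(9, 1)]), (1, [(2, 2), (9, 2)]), (1, [(2, 2)]), (1, [(7, 4), (8, 2)])])
      (.leaf 16 [(1, [(8, 8)]), (1, [(9, 8)]), (1, [(2, 16)]), (1, [(3, 32)]), (1, [(4, 32)])])))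
    (.node (-1, 0, 10)
     (.leaf 2 [(1, [(7, 1)]), (1, [(8, 1)]), (1, [(2, 1)]), (2, [(0, 3), (2, 1)]), (1, [(6, 1)])])
     (.leaf 3 [(1, [(7, 8)]), (1, [(8, 8)]), (3, [(1, 7), (5, 5)]), (1, [(2, 8)]), (3, [(1, 8), (7, 232)])]))),
   (.node (0, 1, 0)
    (.node (-1, 0, 10)
     (.leaf 0 [(1, [(6, 1)]), (1, [(7, 1)]), (5, [(5, 3), (7, 23)]), (1, [(4, 1)]), (1, [(0, 1)])])
     (.node (1, -3, 8)
      (.node (-1, -3, 52)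
       (.leaf 4 [(1, [(6, 8)]), (1, [(7, 8)]), (1, [(8, 8)]), (1, [(9, 8)]), (1, [(2, 8)])])
       (.leaf 17 [(1, [(3, 2)]), (1, [(4, 2)]), (1, [(8, 4), (9, 4)]), (1, [(9, 4)]), (1, [(2, 4)])]))
      (.node (-1, 0, 22)
       (.node (0, -1, 16)
        (.leaf 5 [(1, [(10, 1)]), (1, [(9, 1)]), (1, [(8, 1)]), (1, [(7, 2), (8, 1)]), (3, [(4, 1), (7, 2)])])
        (.leaf 18 [(1, [(10, 1)]), (1, [(9, 1)]), (1, [(4, 1), (9, 2)]), (1, [(4, 1)]), (1, [(4, 1), (10, 4)])]))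
       (.leaf 17 [(1, [(3, 2)]), (1, [(4, 2)]), (1, [(9, 8)]), (1, [(8, 4), (9, 8)]), (1, [(2, 4)])]))))
    (.node (-1, 0, 10)
     (.leaf 2 [(1, [(6, 1)]), (1, [(7, 1)]), (1, [(0, 3), (7, 4)]), (1, [(0, 2), (2, 1)]), (1, [(0, 1), (6, 2)])])
     (.leaf 3 [(1, [(6, 8)]), (1, [(7, 8)]), (1, [(0, 16), (2, 8)]), (5, [(1, 6), (7, 14)]), (1, [(2, 8), (6, 16)])]))),
   (.node (0, 1, 0)
    (.node (0, -1, 16)
     (.node (1, -1, 4)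
      (.node (-1, 0, 10)
       (.node (-1, -3, 28)
        (.leaf 0 [(1, [(7, 1)]), (1, [(10, 1)]), (1, [(11, 1)]), (1, [(9, 3), (10, 2)]), (1, [(1, 1)])])
        (.leaf 5 [(1, [(8, 1)]), (1, [(4, 1)]), (1, [(10, 2), (11, 1)]), (1, [(11, 1)]), (1, [(9, 1)])]))
       (.node (1, -3, 8)
        (.leaf 4 [(1, [(7, 8)]), (1, [(10, 8)]), (1, [(11, 8)]), (1, [(4, 16), (11, 8)]), (1, [(2, 8)])])
        (.leaf 5 [(1, [(8, 1)]), (1, [(4, 1)]), (1, [(11, 1)]), (1, [(10, 2), (11, 1)]), (1, [(9, 1)])])))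
      (.leaf 6 [(1, [(8, 4), (9, 2)]), (4, [(0, 1), (8, 25)]), (1, [(0, 1), (8, 1)]), (9, [(0, 16), (9, 92)]), (1, [(9, 4)])]))
     (.node (-1, -1, 28)
      (.node (1, -3, 56)
       (.leaf 6 [(1, [(9, 2)]), (1, [(10, 2)]), (7, [(0, 8), (9, 8)]), (1, [(1, 4), (8, 8)]), (1, [(8, 8), (9, 4)])])
       (.leaf 19 [(1, [(9, 16)]), (1, [(10, 16)]), (1, [(0, 4), (8, 92)]), (1, [(1, 48), (6, 16)]), (1, [(6, 16), (9, 16)])]))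
      (.leaf 18 [(1, [(8, 1)]), (1, [(4, 1)]), (1, [(5, 1)]), (1, [(6, 1)]), (1, [(9, 1)])])))
    (.leaf 2 [(1, [(7, 1)]), (1, [(2, 1), (7, 1)]), (1, [(1, 1), (2, 2)]), (1, [(1, 2), (2, 1)]), (1, [(1, 1), (7, 2)])])),
   (.node (0, 1, 0)
    (.node (1, -3, 32)
     (.node (-1, -3, 28)
      (.leaf 0 [(1, [(7, 1)]), (19, [(1, 2), (3, 1)]), (1, [(9, 1)]), (1, [(8, 1)]), (1, [(1, 1)])])
      (.node (1, -1, 4)
       (.leaf 5 [(2, [(4, 1), (10, 1)]), (2, [(2, 1), (4, 1)]), (61, [(3, 6), (9, 65)]), (1, [(9, 1)]), (1, [(10, 1)])])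
       (.leaf 6 [(1, [(4, 2)]), (1, [(8, 2)]), (1, [(8, 4), (9, 4)]), (1, [(9, 4)]), (1, [(10, 4)])])))
     (.node (1, -3, 56)
      (.node (1, 0, 2)
       (.leaf 6 [(1, [(4, 2)]), (1, [(9, 2)]), (1, [(10, 8)]), (1, [(8, 4), (10, 8)]), (65, [(3, 8), (8, 92)])])
       (.node (0, -1, 14)
        (.leaf 7 [(1, [(1, 4), (9, 4)]), (1, [(1, 12), (8, 4)]), (1, [(8, 16)]), (1, [(10, 32)]), (1, [(11, 32)])])
        (.leaf 10 [(1, [(1, 2)]), (1, [(9, 2)]), (1, [(9, 4), (10, 8)]), (1, [(10, 8)]), (1, [(11, 8)])])))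
      (.node (-1, -3, 52)
       (.leaf 10 [(1, [(1, 2)]), (1, [(6, 4), (10, 2)]), (1, [(10, 4)]), (1, [(9, 4), (10, 4)]), (1, [(1, 2), (9, 2)])])
       (.leaf 19 [(1, [(4, 16)]), (1, [(9, 16)]), (1, [(10, 32)]), (1, [(6, 64)]), (1, [(5, 64)])]))))
    (.leaf 2 [(1, [(7, 1)]), (1, [(2, 1), (7, 1)]), (1, [(1, 1), (2, 2)]), (1, [(1, 2), (2, 1)]), (1, [(1, 1), (7, 2)])])),
   (.node (0, 1, 0)
    (.node (1, -3, 32)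
     (.node (1, 1, 0)
      (.leaf 0 [(1, [(7, 1)]), (1, [(3, 1), (7, 1)]), (13, [(4, 2), (9, 23)]), (1, [(8, 1)]), (1, [(9, 1)])])
      (.node (1, 0, 14)
       (.leaf 1 [(1, [(7, 16), (9, 8)]), (1, [(0, 8)]), (1, [(10, 32)]), (1, [(8, 16)]), (1, [(9, 16)])])
       (.leaf 11 [(1, [(7, 2), (8, 1)]), (1, [(8, 1), (10, 2)]), (1, [(10, 4)]), (1, [(0, 2), (10, 4)]), (3, [(0, 2), (6, 4)])])))
     (.node (1, -1, 32)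
      (.node (1, 3, -4)
       (.node (0, -1, 14)
        (.leaf 7 [(1, [(9, 8)]), (1, [(10, 8)]), (1, [(8, 16)]), (85, [(4, 96), (8, 992)]), (1, [(11, 32)])])
        (.leaf 10 [(1, [(9, 2), (11, 4)]), (1, [(5, 2)]), (1, [(3, 8), (9, 4)]), (1, [(3, 8), (11, 8)]), (1, [(11, 8)])]))
       (.leaf 11 [(1, [(9, 1)]), (1, [(10, 1)]), (1, [(8, 2), (10, 2)]), (1, [(8, 2)]), (1, [(0, 1), (9, 1)])]))
      (.node (1, 1, 4)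
       (.leaf 10 [(1, [(10, 2)]), (1, [(5, 2)]), (85, [(4, 24), (5, 92)]), (1, [(3, 4), (9, 4)]), (1, [(9, 4), (10, 4)])])
       (.leaf 20 [(1, [(10, 2)]), (1, [(5, 2)]), (1, [(6, 8)]), (1, [(0, 4)]), (1, [(9, 4)])]))))
    (.leaf 2 [(1, [(7, 1)]), (1, [(2, 1), (7, 1)]), (2, [(0, 1), (2, 3)]), (1, [(0, 1)]), (7, [(1, 1), (7, 41)])]))]

def bE0 : Bsp :=
  (.node (0, 1, 0)
    (.node (-1, 0, 10)
     (.node (-1, -3, 28)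
      (.node (1, -3, 32)
       (.node (1, 1, 0)
        (.leaf 0 [(1, [(5, 1)]), (1, [(6, 1)]), (1, [(7, 1)]), (1, [(8, 1)]), (1, [(9, 1)])])
        (.leaf 1 [(1, [(5, 16), (9, 8)]), (1, [(0, 16), (4, 8)]), (1, [(3, 8), (4, 24)]), (1, [(8, 16)]), (1, [(9, 16)])]))
       (.leaf 7 [(1, [(3, 4), (4, 4)]), (1, [(4, 12), (8, 4)]), (1, [(8, 16)]), (1, [(7, 16), (8, 16)]), (3, [(2, 16), (3, 16)])]))
      (.node (1, -1, 4)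
       (.leaf 5 [(1, [(1, 1), (8, 1)]), (1, [(1, 1)]), (1, [(6, 2), (7, 1)]), (1, [(7, 1)]), (1, [(8, 1)])])
       (.node (1, 0, 2)
        (.leaf 6 [(1, [(2, 1), (8, 1)]), (1, [(3, 2)]), (1, [(9, 8)]), (1, [(7, 4)]), (1, [(8, 4)])])
        (.leaf 7 [(1, [(3, 4), (4, 4)]), (1, [(7, 8)]), (1, [(7, 16), (9, 32)]), (1, [(9, 32)]), (3, [(2, 16), (3, 16)])]))))
     (.node (1, -3, 8)
      (.leaf 4 [(1, [(5, 8)]), (1, [(6, 8)]), (1, [(7, 8)]), (1, [(2, 8)]), (1, [(0, 8), (1, 8)])])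
      (.leaf 5 [(2, [(2, 1), (4, 1)]), (1, [(1, 1)]), (1, [(7, 1)]), (1, [(6, 2), (7, 1)]), (3, [(2, 1), (6, 4)])])))
    (.node (-1, 1, 0)
     (.leaf 1 [(1, [(6, 8)]), (1, [(0, 16), (4, 8)]), (1, [(3, 8), (4, 24)]), (1, [(4, 16), (5, 64)]), (1, [(5, 32), (6, 16)])])
     (.node (-1, 0, 10)
      (.leaf 2 [(1, [(5, 1)]), (1, [(7, 1)]), (1, [(0, 3), (1, 1)]), (1, [(0, 2), (4, 1)]), (1, [(6, 1)])])
      (.leaf 3 [(1, [(5, 8)]), (1, [(7, 8)]), (1, [(0, 16), (4, 8)]), (1, [(0, 24), (1, 8)]), (1, [(1, 8), (5, 8)])]))))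

def bE : List Bsp :=
  [(.node (0, 1, 0)
    (.node (-1, 0, 10)
     (.node (-1, -3, 28)
      (.node (1, -3, 32)
       (.node (1, 1, 0)
        (.leaf 0 [(1, [(5, 1)]), (1, [(6, 1)]), (1, [(7, 1)]), (1, [(8, 1)]), (1, [(9, 1)])])
        (.leaf 1 [(1, [(5, 16), (9, 8)]), (1, [(0, 16), (4, 8)]), (1, [(3, 8), (4, 24)]), (1, [(8, 16)]), (1, [(9, 16)])]))
       (.leaf 7 [(1, [(3, 4), (4, 4)]), (1, [(4, 12), (8, 4)]), (1, [(8, 16)]), (1, [(7, 16), (8, 16)]), (3, [(2, 16), (3, 16)])]))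
      (.node (1, -1, 4)
       (.leaf 5 [(1, [(1, 1), (8, 1)]), (1, [(1, 1)]), (1, [(6, 2), (7, 1)]), (1, [(7, 1)]), (1, [(8, 1)])])
       (.node (1, 0, 2)
        (.leaf 6 [(1, [(2, 1), (8, 1)]), (1, [(3, 2)]), (1, [(9, 8)]), (1, [(7, 4)]), (1, [(8, 4)])])
        (.leaf 7 [(1, [(3, 4), (4, 4)]), (1, [(7, 8)]), (1, [(7, 16), (9, 32)]), (1, [(9, 32)]), (3, [(2, 16), (3, 16)])]))))
     (.node (1, -3, 8)
      (.leaf 4 [(1, [(5, 8)]), (1, [(6, 8)]), (1, [(7, 8)]), (1, [(2, 8)]), (1, [(0, 8), (1, 8)])])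
      (.leaf 5 [(2, [(2, 1), (4, 1)]), (1, [(1, 1)]), (1, [(7, 1)]), (1, [(6, 2), (7, 1)]), (3, [(2, 1), (6, 4)])])))
    (.node (-1, 1, 0)
     (.leaf 1 [(1, [(6, 8)]), (1, [(0, 16), (4, 8)]), (1, [(3, 8), (4, 24)]), (1, [(4, 16), (5, 64)]), (1, [(5, 32), (6, 16)])])
     (.node (-1, 0, 10)
      (.leaf 2 [(1, [(5, 1)]), (1, [(7, 1)]), (1, [(0, 3), (1, 1)]), (1, [(0, 2), (4, 1)]), (1, [(6, 1)])])
      (.leaf 3 [(1, [(5, 8)]), (1, [(7, 8)]), (1, [(0, 16), (4, 8)]), (1, [(0, 24), (1, 8)]), (1, [(1, 8), (5, 8)])])))),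
   (.node (1, -3, 32)
    (.node (1, 1, 0)
     (.node (0, 1, 0)
      (.leaf 0 [(1, [(7, 1)]), (16, [(4, 1), (7, 16)]), (32, [(3, 1), (4, 3)]), (1, [(5, 1)]), (1, [(6, 1)])])
      (.leaf 2 [(1, [(7, 1)]), (8, [(0, 1), (7, 8)]), (4, [(0, 1), (6, 4)]), (8, [(1, 1)]), (1, [(6, 1), (7, 2)])]))
     (.node (-1, 1, 0)
      (.node (1, 3, 20)
       (.node (1, 0, 14)
        (.leaf 1 [(1, [(7, 8)]), (1, [(8, 8)]), (1, [(9, 32)]), (1, [(5, 16)]), (1, [(6, 16)])])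
        (.leaf 11 [(3, [(5, 2), (8, 1)]), (1, [(5, 1), (9, 2)]), (1, [(9, 4)]), (1, [(8, 2), (9, 4)]), (3, [(5, 2), (8, 4)])]))
       (.node (1, -3, 8)
        (.leaf 8 [(1, [(7, 1)]), (1, [(8, 1)]), (1, [(9, 2)]), (8, [(2, 1)]), (8, [(0, 1), (1, 1)])])
        (.leaf 11 [(16, [(2, 1), (4, 1)]), (1, [(8, 1)]), (1, [(8, 2), (9, 2)]), (1, [(9, 2)]), (12, [(2, 1), (9, 8)])])))
      (.leaf 2 [(2, [(6, 1), (7, 1)]), (16, [(0, 1), (6, 8)]), (16, [(0, 3), (1, 1)]), (8, [(1, 1)]), (1, [(7, 1)])])))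
    (.node (1, 3, -4)
     (.leaf 7 [(2, [(2, 1), (4, 1)]), (1, [(6, 8)]), (1, [(5, 16)]), (2, [(4, 3), (5, 16)]), (2, [(3, 1), (4, 1)])])
     (.leaf 11 [(16, [(2, 1), (4, 1)]), (1, [(6, 1)]), (1, [(5, 2), (6, 2)]), (1, [(5, 2)]), (12, [(2, 1), (5, 8)])]))),
   (.node (0, 1, 0)
    (.node (-1, 0, 10)
     (.node (1, 1, 0)
      (.leaf 0 [(1, [(5, 1)]), (1, [(6, 1)]), (1, [(0, 3), (1, 1)]), (1, [(0, 2), (4, 1)]), (1, [(7, 1)])])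
      (.leaf 1 [(1, [(5, 16), (7, 8)]), (1, [(4, 8), (5, 32)]), (1, [(3, 8), (4, 24)]), (1, [(0, 32), (4, 16)]), (1, [(7, 16)])]))
     (.leaf 4 [(1, [(5, 8)]), (1, [(6, 8)]), (1, [(0, 16), (4, 8)]), (1, [(0, 24), (1, 8)]), (1, [(1, 8), (5, 8)])]))
    (.node (-1, 1, 0)
     (.node (1, 3, 20)
      (.leaf 1 [(1, [(6, 8)]), (1, [(7, 8)]), (1, [(3, 8), (4, 24)]), (1, [(0, 32), (4, 16)]), (1, [(5, 32), (6, 16)])])
      (.leaf 8 [(1, [(6, 1)]), (1, [(7, 1)]), (1, [(4, 3), (7, 1)]), (1, [(3, 1), (4, 3)]), (1, [(3, 1), (6, 1)])]))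
     (.node (-1, -1, -4)
      (.node (-1, 3, 28)
       (.node (1, 3, 32)
        (.leaf 2 [(1, [(5, 1)]), (2, [(7, 3), (9, 1)]), (1, [(8, 1)]), (1, [(9, 1)]), (1, [(6, 1)])])
        (.leaf 9 [(1, [(3, 8), (4, 8)]), (1, [(2, 16)]), (1, [(8, 32), (9, 32)]), (1, [(9, 32)]), (1, [(6, 32)])]))
       (.node (-1, 0, -2)
        (.leaf 9 [(1, [(3, 8), (4, 8)]), (1, [(2, 16)]), (1, [(9, 64)]), (1, [(8, 32), (9, 64)]), (1, [(6, 32)])])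
        (.leaf 12 [(1, [(2, 4), (7, 4)]), (1, [(3, 8)]), (1, [(9, 32)]), (1, [(8, 16)]), (1, [(7, 16)])])))
      (.node (-1, 0, 10)
       (.node (-1, 3, 28)
        (.leaf 2 [(1, [(5, 1)]), (1, [(8, 1)]), (1, [(9, 1)]), (2, [(2, 1), (7, 3)]), (1, [(6, 1)])])
        (.leaf 13 [(1, [(1, 1), (7, 1)]), (1, [(1, 1)]), (1, [(8, 2), (9, 1)]), (1, [(9, 1)]), (1, [(7, 1)])]))
       (.node (1, 3, 8)
        (.leaf 3 [(1, [(5, 8)]), (1, [(8, 8)]), (1, [(9, 8)]), (1, [(2, 8)]), (1, [(0, 8), (1, 8)])])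
        (.leaf 13 [(1, [(1, 1), (7, 1)]), (1, [(1, 1)]), (1, [(9, 1)]), (1, [(8, 2), (9, 1)]), (1, [(7, 1)])])))))),
   (.node (0, 1, 0)
    (.node (-1, 0, 10)
     (.leaf 0 [(1, [(5, 1)]), (1, [(6, 1)]), (8, [(0, 2), (4, 1)]), (8, [(0, 3), (1, 1)]), (8, [(1, 1), (5, 8)])])
     (.node (-1, 1, 20)
      (.leaf 4 [(1, [(5, 8)]), (1, [(6, 8)]), (1, [(0, 3), (1, 1)]), (1, [(0, 2), (4, 1)]), (1, [(7, 8)])])
      (.leaf 15 [(1, [(7, 1)]), (4, [(4, 1), (7, 4)]), (8, [(3, 1), (4, 3)]), (4, [(4, 1), (5, 32)]), (1, [(5, 4), (7, 2)])])))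
    (.node (-1, 0, 10)
     (.node (-1, 3, 28)
      (.leaf 2 [(1, [(5, 1)]), (1, [(6, 1)]), (1, [(7, 1)]), (8, [(2, 1)]), (8, [(0, 1), (1, 1)])])
      (.leaf 13 [(16, [(2, 1), (4, 1)]), (1, [(6, 1)]), (1, [(6, 2), (7, 1)]), (1, [(7, 1)]), (12, [(2, 1), (7, 4)])]))
     (.node (1, 3, 8)
      (.node (-1, 3, 52)
       (.node (-1, -1, 20)
        (.leaf 3 [(1, [(5, 8)]), (1, [(6, 8)]), (1, [(7, 8)]), (1, [(8, 8)]), (1, [(9, 8)])])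
        (.leaf 15 [(1, [(5, 2), (9, 1)]), (8, [(0, 2), (4, 1)]), (8, [(3, 1), (4, 3)]), (1, [(8, 2)]), (1, [(9, 2)])]))
       (.leaf 14 [(4, [(4, 1), (7, 4)]), (16, [(4, 3), (8, 8)]), (1, [(8, 2)]), (1, [(7, 2), (8, 2)]), (12, [(2, 1), (3, 1)])]))
      (.node (-1, 0, 22)
       (.leaf 13 [(16, [(2, 1), (4, 1)]), (1, [(8, 1)]), (1, [(7, 1)]), (1, [(6, 2), (7, 1)]), (24, [(1, 2), (2, 1)])])
       (.leaf 14 [(8, [(2, 1), (4, 2)]), (1, [(7, 1)]), (1, [(7, 2), (8, 4)]), (1, [(8, 4)]), (6, [(3, 1), (8, 8)])]))))),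
   (.node (0, 1, 0)
    (.node (-1, 1, 20)
     (.node (-1, 0, 10)
      (.node (-1, -3, 28)
       (.leaf 0 [(1, [(5, 1)]), (1, [(7, 1)]), (1, [(8, 1)]), (8, [(2, 1)]), (8, [(0, 1), (1, 1)])])
       (.leaf 5 [(16, [(2, 1), (4, 1)]), (1, [(7, 1)]), (1, [(7, 2), (8, 1)]), (1, [(8, 1)]), (12, [(2, 1), (8, 4)])]))
      (.node (1, -3, 8)
       (.node (-1, -3, 52)
        (.leaf 4 [(1, [(5, 8)]), (1, [(7, 8)]), (1, [(8, 8)]), (1, [(9, 8)]), (1, [(6, 8)])])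
        (.leaf 17 [(4, [(2, 1), (4, 2)]), (4, [(2, 1)]), (1, [(8, 4), (9, 4)]), (1, [(9, 4)]), (1, [(6, 4)])]))
       (.node (-1, 0, 22)
        (.leaf 5 [(16, [(2, 1), (4, 1)]), (1, [(9, 1)]), (1, [(8, 1)]), (1, [(7, 2), (8, 1)]), (24, [(1, 2), (2, 1)])])
        (.leaf 17 [(4, [(2, 1), (4, 2)]), (4, [(2, 1)]), (1, [(9, 8)]), (1, [(8, 4), (9, 8)]), (1, [(6, 4)])]))))
     (.node (-1, -3, 40)
      (.leaf 15 [(1, [(6, 1)]), (1, [(7, 1)]), (8, [(3, 1), (4, 3)]), (4, [(0, 2), (4, 1)]), (1, [(5, 4), (6, 2)])])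
      (.leaf 16 [(1, [(6, 8)]), (1, [(7, 8)]), (1, [(0, 4), (4, 2)]), (1, [(3, 1), (4, 3)]), (1, [(3, 1), (6, 8)])])))
    (.node (-1, 0, 10)
     (.leaf 2 [(1, [(5, 1)]), (1, [(6, 1)]), (8, [(0, 2), (4, 1)]), (8, [(0, 3), (1, 1)]), (8, [(1, 1), (5, 8)])])
     (.node (-1, -1, 20)
      (.leaf 3 [(1, [(5, 8)]), (1, [(6, 8)]), (1, [(0, 3), (1, 1)]), (1, [(0, 2), (4, 1)]), (1, [(7, 8)])])
      (.leaf 15 [(1, [(5, 2), (7, 1)]), (8, [(4, 1), (5, 32)]), (8, [(3, 1), (4, 3)]), (4, [(0, 2), (4, 1)]), (1, [(7, 2)])])))),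
   (.node (-1, -3, 28)
    (.node (-1, 0, 10)
     (.leaf 0 [(2, [(2, 1), (4, 1)]), (1, [(6, 1)]), (1, [(5, 1)]), (2, [(4, 3), (5, 1)]), (2, [(3, 1), (4, 1)])])
     (.leaf 4 [(3, [(2, 4), (3, 4)]), (1, [(6, 8)]), (1, [(5, 8), (6, 16)]), (1, [(5, 8)]), (3, [(1, 16), (2, 8)])]))
    (.node (1, -3, 8)
     (.node (-1, -3, 52)
      (.leaf 4 [(3, [(2, 4), (3, 4)]), (1, [(5, 4), (6, 4)]), (1, [(6, 8)]), (1, [(7, 8)]), (3, [(1, 16), (2, 8)])])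
      (.leaf 17 [(1, [(0, 2), (1, 2)]), (1, [(6, 2)]), (1, [(6, 4), (7, 4)]), (1, [(7, 4)]), (3, [(1, 8), (2, 4)])]))
     (.node (-1, 0, 22)
      (.node (0, -1, 16)
       (.node (1, -1, 4)
        (.leaf 5 [(1, [(8, 1)]), (1, [(7, 1)]), (1, [(6, 1)]), (1, [(5, 1)]), (1, [(9, 1)])])
        (.leaf 6 [(1, [(8, 4), (9, 2)]), (1, [(0, 4), (4, 2)]), (1, [(3, 2), (4, 6)]), (1, [(5, 4)]), (1, [(9, 4)])]))
       (.node (-1, -1, 28)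
        (.leaf 6 [(1, [(9, 2)]), (1, [(0, 4), (4, 2)]), (1, [(3, 2), (4, 6)]), (1, [(5, 4)]), (1, [(8, 8), (9, 4)])])
        (.leaf 18 [(1, [(8, 1)]), (1, [(7, 1)]), (1, [(0, 3), (1, 1)]), (1, [(0, 2), (4, 1)]), (1, [(9, 1)])])))
      (.leaf 17 [(1, [(0, 2), (1, 2)]), (1, [(0, 6), (7, 2)]), (1, [(7, 8)]), (1, [(6, 4), (7, 8)]), (3, [(1, 8), (2, 4)])])))),
   (.node (-1, -3, 28)
    (.node (1, -3, 32)
     (.leaf 0 [(8, [(2, 1), (4, 2)]), (16, [(4, 3), (5, 4)]), (1, [(5, 1)]), (1, [(6, 1)]), (6, [(3, 1), (6, 2)])])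
     (.leaf 7 [(3, [(1, 4), (2, 2)]), (1, [(3, 2)]), (1, [(6, 16)]), (1, [(5, 16), (6, 16)]), (3, [(2, 4), (5, 32)])]))
    (.node (1, 0, 2)
     (.node (0, -1, 16)
      (.node (1, -1, 4)
       (.leaf 5 [(1, [(7, 1)]), (4, [(4, 1), (7, 4)]), (8, [(3, 1), (4, 3)]), (1, [(5, 1)]), (1, [(8, 1)])])
       (.leaf 6 [(1, [(7, 4), (8, 2)]), (1, [(6, 2), (7, 6)]), (1, [(6, 8)]), (1, [(5, 4)]), (1, [(8, 4)])]))
      (.node (-1, -1, 28)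
       (.node (1, -3, 56)
        (.leaf 6 [(1, [(8, 2)]), (1, [(9, 2)]), (1, [(6, 8)]), (1, [(5, 4)]), (1, [(7, 8), (8, 4)])])
        (.leaf 19 [(1, [(8, 16)]), (1, [(9, 16)]), (1, [(6, 64), (9, 32)]), (1, [(2, 8)]), (1, [(0, 8), (1, 8)])]))
       (.leaf 18 [(1, [(7, 1)]), (2, [(0, 1), (7, 2)]), (4, [(0, 3), (1, 1)]), (2, [(1, 1)]), (1, [(8, 1)])])))
     (.node (0, -1, 14)
      (.leaf 7 [(3, [(1, 4), (2, 2)]), (1, [(3, 2)]), (1, [(5, 16), (6, 32)]), (1, [(6, 32)]), (1, [(7, 32)])])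
      (.node (-1, -3, 52)
       (.leaf 10 [(2, [(2, 1), (4, 1)]), (1, [(1, 1)]), (1, [(8, 4)]), (1, [(6, 8)]), (1, [(7, 8)])])
       (.leaf 19 [(3, [(1, 8), (6, 64)]), (1, [(6, 32), (8, 16)]), (1, [(8, 32)]), (1, [(2, 8)]), (1, [(0, 8), (1, 8)])]))))),
   (.node (1, 0, 2)
    (.node (-1, -3, 28)
     (.leaf 0 [(48, [(2, 1), (5, 16)]), (32, [(3, 1)]), (1, [(6, 1)]), (1, [(5, 2), (6, 1)]), (48, [(2, 1), (5, 64)])])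
     (.leaf 6 [(8, [(2, 1), (4, 2)]), (16, [(4, 3), (5, 32)]), (1, [(5, 8)]), (1, [(6, 4)]), (6, [(3, 1), (6, 8)])]))
    (.node (1, -3, 32)
     (.node (1, 1, 0)
      (.leaf 0 [(1, [(5, 1), (7, 1)]), (32, [(3, 1)]), (1, [(5, 2), (6, 1)]), (1, [(6, 1)]), (1, [(7, 1)])])
      (.node (1, 0, 14)
       (.leaf 1 [(2, [(2, 1), (4, 1)]), (1, [(1, 1)]), (1, [(8, 32)]), (1, [(6, 16)]), (1, [(7, 16)])])
       (.leaf 11 [(24, [(1, 1), (6, 16)]), (1, [(6, 1), (8, 2)]), (1, [(8, 4)]), (8, [(2, 1)]), (6, [(1, 1), (6, 4)])])))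
     (.node (1, -1, 32)
      (.node (1, 3, -4)
       (.node (0, -1, 14)
        (.leaf 7 [(1, [(7, 8)]), (1, [(8, 8)]), (1, [(6, 16)]), (1, [(5, 32)]), (1, [(9, 32)])])
        (.leaf 10 [(1, [(7, 2), (9, 4)]), (8, [(0, 2), (4, 1)]), (8, [(3, 1), (4, 3)]), (1, [(5, 8)]), (1, [(9, 8)])]))
       (.leaf 11 [(1, [(7, 1)]), (1, [(8, 1)]), (1, [(6, 2), (8, 2)]), (8, [(2, 1)]), (8, [(0, 1), (1, 1)])]))
      (.node (1, 1, 4)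
       (.leaf 10 [(1, [(8, 2)]), (8, [(0, 2), (4, 1)]), (8, [(3, 1), (4, 3)]), (1, [(5, 8)]), (1, [(7, 4), (8, 4)])])
       (.leaf 20 [(1, [(8, 2)]), (2, [(0, 1), (8, 4)]), (4, [(0, 3), (1, 1)]), (2, [(1, 1)]), (1, [(7, 4)])])))))]

def sepd : List (List (Bool × ℕ × Cert)) :=
  [[],
   [(true, 4, (1, [(4, 16)]))],
   [(true, 0, (1, [(0, 1)])), (true, 4, (8, [(0, 1)]))],
   [(true, 0, (1, [(0, 8)])), (true, 1, (4, [(0, 2), (4, 1)])), (true, 1, (1, [(1, 8)]))],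
   [(true, 1, (1, [(1, 8)])), (true, 1, (4, [(0, 2), (4, 1)])), (true, 0, (1, [(0, 8)])), (true, 0, (1, [(0, 1)]))],
   [(true, 3, (1, [(2, 1)])), (true, 3, (16, [(2, 1), (4, 3)])), (true, 2, (1, [(0, 2), (4, 1)])), (true, 2, (8, [(0, 3), (1, 1)])), (true, 2, (8, [(2, 1)]))],
   [(true, 3, (1, [(2, 4)])), (true, 3, (4, [(2, 1), (4, 3)])), (true, 3, (1, [(0, 12), (1, 4)])), (true, 3, (2, [(0, 2), (4, 1)])), (true, 4, (6, [(1, 2), (2, 1)])), (true, 4, (1, [(4, 4)]))],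
   [(true, 2, (1, [(3, 16)])), (true, 2, (1, [(3, 1)])), (true, 2, (1, [(0, 32), (4, 16)])), (true, 2, (1, [(0, 6), (1, 2)])), (true, 2, (1, [(2, 2)])), (true, 3, (1, [(3, 8), (4, 24)])), (true, 3, (1, [(2, 4)]))],
   [(true, 1, (1, [(0, 2), (4, 1)])), (true, 1, (8, [(1, 1)])), (true, 0, (1, [(4, 1)])), (true, 0, (8, [(0, 1), (1, 1)])), (true, 0, (24, [(1, 2), (2, 1)])), (true, 1, (1, [(3, 1)])), (true, 1, (4, [(3, 1)])), (true, 1, (8, [(1, 1)]))],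
   [(true, 3, (1, [(0, 64), (4, 32)])), (true, 3, (1, [(1, 4)])), (true, 3, (1, [(3, 32)])), (true, 2, (1, [(1, 8)])), (true, 2, (1, [(1, 8)])), (true, 2, (1, [(3, 16), (4, 48)])), (true, 2, (1, [(2, 8)])), (true, 3, (1, [(1, 4)])), (true, 4, (1, [(0, 32)]))],
   [(true, 4, (3, [(2, 4), (3, 4)])), (true, 4, (4, [(2, 1), (4, 2)])), (true, 4, (1, [(0, 8)])), (true, 3, (1, [(1, 1)])), (true, 3, (1, [(1, 1)])), (true, 3, (1, [(3, 2), (4, 6)])), (true, 3, (1, [(2, 1)])), (true, 4, (4, [(4, 1)])), (true, 0, (1, [(0, 1), (1, 1)])), (true, 0, (16, [(2, 1), (4, 1)]))],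
   [(true, 2, (1, [(3, 1), (4, 3)])), (true, 2, (8, [(2, 1)])), (true, 2, (1, [(3, 1), (4, 3)])), (true, 2, (2, [(1, 1)])), (true, 1, (8, [(0, 3), (1, 1)])), (true, 1, (1, [(3, 1)])), (true, 1, (4, [(3, 1)])), (true, 1, (8, [(1, 1)])), (true, 3, (1, [(2, 1)])), (true, 3, (16, [(2, 1), (4, 3)])), (true, 1, (4, [(0, 2), (4, 1)]))],
   [(true, 3, (1, [(0, 48), (1, 16)])), (true, 3, (1, [(0, 3), (1, 1)])), (true, 3, (1, [(2, 16)])), (true, 4, (3, [(1, 4), (2, 2)])), (true, 3, (1, [(0, 4), (4, 2)])), (true, 3, (1, [(2, 16)])), (true, 3, (1, [(3, 2), (4, 6)])), (true, 2, (1, [(3, 1)])), (true, 2, (1, [(0, 24), (1, 8)])), (true, 2, (2, [(2, 1)])), (true, 2, (1, [(3, 4)])), (true, 2, (1, [(2, 8)]))],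
   [(true, 2, (1, [(0, 2), (4, 1)])), (true, 3, (16, [(0, 3), (1, 1)])), (true, 3, (1, [(2, 1)])), (true, 2, (8, [(2, 1)])), (true, 2, (8, [(0, 3), (1, 1)])), (true, 2, (1, [(3, 1)])), (true, 2, (4, [(3, 1)])), (true, 2, (8, [(1, 1)])), (true, 3, (2, [(0, 2), (4, 1)])), (true, 4, (32, [(2, 1), (4, 1)])), (true, 2, (4, [(0, 2), (4, 1)])), (true, 3, (2, [(3, 1)])), (true, 4, (16, [(4, 1)]))],
   [(true, 2, (1, [(0, 6), (1, 2)])), (true, 2, (8, [(0, 3), (1, 1)])), (true, 2, (1, [(2, 2)])), (true, 2, (4, [(3, 1)])), (true, 2, (4, [(0, 2), (4, 1)])), (true, 1, (1, [(3, 1)])), (true, 1, (4, [(3, 1)])), (true, 2, (8, [(2, 1)])), (true, 2, (1, [(0, 2), (4, 1)])), (true, 2, (8, [(1, 1)])), (true, 1, (4, [(0, 2), (4, 1)])), (true, 2, (1, [(3, 1)])), (true, 3, (8, [(0, 2), (4, 1)])), (true, 3, (1, [(1, 4)]))],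
   [(true, 0, (1, [(0, 1), (1, 1)])), (true, 0, (8, [(0, 1)])), (true, 0, (3, [(1, 2), (2, 1)])), (true, 4, (4, [(4, 1)])), (true, 0, (8, [(4, 1)])), (true, 0, (3, [(1, 2), (2, 1)])), (true, 0, (4, [(4, 1)])), (true, 0, (16, [(2, 1), (4, 1)])), (true, 0, (1, [(0, 1)])), (true, 0, (96, [(1, 2), (2, 1)])), (true, 0, (4, [(0, 2), (3, 1)])), (true, 0, (2, [(2, 1), (4, 1)])), (true, 4, (8, [(4, 1)])), (true, 4, (3, [(1, 4), (2, 2)])), (true, 3, (1, [(2, 1)]))],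
   [(true, 0, (1, [(0, 8), (1, 8)])), (true, 0, (1, [(0, 1)])), (true, 0, (3, [(1, 16), (2, 8)])), (true, 1, (1, [(0, 2), (4, 1)])), (true, 0, (1, [(4, 1)])), (true, 0, (3, [(1, 16), (2, 8)])), (true, 0, (1, [(4, 2)])), (true, 0, (2, [(2, 1), (4, 1)])), (true, 0, (1, [(0, 8)])), (true, 0, (12, [(1, 2), (2, 1)])), (true, 0, (1, [(3, 1), (4, 1)])), (true, 0, (3, [(2, 4), (3, 4)])), (true, 1, (1, [(0, 3), (3, 1)])), (true, 1, (1, [(2, 8)])), (true, 1, (1, [(1, 8)])), (true, 1, (1, [(1, 8)]))],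
   [(true, 2, (1, [(1, 8)])), (true, 2, (4, [(0, 2), (4, 1)])), (true, 2, (1, [(1, 8)])), (true, 3, (2, [(0, 2), (4, 1)])), (true, 3, (2, [(3, 1)])), (true, 2, (1, [(1, 8)])), (true, 2, (1, [(0, 2), (4, 1)])), (true, 1, (8, [(2, 1)])), (true, 2, (1, [(0, 6), (1, 2)])), (true, 2, (8, [(2, 1)])), (true, 1, (2, [(2, 1), (4, 3)])), (true, 2, (1, [(2, 2)])), (true, 2, (4, [(0, 2), (4, 1)])), (true, 2, (1, [(1, 8)])), (true, 3, (1, [(1, 4)])), (true, 3, (1, [(1, 4)])), (true, 4, (2, [(0, 1)]))],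
   [(true, 0, (2, [(2, 1), (4, 1)])), (true, 0, (32, [(0, 2), (3, 1)])), (true, 0, (1, [(0, 1)])), (true, 0, (8, [(0, 1)])), (true, 0, (16, [(2, 1), (4, 1)])), (true, 0, (1, [(0, 1)])), (true, 4, (2, [(0, 1)])), (true, 0, (32, [(4, 1)])), (true, 0, (4, [(0, 2), (2, 1)])), (true, 0, (64, [(0, 2), (3, 1)])), (true, 4, (4, [(2, 1), (4, 1)])), (true, 0, (4, [(0, 1), (1, 1)])), (true, 0, (32, [(0, 2), (3, 1)])), (true, 0, (2, [(2, 1), (4, 1)])), (true, 0, (4, [(0, 2), (2, 1)])), (true, 0, (4, [(0, 1), (1, 1)])), (true, 0, (32, [(4, 1)])), (true, 1, (8, [(2, 1)]))],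
   [(true, 1, (1, [(3, 16)])), (true, 1, (1, [(3, 1)])), (true, 1, (1, [(0, 32), (4, 16)])), (true, 1, (1, [(0, 6), (1, 2)])), (true, 1, (1, [(2, 2)])), (true, 1, (1, [(0, 32), (4, 16)])), (true, 1, (1, [(1, 8)])), (true, 2, (1, [(3, 1), (4, 3)])), (true, 1, (1, [(2, 8)])), (true, 1, (1, [(0, 3), (3, 1)])), (true, 2, (1, [(2, 8)])), (true, 1, (1, [(0, 24), (1, 8)])), (true, 1, (1, [(3, 1)])), (true, 1, (1, [(3, 16)])), (true, 1, (1, [(2, 8)])), (true, 1, (1, [(0, 24), (1, 8)])), (true, 0, (1, [(0, 1), (1, 1)])), (true, 0, (3, [(2, 4), (3, 4)])), (true, 0, (1, [(4, 16)]))],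
   [(true, 0, (1, [(4, 2)])), (true, 4, (4, [(2, 1), (4, 1)])), (true, 4, (1, [(4, 4)])), (true, 0, (12, [(1, 2), (2, 1)])), (true, 0, (4, [(0, 1), (1, 1)])), (true, 0, (1, [(3, 1), (4, 1)])), (true, 0, (2, [(2, 1), (4, 1)])), (true, 4, (2, [(0, 1)])), (true, 3, (1, [(1, 4)])), (true, 3, (8, [(3, 1)])), (true, 0, (1, [(0, 1)])), (true, 4, (1, [(0, 4)])), (true, 3, (4, [(2, 1), (4, 3)])), (true, 0, (1, [(4, 2)])), (true, 0, (1, [(2, 1), (4, 2)])), (true, 0, (1, [(4, 1)])), (true, 0, (8, [(0, 1), (1, 1)])), (true, 0, (2, [(2, 1), (4, 1)])), (true, 0, (1, [(4, 2)])), (true, 0, (16, [(2, 1), (4, 1)]))]]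

def wit : List (ℕ × ℤ × ℤ) :=
  [(0, 0, 0), (0, 0, 0), (0, 0, 0), (0, 10, 0), (0, 10, 0), (0, 10, 6), (0, -2, 10), (0, -2, 10), (1, -5, -5), (2, -2, -10), (6, -2, 18), (1, -14, 6), (2, -2, -10), (2, 10, -6), (3, 22, -10), (3, 20, 0), (4, 25, 5), (4, 22, 10), (5, 12, 16), (6, 7, 21), (7, -18, 14)]


/-- interior integer point used as the common centre -/
def octr : ℤ × ℤ := (8, 0)

lemma ok_A1 : ((List.range 8).all fun i =>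
    Bsp.ok tiles 8 (cl.getD i []) (bA1.getD i (.leaf 0 []))) = true := by decide +kernel
lemma ok_A2 : ((List.range 21).all fun i =>
    Bsp.ok tiles 21 (cl.getD i []) (bA2.getD i (.leaf 0 []))) = true := by decide +kernel
lemma ok_E0 : Bsp.ok tiles 8 ((tiles.getD 0 []).map relC) bE0 = true := by decide +kernel
lemma ok_E : ((List.range 8).all fun i =>
    Bsp.ok tiles 21 ((tiles.getD i []).map relC) (bE.getD i (.leaf 0 []))) = true := by decide +kernel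
lemma ok_inc : ((List.range 21).all fun i =>
    chkAll (tiles.getD i []) (cl.getD i []) (incC.getD i [])) = true := by decide +kernel
lemma ok_ctr : ((List.range 21).all fun i =>
    (cl.getD i []).all fun c => decide (0 < evi c octr.1 octr.2)) = true := by decide +kernel
def sepOk (l l' : List C3) (k : ℕ) (e : Cert) : Bool :=
  decide (k < l.length) && (decide ((l.getD k (0, 0, 0)).1 ≠ 0) || decide ((l.getD k (0, 0, 0)).2.1 ≠ 0)) &&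
    chk l' (negC (l.getD k (0, 0, 0))) e
def sepEntry (i j : ℕ) : Bool × ℕ × Cert := (sepd.getD i []).getD j (false, 0, (0, []))
lemma ok_sep : ((List.range 21).all fun i => (List.range i).all fun j =>
    if (sepEntry i j).1 then sepOk (tiles.getD i []) (tiles.getD j []) (sepEntry i j).2.1 (sepEntry i j).2.2
    else sepOk (tiles.getD j []) (tiles.getD i []) (sepEntry i j).2.1 (sepEntry i j).2.2) = true := by
  decide +kernel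
def inT (i : ℕ) (a b : ℤ) : Bool := (tiles.getD i []).all fun c => decide (0 ≤ evi c a b)
lemma ok_wit : ((List.range 21).all fun i =>
    inT i (wit.getD i (0, 0, 0)).2.1 (wit.getD i (0, 0, 0)).2.2 &&
    inT (wit.getD i (0, 0, 0)).1 (wit.getD i (0, 0, 0)).2.1 (wit.getD i (0, 0, 0)).2.2 &&
    decide ((wit.getD i (0, 0, 0)).1 < 8) && (decide (8 ≤ i) || decide ((wit.getD i (0, 0, 0)).1 = 0))) = true := by
  decide +kernel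

end Pool.Agent.Helper71.Heesch
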