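import Pool.Agent.Helper71.HeeschBase

open Complex ComplexConjugate Filter Topology Set

namespace Pool.Agent.Helper71.Heesch

noncomputable section

lemma isom_form (h : ℂ ≃ᵢ ℂ) : ∃ p u : ℂ, u.re ^ 2 + u.im ^ 2 = 1 ∧
    ((∀ z, h z = p + u * z) ∨ (∀ z, h z = p + u * conj z)) := by
  obtain ⟨a, ha⟩ := linear_isometry_complex h.toRealLinearIsometryEquiv
  have ha1 : (a : ℂ).re ^ 2 + (a : ℂ).im ^ 2 = 1 := by
    have := Complex.normSq_eq_norm_sq (a : ℂ)
    rw [Circle.norm_coe] at this
    rw [Complex.normSq_apply] at this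
    nlinarith
  refine ⟨h 0, a, ha1, ?_⟩
  rcases ha with ha | ha
  · left
    intro z
    have h1 := h.toRealLinearIsometryEquiv_apply z
    rw [ha, rotation_apply] at h1
    rw [h1]; ring
  · right
    intro z
    have h1 := h.toRealLinearIsometryEquiv_apply z
    rw [ha] at h1
    simp only [LinearIsometryEquiv.trans_apply, rotation_apply, conjLIE_apply] at h1
    rw [h1]; ring

lemma dir_unit (k : Fin 5) : (dir k).re ^ 2 + (dir k).im ^ 2 = 1 := by
  have := sq3'
  fin_cases k <;> simp [dir] <;> nlinarith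

lemma copy_rep {T : Set ℂ} (g : ℂ ≃ᵢ ℂ) (hT : T = g '' Pent) :
    ∃ (c α β : Fin 5 → ℝ), (∀ z : ℂ, z ∈ T ↔ ∀ j, 0 ≤ c j + α j * z.re + β j * z.im) ∧
      (∀ j, α j ^ 2 + β j ^ 2 = 1) ∧
      (∀ k, c k = 0 → α k = 0 → β k = 1 → ∃ σ t, T = Til k σ t) := by
  obtain ⟨p, u, hu, hg⟩ := isom_form g.symm
  have hmem : ∀ z, z ∈ T ↔ g.symm z ∈ Pent := by
    intro z
    rw [hT]
    constructor
    · rintro ⟨w, hw, rfl⟩
      simpa using hw
    · intro h
      exact ⟨g.symm z, h, by simp⟩
  rcases hg with hg | hg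
  · refine ⟨fun j => ((p - vtx j) * conj (dir j)).im, fun j => (u * conj (dir j)).im,
      fun j => (u * conj (dir j)).re, ?_, ?_, ?_⟩
    · intro z
      rw [hmem, hg]
      unfold Pent
      simp only [Set.mem_ofPred_eq]
      refine forall_congr' fun j => ?_
      have : ((p + u * z - vtx j) * conj (dir j)).im =
        ((p - vtx j) * conj (dir j)).im + (u * conj (dir j)).im * z.re + (u * conj (dir j)).re * z.im := by
        simp
        ring
      rw [this]
    · intro j
      have hd := dir_unit j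
      simp only [mul_re, mul_im, conj_re, conj_im]
      have : (u.re * -(dir j).im + u.im * (dir j).re) ^ 2 + (u.re * (dir j).re - u.im * -(dir j).im) ^ 2
        = (u.re ^ 2 + u.im ^ 2) * ((dir j).re ^ 2 + (dir j).im ^ 2) := by ring
      rw [this, hu, hd, one_mul]
    · intro k h1 h2 h3
      refine ⟨true, ((p - vtx k) * conj (dir k)).re, ?_⟩
      have hd := dir_unit k
      have hc : (dir k) * conj (dir k) = 1 := by
        apply Complex.ext
        · simp; nlinarith
        · simp; ring
      have hu1 : u = dir k := by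
        have e : u * conj (dir k) = 1 := by
          apply Complex.ext
          · simpa using h3
          · simpa using h2
        calc u = u * (dir k * conj (dir k)) := by rw [hc, mul_one]
          _ = (u * conj (dir k)) * dir k := by ring
          _ = dir k := by rw [e, one_mul]
      have hp : p = vtx k + dir k * (((p - vtx k) * conj (dir k)).re : ℂ) := by
        have e : (((p - vtx k) * conj (dir k)).re : ℂ) = (p - vtx k) * conj (dir k) := by
          apply Complex.ext
          · simp
          · simp only [ofReal_im]; exact h1.symm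
        rw [e]
        calc p = vtx k + (dir k * conj (dir k)) * (p - vtx k) := by rw [hc]; ring
          _ = _ := by ring
      ext z
      rw [hmem, hg]
      unfold Til fr
      simp only [Set.mem_ofPred_eq, if_true]
      have : p + u * z = vtx k + dir k * (z + (((p - vtx k) * conj (dir k)).re : ℂ)) := by
        conv_lhs => rw [hp, hu1]
        ring
      rw [this]
  · refine ⟨fun j => ((p - vtx j) * conj (dir j)).im, fun j => (u * conj (dir j)).im,
      fun j => -(u * conj (dir j)).re, ?_, ?_, ?_⟩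
    · intro z
      rw [hmem, hg]
      unfold Pent
      simp only [Set.mem_ofPred_eq]
      refine forall_congr' fun j => ?_
      have : ((p + u * conj z - vtx j) * conj (dir j)).im =
        ((p - vtx j) * conj (dir j)).im + (u * conj (dir j)).im * z.re + -(u * conj (dir j)).re * z.im := by
        simp
        ring
      rw [this]
    · intro j
      have hd := dir_unit j
      simp only [mul_re, mul_im, conj_re, conj_im]
      have : (u.re * -(dir j).im + u.im * (dir j).re) ^ 2 + (-(u.re * (dir j).re - u.im * -(dir j).im)) ^ 2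
        = (u.re ^ 2 + u.im ^ 2) * ((dir j).re ^ 2 + (dir j).im ^ 2) := by ring
      rw [this, hu, hd, one_mul]
    · intro k h1 h2 h3
      refine ⟨false, len k - ((p - vtx k) * conj (dir k)).re, ?_⟩
      have hd := dir_unit k
      have hc : (dir k) * conj (dir k) = 1 := by
        apply Complex.ext
        · simp; nlinarith
        · simp; ring
      have hu1 : u = -dir k := by
        have e : u * conj (dir k) = -1 := by
          apply Complex.ext
          · have : (u * conj (dir k)).re = -1 := by linarith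
            simpa using this
          · simpa using h2
        calc u = u * (dir k * conj (dir k)) := by rw [hc, mul_one]
          _ = (u * conj (dir k)) * dir k := by ring
          _ = -dir k := by rw [e]; ring
      have hp : p = vtx k + dir k * (((p - vtx k) * conj (dir k)).re : ℂ) := by
        have e : (((p - vtx k) * conj (dir k)).re : ℂ) = (p - vtx k) * conj (dir k) := by
          apply Complex.ext
          · simp
          · simp only [ofReal_im]; exact h1.symm
        rw [e]
        calc p = vtx k + (dir k * conj (dir k)) * (p - vtx k) := by rw [hc]; ring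
          _ = _ := by ring
      ext z
      rw [hmem, hg]
      unfold Til fr
      simp only [Set.mem_ofPred_eq]
      have : p + u * conj z = vtx k + dir k * ((len k : ℂ) - conj (z + ((len k - ((p - vtx k) * conj (dir k)).re : ℝ) : ℂ))) := by
        conv_lhs => rw [hp, hu1]
        generalize ((p - vtx k) * conj (dir k)).re = r
        simp only [map_add, map_sub, conj_ofReal, ofReal_sub]
        ring
      rw [this]
      simp

/-- eventual negativity along thin directions -/
lemma ev_neg {c α β : ℝ} (h : c < 0 ∨ (c = 0 ∧ (α < 0 ∨ (α = 0 ∧ β < 0)))) :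
    ∀ᶠ δ in 𝓝[>] (0 : ℝ), ∀ᶠ s in 𝓝[>] (0 : ℝ), c + α * s + β * (s * δ) < 0 := by
  rcases h with h | ⟨h, hα | ⟨hα, hβ⟩⟩
  · refine Eventually.of_forall fun δ => ?_
    have : 0 < -c ∨ (-c = 0 ∧ 0 < -(α + β * δ)) := Or.inl (by linarith)
    filter_upwards [ev_pos this] with s hs
    nlinarith
  · have : 0 < -α ∨ (-α = 0 ∧ 0 < -β) := Or.inl (by linarith)
    filter_upwards [ev_pos this] with δ hδ
    filter_upwards [self_mem_nhdsWithin] with s hs
    have hs' : (0 : ℝ) < s := hs
    rw [h]
    nlinarith [mul_pos hs' hδ]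
  · filter_upwards [self_mem_nhdsWithin] with δ hδ
    filter_upwards [self_mem_nhdsWithin] with s hs
    have hs' : (0 : ℝ) < s := hs
    have hδ' : (0 : ℝ) < δ := hδ
    rw [h, hα]
    nlinarith [mul_pos hs' hδ', mul_pos (mul_pos hs' hδ') (neg_pos.2 hβ)]

lemma ev_pos2 {c α β : ℝ} (h : 0 < c ∨ (c = 0 ∧ (0 < α))) :
    ∀ᶠ δ in 𝓝[>] (0 : ℝ), ∀ᶠ s in 𝓝[>] (0 : ℝ), 0 < c + α * s + β * (-(s * δ)) := by
  have h' : (-c) < 0 ∨ (-c = 0 ∧ (-α < 0 ∨ (-α = 0 ∧ β < 0))) := by
    rcases h with h | ⟨h, hα⟩
    · left; linarith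
    · right; exact ⟨by linarith, Or.inl (by linarith)⟩
  filter_upwards [ev_neg h'] with δ hδ
  filter_upwards [hδ] with s hs
  linarith

/-- next tile lemma in the standard frame -/
lemma ntl0 {F : Set (Set ℂ)} (hF : Good F) (h0 : (0 : ℂ) ∈ interior (⋃₀ F))
    {j : Fin 5} {σ : Bool} {t : ℝ} (ht0 : 0 ≤ t) (ht1 : t < len j)
    (hT : (conj '' Til j σ t) ∈ F) :
    ∃ j' σ' t', 0 ≤ t' ∧ t' < len j' ∧ Til j' σ' t' ∈ F := by
  -- a tile containing the thin sector above the positive real axis
  have hex : ∃ T ∈ F, ∃ (c α β : Fin 5 → ℝ),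
      (∀ z : ℂ, z ∈ T ↔ ∀ j, 0 ≤ c j + α j * z.re + β j * z.im) ∧
      (∀ j, α j ^ 2 + β j ^ 2 = 1) ∧
      (∀ k, c k = 0 → α k = 0 → β k = 1 → ∃ σ t, T = Til k σ t) ∧
      (∀ k, 0 < c k ∨ (c k = 0 ∧ (0 < α k ∨ (α k = 0 ∧ 0 < β k)))) := by
    by_contra hcon
    push Not at hcon
    have hall : ∀ T ∈ F, ∀ᶠ δ in 𝓝[>] (0 : ℝ), ∀ᶠ s in 𝓝[>] (0 : ℝ), (⟨s, s * δ⟩ : ℂ) ∉ T := by
      intro T hTF
      obtain ⟨g, hg⟩ := hF.copy T hTF
      obtain ⟨c, α, β, h1, h2, h3⟩ := copy_rep g hg
      obtain ⟨k, hk1, hk2⟩ := hcon T hTF c α β h1 h2 h3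
      have hneg : c k < 0 ∨ (c k = 0 ∧ (α k < 0 ∨ (α k = 0 ∧ β k < 0))) := by
        rcases hk1.lt_or_eq with h | h
        · exact Or.inl h
        · right
          refine ⟨h, ?_⟩
          obtain ⟨ha, hb⟩ := hk2 h
          rcases ha.lt_or_eq with h' | h'
          · exact Or.inl h'
          · right
            refine ⟨h', ?_⟩
            have := hb h'
            have h4 := h2 k
            rw [h'] at h4
            rcases this.lt_or_eq with h5 | h5
            · exact h5
            · rw [h5] at h4; norm_num at h4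
      filter_upwards [ev_neg hneg] with δ hδ
      filter_upwards [hδ] with s hs
      intro hmem
      have := (h1 _).1 hmem k
      simp only at this
      linarith
    have hall2 : ∀ᶠ δ in 𝓝[>] (0 : ℝ), ∀ᶠ s in 𝓝[>] (0 : ℝ), ∀ T ∈ F, (⟨s, s * δ⟩ : ℂ) ∉ T := by
      have := (eventually_all_finite hF.fin).2 hall
      filter_upwards [this] with δ hδ
      exact (eventually_all_finite hF.fin).2 hδ
    obtain ⟨δ, hδ⟩ := hall2.exists
    have hnear : ∀ᶠ s in 𝓝[>] (0 : ℝ), (⟨s, s * δ⟩ : ℂ) ∈ ⋃₀ F := by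
      have hc : Tendsto (fun s : ℝ => (⟨s, s * δ⟩ : ℂ)) (𝓝[>] 0) (𝓝 0) := by
        apply tendsto_nhdsWithin_of_tendsto_nhds
        have h' : (fun s : ℝ => (⟨s, s * δ⟩ : ℂ)) = fun s : ℝ => (s : ℂ) * ⟨1, δ⟩ := by
          funext s
          apply Complex.ext <;> simp
        rw [h']
        have : Continuous (fun s : ℝ => (s : ℂ) * ⟨1, δ⟩) := by fun_prop
        simpa using this.tendsto 0
      exact hc.eventually (mem_interior_iff_mem_nhds.1 h0)
    obtain ⟨s, hs1, hs2⟩ := (hδ.and hnear).exists
    obtain ⟨T, hTF, hmem⟩ := hs2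
    exact hs1 T hTF hmem
  obtain ⟨T, hTF, c, α, β, h1, h2, h3, h4⟩ := hex
  by_cases hk : ∃ k, c k = 0 ∧ α k = 0 ∧ 0 < β k
  · obtain ⟨k, hk1, hk2, hk3⟩ := hk
    have hb : β k = 1 := by
      have := h2 k
      rw [hk2] at this
      nlinarith
    obtain ⟨σ', t', hT'⟩ := h3 k hk1 hk2 hb
    -- 0 ∈ T
    have hz : ((0 : ℝ) : ℂ) ∈ T := by
      rw [h1]
      intro j
      simp only [ofReal_re, ofReal_im, mul_zero, add_zero]
      rcases h4 j with h | ⟨h, _⟩
      · exact h.le
      · exact h.ge
    -- small positive reals in T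
    have hs : ∀ᶠ s in 𝓝[>] (0 : ℝ), ((s : ℝ) : ℂ) ∈ T := by
      have : ∀ j, ∀ᶠ s in 𝓝[>] (0 : ℝ), 0 ≤ c j + α j * s := by
        intro j
        rcases h4 j with h | ⟨h, h' | ⟨h', h''⟩⟩
        · filter_upwards [ev_pos (C := c j) (d := α j) (Or.inl h)] with s hs
          linarith
        · filter_upwards [ev_pos (C := c j) (d := α j) (Or.inr ⟨h, h'⟩)] with s hs
          linarith
        · refine Eventually.of_forall fun s => ?_
          rw [h, h']; simp
      filter_upwards [(eventually_all (ι := Fin 5)).2 this] with s hs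
      rw [h1]
      intro j
      simpa using hs j
    have hs' : ∀ᶠ s in 𝓝[>] (0 : ℝ), (0 : ℝ) < s := self_mem_nhdsWithin
    obtain ⟨s, hs1, hs2⟩ := (hs.and hs').exists
    rw [hT'] at hz hs1
    have a1 := Til_real hz
    have a2 := Til_real hs1
    refine ⟨k, σ', t', by linarith [a1.1], by linarith [a2.2], ?_⟩
    rw [← hT']; exact hTF
  · exfalso
    push Not at hk
    have h5 : ∀ k, 0 < c k ∨ (c k = 0 ∧ 0 < α k) := by
      intro k
      rcases h4 k with h | ⟨h, h' | ⟨h', h''⟩⟩
      · exact Or.inl h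
      · exact Or.inr ⟨h, h'⟩
      · exact absurd h'' (not_lt.2 (hk k h h'))
    -- T contains directions 1 - iδ in its interior
    have hTint : ∀ᶠ δ in 𝓝[>] (0 : ℝ), ∀ᶠ s in 𝓝[>] (0 : ℝ), (⟨s, -(s * δ)⟩ : ℂ) ∈ interior T := by
      have := (eventually_all (ι := Fin 5)).2 (fun k => ev_pos2 (β := β k) (h5 k))
      filter_upwards [this] with δ hδ
      filter_upwards [(eventually_all (ι := Fin 5)).2 hδ] with s hs
      rw [mem_interior]
      refine ⟨{w : ℂ | ∀ j, 0 < c j + α j * w.re + β j * w.im}, ?_, ?_, ?_⟩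
      · intro w hw
        exact (h1 w).2 fun j => (hw j).le
      · simp only [Set.ofPred_forall]
        refine isOpen_iInter_of_finite fun j => isOpen_lt continuous_const ?_
        fun_prop
      · intro j
        simpa using hs j
    have hT0int : ∀ᶠ δ in 𝓝[>] (0 : ℝ), ∀ᶠ s in 𝓝[>] (0 : ℝ),
        (⟨s, -(s * δ)⟩ : ℂ) ∈ interior (conj '' Til j σ t) := by
      filter_upwards [self_mem_nhdsWithin] with δ hδ
      have hδ' : (0 : ℝ) < δ := hδ
      have hi := intdir (k := j) (σ := σ) (t := t) (a := 1) (b := δ) ht0 ht1.le hδ'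
        (Or.inr (by split_ifs <;> nlinarith [s3pos])) (Or.inl ht1)
      filter_upwards [hi] with s hs
      have e : interior (conj '' Til j σ t) = conj '' interior (Til j σ t) := by
        have := (conjLIE.toHomeomorph).image_interior (Til j σ t)
        exact this.symm
      rw [e]
      refine ⟨_, hs, ?_⟩
      apply Complex.ext <;> simp
    obtain ⟨δ, hδ1, hδ2, hδ3⟩ := (hTint.and (hT0int.and self_mem_nhdsWithin)).exists
    obtain ⟨s, hs1, hs2⟩ := (hδ1.and hδ2).exists
    have hne : T ≠ conj '' Til j σ t := by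
      intro heq
      -- T contains points above the axis
      have hab : ∀ᶠ s in 𝓝[>] (0 : ℝ), (⟨s, s * 1⟩ : ℂ) ∈ T ∨ True := Eventually.of_forall fun s => Or.inr trivial
      have hup : ∀ᶠ δ in 𝓝[>] (0 : ℝ), ∀ᶠ s in 𝓝[>] (0 : ℝ), (⟨s, s * δ⟩ : ℂ) ∈ T := by
        have := (eventually_all (ι := Fin 5)).2 (fun k => ev_pos2 (β := -β k) (h5 k))
        filter_upwards [this] with δ hδ
        filter_upwards [(eventually_all (ι := Fin 5)).2 hδ] with s hs
        rw [h1]
        intro j
        have := hs j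
        simp only
        linarith
      obtain ⟨δ, hδ, hδ'⟩ := (hup.and self_mem_nhdsWithin).exists
      obtain ⟨s, hs, hs'⟩ := (hδ.and self_mem_nhdsWithin).exists
      rw [heq] at hs
      obtain ⟨w, hw, hw'⟩ := hs
      have := Til_im hw
      have h6 : w.im = -(s * δ) := by
        have := congrArg Complex.im hw'
        simp at this
        linarith
      have h7 : (0 : ℝ) < s * δ := mul_pos hs' hδ'
      linarith
    exact (Set.disjoint_left.1 (hF.no T hTF _ hT hne)) hs1 hs2

end
end Pool.Agent.Helper71.Heesch
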