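import Pool.Agent.Helper71.HeeschData

open Complex ComplexConjugate Filter Topology Set

namespace Pool.Agent.Helper71.Heesch

lemma star_disk0_h845 {n : ℕ} (C : Fin (n + 1) → Set ℂ)
    (hconv : ∀ i, Convex ℝ (C i)) (hcl : ∀ i, IsClosed (C i))
    (hb : ∀ i, Bornology.IsBounded (C i)) (ho : ∀ i, (0 : ℂ) ∈ interior (C i)) :
    Nonempty ((⋃ i, C i : Set ℂ) ≃ₜ Metric.closedBall (0 : ℂ) 1) := by
  classical
  have hnh : ∀ i, C i ∈ 𝓝 (0 : ℂ) := fun i => mem_interior_iff_mem_nhds.mp (ho i)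
  have habs : ∀ i, Absorbent ℝ (C i) := fun i => absorbent_nhds_zero (hnh i)
  let g : ℂ → ℝ := fun z => Finset.univ.inf' ⟨0, Finset.mem_univ (0 : Fin (n + 1))⟩ (fun i => gauge (C i) z)
  have hgc : Continuous g :=
    Continuous.finset_inf'_apply _ (fun i _ => continuous_gauge (hconv i) (hnh i))
  have hex : ∀ z, ∃ i, g z = gauge (C i) z := by
    intro z
    obtain ⟨i, _, hi⟩ := Finset.exists_mem_eq_inf' ⟨0, Finset.mem_univ (0 : Fin (n + 1))⟩ (fun i => gauge (C i) z)
    exact ⟨i, hi⟩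
  have hle : ∀ z i, g z ≤ gauge (C i) z := fun z i => Finset.inf'_le _ (Finset.mem_univ i)
  have hg0 : ∀ z, 0 ≤ g z := by
    intro z
    obtain ⟨i, hi⟩ := hex z
    rw [hi]; exact gauge_nonneg z
  have hgpos : ∀ z, z ≠ 0 → 0 < g z := by
    intro z hz
    obtain ⟨i, hi⟩ := hex z
    rw [hi]
    rw [gauge_pos (habs i) (NormedSpace.isVonNBounded_of_isBounded ℝ (hb i))]
    exact hz
  have hgz : g 0 = 0 := by
    obtain ⟨i, hi⟩ := hex 0
    rw [hi, gauge_zero]
  have hgs : ∀ (c : ℝ) (z : ℂ), 0 ≤ c → g (c • z) = c * g z := by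
    intro c z hc
    apply le_antisymm
    · obtain ⟨i, hi⟩ := hex z
      rw [hi]
      refine (hle _ i).trans ?_
      rw [gauge_smul_of_nonneg hc, smul_eq_mul]
    · obtain ⟨i, hi⟩ := hex (c • z)
      rw [hi, gauge_smul_of_nonneg hc, smul_eq_mul]
      exact mul_le_mul_of_nonneg_left (hle z i) hc
  have hmem : ∀ z, z ∈ (⋃ i, C i : Set ℂ) ↔ g z ≤ 1 := by
    intro z
    rw [Set.mem_iUnion]
    constructor
    · rintro ⟨i, hi⟩
      exact (hle z i).trans (gauge_le_one_of_mem hi)
    · intro h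
      obtain ⟨i, hi⟩ := hex z
      refine ⟨i, ?_⟩
      rw [hi, gauge_le_one_iff_mem_closure (hconv i) (hnh i), (hcl i).closure_eq] at h
      exact h
  let φ : ℂ → ℂ := fun z => (g z / ‖z‖) • z
  have hφn : ∀ z, ‖φ z‖ = g z := by
    intro z
    by_cases hz : z = 0
    · subst hz
      simp [φ, hgz]
    · have : ‖z‖ ≠ 0 := norm_ne_zero_iff.mpr hz
      show ‖(g z / ‖z‖) • z‖ = g z
      rw [norm_smul, Real.norm_eq_abs, abs_of_nonneg (div_nonneg (hg0 z) (norm_nonneg z))]
      field_simp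
  let ψ : ℂ → ℂ := fun w => (‖w‖ / g w) • w
  have hψg : ∀ w, g (ψ w) = ‖w‖ := by
    intro w
    by_cases hw : w = 0
    · subst hw
      simp [ψ, hgz]
    · have : g w ≠ 0 := (hgpos w hw).ne'
      show g ((‖w‖ / g w) • w) = ‖w‖
      rw [hgs _ _ (div_nonneg (norm_nonneg w) (hg0 w))]
      field_simp
  have hψφ : ∀ z, ψ (φ z) = z := by
    intro z
    by_cases hz : z = 0
    · subst hz
      simp [ψ, φ]
    · have h1 : ‖z‖ ≠ 0 := norm_ne_zero_iff.mpr hz
      have h2 : g z ≠ 0 := (hgpos z hz).ne'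
      show (‖φ z‖ / g (φ z)) • φ z = z
      rw [hφn]
      show (g z / g ((g z / ‖z‖) • z)) • ((g z / ‖z‖) • z) = z
      rw [hgs _ _ (div_nonneg (hg0 z) (norm_nonneg z)), smul_smul]
      have : g z / (g z / ‖z‖ * g z) * (g z / ‖z‖) = 1 := by field_simp
      rw [this, one_smul]
  have hφψ : ∀ w, φ (ψ w) = w := by
    intro w
    by_cases hw : w = 0
    · subst hw
      simp [ψ, φ]
    · have h1 : ‖w‖ ≠ 0 := norm_ne_zero_iff.mpr hw
      have h2 : g w ≠ 0 := (hgpos w hw).ne'
      show (g (ψ w) / ‖ψ w‖) • ψ w = w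
      rw [hψg]
      show (‖w‖ / ‖(‖w‖ / g w) • w‖) • ((‖w‖ / g w) • w) = w
      rw [norm_smul, Real.norm_eq_abs, abs_of_nonneg (div_nonneg (norm_nonneg w) (hg0 w)), smul_smul]
      have : ‖w‖ / (‖w‖ / g w * ‖w‖) * (‖w‖ / g w) = 1 := by field_simp
      rw [this, one_smul]
  have hφc : Continuous φ := by
    rw [continuous_iff_continuousAt]
    intro z
    by_cases hz : z = 0
    · subst hz
      have h0 : φ 0 = 0 := by simp [φ]
      rw [ContinuousAt, h0, tendsto_zero_iff_norm_tendsto_zero]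
      have h1 : (fun z => ‖φ z‖) = g := funext hφn
      rw [h1]
      have h2 := hgc.tendsto 0
      rwa [hgz] at h2
    · have h1 : ContinuousAt (fun z : ℂ => g z / ‖z‖) z :=
        ContinuousAt.div hgc.continuousAt continuous_norm.continuousAt (norm_ne_zero_iff.mpr hz)
      have h2 : ContinuousAt (fun z : ℂ => z) z := continuousAt_id
      exact h1.smul h2
  have hcomp : IsCompact (⋃ i, C i : Set ℂ) := by
    apply isCompact_iUnion
    intro i
    exact Metric.isCompact_of_isClosed_isBounded (hcl i) (hb i)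
  haveI : CompactSpace (⋃ i, C i : Set ℂ) := isCompact_iff_compactSpace.mp hcomp
  let e : (⋃ i, C i : Set ℂ) ≃ Metric.closedBall (0 : ℂ) 1 :=
    { toFun := fun z => ⟨φ z.1, by
        rw [mem_closedBall_zero_iff, hφn]
        exact (hmem z.1).mp z.2⟩
      invFun := fun w => ⟨ψ w.1, by
        rw [hmem, hψg]
        exact mem_closedBall_zero_iff.mp w.2⟩
      left_inv := fun z => Subtype.ext (hψφ z.1)
      right_inv := fun w => Subtype.ext (hφψ w.1) }
  have hec : Continuous e := (hφc.comp continuous_subtype_val).subtype_mk _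
  exact ⟨hec.homeoOfEquivCompactToT2⟩

/-- A finite union of compact convex bodies of the plane that all contain a point `o` in their interior
is homeomorphic to the closed unit disk. (Put o = 0 by translation; let g z = min over i of gauge (C i) z,
continuous, positively homogeneous, positive off 0; the homeomorphism is z ↦ (g z / ‖z‖) • z, inverse w ↦ (‖w‖ / g w) • w;
`continuous_gauge`, `gauge_le_one_iff_mem_closure`; compare `gaugeRescale` in Mathlib.Analysis.Convex.GaugeRescale.) -/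
lemma star_disk {n : ℕ} (C : Fin (n + 1) → Set ℂ) (o : ℂ)
    (hconv : ∀ i, Convex ℝ (C i)) (hcl : ∀ i, IsClosed (C i))
    (hb : ∀ i, Bornology.IsBounded (C i)) (ho : ∀ i, o ∈ interior (C i)) :
    Nonempty ((⋃ i, C i : Set ℂ) ≃ₜ Metric.closedBall (0 : ℂ) 1) := by
  let h : ℂ ≃ₜ ℂ := Homeomorph.addLeft o
  have hh : ∀ z, h z = o + z := fun z => rfl
  have key := star_disk0_h845 (fun i => h ⁻¹' (C i))
    (fun i => (hconv i).translate_preimage_right o)
    (fun i => (hcl i).preimage h.continuous)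
    (fun i => by
      obtain ⟨R, hR⟩ := (hb i).subset_closedBall o
      refine (Metric.isBounded_closedBall (x := (0 : ℂ)) (r := R)).subset ?_
      intro z hz
      have h1 := hR hz
      rw [Metric.mem_closedBall, hh, dist_eq_norm, add_sub_cancel_left] at h1
      rwa [mem_closedBall_zero_iff])
    (fun i => by
      rw [← h.preimage_interior]
      show h 0 ∈ interior (C i)
      rw [hh, add_zero]
      exact ho i)
  obtain ⟨e⟩ := key
  refine ⟨(Homeomorph.subtype (p := fun z => z ∈ (⋃ i, C i : Set ℂ)) (q := fun z => z ∈ (⋃ i, h ⁻¹' (C i) : Set ℂ)) h.symm ?_).trans e⟩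
  intro z
  rw [Set.mem_iUnion, Set.mem_iUnion]
  simp only [Set.mem_preimage, Homeomorph.apply_symm_apply]


lemma Pent_aux_tri {S : Set ℂ} {p q : ℂ} (h0 : (0 : ℂ) ∈ convexHull ℝ S) (hp : p ∈ convexHull ℝ S)
    (hq : q ∈ convexHull ℝ S) {a b : ℝ} (ha : 0 ≤ a) (hb : 0 ≤ b) (hab : a + b ≤ 1) :
    (a : ℂ) * p + b * q ∈ convexHull ℝ S := by
  have hc := convex_convexHull ℝ S
  have := hc.sum_mem (t := Finset.univ) (w := ![a, b, 1 - a - b]) (z := ![p, q, 0])
    (by intro i _; fin_cases i <;> simp <;> linarith) (by simp [Fin.sum_univ_three])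
    (by intro i _; fin_cases i <;> simp <;> assumption)
  simpa [Fin.sum_univ_three] using this

lemma Pent_aux_mem {z : ℂ} : z ∈ Pent ↔ (0 ≤ z.im ∧ z.re ≤ 5 * √3 ∧ √3 * z.im + z.re ≤ 14 * √3 ∧
    0 ≤ z.re - √3 * z.im + 16 * √3 ∧ 0 ≤ z.im + √3 * z.re) := by
  have h3 : √3 * √3 = 3 := Real.mul_self_sqrt (by norm_num)
  simp only [Pent, mem_ofPred_eq, Fin.forall_fin_succ, vtx, dir]
  simp
  intro _ _
  constructor
  · rintro ⟨c, d, e⟩
    refine ⟨by nlinarith, by nlinarith, by nlinarith⟩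
  · rintro ⟨c, d, e⟩
    refine ⟨by nlinarith, by nlinarith, by nlinarith⟩

/-- The H-representation of the pentagon equals the convex hull of its five vertices
(fan triangulation from vtx 0: every point of Pent is in one of the 3 triangles (0,1,2), (0,2,3), (0,3,4)). -/
lemma Pent_eq_hull : Pent = convexHull ℝ ((Finset.univ.image vtx : Finset ℂ) : Set ℂ) := by
  have h3 : √3 * √3 = 3 := Real.mul_self_sqrt (by norm_num)
  have hs : (0 : ℝ) < √3 := Real.sqrt_pos.mpr (by norm_num)
  apply Subset.antisymm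
  · intro z hz
    rw [Pent_aux_mem] at hz
    obtain ⟨h1, h2, h4, h5, h6⟩ := hz
    set S : Set ℂ := ((Finset.univ.image vtx : Finset ℂ) : Set ℂ) with hS
    have hv : ∀ k, vtx k ∈ convexHull ℝ S := fun k => subset_convexHull ℝ S (by simp [hS])
    have v0 : (0 : ℂ) ∈ convexHull ℝ S := hv 0
    obtain ⟨u, hu⟩ : ∃ u : ℝ, z.re = √3 * u := ⟨z.re / √3, by field_simp⟩
    obtain ⟨y, hy⟩ : ∃ y : ℝ, z.im = y := ⟨_, rfl⟩
    have g2 : u ≤ 5 := by rw [hu] at h2; nlinarith
    have g4 : y + u ≤ 14 := by rw [hu, hy] at h4; nlinarith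
    have g5 : y - u ≤ 16 := by rw [hu, hy] at h5; nlinarith
    have g6 : 0 ≤ y + 3 * u := by rw [hu, hy] at h6; nlinarith
    have g1 : 0 ≤ y := by rw [hy] at h1; exact h1
    rcases le_total (5 * y) (9 * u) with c1 | c1
    · have := Pent_aux_tri v0 (hv 1) (hv 2) (a := u / 5 - y / 9) (b := y / 9) (by linarith) (by linarith)
        (by linarith)
      convert this using 1
      apply Complex.ext
      · simp [vtx, hu]; ring
      · simp [vtx, hy]
    · rcases le_total 0 (15 * u + y) with c2 | c2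
      · have := Pent_aux_tri v0 (hv 2) (hv 3) (a := (15 * u + y) / 84) (b := (5 * y - 9 * u) / 84)
          (by linarith) (by linarith) (by linarith)
        convert this using 1
        apply Complex.ext
        · simp [vtx, hu]; ring
        · simp [vtx, hy]; ring
      · have := Pent_aux_tri v0 (hv 3) (hv 4) (a := (3 * u + y) / 12) (b := (-y - 15 * u) / 48)
          (by linarith) (by linarith) (by linarith)
        convert this using 1
        apply Complex.ext
        · simp [vtx, hu]; ring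
        · simp [vtx, hy]; ring
  · apply convexHull_min
    · intro z hz
      simp only [Finset.coe_image, Finset.coe_univ, image_univ, mem_range] at hz
      obtain ⟨k, rfl⟩ := hz
      rw [Pent_aux_mem]
      fin_cases k
      · simp [vtx]
      all_goals simp only [vtx]
      all_goals simp
      · exact ⟨by norm_num, by positivity⟩
      · exact ⟨by nlinarith, by nlinarith, by nlinarith⟩
      · exact ⟨by nlinarith, by nlinarith, by nlinarith, by norm_num⟩
      · exact ⟨by nlinarith, by nlinarith, by nlinarith, by nlinarith⟩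
    · intro x hx y hy a b ha hb hab
      rw [Pent_aux_mem] at hx hy ⊢
      obtain ⟨h1, h2, h4, h5, h6⟩ := hx
      obtain ⟨k1, k2, k4, k5, k6⟩ := hy
      have e1 : b = 1 - a := by linarith
      subst e1
      simp only [add_re, real_smul, mul_re, ofReal_re, ofReal_im, zero_mul, sub_zero, add_im, mul_im, add_zero]
      refine ⟨by nlinarith, by nlinarith, by nlinarith, by nlinarith, by nlinarith⟩

lemma Pent_interior : (interior Pent).Nonempty := by
  have h3 : √3 * √3 = 3 := Real.mul_self_sqrt (by norm_num)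
  have hs : (0 : ℝ) < √3 := Real.sqrt_pos.mpr (by norm_num)
  refine ⟨⟨√3, 6⟩, ?_⟩
  have hU : IsOpen {z : ℂ | 0 < z.im ∧ z.re < 5 * √3 ∧ √3 * z.im + z.re < 14 * √3 ∧
    0 < z.re - √3 * z.im + 16 * √3 ∧ 0 < z.im + √3 * z.re} := by
    have c1 : Continuous (fun z : ℂ => √3 * z.im + z.re) := by fun_prop
    have c2 : Continuous (fun z : ℂ => z.re - √3 * z.im + 16 * √3) := by fun_prop
    have c3 : Continuous (fun z : ℂ => z.im + √3 * z.re) := by fun_prop
    exact (isOpen_lt continuous_const Complex.continuous_im).inter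
      ((isOpen_lt Complex.continuous_re continuous_const).inter
      ((isOpen_lt c1 continuous_const).inter
      ((isOpen_lt continuous_const c2).inter (isOpen_lt continuous_const c3))))
  have hsub : {z : ℂ | 0 < z.im ∧ z.re < 5 * √3 ∧ √3 * z.im + z.re < 14 * √3 ∧
    0 < z.re - √3 * z.im + 16 * √3 ∧ 0 < z.im + √3 * z.re} ⊆ Pent := by
    rintro z ⟨a, b, c, d, e⟩
    rw [Pent_aux_mem]
    exact ⟨a.le, b.le, c.le, d.le, e.le⟩
  apply interior_maximal hsub hU
  simp only [mem_ofPred_eq]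
  refine ⟨by norm_num, by nlinarith, by nlinarith, by nlinarith, by nlinarith⟩

/-! ### the patch -/

noncomputable section

/-- the tiles of the patch -/
def T (i : ℕ) : Set ℂ := Hs (tiles.getD i [])
/-- union of the first n tiles -/
def A (n : ℕ) : Set ℂ := {z | ∃ i < n, z ∈ T i}
/-- star pieces -/
def Cs (i : ℕ) : Set ℂ := Hs (cl.getD i [])

lemma T_zero : T 0 = Pent := by
  rw [Pent_eq_Hs]
  have : tiles.getD 0 [] = hP := by decide +kernel
  unfold T
  rw [this]

lemma tiles_len : tiles.length = 21 := by decide +kernel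

lemma T_copy {i : ℕ} (hi : i < 21) : ∃ g : ℂ ≃ᵢ ℂ, T i = g '' Pent := by
  have h1 : i < tiles.length := by rw [tiles_len]; exact hi
  have h2 : tiles.getD i [] = tiles[i] := by
    rw [List.getD_eq_getElem?_getD, List.getElem?_eq_getElem h1]; rfl
  have h3 : tiles[i] ∈ tiles := List.getElem_mem h1
  rw [← h2] at h3
  unfold tiles at h3
  obtain ⟨d, _, hd⟩ := List.mem_map.1 h3
  unfold T
  change ∃ g : ℂ ≃ᵢ ℂ, Hs (tiles.getD i []) = g '' Pent
  have h4 : tiles.getD i [] = tileL d.1 d.2.1 d.2.2.1 d.2.2.2 := hd.symm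
  rw [h4]
  exact tile_copy _ _ _ _

lemma all_range {n : ℕ} {f : ℕ → Bool} (h : (List.range n).all f = true) {i : ℕ} (hi : i < n) : f i = true :=
  List.all_eq_true.1 h i (List.mem_range.2 hi)

lemma sepOk_sound {l l' : List C3} {k : ℕ} {e : Cert} (h : sepOk l l' k e = true) :
    Disjoint (interior (Hs l)) (interior (Hs l')) := by
  simp only [sepOk, Bool.and_eq_true, Bool.or_eq_true, decide_eq_true_eq] at h
  obtain ⟨⟨h1, h2⟩, h3⟩ := h
  refine sep_sound (c := l.getD k (0, 0, 0)) ?_ h2 h3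
  rw [List.getD_eq_getElem?_getD, List.getElem?_eq_getElem h1]
  exact List.getElem_mem h1

lemma T_disj_lt {i j : ℕ} (hi : i < 21) (hj : j < i) : Disjoint (interior (T i)) (interior (T j)) := by
  have h := all_range (all_range ok_sep hi) hj
  split_ifs at h with h1
  · exact sepOk_sound h
  · exact (sepOk_sound h).symm

lemma T_disj {i j : ℕ} (hi : i < 21) (hj : j < 21) (hne : i ≠ j) :
    Disjoint (interior (T i)) (interior (T j)) := by
  rcases lt_or_gt_of_ne hne with h | h
  · exact (T_disj_lt hj h).symm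
  · exact T_disj_lt hi h

lemma inT_sound {i : ℕ} {a b : ℤ} (h : inT i a b = true) : Lp a b ∈ T i := by
  intro c hc
  rw [evc_Lp]
  have := List.all_eq_true.1 h c hc
  simp only [decide_eq_true_eq] at this
  exact_mod_cast this

lemma T_touch {i : ℕ} (hi : i < 21) : ∃ j < 8, (i < 8 → j = 0) ∧ (T i ∩ T j).Nonempty := by
  have h := all_range ok_wit hi
  simp only [Bool.and_eq_true, Bool.or_eq_true, decide_eq_true_eq] at h
  obtain ⟨⟨⟨h1, h2⟩, h3⟩, h4⟩ := h
  refine ⟨_, h3, fun h5 => ?_, ⟨_, inT_sound h1, inT_sound h2⟩⟩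
  rcases h4 with h | h
  · omega
  · exact h

lemma T_sub_Cs {i : ℕ} (hi : i < 21) : T i ⊆ Cs i := chkAll_sound (all_range ok_inc hi)

lemma Cs_sub8 {i : ℕ} (hi : i < 8) : Cs i ⊆ A 8 := Bsp.sound _ (all_range ok_A1 hi)
lemma Cs_sub21 {i : ℕ} (hi : i < 21) : Cs i ⊆ A 21 := Bsp.sound _ (all_range ok_A2 hi)

lemma Cs_ctr {i : ℕ} (hi : i < 21) : Lp 8 0 ∈ interior (Cs i) := by
  apply Hs_int
  intro c hc
  have h := List.all_eq_true.1 (all_range ok_ctr hi) c hc
  simp only [octr, decide_eq_true_eq] at h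
  rw [evc_Lp]
  exact_mod_cast h

lemma A_compact {n : ℕ} (hn : n ≤ 21) : IsCompact (A n) := by
  have hP : IsCompact Pent := by
    rw [Pent_eq_hull]
    exact Set.Finite.isCompact_convexHull (𝕜 := ℝ) (Finset.finite_toSet _)
  have : A n = ⋃ i ∈ Set.Iio n, T i := by
    ext z; simp [A]
  rw [this]
  apply (Set.finite_Iio n).isCompact_biUnion
  intro i hi
  obtain ⟨g, hg⟩ := T_copy (lt_of_lt_of_le hi hn)
  rw [hg]
  exact hP.image g.continuous

lemma A_eq_iUnion {m : ℕ} (hm : m + 1 ≤ 21) (h : ∀ i < m + 1, Cs i ⊆ A (m + 1)) :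
    A (m + 1) = ⋃ i : Fin (m + 1), Cs i := by
  apply Subset.antisymm
  · rintro z ⟨i, hi, hz⟩
    exact mem_iUnion.2 ⟨⟨i, hi⟩, T_sub_Cs (lt_of_lt_of_le hi hm) hz⟩
  · apply iUnion_subset
    intro i
    exact h i i.2

lemma A_disk {m : ℕ} (hm : m + 1 ≤ 21) (h : ∀ i < m + 1, Cs i ⊆ A (m + 1)) :
    Nonempty ((A (m + 1) : Set ℂ) ≃ₜ Metric.closedBall (0 : ℂ) 1) := by
  rw [A_eq_iUnion hm h]
  refine star_disk (fun i : Fin (m + 1) => Cs i) (Lp 8 0) (fun i => Hs_convex _) (fun i => Hs_closed _) ?_ ?_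
  · intro i
    exact (A_compact hm).isBounded.subset (h i i.2)
  · intro i
    exact Cs_ctr (lt_of_lt_of_le i.2 hm)

lemma disk8 : Nonempty ((A 8 : Set ℂ) ≃ₜ Metric.closedBall (0 : ℂ) 1) :=
  A_disk (m := 7) (by norm_num) (fun i hi => Cs_sub8 hi)
lemma disk21 : Nonempty ((A 21 : Set ℂ) ≃ₜ Metric.closedBall (0 : ℂ) 1) :=
  A_disk (m := 20) (by norm_num) (fun i hi => Cs_sub21 hi)

lemma int8 : T 0 ⊆ interior (A 8) := by
  refine (Hs_relax _).trans (interior_mono ?_)
  exact Bsp.sound _ ok_E0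

lemma int21 : A 8 ⊆ interior (A 21) := by
  rintro z ⟨i, hi, hz⟩
  exact interior_mono (Bsp.sound _ (all_range ok_E hi)) (Hs_relax _ hz)

end
end Pool.Agent.Helper71.Heesch
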