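import Pool.Agent.Helper71.HeeschNext

open Complex ComplexConjugate Filter Topology Set

namespace Pool.Agent.Helper71.Heesch

noncomputable section

/-- complex conjugation as an isometry -/
def cJ : ℂ ≃ᵢ ℂ := conjLIE.toIsometryEquiv
/-- translation by a real number -/
def tr (c : ℝ) : ℂ ≃ᵢ ℂ := IsometryEquiv.addRight (c : ℂ)
lemma nI : (I : ℂ) ∈ Submonoid.unitSphere ℂ := by simp [Submonoid.unitSphere]
lemma nW : (⟨-1 / 2, √3 / 2⟩ : ℂ) ∈ Submonoid.unitSphere ℂ := by
  have h : ‖(⟨-1 / 2, √3 / 2⟩ : ℂ)‖ = 1 := by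
    rw [Complex.norm_def, Complex.normSq_apply]
    have : (-1 / 2 : ℝ) * (-1 / 2) + √3 / 2 * (√3 / 2) = 1 := by nlinarith [sq3]
    simp only [this, Real.sqrt_one]
  simpa [Submonoid.unitSphere] using h
/-- rotation by 90 degrees -/
def rI : ℂ ≃ᵢ ℂ := (rotation ⟨I, nI⟩).toIsometryEquiv
/-- rotation by 120 degrees -/
def rW : ℂ ≃ᵢ ℂ := (rotation ⟨⟨-1 / 2, √3 / 2⟩, nW⟩).toIsometryEquiv

@[simp] lemma cJ_apply (z : ℂ) : cJ z = conj z := rfl
@[simp] lemma tr_apply (c : ℝ) (z : ℂ) : tr c z = z + c := rfl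
@[simp] lemma rI_apply (z : ℂ) : rI z = I * z := rfl
@[simp] lemma rW_apply (z : ℂ) : rW z = (⟨-1 / 2, √3 / 2⟩ : ℂ) * z := rfl

lemma img_trans (f g : ℂ ≃ᵢ ℂ) (S : Set ℂ) : (f.trans g) '' S = g '' (f '' S) := by
  rw [image_image]; rfl

lemma refl_img (S : Set ℂ) : (IsometryEquiv.refl ℂ) '' S = S := by
  change (fun x => x) '' S = S
  simp

lemma cJ_cJ (S : Set ℂ) : cJ '' (cJ '' S) = S := by
  rw [image_image]; simp

lemma Good.map {F : Set (Set ℂ)} (hF : Good F) (φ : ℂ ≃ᵢ ℂ) : Good ((fun T => φ '' T) '' F) := by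
  refine ⟨hF.fin.image _, ?_, ?_⟩
  · rintro _ ⟨T, hT, rfl⟩
    obtain ⟨g, hg⟩ := hF.copy T hT
    refine ⟨g.trans φ, ?_⟩
    rw [img_trans, ← hg]
  · rintro _ ⟨T, hT, rfl⟩ _ ⟨T', hT', rfl⟩ hne
    have hne' : T ≠ T' := fun h => hne (by rw [h])
    have h := hF.no T hT T' hT' hne'
    have e1 := φ.toHomeomorph.image_interior T
    have e2 := φ.toHomeomorph.image_interior T'
    change φ '' interior T = interior (φ '' T) at e1
    change φ '' interior T' = interior (φ '' T') at e2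
    simp only
    rw [← e1, ← e2]
    exact (disjoint_image_iff φ.injective).2 h

lemma int_img (φ : ℂ ≃ᵢ ℂ) (T : Set ℂ) : interior (φ '' T) = φ '' interior T :=
  (φ.toHomeomorph.image_interior T).symm

/-- next tile lemma in an arbitrary frame -/
lemma ntl {F : Set (Set ℂ)} (hF : Good F) (φ : ℂ ≃ᵢ ℂ) (h0 : φ 0 ∈ interior (⋃₀ F))
    {j : Fin 5} {σ : Bool} {t : ℝ} (ht0 : 0 ≤ t) (ht1 : t < len j)
    (hT : (φ '' (cJ '' Til j σ t)) ∈ F) :
    ∃ j' σ' t', 0 ≤ t' ∧ t' < len j' ∧ φ '' Til j' σ' t' ∈ F := by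
  have hG := hF.map φ.symm
  have hs : ∀ S : Set ℂ, φ.symm '' (φ '' S) = S := by
    intro S; rw [image_image]; simp
  have h0' : (0 : ℂ) ∈ interior (⋃₀ ((fun T => φ.symm '' T) '' F)) := by
    have e : ⋃₀ ((fun T => φ.symm '' T) '' F) = φ.symm '' (⋃₀ F) := by
      rw [sUnion_image, sUnion_eq_biUnion, image_iUnion₂]
    rw [e, int_img]
    exact ⟨φ 0, h0, by simp⟩
  have hT' : (conj '' Til j σ t) ∈ ((fun T => φ.symm '' T) '' F) :=
    ⟨_, hT, hs _⟩
  obtain ⟨j', σ', t', a1, a2, T, hTF, hTe⟩ := ntl0 hG h0' ht0 ht1 hT'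
  refine ⟨j', σ', t', a1, a2, ?_⟩
  have : φ '' Til j' σ' t' = T := by
    rw [← hTe]
    simp only
    rw [image_image]; simp
  rw [this]; exact hTF

/-- the direction (a,b) in the frame φ points into the interior of T -/
def Dir (φ : ℂ ≃ᵢ ℂ) (a b : ℝ) (T : Set ℂ) : Prop :=
  ∀ᶠ s in 𝓝[>] (0 : ℝ), φ (⟨s * a, s * b⟩ : ℂ) ∈ interior T

lemma Dir.eq {F : Set (Set ℂ)} (hF : Good F) {φ : ℂ ≃ᵢ ℂ} {a b : ℝ} {T T' : Set ℂ}
    (hT : T ∈ F) (hT' : T' ∈ F) (h : Dir φ a b T) (h' : Dir φ a b T') : T = T' := by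
  by_contra hne
  obtain ⟨s, h1, h2⟩ := (h.and h').exists
  exact Set.disjoint_left.1 (hF.no T hT T' hT' hne) h1 h2

lemma Dir.til {φ : ℂ ≃ᵢ ℂ} {k : Fin 5} {σ : Bool} {t a b : ℝ} (h0 : 0 ≤ t) (h1 : t ≤ len k) (hb : 0 < b)
    (hl : 0 < t ∨ (if lw k σ then 0 < √3 * a + b else 0 < a))
    (hr : t < len k ∨ (if rwd k σ then 0 < b - √3 * a else 0 < -a)) :
    Dir φ a b (φ '' Til k σ t) := by
  filter_upwards [intdir h0 h1 hb hl hr] with s hs
  rw [int_img]
  exact ⟨_, hs, rfl⟩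

lemma Dir.mem {φ : ℂ ≃ᵢ ℂ} {k : Fin 5} {σ : Bool} {t a b : ℝ} (h : Dir φ a b (φ '' Til k σ t)) :
    ∃ s : ℝ, 0 < s ∧ (⟨s * a, s * b⟩ : ℂ) ∈ Til k σ t := by
  obtain ⟨s, h1, h2⟩ := (h.and self_mem_nhdsWithin).exists
  obtain ⟨w, hw, hw'⟩ := interior_subset h1
  rw [φ.injective hw'] at hw
  exact ⟨s, h2, hw⟩

lemma Til_right {k : Fin 5} {σ : Bool} {s a b : ℝ} (hs : 0 < s)
    (h : (⟨s * a, s * b⟩ : ℂ) ∈ Til k σ (len k)) :
    (if rwd k σ then 0 ≤ b - √3 * a else 0 ≤ -a) := by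
  have := (mem_Til.1 h) (rj k σ)
  obtain ⟨e1, e2, e3⟩ := tab_right k σ
  rw [e1, e2, e3] at this
  simp only at this
  split_ifs at this ⊢ with hw
  · by_contra hc
    push Not at hc
    nlinarith [mul_pos hs (sub_pos.2 hc)]
  · by_contra hc
    push Not at hc
    nlinarith [mul_pos hs (neg_pos.2 hc)]

lemma Til_left {k : Fin 5} {σ : Bool} {s a b : ℝ} (hs : 0 < s)
    (h : (⟨s * a, s * b⟩ : ℂ) ∈ Til k σ 0) :
    (if lw k σ then 0 ≤ √3 * a + b else 0 ≤ a) := by
  have := (mem_Til.1 h) (lj k σ)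
  obtain ⟨e1, e2, e3⟩ := tab_left k σ
  rw [e1, e2, e3] at this
  simp only at this
  split_ifs at this ⊢ with hw
  · by_contra hc
    push Not at hc
    nlinarith [mul_pos hs (neg_pos.2 hc)]
  · by_contra hc
    push Not at hc
    nlinarith [mul_pos hs (neg_pos.2 hc)]

lemma Til_real_mem {k : Fin 5} {σ : Bool} {t x : ℝ} (h0 : 0 ≤ x + t) (h1 : x + t ≤ len k) :
    (x : ℂ) ∈ Til k σ t := by
  rw [mem_Til]
  intro j
  simp only [ofReal_re, ofReal_im, mul_zero, add_zero]
  by_cases hj : j = k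
  · obtain ⟨e1, e2, e3⟩ := tab_base k σ
    rw [hj, e1, e2]; simp
  · rcases tab_val (σ := σ) h0 h1 j hj with h | ⟨h, hj'⟩ | ⟨h, hj'⟩
    · exact h.le
    · obtain ⟨e1, e2, e3⟩ := tab_left k σ
      rw [hj', e1, h]; simp
    · obtain ⟨e1, e2, e3⟩ := tab_right k σ
      rw [hj', e1, e2, h]
      apply le_of_eq; ring

/-- the contradiction at a 120 degree right end -/
lemma F3 {F : Set (Set ℂ)} (hF : Good F) (φ : ℂ ≃ᵢ ℂ) (h0 : φ 0 ∈ interior (⋃₀ F))
    {j : Fin 5} {σ : Bool} (hw : rwd j σ = true) (hX : φ '' Til j σ (len j) ∈ F)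
    {k : Fin 5} {τ : Bool} {t : ℝ} (ht0 : 0 ≤ t) (ht1 : t < len k)
    (hY : (φ '' (cJ '' Til k τ t)) ∈ F) : False := by
  obtain ⟨j', σ', t', a1, a2, hZ⟩ := ntl hF φ h0 ht0 ht1 hY
  have s3 := s3pos
  have s3' := s3lt
  have h1 : Dir φ 1 3 (φ '' Til j' σ' t') :=
    Dir.til a1 a2.le (by norm_num) (Or.inr (by split_ifs <;> linarith)) (Or.inl a2)
  have h2 : Dir φ 1 3 (φ '' Til j σ (len j)) :=
    Dir.til (len_pos j).le le_rfl (by norm_num) (Or.inl (len_pos j)) (Or.inr (by rw [hw]; simp <;> linarith))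
  have heq := Dir.eq hF hX hZ h2 h1
  have h3 : Dir φ 3 1 (φ '' Til j' σ' t') :=
    Dir.til a1 a2.le (by norm_num) (Or.inr (by split_ifs <;> linarith)) (Or.inl a2)
  rw [← heq] at h3
  obtain ⟨s, hs, hm⟩ := h3.mem
  have := Til_right hs hm
  rw [hw] at this
  simp at this
  have s3'' := lts3
  linarith

/-- completion of a T-junction by a 90 degree corner -/
lemma F2 {F : Set (Set ℂ)} (hF : Good F) (φ : ℂ ≃ᵢ ℂ) (h0 : φ 0 ∈ interior (⋃₀ F))
    {j : Fin 5} {σ : Bool} (hw : rwd j σ = false) (hX : φ '' Til j σ (len j) ∈ F)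
    {k : Fin 5} {τ : Bool} {t : ℝ} (ht0 : 0 ≤ t) (ht1 : t < len k)
    (hY : (φ '' (cJ '' Til k τ t)) ∈ F) :
    ∃ j' σ', lw j' σ' = false ∧ φ '' Til j' σ' 0 ∈ F := by
  obtain ⟨j', σ', t', a1, a2, hZ⟩ := ntl hF φ h0 ht0 ht1 hY
  have s3 := s3pos
  have s3' := s3lt
  by_cases hcase : 0 < t' ∨ lw j' σ' = true
  · exfalso
    have h1 : Dir φ (-1) 3 (φ '' Til j' σ' t') := by
      refine Dir.til a1 a2.le (by norm_num) ?_ (Or.inl a2)
      rcases hcase with h | h
      · exact Or.inl h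
      · right; rw [h]; simp <;> linarith
    have h2 : Dir φ (-1) 3 (φ '' Til j σ (len j)) :=
      Dir.til (len_pos j).le le_rfl (by norm_num) (Or.inl (len_pos j)) (Or.inr (by rw [hw]; simp))
    have heq := Dir.eq hF hX hZ h2 h1
    have h3 : Dir φ 3 1 (φ '' Til j' σ' t') :=
      Dir.til a1 a2.le (by norm_num) (Or.inr (by split_ifs <;> linarith)) (Or.inl a2)
    rw [← heq] at h3
    obtain ⟨s, hs, hm⟩ := h3.mem
    have := Til_right hs hm
    rw [hw] at this
    simp at this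
    linarith
  · push Not at hcase
    have ht' : t' = 0 := le_antisymm hcase.1 a1
    subst ht'
    refine ⟨j', σ', ?_, hZ⟩
    cases h : lw j' σ'
    · rfl
    · exact absurd h hcase.2

/-! ### changes of frame -/

lemma Til_shift (k : Fin 5) (σ : Bool) (t c : ℝ) : tr c '' Til k σ (t + c) = Til k σ t := by
  ext z
  constructor
  · rintro ⟨w, hw, rfl⟩
    unfold Til at hw ⊢
    simp only [Set.mem_ofPred_eq, tr_apply] at hw ⊢
    convert hw using 2
    push_cast; ring
  · intro hz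
    refine ⟨z - c, ?_, by simp⟩
    unfold Til at hz ⊢
    simp only [Set.mem_ofPred_eq] at hz ⊢
    convert hz using 2
    push_cast; ring

lemma Til_shift_conj (k : Fin 5) (σ : Bool) (t c : ℝ) :
    tr c '' (cJ '' Til k σ (t + c)) = cJ '' Til k σ t := by
  have : tr c '' (cJ '' Til k σ (t + c)) = cJ '' (tr c '' Til k σ (t + c)) := by
    rw [image_image, image_image]
    apply image_congr
    intro z _
    simp
  rw [this, Til_shift]

lemma fr_R1 (j : Fin 5) (σ : Bool) (h : rwd j σ = false) (w : ℂ) :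
    fr j σ (I * w + len j) = fr (rj j σ) σ w := by
  have h3 := sq3
  cases σ <;> fin_cases j <;> simp [rwd, wide] at h <;>
    (apply Complex.ext <;> simp [fr, rj, vtx, dir, len] <;> (try ring_nf) <;> (try simp [sq3', cu3]) <;> (try ring_nf))

lemma fr_R2 (j : Fin 5) (σ : Bool) (h : lw j σ = false) (w : ℂ) :
    fr j σ (I * conj w) = fr (lj j σ) (!σ) w := by
  have h3 := sq3
  cases σ <;> fin_cases j <;> simp [lw, wide] at h <;>
    (apply Complex.ext <;> simp [fr, lj, vtx, dir, len] <;> (try ring_nf) <;> (try simp [sq3', cu3]) <;> (try ring_nf))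

lemma fr_R3 (j : Fin 5) (σ : Bool) (h : lw j σ = true) (w : ℂ) :
    fr j σ ((⟨-1 / 2, √3 / 2⟩ : ℂ) * conj w) = fr (lj j σ) (!σ) w := by
  have h3 := sq3
  cases σ <;> fin_cases j <;> simp [lw, wide] at h <;>
    (apply Complex.ext <;> simp [fr, lj, vtx, dir, len] <;> (try ring_nf) <;> (try simp [sq3', cu3]) <;> (try ring_nf))


lemma Til_R1 (j : Fin 5) (σ : Bool) (h : rwd j σ = false) :
    Til j σ (len j) = rI '' Til (rj j σ) σ 0 := by
  ext z
  constructor
  · intro hz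
    refine ⟨-I * z, ?_, by simp only [rI_apply]; rw [← mul_assoc]; simp⟩
    unfold Til at hz ⊢
    simp only [Set.mem_ofPred_eq, ofReal_zero, add_zero] at hz ⊢
    rw [← fr_R1 j σ h]
    convert hz using 2
    rw [← mul_assoc]; simp
  · rintro ⟨w, hw, rfl⟩
    unfold Til at hw ⊢
    simp only [Set.mem_ofPred_eq, ofReal_zero, add_zero, rI_apply] at hw ⊢
    rw [fr_R1 j σ h]
    exact hw

lemma Til_R2 (j : Fin 5) (σ : Bool) (h : lw j σ = false) :
    Til j σ 0 = rI '' (cJ '' Til (lj j σ) (!σ) 0) := by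
  ext z
  constructor
  · intro hz
    refine ⟨-I * z, ⟨conj (-I * z), ?_, by simp⟩, by simp only [rI_apply]; rw [← mul_assoc]; simp⟩
    unfold Til at hz ⊢
    simp only [Set.mem_ofPred_eq, ofReal_zero, add_zero] at hz ⊢
    rw [← fr_R2 j σ h]
    convert hz using 2
    rw [conj_conj, ← mul_assoc]; simp
  · rintro ⟨_, ⟨w, hw, rfl⟩, rfl⟩
    unfold Til at hw ⊢
    simp only [Set.mem_ofPred_eq, ofReal_zero, add_zero, rI_apply, cJ_apply] at hw ⊢
    rw [fr_R2 j σ h]
    exact hw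

lemma W_conj : (⟨-1 / 2, √3 / 2⟩ : ℂ) * conj (⟨-1 / 2, √3 / 2⟩ : ℂ) = 1 := by
  apply Complex.ext
  · simp; nlinarith [sq3]
  · simp; ring

lemma Til_R3 (j : Fin 5) (σ : Bool) (h : lw j σ = true) :
    Til j σ 0 = rW '' (cJ '' Til (lj j σ) (!σ) 0) := by
  have hW := W_conj
  ext z
  constructor
  · intro hz
    refine ⟨conj (⟨-1 / 2, √3 / 2⟩ : ℂ) * z, ⟨(⟨-1 / 2, √3 / 2⟩ : ℂ) * conj z, ?_, by simp⟩, ?_⟩
    · unfold Til at hz ⊢
      simp only [Set.mem_ofPred_eq, ofReal_zero, add_zero] at hz ⊢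
      rw [← fr_R3 j σ h]
      convert hz using 2
      rw [map_mul, conj_conj, ← mul_assoc, hW, one_mul]
    · rw [rW_apply, ← mul_assoc, hW, one_mul]
  · rintro ⟨_, ⟨w, hw, rfl⟩, rfl⟩
    unfold Til at hw ⊢
    simp only [Set.mem_ofPred_eq, ofReal_zero, add_zero, rW_apply, cJ_apply] at hw ⊢
    rw [fr_R3 j σ h]
    exact hw

lemma len_inj {a b : Fin 5} (h : len a = len b) : a = b := by
  have h1 := s3lt
  have h2 := lts3
  fin_cases a <;> fin_cases b <;> simp [len] at h ⊢ <;> linarith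

lemma idx_stem : ∀ (j : Fin 5) (σ : Bool) (j' : Fin 5) (σ' : Bool), lw j σ = true → rwd j σ = false →
    lw j' σ' = false → rj j σ = lj j' σ' → j' = j ∧ σ' = !σ := by
  decide

lemma idx_far : ∀ (j : Fin 5) (σ : Bool), lw j σ = true → rwd j σ = false → rwd (rj j σ) σ = true := by
  decide

lemma idx_far' : ∀ (j : Fin 5) (σ : Bool), lw j σ = false → rwd (lj j σ) (!σ) = true := by
  decide

/-- two 90 degree corners sharing a stem are mirror images -/
lemma stem {F : Set (Set ℂ)} (hF : Good F) (φ : ℂ ≃ᵢ ℂ)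
    {j : Fin 5} {σ : Bool} (hl : lw j σ = true) (hr : rwd j σ = false)
    (hX : φ '' Til j σ (len j) ∈ F) (hin : φ '' Til j σ (len j) ⊆ interior (⋃₀ F))
    {j' : Fin 5} {σ' : Bool} (hl' : lw j' σ' = false) (hZ : φ '' Til j' σ' 0 ∈ F) :
    j' = j ∧ σ' = !σ := by
  have eX : φ '' Til j σ (len j) = (rI.trans φ) '' Til (rj j σ) σ 0 := by
    rw [img_trans, Til_R1 j σ hr]
  have eZ : φ '' Til j' σ' 0 = (rI.trans φ) '' (cJ '' Til (lj j' σ') (!σ') 0) := by
    rw [img_trans, Til_R2 j' σ' hl']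
  have f1 := idx_far j σ hl hr
  have f2 := idx_far' j' σ' hl'
  rw [eX] at hX hin
  rw [eZ] at hZ
  set ψ := rI.trans φ with hψ
  set a := rj j σ with ha
  set b := lj j' σ' with hb
  have hin' : ∀ x : ℝ, 0 ≤ x → x ≤ len a → ψ (x : ℂ) ∈ interior (⋃₀ F) := by
    intro x h0 h1
    exact hin ⟨(x : ℂ), Til_real_mem (by simpa using h0) (by simpa using h1), rfl⟩
  rcases lt_trichotomy (len a) (len b) with h | h | h
  · exfalso
    refine F3 hF ((tr (len a)).trans ψ) ?_ (j := a) (σ := σ) f1 ?_ (k := b) (τ := !σ') (t := len a)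
      (len_pos a).le h ?_
    · simpa using hin' (len a) (len_pos a).le le_rfl
    · rw [img_trans]
      have := Til_shift a σ 0 (len a)
      rw [zero_add] at this
      rw [this]; exact hX
    · rw [img_trans]
      have := Til_shift_conj b (!σ') 0 (len a)
      rw [zero_add] at this
      rw [this]; exact hZ
  · exact idx_stem j σ j' σ' hl hr hl' (len_inj h)
  · exfalso
    refine F3 hF (cJ.trans ((tr (len b)).trans ψ)) ?_ (j := b) (σ := !σ') f2 ?_ (k := a) (τ := σ) (t := len b)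
      (len_pos b).le h ?_
    · simpa using hin' (len b) (len_pos b).le h.le
    · rw [img_trans, img_trans]
      have := Til_shift_conj b (!σ') 0 (len b)
      rw [zero_add] at this
      rw [this]; exact hZ
    · rw [img_trans, img_trans, cJ_cJ]
      have := Til_shift a σ 0 (len b)
      rw [zero_add] at this
      rw [this]; exact hX

/-- three nested families -/
structure Nest (U1 U2 U3 : Set (Set ℂ)) : Prop where
  good : Good U3
  s12 : U1 ⊆ U2
  s23 : U2 ⊆ U3
  h12 : ⋃₀ U1 ⊆ interior (⋃₀ U2)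
  h23 : ⋃₀ U2 ⊆ interior (⋃₀ U3)

lemma Good.mono {F G : Set (Set ℂ)} (hG : Good G) (h : F ⊆ G) : Good F :=
  ⟨hG.fin.subset h, fun T hT => hG.copy T (h hT), fun T hT T' hT' => hG.no T (h hT) T' (h hT')⟩

lemma idx_flip : ∀ (j : Fin 5) (σ : Bool), rwd j (!σ) = lw j σ := by decide

lemma len_S {j j' : Fin 5} {σ : Bool} (h1 : lw j σ = true) (h2 : rwd j σ = false)
    (h : 2 * len j = len j') : j = 3 ∧ j' = 2 := by
  have h4 := s3lt
  have h5 := lts3
  fin_cases j <;> fin_cases j' <;> simp [len] at h ⊢ <;> linarith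

/-- main lemma: sides along a common ray between two 120 degree corners -/
lemma S_lt {U1 U2 U3 : Set (Set ℂ)} (hN : Nest U1 U2 U3) (φ : ℂ ≃ᵢ ℂ)
    {j j' : Fin 5} {σ σ' : Bool} (hl : lw j σ = true) (hl' : lw j' σ' = true)
    (hX : φ '' Til j σ 0 ∈ U1) (hY : φ '' (cJ '' Til j' σ' 0) ∈ U1) (hlt : len j < len j') :
    j = 3 ∧ j' = 2 := by
  have G3 := hN.good
  have G2 := G3.mono hN.s23
  have hX2 := hN.s12 hX
  have hY2 := hN.s12 hY
  have p1 : ∀ T ∈ U1, T ⊆ interior (⋃₀ U2) := fun T hT => (subset_sUnion_of_mem hT).trans hN.h12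
  have p2 : ∀ T ∈ U2, T ⊆ interior (⋃₀ U3) := fun T hT => (subset_sUnion_of_mem hT).trans hN.h23
  have pX := p1 _ hX
  have pY := p1 _ hY
  have L := len_pos j
  have L' := len_pos j'
  -- real points of X and Y
  have rX : ∀ x : ℝ, 0 ≤ x → x ≤ len j → φ (x : ℂ) ∈ interior (⋃₀ U2) := fun x h0 h1 =>
    pX ⟨(x : ℂ), Til_real_mem (by simpa using h0) (by simpa using h1), rfl⟩
  have rY : ∀ x : ℝ, 0 ≤ x → x ≤ len j' → φ (x : ℂ) ∈ interior (⋃₀ U2) := fun x h0 h1 =>
    pY ⟨(x : ℂ), ⟨(x : ℂ), Til_real_mem (by simpa using h0) (by simpa using h1), by simp⟩, rfl⟩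
  -- frame at the right end of X
  set φ1 := (tr (len j)).trans φ with hφ1
  have eX1 : φ1 '' Til j σ (len j) = φ '' Til j σ 0 := by
    rw [hφ1, img_trans]
    have := Til_shift j σ 0 (len j)
    rw [zero_add] at this
    rw [this]
  have eY1 : φ1 '' (cJ '' Til j' σ' (len j)) = φ '' (cJ '' Til j' σ' 0) := by
    rw [hφ1, img_trans]
    have := Til_shift_conj j' σ' 0 (len j)
    rw [zero_add] at this
    rw [this]
  have i1 : φ1 0 ∈ interior (⋃₀ U2) := by
    simpa [hφ1] using rX (len j) L.le le_rfl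
  cases hr : rwd j σ with
  | true => exact (F3 G2 φ1 i1 hr (eX1 ▸ hX2) L.le hlt (eY1 ▸ hY2)).elim
  | false =>
    obtain ⟨k, τ, hk, hZ⟩ := F2 G2 φ1 i1 hr (eX1 ▸ hX2) L.le hlt (eY1 ▸ hY2)
    obtain ⟨rfl, rfl⟩ := stem G2 φ1 hl hr (eX1 ▸ hX2) (eX1 ▸ pX) hk hZ
    -- Z = φ1 '' Til k (!σ) 0, right end is wide
    have hZr : rwd k (!σ) = true := by rw [idx_flip]; exact hl
    have eZ : ∀ c : ℝ, ((tr c).trans φ) '' Til k (!σ) (c - len k) = φ1 '' Til k (!σ) 0 := by
      intro c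
      rw [hφ1, img_trans, img_trans]
      congr 1
      have h1 := Til_shift k (!σ) (-len k) c
      have h2 := Til_shift k (!σ) (-len k) (len k)
      rw [neg_add_cancel] at h2
      rw [h2, ← h1]
      congr 2; ring
    have eYc : ∀ c : ℝ, ((tr c).trans φ) '' (cJ '' Til j' σ' c) = φ '' (cJ '' Til j' σ' 0) := by
      intro c
      rw [img_trans]
      have := Til_shift_conj j' σ' 0 c
      rw [zero_add] at this
      rw [this]
    rcases lt_trichotomy (2 * len k) (len j') with h | h | h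
    · exfalso
      refine F3 G2 ((tr (2 * len k)).trans φ) ?_ hZr ?_ (k := j') (τ := σ') (t := 2 * len k)
        (by linarith) h ?_
      · simpa using rY (2 * len k) (by linarith) h.le
      · have := eZ (2 * len k)
        rw [show 2 * len k - len k = len k by ring] at this
        rw [this]; exact hZ
      · rw [eYc]; exact hY2
    · exact len_S hl hr h
    · exfalso
      -- frame at the right end of Y, reflected
      set φ2 := cJ.trans ((tr (len j')).trans φ) with hφ2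
      have eY2 : φ2 '' Til j' σ' (len j') = φ '' (cJ '' Til j' σ' 0) := by
        rw [hφ2, img_trans, eYc]
      have eZ2 : φ2 '' (cJ '' Til k (!σ) (len j' - len k)) = φ1 '' Til k (!σ) 0 := by
        rw [hφ2, img_trans, cJ_cJ, eZ]
      have i2 : φ2 0 ∈ interior (⋃₀ U2) := by
        simpa [hφ2] using rY (len j') L'.le le_rfl
      cases hr' : rwd j' σ' with
      | true =>
        exact F3 G2 φ2 i2 hr' (eY2 ▸ hY2) (by linarith) (by linarith) (eZ2 ▸ hZ)
      | false =>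
        obtain ⟨m, υ, hm, hZ'⟩ := F2 G2 φ2 i2 hr' (eY2 ▸ hY2) (by linarith) (by linarith) (eZ2 ▸ hZ)
        obtain ⟨rfl, rfl⟩ := stem G2 φ2 hl' hr' (eY2 ▸ hY2) (eY2 ▸ pY) hm hZ'
        -- final frame at 2 len k
        have key : (tr (2 * len k)).trans φ '' Til k (!σ) (len k) ∈ U2 := by
          have := eZ (2 * len k)
          rw [show 2 * len k - len k = len k by ring] at this
          rw [this]; exact hZ
        have key2 : (tr (2 * len k)).trans φ '' (cJ '' Til m (!σ') (2 * len k - len m)) ∈ U2 := by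
          have h1 : φ2 '' Til m (!σ') 0 = (tr (len m)).trans φ '' (cJ '' Til m (!σ') 0) := by
            rw [hφ2, img_trans]
          rw [h1] at hZ'
          have h2 : (tr (2 * len k)).trans φ '' (cJ '' Til m (!σ') (2 * len k - len m)) =
              (tr (len m)).trans φ '' (cJ '' Til m (!σ') 0) := by
            rw [img_trans, img_trans]
            congr 1
            have h3 := Til_shift_conj m (!σ') (-len m) (2 * len k)
            have h4 := Til_shift_conj m (!σ') (-len m) (len m)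
            rw [neg_add_cancel] at h4
            rw [h4, ← h3]
            congr 3; ring
          rw [h2]; exact hZ'
        refine F3 G3 ((tr (2 * len k)).trans φ) ?_ hZr (hN.s23 key) (t := 2 * len k - len m)
          (by linarith) (by linarith) (hN.s23 key2)
        have hp := p2 _ key
        exact hp ⟨0, by simpa using Til_real_mem (k := k) (σ := !σ) (x := 0) (t := len k) (by linarith) (by linarith), rfl⟩

/-- main lemma, symmetric form -/
lemma S_all {U1 U2 U3 : Set (Set ℂ)} (hN : Nest U1 U2 U3) (φ : ℂ ≃ᵢ ℂ)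
    {j j' : Fin 5} {σ σ' : Bool} (hl : lw j σ = true) (hl' : lw j' σ' = true)
    (hX : φ '' Til j σ 0 ∈ U1) (hY : φ '' (cJ '' Til j' σ' 0) ∈ U1) :
    j = j' ∨ (j = 3 ∧ j' = 2) ∨ (j = 2 ∧ j' = 3) := by
  rcases lt_trichotomy (len j) (len j') with h | h | h
  · exact Or.inr (Or.inl (S_lt hN φ hl hl' hX hY h))
  · exact Or.inl (len_inj h)
  · have := S_lt hN (cJ.trans φ) hl' hl (by rw [img_trans]; exact hY)
      (by rw [img_trans, cJ_cJ]; exact hX) h
    exact Or.inr (Or.inr ⟨this.2, this.1⟩)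

lemma Pent_eq_Til : Pent = Til 0 true 0 := by
  ext z
  unfold Til
  simp [fr, vtx, dir]

/-- direction in a composed frame -/
lemma Dir.frame {φ ψ : ℂ ≃ᵢ ℂ} {a b a' b' : ℝ} {T : Set ℂ}
    (h : ∀ s : ℝ, φ (⟨s * a, s * b⟩ : ℂ) = ψ (⟨s * a', s * b'⟩ : ℂ)) (hd : Dir φ a b T) : Dir ψ a' b' T := by
  filter_upwards [hd] with s hs
  rw [← h]; exact hs

theorem no_three {U1 U2 U3 : Set (Set ℂ)} (hN : Nest U1 U2 U3) (hP : Pent ∈ U1)
    (hP1 : (0 : ℂ) ∈ interior (⋃₀ U1)) : False := by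
  have G1 : Good U1 := (hN.good.mono hN.s23).mono hN.s12
  have s3 := s3pos
  have s3l := lts3
  have s3u := s3lt
  have q3 := sq3
  have L0 := len_pos
  -- P below the positive real ray after conjugation
  have eP0 : Pent = cJ '' (cJ '' Til 0 true 0) := by rw [cJ_cJ]; exact Pent_eq_Til
  have eP1 : Pent = rW '' (cJ '' Til 4 false 0) := by
    rw [Pent_eq_Til]
    exact Til_R3 0 true rfl
  obtain ⟨j, σ, t, t0, t1, hX⟩ := ntl G1 cJ (by simpa using hP1) (j := 0) (σ := true) (t := 0) le_rfl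
    (L0 0) (eP0 ▸ hP)
  obtain ⟨j', σ', t', t0', t1', hY⟩ := ntl G1 rW (by simpa using hP1) (j := 4) (σ := false) (t := 0) le_rfl
    (L0 4) (eP1 ▸ hP)
  have hXY : cJ '' Til j σ t ≠ rW '' Til j' σ' t' := by
    intro heq
    have h1 : Dir rW 3 1 (rW '' Til j' σ' t') :=
      Dir.til t0' t1'.le (by norm_num) (Or.inr (by split_ifs <;> linarith)) (Or.inl t1')
    rw [← heq] at h1
    have h2 : Dir cJ (-3 / 2 - √3 / 2) (-(3 * √3 / 2 - 1 / 2)) (cJ '' Til j σ t) := by
      refine Dir.frame ?_ h1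
      intro s
      apply Complex.ext <;> simp <;> ring
    obtain ⟨s, hs, hm⟩ := h2.mem
    have := Til_im hm
    simp only at this
    nlinarith
  -- t = 0
  have ht : t = 0 := by
    by_contra hne
    have htp : 0 < t := lt_of_le_of_ne t0 (Ne.symm hne)
    apply hXY
    have h1 : Dir rW 1 3 (rW '' Til j' σ' t') :=
      Dir.til t0' t1'.le (by norm_num) (Or.inr (by split_ifs <;> linarith)) (Or.inl t1')
    have h2 : Dir cJ (-1 / 2 - 3 * √3 / 2) (3 / 2 - √3 / 2) (cJ '' Til j σ t) :=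
      Dir.til t0 t1.le (by linarith) (Or.inl htp) (Or.inl t1)
    have h3 : Dir cJ (-1 / 2 - 3 * √3 / 2) (3 / 2 - √3 / 2) (rW '' Til j' σ' t') := by
      refine Dir.frame ?_ h1
      intro s
      apply Complex.ext <;> simp <;> ring
    exact Dir.eq G1 hX hY h2 h3
  -- t' = 0
  have hXq : Dir cJ (3 / 2 - √3 / 2) (3 * √3 / 2 + 1 / 2) (cJ '' Til j σ t) := by
    refine Dir.til t0 t1.le (by linarith) (Or.inr ?_) (Or.inl t1)
    split_ifs
    · nlinarith
    · linarith
  have ht' : t' = 0 := by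
    by_contra hne
    have htp : 0 < t' := lt_of_le_of_ne t0' (Ne.symm hne)
    apply hXY
    have h1 : Dir rW (-3) 1 (rW '' Til j' σ' t') :=
      Dir.til t0' t1'.le (by norm_num) (Or.inl htp) (Or.inl t1')
    have h3 : Dir cJ (3 / 2 - √3 / 2) (3 * √3 / 2 + 1 / 2) (rW '' Til j' σ' t') := by
      refine Dir.frame ?_ h1
      intro s
      apply Complex.ext <;> simp <;> ring
    exact Dir.eq G1 hX hY hXq h3
  subst ht ht'
  -- Y is wide
  have hlY : lw j' σ' = true := by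
    by_contra hne
    have hn : lw j' σ' = false := by simpa using hne
    have eY : rW '' Til j' σ' 0 = (rI.trans rW) '' (cJ '' Til (lj j' σ') (!σ') 0) := by
      rw [img_trans, Til_R2 j' σ' hn]
    obtain ⟨k, τ, u, u0, u1, hT⟩ := ntl G1 (rI.trans rW) (by simpa using hP1) (t := 0) le_rfl (L0 _) (eY ▸ hY)
    have h1 : Dir (rI.trans rW) 1 3 ((rI.trans rW) '' Til k τ u) :=
      Dir.til u0 u1.le (by norm_num) (Or.inr (by split_ifs <;> linarith)) (Or.inl u1)
    have h2 : Dir cJ (3 / 2 - √3 / 2) (3 * √3 / 2 + 1 / 2) ((rI.trans rW) '' Til k τ u) := by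
      refine Dir.frame ?_ h1
      intro s
      apply Complex.ext <;> simp <;> ring
    have heq := Dir.eq G1 hX hT hXq h2
    have h3 : Dir (rI.trans rW) 3 1 ((rI.trans rW) '' Til k τ u) :=
      Dir.til u0 u1.le (by norm_num) (Or.inr (by split_ifs <;> linarith)) (Or.inl u1)
    have h4 : Dir cJ (1 / 2 - 3 * √3 / 2) (3 / 2 + √3 / 2) ((rI.trans rW) '' Til k τ u) := by
      refine Dir.frame ?_ h3
      intro s
      apply Complex.ext <;> simp <;> ring
    rw [← heq] at h4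
    obtain ⟨s, hs, hm⟩ := h4.mem
    have := Til_left hs hm
    split_ifs at this <;> nlinarith
  -- X is wide
  have eY : rW '' Til j' σ' 0 = (rW.trans rW) '' (cJ '' Til (lj j' σ') (!σ') 0) := by
    rw [img_trans, Til_R3 j' σ' hlY]
  have hlX : lw j σ = true := by
    by_contra hne
    have hn : lw j σ = false := by simpa using hne
    obtain ⟨k, τ, u, u0, u1, hT⟩ := ntl G1 (rW.trans rW) (by simpa using hP1) (t := 0) le_rfl (L0 _) (eY ▸ hY)
    have h1 : Dir (rW.trans rW) 1 1 ((rW.trans rW) '' Til k τ u) :=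
      Dir.til u0 u1.le (by norm_num) (Or.inr (by split_ifs <;> linarith)) (Or.inl u1)
    have h2 : Dir cJ (-1 / 2 + √3 / 2) (√3 / 2 + 1 / 2) ((rW.trans rW) '' Til k τ u) := by
      refine Dir.frame ?_ h1
      intro s
      apply Complex.ext
      · simp; linear_combination (-s / 4) * q3
      · simp; linear_combination (-s / 4) * q3
    have hXr : Dir cJ (-1 / 2 + √3 / 2) (√3 / 2 + 1 / 2) (cJ '' Til j σ 0) := by
      refine Dir.til t0 t1.le (by linarith) (Or.inr ?_) (Or.inl t1)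
      split_ifs <;> nlinarith
    have heq := Dir.eq G1 hX hT hXr h2
    have h3 : Dir (rW.trans rW) 3 1 ((rW.trans rW) '' Til k τ u) :=
      Dir.til u0 u1.le (by norm_num) (Or.inr (by split_ifs <;> linarith)) (Or.inl u1)
    have h4 : Dir cJ (-3 / 2 + √3 / 2) (3 * √3 / 2 + 1 / 2) ((rW.trans rW) '' Til k τ u) := by
      refine Dir.frame ?_ h3
      intro s
      apply Complex.ext
      · simp; linear_combination (-3 * s / 4) * q3
      · simp; linear_combination (-s / 4) * q3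
    rw [← heq] at h4
    obtain ⟨s, hs, hm⟩ := h4.mem
    have := Til_left hs hm
    rw [hn] at this
    simp at this
    first | done | linarith
  -- identification of X and Y
  have a1 := S_all hN (IsometryEquiv.refl ℂ) (j := 0) (σ := true) (j' := j) (σ' := σ) rfl hlX
    (by rw [refl_img, ← Pent_eq_Til]; exact hP) (by rw [refl_img]; exact hX)
  have a2 := S_all hN rW (j := j') (σ := σ') (j' := 4) (σ' := false) hlY rfl hY (eP1 ▸ hP)
  have b1 : j = 0 ∧ σ = true := by
    rcases a1 with h | h | h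
    · subst h
      refine ⟨rfl, ?_⟩
      cases σ
      · exact absurd hlX (by decide)
      · rfl
    · exact absurd h.1 (by decide)
    · exact absurd h.1 (by decide)
  have b2 : j' = 4 ∧ σ' = false := by
    rcases a2 with h | h | h
    · subst h
      refine ⟨rfl, ?_⟩
      cases σ'
      · rfl
      · exact absurd hlY (by decide)
    · exact absurd h.2 (by decide)
    · exact absurd h.2 (by decide)
  obtain ⟨rfl, rfl⟩ := b1
  obtain ⟨rfl, rfl⟩ := b2
  have eX : cJ '' Til 0 true 0 = (rW.trans rW) '' Til 4 false 0 := by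
    rw [Til_R3 0 true rfl, img_trans]
    change cJ '' (rW '' (cJ '' Til 4 false 0)) = _
    rw [image_image, image_image, image_image]
    apply image_congr
    intro z _
    apply Complex.ext
    · simp; linear_combination (z.re / 4) * q3
    · simp; linear_combination (z.im / 4) * q3
  have a3 := S_all hN (rW.trans rW) (j := 4) (σ := false) (j' := 0) (σ' := true) rfl rfl (eX ▸ hX)
    (by
      have := eY ▸ hY
      exact this)
  rcases a3 with h | h | h
  · exact absurd h (by decide)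
  · exact absurd h.1 (by decide)
  · exact absurd h.1 (by decide)

end
end Pool.Agent.Helper71.Heesch
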