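import Mathlib
import Pool.Agent.Helper71.Polyomino

/-!
Joining two polyominoes by sliding and one extra cell.
-/

namespace Pool.Agent.Helper71.Polyomino

/-- `A` and `B` are disjoint and not adjacent. -/
def Sep (A B : Finset Cell) : Prop := ∀ a ∈ A, ∀ b ∈ B, a ≠ b ∧ ¬ cellGraph.Adj a b

/-- The cell `c` is adjacent to the set `A`. -/
def Linked (c : Cell) (A : Finset Cell) : Prop := ∃ a ∈ A, cellGraph.Adj c a

lemma Sep.symm {A B : Finset Cell} (h : Sep A B) : Sep B A := fun b hb a ha =>
  ⟨fun e => (h a ha b hb).1 e.symm, fun e => (h a ha b hb).2 e.symm⟩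

lemma Sep.trans {A B : Finset Cell} (h : Sep A B) (v : Cell) : Sep (trans v A) (trans v B) := by
  intro a ha b hb
  rw [mem_trans] at ha hb
  obtain ⟨h1, h2⟩ := h _ ha _ hb
  exact ⟨fun e => h1 (by rw [e]), fun e => h2 (adj_trans.mpr e)⟩

lemma Linked.trans {c : Cell} {A : Finset Cell} (h : Linked c A) (v : Cell) :
    Linked (c + v) (trans v A) := by
  obtain ⟨a, ha, hca⟩ := h
  refine ⟨a + v, by rw [mem_trans]; simpa using ha, ?_⟩
  rw [← adj_trans (v := v)]
  simpa using hca

/-- The vector of length `e` in direction `dir`. -/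
def vec (dir : Bool) (e : ℤ) : Cell := if dir then (e, 0) else (0, e)

/-- The coordinate orthogonal to `dir`. -/
def crd (dir : Bool) (p : Cell) : ℤ := if dir then p.2 else p.1

/-- Sliding `B` towards `A` in direction `dir`, and joining by one cell. -/
lemma slide (dir : Bool) (A B : Finset Cell)
    (h : ∃ a ∈ A, ∃ b ∈ B, crd dir a = crd dir b) :
    ∃ e : ℤ, ∃ c : Cell, Sep A (trans (vec dir e) B) ∧ c ∉ A ∧ c ∉ trans (vec dir e) B ∧
      Linked c A ∧ Linked c (trans (vec dir e) B) := by
  classical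
  let touch : ℤ → Prop := fun e =>
    ∃ a ∈ A, ∃ b ∈ B, a = b + vec dir e ∨ cellGraph.Adj a (b + vec dir e)
  let E : Finset ℤ := ((A ×ˢ B ×ˢ ({-1, 0, 1} : Finset ℤ)).image
    (fun x => (if dir then x.1.1 - x.2.1.1 else x.1.2 - x.2.1.2) + x.2.2)).filter touch
  have hE : ∀ e, touch e → e ∈ E := by
    intro e he
    rw [Finset.mem_filter]
    refine ⟨?_, he⟩
    obtain ⟨a, ha, b, hb, hab⟩ := he
    rw [Finset.mem_image]
    refine ⟨(a, b, e - (if dir then a.1 - b.1 else a.2 - b.2)), ?_, by simp⟩
    rw [Finset.mem_product, Finset.mem_product]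
    refine ⟨ha, hb, ?_⟩
    rw [adj_iff_cases] at hab
    simp only [Finset.mem_insert, Finset.mem_singleton]
    cases dir
    · simp only [vec, Bool.false_eq_true, if_false, Prod.fst_add, Prod.snd_add] at hab ⊢
      rcases hab with hab | hab
      · rw [hab]; simp
      · omega
    · simp only [vec, if_true, Prod.fst_add, Prod.snd_add] at hab ⊢
      rcases hab with hab | hab
      · rw [hab]; simp
      · omega
  have hne : E.Nonempty := by
    obtain ⟨a, ha, b, hb, hab⟩ := h
    refine ⟨if dir then a.1 - b.1 else a.2 - b.2, hE _ ⟨a, ha, b, hb, Or.inl ?_⟩⟩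
    cases dir
    · simp only [crd, Bool.false_eq_true, if_false] at hab
      simp only [vec, Bool.false_eq_true, if_false]
      ext
      · simp [hab]
      · simp
    · simp only [crd, if_true] at hab
      simp only [vec, if_true]
      ext
      · simp
      · simp [hab]
  obtain ⟨e0, he0, hmax⟩ := E.exists_max_image id hne
  have hno : ¬ touch (e0 + 1) := by
    intro h1
    have := hmax _ (hE _ h1)
    simp only [id] at this
    omega
  have ht : touch e0 := (Finset.mem_filter.mp he0).2
  have hsep : Sep A (trans (vec dir (e0 + 1)) B) := by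
    intro a ha b hb
    rw [mem_trans] at hb
    constructor
    · intro h1
      exact hno ⟨a, ha, _, hb, Or.inl (by rw [h1]; simp)⟩
    · intro h1
      exact hno ⟨a, ha, _, hb, Or.inr (by simpa using h1)⟩
  obtain ⟨a, ha, b, hb, hab⟩ := ht
  have hb' : b + vec dir (e0 + 1) ∈ trans (vec dir (e0 + 1)) B := by
    rw [mem_trans]; simpa using hb
  have hs1 := hsep a ha _ hb'
  rw [adj_iff_cases] at hs1
  rw [adj_iff_cases] at hab
  have hcb : cellGraph.Adj (a + vec dir 1) (b + vec dir (e0 + 1)) := by
    rw [adj_iff_cases]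
    obtain ⟨hs2, hs3⟩ := hs1
    obtain ⟨a1, a2⟩ := a
    obtain ⟨b1, b2⟩ := b
    cases dir
    · simp only [vec, Bool.false_eq_true, if_false, Prod.mk_add_mk, Ne, Prod.mk.injEq,
        add_zero] at hab hs2 hs3 ⊢
      rcases hab with hab | hab | hab | hab | hab
      · exact absurd (by omega) hs3
      · left; omega
      · right; left; omega
      · right; right; left; omega
      · exact absurd (by omega) hs2
    · simp only [vec, if_true, Prod.mk_add_mk, Ne, Prod.mk.injEq, add_zero] at hab hs2 hs3 ⊢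
      rcases hab with hab | hab | hab | hab | hab
      · exact absurd (by omega) hs3
      · left; omega
      · exact absurd (by omega) hs2
      · right; right; left; omega
      · right; right; right; omega
  have hca : cellGraph.Adj (a + vec dir 1) a := by
    rw [adj_iff_cases]
    cases dir
    · simp [vec]
    · simp [vec]
  refine ⟨e0 + 1, a + vec dir 1, hsep, ?_, ?_, ⟨a, ha, hca⟩, ⟨_, hb', hcb⟩⟩
  · intro h1
    exact (hsep _ h1 _ hb').2 hcb
  · intro h1
    exact (hsep _ ha _ h1).2 hca.symm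

/-- The joined polyomino. -/
lemma join_card {A B : Finset Cell} {c : Cell} (h : Sep A B) (hA : c ∉ A) (hB : c ∉ B) :
    (insert c (A ∪ B)).card = A.card + B.card + 1 := by
  classical
  rw [Finset.card_insert_of_notMem, Finset.card_union_of_disjoint]
  · rw [Finset.disjoint_left]
    intro a ha hb
    exact (h a ha a hb).1 rfl
  · rw [Finset.mem_union]
    rintro (h1 | h1)
    · exact hA h1
    · exact hB h1

lemma conn_insert {A : Finset Cell} {c : Cell} (hA : Conn A) (hl : Linked c A) :
    Conn (insert c A) := by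
  classical
  rw [Finset.insert_eq]
  obtain ⟨a, ha, hca⟩ := hl
  exact (conn_singleton c).union hA ⟨c, by simp, a, ha, Or.inr hca⟩

lemma join_conn {A B : Finset Cell} {c : Cell} (hA : Conn A) (hB : Conn B)
    (hlA : Linked c A) (hlB : Linked c B) : Conn (insert c (A ∪ B)) := by
  classical
  have h1 := conn_insert hA hlA
  have h2 : Conn (insert c A ∪ B) := by
    apply h1.union hB
    obtain ⟨b, hb, hcb⟩ := hlB
    exact ⟨c, by simp, b, hb, Or.inr hcb⟩
  rwa [Finset.insert_union] at h2

/-- The central cell and the two halves of a joined polyomino are determined. -/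
lemma center_unique {n : ℕ} {A B A' B' : Finset Cell} {c c' : Cell}
    (hA : Conn A) (hB : Conn B) (hA' : Conn A') (_hB' : Conn B')
    (cA : A.card = n) (cB : B.card = n) (cA' : A'.card = n) (cB' : B'.card = n)
    (hs : Sep A B) (hs' : Sep A' B') (h1 : c ∉ A) (h2 : c ∉ B) (h1' : c' ∉ A') (h2' : c' ∉ B')
    (lA : Linked c A) (lB : Linked c B)
    (heq : insert c (A ∪ B) = insert c' (A' ∪ B')) :
    c = c' ∧ ((A' = A ∧ B' = B) ∨ (A' = B ∧ B' = A)) := by
  classical
  -- a connected set of `n + 1` cells avoiding `c'` inside the union is impossible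
  have key : ∀ D : Finset Cell, Conn D → D.card = n + 1 → c' ∉ D → D ⊆ insert c (A ∪ B) →
      False := by
    intro D hD hcard hc' hsub
    have hD' : ∀ p ∈ D, p ∈ A' ∨ p ∈ B' := by
      intro p hp
      have := hsub hp
      rw [heq, Finset.mem_insert, Finset.mem_union] at this
      rcases this with h3 | h3
      · exact absurd (h3 ▸ hp) hc'
      · exact h3
    rcases hD.subset_or hD' (fun a ha b hb => (hs' a ha b hb).2) with h3 | h3
    · have := Finset.card_le_card h3; omega
    · have := Finset.card_le_card h3; omega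
  have hcc : c = c' := by
    by_contra hne
    have hc' : c' ∈ insert c (A ∪ B) := by rw [heq]; exact Finset.mem_insert_self _ _
    rw [Finset.mem_insert, Finset.mem_union] at hc'
    rcases hc' with h3 | h3 | h3
    · exact hne h3.symm
    · -- `c' ∈ A`, use `insert c B`
      refine key (insert c B) (conn_insert hB lB) ?_ ?_ ?_
      · rw [Finset.card_insert_of_notMem h2, cB]
      · rw [Finset.mem_insert]
        rintro (h4 | h4)
        · exact hne h4.symm
        · exact (hs c' h3 c' h4).1 rfl
      · intro p hp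
        rw [Finset.mem_insert] at hp ⊢
        rw [Finset.mem_union]
        tauto
    · refine key (insert c A) (conn_insert hA lA) ?_ ?_ ?_
      · rw [Finset.card_insert_of_notMem h1, cA]
      · rw [Finset.mem_insert]
        rintro (h4 | h4)
        · exact hne h4.symm
        · exact (hs c' h4 c' h3).1 rfl
      · intro p hp
        rw [Finset.mem_insert] at hp ⊢
        rw [Finset.mem_union]
        tauto
  refine ⟨hcc, ?_⟩
  subst hcc
  have hU : ∀ p, (p ∈ A ∨ p ∈ B) ↔ (p ∈ A' ∨ p ∈ B') := by
    intro p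
    have h3 : p ∈ insert c (A ∪ B) ↔ p ∈ insert c (A' ∪ B') := by rw [heq]
    rw [Finset.mem_insert, Finset.mem_union, Finset.mem_insert, Finset.mem_union] at h3
    by_cases hp : p = c
    · subst hp
      constructor
      · rintro (h4 | h4)
        · exact absurd h4 h1
        · exact absurd h4 h2
      · rintro (h4 | h4)
        · exact absurd h4 h1'
        · exact absurd h4 h2'
    · tauto
  have other : ∀ X Y X' Y' : Finset Cell, (∀ p ∈ X, p ∉ Y) → (∀ p ∈ X', p ∉ Y') →
      (∀ p, (p ∈ X ∨ p ∈ Y) ↔ (p ∈ X' ∨ p ∈ Y')) → X = X' → Y' = Y := by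
    intro X Y X' Y' hd hd' hu he
    subst he
    ext p
    have := hu p
    have a1 := hd p
    have a2 := hd' p
    tauto
  rcases hA'.subset_or (fun p hp => (hU p).mpr (Or.inl hp))
    (fun a ha b hb => (hs a ha b hb).2) with h3 | h3
  · left
    have h4 : A' = A := Finset.eq_of_subset_of_card_le h3 (by omega)
    refine ⟨h4, ?_⟩
    exact other A B A' B' (fun p hp hq => (hs p hp p hq).1 rfl)
      (fun p hp hq => (hs' p hp p hq).1 rfl) hU h4.symm
  · right
    have h4 : A' = B := Finset.eq_of_subset_of_card_le h3 (by omega)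
    refine ⟨h4, ?_⟩
    exact other B A A' B' (fun p hp hq => (hs p hq p hp).1 rfl)
      (fun p hp hq => (hs' p hp p hq).1 rfl) (fun p => by rw [or_comm]; exact hU p) h4.symm

/-- Positivity of a vector in the order used for base points. -/
def LexPos (v : Cell) : Prop := 0 < v.2 ∨ (v.2 = 0 ∧ 0 < v.1)

lemma slide' (dir : Bool) (A B : Finset Cell) (d : ℤ) (hd : d ∈ A.image (crd dir))
    (hB : (0 : Cell) ∈ B) :
    ∃ e : ℤ, ∃ c : Cell, Sep A (trans (vec dir e + vec (!dir) d) B) ∧ c ∉ A ∧
      c ∉ trans (vec dir e + vec (!dir) d) B ∧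
      Linked c A ∧ Linked c (trans (vec dir e + vec (!dir) d) B) := by
  classical
  rw [Finset.mem_image] at hd
  obtain ⟨a, ha, had⟩ := hd
  have h := slide dir A (trans (vec (!dir) d) B) ⟨a, ha, vec (!dir) d, by
    rw [mem_trans]; simpa using hB, by
    rw [had]
    cases dir
    · simp [crd, vec]
    · simp [crd, vec]⟩
  obtain ⟨e, c, h1, h2, h3, h4, h5⟩ := h
  rw [trans_trans] at h1 h3 h5
  exact ⟨e, c, h1, h2, h3, h4, h5⟩

/-- Counting joined polyominoes. -/
theorem join_count (n : ℕ) (dir : Bool) :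
    ∑ A ∈ Nf n, ∑ _B ∈ Nf n, (A.image (crd dir)).card ≤ 2 * (Nf (2 * n + 1)).card := by
  classical
  have hex : ∀ (A B : Finset Cell) (d : ℤ), A ∈ Nf n → B ∈ Nf n → d ∈ A.image (crd dir) →
      ∃ ec : ℤ × Cell, Sep A (trans (vec dir ec.1 + vec (!dir) d) B) ∧ ec.2 ∉ A ∧
      ec.2 ∉ trans (vec dir ec.1 + vec (!dir) d) B ∧
      Linked ec.2 A ∧ Linked ec.2 (trans (vec dir ec.1 + vec (!dir) d) B) := by
    intro A B d _ hB hd
    obtain ⟨e, c, h⟩ := slide' dir A B d hd (mem_Nf.mp hB).2.2.1
    exact ⟨(e, c), h⟩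
  choose! f hf using hex
  let I : Finset (Σ _ : Finset Cell × Finset Cell, ℤ) :=
    (Nf n ×ˢ Nf n).sigma (fun AB => AB.1.image (crd dir))
  have hI : I.card = ∑ A ∈ Nf n, ∑ _B ∈ Nf n, (A.image (crd dir)).card := by
    rw [Finset.card_sigma, Finset.sum_product]
  rw [← hI]
  let V : (Σ _ : Finset Cell × Finset Cell, ℤ) → Cell := fun x =>
    vec dir (f x.1.1 x.1.2 x.2).1 + vec (!dir) x.2
  let F : (Σ _ : Finset Cell × Finset Cell, ℤ) → Finset Cell × Bool := fun x =>
    (nrm (insert (f x.1.1 x.1.2 x.2).2 (x.1.1 ∪ trans (V x) x.1.2)), decide (LexPos (V x)))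
  have hcard : (Nf (2 * n + 1) ×ˢ (Finset.univ : Finset Bool)).card =
      2 * (Nf (2 * n + 1)).card := by
    rw [Finset.card_product]; simp [mul_comm]
  rw [← hcard]
  have hmem : ∀ x ∈ I, x.1.1 ∈ Nf n ∧ x.1.2 ∈ Nf n ∧ x.2 ∈ x.1.1.image (crd dir) := by
    intro x hx
    rw [Finset.mem_sigma, Finset.mem_product] at hx
    exact ⟨hx.1.1, hx.1.2, hx.2⟩
  apply Finset.card_le_card_of_injOn F
  · intro x hx
    obtain ⟨hA, hB, hd⟩ := hmem x hx
    obtain ⟨h1, h2, h3, h4, h5⟩ := hf _ _ _ hA hB hd
    rw [Finset.coe_product]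
    refine ⟨?_, by simp⟩
    apply nrm_mem
    · rw [join_card h1 h2 h3, card_trans, (mem_Nf.mp hA).1, (mem_Nf.mp hB).1]; ring
    · exact join_conn (mem_Nf.mp hA).2.1 ((mem_Nf.mp hB).2.1.trans _) h4 h5
  · intro x hx y hy hxy
    obtain ⟨hA, hB, hd⟩ := hmem x hx
    obtain ⟨hA', hB', hd'⟩ := hmem y hy
    obtain ⟨h1, h2, h3, h4, h5⟩ := hf _ _ _ hA hB hd
    obtain ⟨h1', h2', h3', h4', h5'⟩ := hf _ _ _ hA' hB' hd'
    obtain ⟨hxy1, hxy2⟩ := Prod.ext_iff.mp hxy
    simp only [F, nrm] at hxy1 hxy2
    change Sep x.1.1 (trans (V x) x.1.2) at h1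
    change _ ∉ trans (V x) x.1.2 at h3
    change Linked _ (trans (V x) x.1.2) at h5
    change Sep y.1.1 (trans (V y) y.1.2) at h1'
    change _ ∉ trans (V y) y.1.2 at h3'
    change Linked _ (trans (V y) y.1.2) at h5'
    generalize base (insert (f x.1.1 x.1.2 x.2).2 (x.1.1 ∪ trans (V x) x.1.2)) = b at hxy1
    generalize base (insert (f y.1.1 y.1.2 y.2).2 (y.1.1 ∪ trans (V y) y.1.2)) = b' at hxy1
    have hA0 := (mem_Nf.mp hA).2.2
    have hB0 := (mem_Nf.mp hB).2.2
    have hA0' := (mem_Nf.mp hA').2.2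
    have hB0' := (mem_Nf.mp hB').2.2
    -- translate the first decomposition
    have htr : insert ((f x.1.1 x.1.2 x.2).2 + (b' - b))
        (trans (b' - b) x.1.1 ∪ trans (b' - b) (trans (V x) x.1.2)) =
        insert (f y.1.1 y.1.2 y.2).2 (y.1.1 ∪ trans (V y) y.1.2) := by
      have h6 := congrArg (trans b') hxy1
      rw [trans_trans, trans_trans, add_neg_cancel, trans_zero] at h6
      rw [← h6]
      ext p
      simp only [mem_trans, Finset.mem_insert, Finset.mem_union]
      have h7 : p - (b' - b) = p - (b' + -b) := by ring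
      rw [h7]
      have h8 : (p = (f x.1.1 x.1.2 x.2).2 + (b' - b)) ↔
          (p - (b' + -b) = (f x.1.1 x.1.2 x.2).2) := by
        constructor
        · rintro h9; rw [h9]; ring
        · intro h9; rw [← h9]; ring
      rw [h8]
    obtain ⟨-, hcase⟩ := center_unique (n := n) ((mem_Nf.mp hA).2.1.trans (b' - b))
      (((mem_Nf.mp hB).2.1.trans (V x)).trans (b' - b)) (mem_Nf.mp hA').2.1
      ((mem_Nf.mp hB').2.1.trans (V y))
      (by rw [card_trans, (mem_Nf.mp hA).1]) (by rw [card_trans, card_trans, (mem_Nf.mp hB).1])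
      (mem_Nf.mp hA').1 (by rw [card_trans, (mem_Nf.mp hB').1])
      (h1.trans _) h1' (by rw [mem_trans]; simpa using h2) (by rw [mem_trans]; simpa using h3)
      h2' h3' (h4.trans _) (h5.trans _) htr
    rcases hcase with ⟨e1, e2⟩ | ⟨e1, e2⟩
    · have u1 := hA0.trans (b' - b)
      rw [← e1] at u1
      have u2 := hA0'.unique u1
      rw [zero_add] at u2
      rw [← u2, trans_zero] at e1 e2
      have u3 := hB0.trans (V x)
      rw [← e2] at u3
      have u4 := (hB0'.trans (V y)).unique u3
      rw [zero_add, zero_add] at u4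
      rw [u4] at e2
      have e3 := trans_inj e2
      have e4 : x.2 = y.2 := by
        simp only [V] at u4
        cases dir
        · simp only [vec, Bool.false_eq_true, if_false, Bool.not_false, if_true,
            Prod.ext_iff, Prod.fst_add, Prod.snd_add] at u4
          omega
        · simp only [vec, Bool.false_eq_true, if_false, Bool.not_true, if_true,
            Prod.ext_iff, Prod.fst_add, Prod.snd_add] at u4
          omega
      obtain ⟨⟨x1, x2⟩, x3⟩ := x
      obtain ⟨⟨y1, y2⟩, y3⟩ := y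
      simp only at e1 e3 e4
      subst e1 e3 e4
      rfl
    · -- the two halves would be exchanged: impossible by the sign of the offset
      exfalso
      have u1 := (hB0.trans (V x)).trans (b' - b)
      rw [← e1] at u1
      have u2 := hA0'.unique u1
      have u3 := hA0.trans (b' - b)
      rw [← e2] at u3
      have u4 := (hB0'.trans (V y)).unique u3
      rw [zero_add, zero_add] at u4
      rw [zero_add] at u2
      have hneg : V x = - V y := by
        rw [u4, eq_neg_iff_add_eq_zero, ← u2]
      have hx0 : V x ≠ 0 := by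
        intro h6
        have h7 : (0 : Cell) ∈ trans (V x) x.1.2 := by
          rw [mem_trans, h6]; simpa using hB0.1
        exact (h1 0 hA0.1 0 h7).1 rfl
      have hiff : LexPos (V x) ↔ LexPos (V y) := by
        have := hxy2
        simpa using this
      unfold LexPos at hiff
      have c1 : (V x).1 = - (V y).1 := by rw [hneg]; rfl
      have c2 : (V x).2 = - (V y).2 := by rw [hneg]; rfl
      have c3 : ¬ ((V x).1 = 0 ∧ (V x).2 = 0) := by
        rintro ⟨h6, h7⟩
        exact hx0 (Prod.ext h6 h7)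
      omega

lemma sum_proj_sq {A : Finset Cell} {n : ℕ} (h : A.card = n) :
    4 * n ≤ ((A.image (crd true)).card + (A.image (crd false)).card) ^ 2 := by
  classical
  have h1 : A.card ≤ (A.image (crd true)).card * (A.image (crd false)).card := by
    rw [← Finset.card_product]
    apply Finset.card_le_card_of_injOn (fun p => (crd true p, crd false p))
    · intro p hp
      rw [Finset.coe_product]
      exact ⟨Finset.mem_coe.mpr (Finset.mem_image_of_mem _ hp),
        Finset.mem_coe.mpr (Finset.mem_image_of_mem _ hp)⟩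
    · intro p _ q _ hpq
      simp only [crd, if_true, Bool.false_eq_true, if_false, Prod.ext_iff] at hpq
      exact Prod.ext hpq.2 hpq.1
  rw [← h]
  generalize (A.image (crd true)).card = x at *
  generalize (A.image (crd false)).card = y at *
  have h2 : (4 * A.card : ℤ) ≤ ((x : ℤ) + y) ^ 2 := by
    have h3 : (A.card : ℤ) ≤ (x : ℤ) * y := by exact_mod_cast h1
    nlinarith [sq_nonneg ((x : ℤ) - y)]
  exact_mod_cast h2

/-- The key inequality: `√n · t(n)² ≤ 2 t(2n+1)`. -/
theorem sqrt_mul_sq_le (n : ℕ) : Real.sqrt n * (t n : ℝ) ^ 2 ≤ 2 * (t (2 * n + 1) : ℝ) := by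
  classical
  have h1 := join_count n true
  have h2 := join_count n false
  rw [← t_eq] at h1 h2
  have h3 : (∑ A ∈ Nf n, ∑ _B ∈ Nf n,
      (((A.image (crd true)).card : ℝ) + (A.image (crd false)).card)) ≤
      4 * (t (2 * n + 1) : ℝ) := by
    have h4 : (∑ A ∈ Nf n, ∑ _B ∈ Nf n, (A.image (crd true)).card) +
      (∑ A ∈ Nf n, ∑ _B ∈ Nf n, (A.image (crd false)).card) ≤ 4 * t (2 * n + 1) := by omega
    have h5 : (((∑ A ∈ Nf n, ∑ _B ∈ Nf n, (A.image (crd true)).card) +
      (∑ A ∈ Nf n, ∑ _B ∈ Nf n, (A.image (crd false)).card) : ℕ) : ℝ) ≤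
      ((4 * t (2 * n + 1) : ℕ) : ℝ) := by exact_mod_cast h4
    push_cast at h5
    simp only [Finset.sum_add_distrib]
    exact h5
  have h6 : ∑ A ∈ Nf n, ∑ _B ∈ Nf n, (2 * Real.sqrt n) ≤
      (∑ A ∈ Nf n, ∑ _B ∈ Nf n,
      (((A.image (crd true)).card : ℝ) + (A.image (crd false)).card)) := by
    apply Finset.sum_le_sum
    intro A hA
    apply Finset.sum_le_sum
    intro B _
    have h7 := sum_proj_sq (mem_Nf.mp hA).1
    have h8 : (4 * (n : ℝ)) ≤
        (((A.image (crd true)).card : ℝ) + (A.image (crd false)).card) ^ 2 := by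
      exact_mod_cast h7
    have h9 : 2 * Real.sqrt n = Real.sqrt (4 * n) := by
      rw [Real.sqrt_mul (by norm_num)]
      congr 1
      rw [show (4 : ℝ) = 2 ^ 2 by norm_num, Real.sqrt_sq (by norm_num)]
    rw [h9]
    apply Real.sqrt_le_iff.mpr
    exact ⟨by positivity, h8⟩
  rw [Finset.sum_const, Finset.sum_const, ← t_eq] at h6
  simp only [nsmul_eq_mul] at h6
  nlinarith [h3, h6]

end Pool.Agent.Helper71.Polyomino
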