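import Mathlib

/-!
Growth of sequences which satisfy a linear recurrence with constant coefficients
from some index on.
-/

namespace Pool.Agent.Helper71.LinRec

open Polynomial

/-- The shift operator on complex sequences. -/
def E : Module.End ℂ (ℕ → ℂ) where
  toFun u n := u (n + 1)
  map_add' _ _ := rfl
  map_smul' _ _ := rfl

lemma E_apply (u : ℕ → ℂ) (n : ℕ) : E u n = u (n + 1) := rfl

lemma E_pow_apply (i : ℕ) (u : ℕ → ℂ) (n : ℕ) : (E ^ i) u n = u (n + i) := by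
  induction i generalizing n with
  | zero => rfl
  | succ i ih =>
    rw [pow_succ', Module.End.mul_apply, E_apply, ih]
    congr 1; ring

lemma aeval_apply (q : ℂ[X]) (u : ℕ → ℂ) (n : ℕ) :
    (aeval E q) u n = ∑ i ∈ Finset.range (q.natDegree + 1), q.coeff i * u (n + i) := by
  rw [aeval_eq_sum_range, LinearMap.sum_apply, Finset.sum_apply]
  apply Finset.sum_congr rfl
  intro i _
  rw [LinearMap.smul_apply, Pi.smul_apply, E_pow_apply, smul_eq_mul]

/-- The sequence vanishes from some index on. -/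
def EvZero (u : ℕ → ℂ) : Prop := ∃ N, ∀ n ≥ N, u n = 0

/-- Exponential upper bound. -/
def Bdd (β : ℝ) (u : ℕ → ℂ) : Prop := ∃ C : ℝ, ∀ n, ‖u n‖ ≤ C * β ^ n

lemma EvZero.bdd {u : ℕ → ℂ} (h : EvZero u) {β : ℝ} (hβ : 0 < β) : Bdd β u := by
  obtain ⟨N, hN⟩ := h
  refine ⟨∑ i ∈ Finset.range N, ‖u i‖ / β ^ i, ?_⟩
  intro n
  have hnn : 0 ≤ ∑ i ∈ Finset.range N, ‖u i‖ / β ^ i :=
    Finset.sum_nonneg (fun i _ => by positivity)
  by_cases hn : n < N
  · have h1 : ‖u n‖ / β ^ n ≤ ∑ i ∈ Finset.range N, ‖u i‖ / β ^ i :=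
      Finset.single_le_sum (f := fun i => ‖u i‖ / β ^ i) (fun i _ => by positivity)
        (Finset.mem_range.mpr hn)
    rwa [div_le_iff₀ (by positivity)] at h1
  · rw [hN n (by omega), norm_zero]
    positivity

lemma bdd_of_root {u : ℕ → ℂ} {α : ℂ} {β : ℝ} (hβ : 0 < β) (hα : ‖α‖ < β)
    (h : Bdd β (fun n => u (n + 1) - α * u n)) : Bdd β u := by
  obtain ⟨C, hC⟩ := h
  have hpos : 0 < β - ‖α‖ := by linarith
  refine ⟨max ‖u 0‖ (C / (β - ‖α‖)), ?_⟩
  intro n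
  induction n with
  | zero => simp
  | succ n ih =>
    have h1 : ‖u (n + 1)‖ ≤ ‖α‖ * ‖u n‖ + C * β ^ n := by
      have h2 := hC n
      have h3 : u (n + 1) = α * u n + (u (n + 1) - α * u n) := by ring
      calc ‖u (n + 1)‖ = ‖α * u n + (u (n + 1) - α * u n)‖ := by rw [← h3]
        _ ≤ ‖α * u n‖ + ‖u (n + 1) - α * u n‖ := norm_add_le _ _
        _ ≤ ‖α‖ * ‖u n‖ + C * β ^ n := by rw [norm_mul]; linarith
    set K := max ‖u 0‖ (C / (β - ‖α‖)) with hK
    have hKC : C ≤ K * (β - ‖α‖) := by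
      rw [← div_le_iff₀ hpos]; exact le_max_right _ _
    have hb : 0 < β ^ n := by positivity
    calc ‖u (n + 1)‖ ≤ ‖α‖ * ‖u n‖ + C * β ^ n := h1
      _ ≤ ‖α‖ * (K * β ^ n) + K * (β - ‖α‖) * β ^ n := by
          have := mul_le_mul_of_nonneg_left ih (norm_nonneg α)
          have := mul_le_mul_of_nonneg_right hKC hb.le
          linarith
      _ = K * β ^ (n + 1) := by ring

lemma bdd_of_aeval {β : ℝ} (hβ : 0 < β) : ∀ (d : ℕ) (q : ℂ[X]), q.natDegree = d → q ≠ 0 →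
    (∀ α, q.IsRoot α → ‖α‖ < β) → ∀ u : ℕ → ℂ, Bdd β ((aeval E q) u) → Bdd β u := by
  intro d
  induction d with
  | zero =>
    intro q hd hq _ u hu
    rw [natDegree_eq_zero] at hd
    obtain ⟨a, rfl⟩ := hd
    have ha : a ≠ 0 := by rintro rfl; simp at hq
    obtain ⟨C, hC⟩ := hu
    refine ⟨C / ‖a‖, ?_⟩
    intro n
    have h1 := hC n
    rw [aeval_C] at h1
    have h2 : ((algebraMap ℂ (Module.End ℂ (ℕ → ℂ))) a) u n = a * u n := rfl
    rw [h2, norm_mul] at h1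
    have h3 : 0 < ‖a‖ := norm_pos_iff.mpr ha
    rw [div_mul_eq_mul_div, le_div_iff₀ h3]
    linarith
  | succ d ih =>
    intro q hd hq hroots u hu
    have hdeg : q.degree ≠ 0 := by
      intro h0
      have := natDegree_eq_zero_iff_degree_le_zero.mpr h0.le
      omega
    obtain ⟨α, hα⟩ := IsAlgClosed.exists_root q hdeg
    obtain ⟨q1, rfl⟩ := dvd_iff_isRoot.mpr hα
    have hq1 : q1 ≠ 0 := right_ne_zero_of_mul hq
    have hX : (X - C α : ℂ[X]) ≠ 0 := X_sub_C_ne_zero α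
    have hd1 : q1.natDegree = d := by
      rw [natDegree_mul hX hq1, natDegree_X_sub_C] at hd
      omega
    apply bdd_of_root hβ (hroots α hα)
    apply ih q1 hd1 hq1
    · intro γ hγ
      apply hroots
      rw [IsRoot, eval_mul]
      rw [hγ, mul_zero]
    · have h1 : (fun n => u (n + 1) - α * u n) = (aeval E (X - C α)) u := by
        funext n
        rw [map_sub, aeval_X, aeval_C]
        rfl
      rw [h1, ← Module.End.mul_apply, ← map_mul, mul_comm q1]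
      exact hu

/-- Growth of a sequence with an eventual linear recurrence. -/
theorem growth (u : ℕ → ℂ) (hq : ∃ q : ℂ[X], q ≠ 0 ∧ EvZero ((aeval E q) u))
    (hu : ¬ EvZero u) :
    ∃ β : ℝ, 0 < β ∧ (∀ β' > β, Bdd β' u) ∧
      (∃ c > 0, ∃ r N : ℕ, ∀ n ≥ N, ∃ i ≤ r, c * β ^ n ≤ ‖u (n + i)‖) := by
  classical
  have hex : ∃ d : ℕ, ∃ q : ℂ[X], q.natDegree = d ∧ q ≠ 0 ∧ EvZero ((aeval E q) u) := by
    obtain ⟨q, h1, h2⟩ := hq
    exact ⟨_, q, rfl, h1, h2⟩
  obtain ⟨q, hqd, hq0, hqz⟩ := Nat.find_spec hex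
  have hmin : ∀ p : ℂ[X], p ≠ 0 → EvZero ((aeval E p) u) → q.natDegree ≤ p.natDegree := by
    intro p hp hpz
    rw [hqd]
    exact Nat.find_min' hex ⟨p, rfl, hp, hpz⟩
  have hdeg : q.degree ≠ 0 := by
    intro h0
    rw [eq_C_of_degree_eq_zero h0] at hqz hq0
    apply hu
    obtain ⟨N, hN⟩ := hqz
    refine ⟨N, fun n hn => ?_⟩
    have h1 := hN n hn
    rw [aeval_C] at h1
    have h2 : ((algebraMap ℂ (Module.End ℂ (ℕ → ℂ))) (q.coeff 0)) u n = q.coeff 0 * u n := rfl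
    rw [h2] at h1
    rcases mul_eq_zero.mp h1 with h3 | h3
    · rw [h3] at hq0; simp at hq0
    · exact h3
  obtain ⟨α0, hα0⟩ := IsAlgClosed.exists_root q hdeg
  obtain ⟨α, hα, hαmax⟩ := q.roots.toFinset.exists_max_image (fun z => ‖z‖)
    ⟨α0, by rw [Multiset.mem_toFinset, mem_roots hq0]; exact hα0⟩
  rw [Multiset.mem_toFinset, mem_roots hq0] at hα
  have hbound : ∀ γ, q.IsRoot γ → ‖γ‖ ≤ ‖α‖ := by
    intro γ hγ
    exact hαmax γ (by rw [Multiset.mem_toFinset, mem_roots hq0]; exact hγ)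
  obtain ⟨q1, hq1⟩ := dvd_iff_isRoot.mpr hα
  have hq10 : q1 ≠ 0 := by rintro rfl; rw [mul_zero] at hq1; exact hq0 hq1
  have hX : (X - C α : ℂ[X]) ≠ 0 := X_sub_C_ne_zero α
  have hd1 : q1.natDegree < q.natDegree := by
    rw [hq1, natDegree_mul hX hq10, natDegree_X_sub_C]; omega
  set w := (aeval E q1) u with hw
  have hwz : ¬ EvZero w := by
    intro h
    have := hmin q1 hq10 h
    omega
  have hrec : ∃ N, ∀ n ≥ N, w (n + 1) = α * w n := by
    rw [hq1, map_mul, Module.End.mul_apply] at hqz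
    obtain ⟨N, hN⟩ := hqz
    refine ⟨N, fun n hn => ?_⟩
    have h1 := hN n hn
    rw [map_sub, aeval_X, aeval_C] at h1
    have h2 : (E - (algebraMap ℂ (Module.End ℂ (ℕ → ℂ))) α) ((aeval E q1) u) n =
      w (n + 1) - α * w n := rfl
    rw [h2] at h1
    exact sub_eq_zero.mp h1
  obtain ⟨N, hN⟩ := hrec
  have hpow : ∀ k, w (N + k) = α ^ k * w N := by
    intro k
    induction k with
    | zero => simp
    | succ k ih => rw [← add_assoc, hN _ (by omega), ih]; ring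
  have hwN : w N ≠ 0 := by
    intro h0
    apply hwz
    refine ⟨N, fun n hn => ?_⟩
    obtain ⟨k, rfl⟩ := Nat.exists_eq_add_of_le hn
    rw [hpow, h0, mul_zero]
  have hα0' : α ≠ 0 := by
    rintro rfl
    apply hwz
    refine ⟨N + 1, fun n hn => ?_⟩
    obtain ⟨k, rfl⟩ := Nat.exists_eq_add_of_le hn
    rw [add_assoc, hpow, add_comm 1 k, pow_succ]; simp
  have hβ : 0 < ‖α‖ := norm_pos_iff.mpr hα0'
  refine ⟨‖α‖, hβ, ?_, ?_⟩
  · intro β' hβ'
    have hβ'0 : 0 < β' := lt_trans hβ hβ'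
    exact bdd_of_aeval hβ'0 _ q rfl hq0 (fun γ hγ => lt_of_le_of_lt (hbound γ hγ) hβ') u
      (hqz.bdd hβ'0)
  · set K : ℝ := ∑ i ∈ Finset.range (q1.natDegree + 1), ‖q1.coeff i‖ with hK
    have hK0 : 0 ≤ K := Finset.sum_nonneg (fun i _ => norm_nonneg _)
    have hwpos : 0 < ‖w N‖ := norm_pos_iff.mpr hwN
    refine ⟨‖w N‖ / ‖α‖ ^ N / (K + 1), by positivity, q1.natDegree, N, ?_⟩
    intro n hn
    by_contra hcon
    push Not at hcon
    obtain ⟨k, rfl⟩ := Nat.exists_eq_add_of_le hn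
    have h1 : ‖w (N + k)‖ = ‖α‖ ^ k * ‖w N‖ := by rw [hpow, norm_mul, norm_pow]
    have h2 : ‖w (N + k)‖ ≤ ∑ i ∈ Finset.range (q1.natDegree + 1),
        ‖q1.coeff i‖ * (‖w N‖ / ‖α‖ ^ N / (K + 1) * ‖α‖ ^ (N + k)) := by
      rw [hw, aeval_apply]
      refine (norm_sum_le _ _).trans ?_
      apply Finset.sum_le_sum
      intro i hi
      rw [norm_mul]
      apply mul_le_mul_of_nonneg_left _ (norm_nonneg _)
      exact (hcon i (by rw [Finset.mem_range] at hi; omega)).le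
    rw [← Finset.sum_mul, ← hK] at h2
    have h3 : ‖w N‖ / ‖α‖ ^ N / (K + 1) * ‖α‖ ^ (N + k) = ‖w N‖ * ‖α‖ ^ k / (K + 1) := by
      field_simp
      ring
    rw [h3, h1, ← mul_div_assoc, le_div_iff₀ (by positivity)] at h2
    have h4 : 0 < ‖α‖ ^ k * ‖w N‖ := by positivity
    nlinarith

end Pool.Agent.Helper71.LinRec
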