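import Mathlib

/-!
Combinatorial core of the unroutability of a mask of the 5-stage ternary
shuffle-exchange network on 27 words.
-/

namespace Pool.Agent.Helper71.SECore

/-! ### A small backtracking refuter for 3-colourings -/

/-- Try to extend the partial colouring `as` to the vertices `vs`. -/
def ext (adj : ℕ → ℕ → Bool) : List ℕ → List (ℕ × ℕ) → Bool
  | [], _ => true
  | v :: vs, as => (List.range 3).any (fun x =>
      as.all (fun p => !(p.2 == x && adj p.1 v)) && ext adj vs ((v, x) :: as))

lemma ext_sound (adj : ℕ → ℕ → Bool) (col : ℕ → ℕ) (h3 : ∀ v, col v < 3)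
    (hadj : ∀ u v, adj u v = true → col u ≠ col v) :
    ∀ (vs : List ℕ) (as : List (ℕ × ℕ)), (∀ p ∈ as, p.2 = col p.1) → ext adj vs as = true := by
  intro vs
  induction vs with
  | nil => intro as _; rfl
  | cons v vs ih =>
    intro as has
    unfold ext
    rw [List.any_eq_true]
    refine ⟨col v, List.mem_range.mpr (h3 v), ?_⟩
    rw [Bool.and_eq_true]
    constructor
    · rw [List.all_eq_true]
      intro p hp
      rw [Bool.not_eq_true', Bool.and_eq_false_iff]
      by_cases h1 : p.2 = col v
      · right
        by_contra h2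
        rw [Bool.not_eq_false] at h2
        have h3 := hadj p.1 v h2
        rw [has p hp] at h1
        exact h3 h1
      · left
        exact beq_false_of_ne h1
    · apply ih
      intro p hp
      rw [List.mem_cons] at hp
      rcases hp with rfl | hp
      · rfl
      · exact has p hp

/-- The target reached from source `s` by the demand with first letter `c`; the parameters
say for which `c` the four exceptional demands are used. -/
def T (a b e f s c : ℕ) : ℕ :=
  bif s == 0 then (bif c == a then 4 else 0)
  else bif s == 4 then (bif c == b then 0 else 4)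
  else bif s == 2 then (bif c == e then 6 else 2)
  else bif s == 6 then (bif c == f then 2 else 6)
  else s

/-- The conflict graph on the 27 pairs (source, first letter). -/
def conf (a b e f u v : ℕ) : Bool :=
  !(u == v) && ((u / 3 % 3 == v / 3 % 3 && u % 3 == v % 3) ||
    (u % 3 == v % 3 && T a b e f (u / 3) (u % 3) / 3 == T a b e f (v / 3) (v % 3) / 3) ||
    T a b e f (u / 3) (u % 3) == T a b e f (v / 3) (v % 3))

/-- The order in which the pairs are treated. -/
def ord : List ℕ := [7, 25, 16, 26, 24, 15, 17, 8, 6, 19, 22, 18, 21, 23, 20, 10, 1, 9, 0,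
  11, 2, 4, 12, 14, 13, 3, 5]

lemma refute : ∀ a < 3, ∀ b < 3, ∀ e < 3, ∀ f < 3, ext (conf a b e f) ord [] = false := by
  decide +kernel

/-- The target of the `i`-th demand of the source `s`. -/
def tgt (s i : ℕ) : ℕ :=
  if i = 0 then (if s = 0 then 4 else if s = 4 then 0 else if s = 2 then 6
    else if s = 6 then 2 else s) else s

/-- The core: the 27 demands `(s, i)`, from source `s` to target `tgt s i`, cannot be given
pairs of middle letters `(z1, z2)` with all windows distinct. -/
theorem core (z1 z2 : ℕ → ℕ → ℕ) (hz1 : ∀ s i, z1 s i < 3) (hz2 : ∀ s i, z2 s i < 3)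
    (h1 : ∀ s < 9, ∀ i < 3, ∀ j < 3, z1 s i = z1 s j → i = j)
    (h2 : ∀ s < 9, ∀ i < 3, ∀ s' < 9, ∀ i' < 3, (s, i) ≠ (s', i') → s % 3 = s' % 3 →
      z1 s i = z1 s' i' → z2 s i ≠ z2 s' i')
    (h3 : ∀ s < 9, ∀ i < 3, ∀ s' < 9, ∀ i' < 3, (s, i) ≠ (s', i') →
      tgt s i / 3 = tgt s' i' / 3 → z1 s i = z1 s' i' → z2 s i ≠ z2 s' i')
    (h4 : ∀ s < 9, ∀ i < 3, ∀ s' < 9, ∀ i' < 3, (s, i) ≠ (s', i') →
      tgt s i = tgt s' i' → z2 s i ≠ z2 s' i') : False := by
  -- for each source and each letter there is exactly one demand with that first letter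
  have hex : ∀ s < 9, ∀ c < 3, ∃ i < 3, z1 s i = c := by
    intro s hs c hc
    have a0 := hz1 s 0
    have a1 := hz1 s 1
    have a2 := hz1 s 2
    have n01 : z1 s 0 ≠ z1 s 1 := fun h => by
      have := h1 s hs 0 (by norm_num) 1 (by norm_num) h; omega
    have n02 : z1 s 0 ≠ z1 s 2 := fun h => by
      have := h1 s hs 0 (by norm_num) 2 (by norm_num) h; omega
    have n12 : z1 s 1 ≠ z1 s 2 := fun h => by
      have := h1 s hs 1 (by norm_num) 2 (by norm_num) h; omega
    by_cases h0 : z1 s 0 = c
    · exact ⟨0, by norm_num, h0⟩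
    by_cases h1' : z1 s 1 = c
    · exact ⟨1, by norm_num, h1'⟩
    exact ⟨2, by norm_num, by omega⟩
  choose! g hg1 hg2 using hex
  have hT : ∀ s < 9, ∀ c < 3,
      T (z1 0 0) (z1 4 0) (z1 2 0) (z1 6 0) s c = tgt s (g s c) := by
    intro s hs c hc
    have e1 := hg1 s hs c hc
    have e2 := hg2 s hs c hc
    have key : c = z1 s 0 ↔ g s c = 0 := by
      constructor
      · intro h
        exact h1 s hs _ e1 0 (by norm_num) (e2.trans h)
      · intro h
        rw [← e2, h]
    unfold T tgt
    by_cases hs0 : s = 0
    · subst hs0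
      by_cases hc0 : c = z1 0 0
      · have := key.mp hc0
        simp [this, ← hc0]
      · have : ¬ g 0 c = 0 := fun h => hc0 (key.mpr h)
        have hb : (c == z1 0 0) = false := beq_false_of_ne hc0
        simp [this, hb]
    by_cases hs4 : s = 4
    · subst hs4
      by_cases hc0 : c = z1 4 0
      · have := key.mp hc0
        simp [this, ← hc0]
      · have : ¬ g 4 c = 0 := fun h => hc0 (key.mpr h)
        have hb : (c == z1 4 0) = false := beq_false_of_ne hc0
        simp [this, hb]
    by_cases hs2 : s = 2
    · subst hs2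
      by_cases hc0 : c = z1 2 0
      · have := key.mp hc0
        simp [this, ← hc0]
      · have : ¬ g 2 c = 0 := fun h => hc0 (key.mpr h)
        have hb : (c == z1 2 0) = false := beq_false_of_ne hc0
        simp [this, hb]
    by_cases hs6 : s = 6
    · subst hs6
      by_cases hc0 : c = z1 6 0
      · have := key.mp hc0
        simp [this, ← hc0]
      · have : ¬ g 6 c = 0 := fun h => hc0 (key.mpr h)
        have hb : (c == z1 6 0) = false := beq_false_of_ne hc0
        simp [this, hb]
    have b0 : (s == 0) = false := beq_false_of_ne hs0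
    have b4 : (s == 4) = false := beq_false_of_ne hs4
    have b2 : (s == 2) = false := beq_false_of_ne hs2
    have b6 : (s == 6) = false := beq_false_of_ne hs6
    simp [b0, b4, b2, b6, hs0, hs4, hs2, hs6]
  -- the colouring
  let col : ℕ → ℕ := fun v => if v < 27 then z2 (v / 3) (g (v / 3) (v % 3)) else 0
  have hcol : ∀ v, col v < 3 := by
    intro v
    simp only [col]
    split_ifs
    · exact hz2 _ _
    · norm_num
  let adj : ℕ → ℕ → Bool := fun u v =>
    conf (z1 0 0) (z1 4 0) (z1 2 0) (z1 6 0) u v && (decide (u < 27) && decide (v < 27))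
  have hadj : ∀ u v, adj u v = true → col u ≠ col v := by
    intro u v h
    simp only [adj, Bool.and_eq_true, decide_eq_true_eq] at h
    obtain ⟨h, hu, hv⟩ := h
    simp only [col, if_pos hu, if_pos hv]
    have hu1 : u / 3 < 9 := by omega
    have hv1 : v / 3 < 9 := by omega
    have hu2 : u % 3 < 3 := by omega
    have hv2 : v % 3 < 3 := by omega
    unfold conf at h
    rw [hT _ hu1 _ hu2, hT _ hv1 _ hv2] at h
    simp only [Bool.and_eq_true, Bool.not_eq_true', Bool.or_eq_true, beq_iff_eq] at h
    obtain ⟨hne, h⟩ := h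
    have hne' : u ≠ v := by
      rintro rfl
      simp at hne
    have hpair : (u / 3, g (u / 3) (u % 3)) ≠ (v / 3, g (v / 3) (v % 3)) := by
      intro h5
      rw [Prod.ext_iff] at h5
      simp only at h5
      obtain ⟨h6, h7⟩ := h5
      have e1 := hg2 _ hu1 _ hu2
      have e2 := hg2 _ hv1 _ hv2
      rw [h7, h6] at e1
      rw [e1] at e2
      omega
    rcases h with (⟨h5, h6⟩ | ⟨h5, h6⟩) | h5
    · exact h2 _ hu1 _ (hg1 _ hu1 _ hu2) _ hv1 _ (hg1 _ hv1 _ hv2) hpair h5
        (by rw [hg2 _ hu1 _ hu2, hg2 _ hv1 _ hv2, h6])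
    · exact h3 _ hu1 _ (hg1 _ hu1 _ hu2) _ hv1 _ (hg1 _ hv1 _ hv2) hpair h6
        (by rw [hg2 _ hu1 _ hu2, hg2 _ hv1 _ hv2, h5])
    · exact h4 _ hu1 _ (hg1 _ hu1 _ hu2) _ hv1 _ (hg1 _ hv1 _ hv2) hpair h5
  have hsound := ext_sound adj col hcol hadj ord [] (by simp)
  have hextc : ∀ (vs : List ℕ) (as : List (ℕ × ℕ)), (∀ v ∈ vs, v < 27) → (∀ p ∈ as, p.1 < 27) →
      ext adj vs as = ext (conf (z1 0 0) (z1 4 0) (z1 2 0) (z1 6 0)) vs as := by
    intro vs
    induction vs with
    | nil => intro as _ _; rfl
    | cons v vs ih =>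
      intro as hvs has
      unfold ext
      have hv := hvs v (by simp)
      congr 1
      funext x
      have hall : as.all (fun p => !(p.2 == x && adj p.1 v)) =
          as.all (fun p => !(p.2 == x && conf (z1 0 0) (z1 4 0) (z1 2 0) (z1 6 0) p.1 v)) := by
        rw [Bool.eq_iff_iff, List.all_eq_true, List.all_eq_true]
        constructor
        · intro h p hp
          have := h p hp
          have hp27 := has p hp
          simpa [adj, hv, hp27] using this
        · intro h p hp
          have := h p hp
          have hp27 := has p hp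
          simpa [adj, hv, hp27] using this
      rw [hall, ih ((v, x) :: as) (fun w hw => hvs w (by simp [hw])) (by
        intro p hp
        rw [List.mem_cons] at hp
        rcases hp with rfl | hp
        · exact hv
        · exact has p hp)]
  rw [hextc ord [] (by decide) (by simp)] at hsound
  rw [refute _ (hz1 _ _) _ (hz1 _ _) _ (hz1 _ _) _ (hz1 _ _)] at hsound
  exact Bool.false_ne_true hsound

end Pool.Agent.Helper71.SECore
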